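import Pool.Agent.H4NI.StmG

/-!
Project NCI: the statements about vector fields and solutions. Almost all of them are the cases
`a = ∞` of statements of project NC (`Pool/Agent/H4NC/StmB.lean`), proved by adapting the file
`Pool/Agent/H4NC/<name>.lean`: the hypothesis `∫ NR r G ^ (a/r) ≤ M ^ a` is replaced by
`∀ x, NR r G x ≤ M ^ r` (so `NR r G x ^ (1/r) ≤ M` pointwise, which makes Hoelder's inequality in the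
height simpler), and all exponents `1/a` are zero.
-/

set_option autoImplicit false

open MeasureTheory Set Function Filter Topology
open scoped ENNReal ContDiff

namespace Pool.Agent.H4NI

open H459R3.NS H4LA H4NC

/-- I1 (see B1, Pool/Agent/H4NC/B1.lean; now `hold4` with `lam` and `1 - lam` only). -/
def I1 : Prop := ∀ κ lam : ℝ, 0 < κ → 0 ≤ lam → lam ≤ 1 / 2 → ∃ C : ℝ, 0 ≤ C ∧
  ∀ τ z : ℝ, 0 < τ → τ ≤ 1 → ∀ H : V → ℝ, CP H → (∀ x, 0 ≤ H x) →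
  (∀ h : ℝ, |h| ≤ √τ →
    ∫ x in cube, |wy κ τ (x 2 - z)| * H (x + Pi.single 2 h) ^ lam
      ≤ C * (τ ^ (-(1 / 2) : ℝ) * (∫ x in cube, Wt κ τ z x * H x) ^ lam)) ∧
  ∫ x in cube, Wt κ τ z x * H x ^ lam ≤ C * (∫ x in cube, Wt κ τ z x * H x) ^ lam

/-- I5, the pressure term (see B5). Allowed hypotheses: I1, B3 (and the proved A1, A4, A5, B0). -/
def I5 : Prop := ∀ κ r : ℝ, 0 < κ → 2 < r → ∃ C : ℝ, 0 ≤ C ∧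
  ∀ τ z M D : ℝ, 0 < τ → τ ≤ 1 → 1 ≤ M → 0 ≤ D → ∀ G : V → ℝ, CP G → (∀ x, 0 ≤ G x) →
  (∀ x, NR r G x ≤ M ^ r) →
  ∀ (v : Fin 3 → V → ℝ) (p : V → ℝ), (∀ i, SP (v i)) → (∀ x, ∑ i, pd i (v i) x = 0) → SP p →
  (∀ x, -lap p x = ∑ i, pd i (conv v i) x) → ∫ x in cube, p x = 0 →
  (∀ x, Hz (vsq v) x ≤ D) →
  ∫ x in cube, |wy κ τ (x 2 - z)| * Hz (fun y => G y * |p y|) x
    ≤ C * (M * τ ^ (-(1 / 2) : ℝ) * esq v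
      + M * τ ^ (-(1 / r)) * (√D * √(∫ x in cube, Wt κ τ z x * Hz (ga v) x))
      + M * τ ^ (-(1 / 2 + 1 / r)) * D)

/-- I6, the flux terms (see B6). The second part is only `Hz (G vsq w) ≤ m Hz (vsq w) ≤ m D` and
`∫ |wy| ≤ C τ^{-1/2}` (I1 with `lam = 0`, `h = 0`). Allowed hypotheses: I1, B2v, B0. -/
def I6 : Prop := ∀ κ r : ℝ, 0 < κ → 2 < r → ∃ C : ℝ, 0 ≤ C ∧
  ∀ τ z M D : ℝ, 0 < τ → τ ≤ 1 → 1 ≤ M → 0 ≤ D → ∀ G : V → ℝ, CP G → (∀ x, 0 ≤ G x) →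
  ∀ w : Fin 3 → V → ℝ, (∀ i, SP (w i)) → (∀ x, Hz (vsq w) x ≤ D) →
  ((∀ x, NR r G x ≤ M ^ r) →
    ∫ x in cube, |wy κ τ (x 2 - z)| * Hz (fun y => G y * vsq w y) x
      ≤ C * (M * τ ^ (-(1 / 2) : ℝ) * (D ^ (1 - 1 / r)
        * (∫ x in cube, Wt κ τ z x * (Hz (vsq w) x + Hz (ga w) x)) ^ (1 / r)))) ∧
  (∀ m : ℝ, (∀ x, G x ≤ m) →
    ∫ x in cube, |wy κ τ (x 2 - z)| * Hz (fun y => G y * vsq w y) x
      ≤ C * (m * τ ^ (-(1 / 2) : ℝ) * D))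

/-- I8, the sources (see B8). Allowed hypotheses: I1, B2v, B0. -/
def I8 : Prop := ∀ κ r : ℝ, 0 < κ → 2 < r → ∃ C : ℝ, 0 ≤ C ∧
  ∀ τ z M D : ℝ, 0 < τ → τ ≤ 1 → 1 ≤ M → 0 ≤ D → ∀ G : V → ℝ, CP G → (∀ x, 0 ≤ G x) →
  (∀ x, NR r G x ≤ M ^ r) →
  ∀ v : Fin 3 → V → ℝ, (∀ i, SP (v i)) → (∀ x, Hz (vsq v) x ≤ D) →
  ∫ x in cube, Wt κ τ z x * Hz (fun y => G y * |rr v 2 y|) x
    ≤ C * (M * (D ^ (1 / 2 - 1 / r)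
        * ((∫ x in cube, Wt κ τ z x * (Hz (vsq v) x + Hz (ga v) x)) ^ (1 / r) * √(hsq v)))
      + M * (D ^ (1 / 2 - 1 / r) * (esq v + ysq v) ^ (1 / 2 + 1 / r)))

/-- IK, the inequality at a fixed time (see KS; adapt Pool/Agent/H4NC/KS.lean; the term with `mm` is
now estimated with the second part of I6, `G = |mm v|`). Allowed hypotheses: I12, I5, I6, I8, B9, B0
(and the proved A1, A2, A5). -/
def IK : Prop := ∀ ν r E : ℝ, 0 < ν → 2 < r → 0 ≤ E →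
  ∃ C : ℝ, 0 ≤ C ∧ ∀ κ : ℝ, κ = 4 * Real.pi ^ 2 * ν → ∀ τ z M D m : ℝ,
  0 < τ → τ ≤ 1 → 1 ≤ M → 1 ≤ D → 0 ≤ m →
  ∀ (v : Fin 3 → V → ℝ) (p : V → ℝ) (F : Fin 3 → V → ℝ), (∀ i, SP (v i)) →
  (∀ x, ∑ i, pd i (v i) x = 0) → SP p → (∀ x, -lap p x = ∑ i, pd i (conv v i) x) →
  (∀ i x, F i x = ν * lap (v i) x - conv v i x - pd i p x) → esq v ≤ E →
  (∀ x, NR r (Gb v) x ≤ M ^ r) → (∀ x, Hz (vsq v) x ≤ D) → (∀ x, |mm v x| ≤ m) →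
  -(∫ x in cube, wt κ τ (x 2 - z) * vsq (ww v) x)
      + 2 * ∫ x in cube, Wt κ τ z x * ∑ i, ww v i x * sb F i x
    ≤ C * (1 + ysq v) + C * (D * (1 + m * τ ^ (-(1 / 2) : ℝ) + M * τ ^ (-(1 / 2 + 1 / r))
      + M ^ (1 / (1 / 2 - 1 / r))))

/-- IV2, the bound for `∫ (v₂ ∂ⱼvᵢ)²` (see V2; adapt Pool/Agent/H4NC/V2.lean). Allowed
hypothesis: B2. -/
def IV2 : Prop := ∀ r : ℝ, 2 < r → ∃ C : ℝ, 0 ≤ C ∧ ∀ M : ℝ, 1 ≤ M →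
  ∀ v : Fin 3 → V → ℝ, (∀ i, SP (v i)) → (∀ x, NR r (fun x => |bb v x|) x ≤ M ^ r) →
  ∀ i j, ∫ x in cube, (v 2 x * pd j (v i) x) ^ 2
    ≤ 2 * (esq v + 2 * (√(esq v) * √(hsq v))) * (ysq v + 2 * (√(ysq v) * √(2 * psq v)))
      + C * (M ^ 2 * (ysq v ^ (1 - 2 / r) * (ysq v + psq v) ^ (2 / r)))

/-- IR4 (see R4; adapt Pool/Agent/H4NC/R4.lean; `Q` does not occur in the hypothesis). -/
def IR4 : Prop := ∀ (r E0 C ε ν : ℝ), 2 < r → 0 < ν → 0 < ε → 0 ≤ C →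
  ∃ K : ℝ, 0 ≤ K ∧ ∀ E η π y cu W N Q : ℝ, 0 ≤ E → E ≤ E0 → 0 ≤ η → 0 ≤ π → 0 ≤ y → 0 ≤ W → 1 ≤ N →
  0 ≤ Q → |cu| ≤ 26 * (√W * √π) →
  W ≤ 2 * (E + 2 * (√E * √η)) * (y + 2 * (√y * √(2 * π)))
    + C * (N ^ 2 * (y ^ (1 - 2 / r) * (y + π) ^ (2 / r))) →
  -(2 * ν * π) - 2 * cu ≤ -(ν * π)
    + K * ((1 + η) * y + N ^ (1 / (1 / 2 - 1 / r)) * y) + ε * Q

/-- IF3, the end of the proof when the slice energies are bounded near `T` (see F3; adapt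
Pool/Agent/H4NC/F3.lean, only the case with V2 remains). Allowed hypotheses: IV2, IR4. -/
def IF3 : Prop := ∀ (ν T : ℝ) (u : ℝ → V → V) (p : ℝ → V → ℝ), IsSol ν T u p → 0 < ν → 0 < T →
  ∀ r : ℝ, 2 < r → ∀ N : ℝ → ℝ, (∀ t ∈ Ioo 0 T, 1 ≤ N t) →
  IntegrableOn (fun t => N t ^ (1 / (1 / 2 - 1 / r))) (Ioo 0 T) →
  (∀ t ∈ Ioo 0 T, ∀ x, NR r (Gb (fun i y => u t y i)) x ≤ N t ^ r) →
  ∀ t0 D : ℝ, t0 ∈ Ioo 0 T → (∀ t ∈ Ico t0 T, ∀ x, Hz (vsq (fun i y => u t y i)) x ≤ D) →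
  ∃ M : ℝ, ∀ t ∈ Ico 0 T, ∀ x i, |u t x i| ≤ M

/-- N1, Gagliardo-Nirenberg on a slice, in any `L^k`. Let `G = |f|^{(k-2)/2}` frozen at the height
of `x` (`fz G x`: `fz_cp, fz_ind, fz_eq, int_fz` in Kx.lean, `Hz_congr`), `r' = 2k/(k-2)`,
`X = 1 + Hz |f|^k x`. By B2, `Hz |f|^k x = Hz (G² f²) x ≤ C X^{1-2/k} A^{2/k} (A+B)^{1-2/k}`, so
`X ≤ X^{1-2/k} (1 + C A^{2/k} (A+B)^{1-2/k})` and
`X^{2/k} ≤ (1+C) (1+A)^{2/k} (1+A+B)^{1-2/k}`. Allowed hypothesis: B2. -/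
def N1 : Prop := ∀ k : ℝ, 2 < k → ∃ C : ℝ, 1 ≤ C ∧ ∀ f : V → ℝ, SP f → ∀ (x : V) (A B : ℝ),
  0 ≤ A → 0 ≤ B → Hz (fun y => f y ^ 2) x ≤ A → Hz (fun y => pd 0 f y ^ 2) x ≤ B →
  Hz (fun y => pd 1 f y ^ 2) x ≤ B →
  Hz (fun y => |f y| ^ k) x ^ (1 / k) ≤ C * ((1 + A) ^ (1 / k) * (1 + A + B) ^ (1 / 2 - 1 / k))

/-- N2. `N1` for `f = Av 2 (v j)` (independent of the last coordinate, so `Hz` is the integral;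
`∫ (Av 2 g)² ≤ ∫ g²`, `pd i (Av 2 g) = Av 2 (pd i g)` for `i = 0, 1`; see `Hz_mm_sq_le`,
`Hz_pd_mm_le` for the same with `mm`). Allowed hypothesis: N1. -/
def N2 : Prop := ∀ k : ℝ, 2 < k → ∃ C : ℝ, 1 ≤ C ∧ ∀ v : Fin 3 → V → ℝ, (∀ i, SP (v i)) →
  ∀ j : Fin 3, (∫ x in cube, |Av 2 (v j) x| ^ k) ^ (1 / k)
    ≤ C * ((1 + esq v) ^ (1 / k) * (1 + esq v + ysq v) ^ (1 / 2 - 1 / k))

/-- N3. Let `f = Av 2 (vⱼ bb)`, `1/l = 1/k - 1/r < 1/2`. Minkowski by duality: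
`∫ |f|^k ≤ ∫_cube |f|^{k-1} |vⱼ bb| ≤ ∫_cube (Hz |f|^k)^{(k-1)/k} (Hz |vⱼ bb|^k)^{1/k}` and
`Hz |f|^k = ∫ |f|^k`, so `‖f‖_k ≤ ∫_cube (Hz |vⱼ bb|^k)^{1/k}`; Hoelder on the slice:
`(Hz |vⱼ bb|^k)^{1/k} ≤ (Hz |bb|^r)^{1/r} (Hz |vⱼ|^l)^{1/l} ≤ M C (1+U)^{1/l} (1+U+H)^{1/2-1/l}` by N1
(`U = Hz (vsq v)`, `H = Hz (ga v)`), and `hold4` (HldL.lean) in the height with the exponents `1/l`,
`1/2 - 1/l`, `1/2` (function `1`), `∫ U = esq v`, `∫ H = ysq v` (`esq_eq`, `int_Hz` or similar).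
Allowed hypothesis: N1. -/
def N3 : Prop := ∀ k r : ℝ, 2 < k → k < r → ∃ C : ℝ, 1 ≤ C ∧ ∀ M : ℝ, 1 ≤ M →
  ∀ v : Fin 3 → V → ℝ, (∀ i, SP (v i)) → (∀ x, NR r (Gb v) x ≤ M ^ r) → ∀ j : Fin 3,
  (∫ x in cube, |Av 2 (fun y => v j y * bb v y) x| ^ k) ^ (1 / k)
    ≤ C * (M * ((1 + esq v) ^ (1 / k - 1 / r) * (1 + esq v + ysq v) ^ (1 / 2 - 1 / k + 1 / r)))

/-- N4, the equation of the vertical average (`js_mm`, `js_av_aux` as in MM1.lean; the equations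
`IsSol`; `Av 2 (lap v₂) = ∂₀∂₀ mm + ∂₁∂₁ mm`, `Av 2 (∂₂ p) = 0`,
`Av 2 (conv v 2) = ∂₀ Av 2 (v₀ v₂) + ∂₁ Av 2 (v₁ v₂)`: all in Pool/Agent/H4NC/MM2.lean, `av_conv`,
`pd_av_prod`, `div_V`). -/
def N4 : Prop := ∀ (ν T : ℝ) (u : ℝ → V → V) (p : ℝ → V → ℝ), IsSol ν T u p →
  ∀ t ∈ Ioo 0 T, ∀ x, dt (fun t => mm (fun i y => u t y i)) t x
    = ν * (pd 0 (pd 0 (mm (fun i y => u t y i))) x + pd 1 (pd 1 (mm (fun i y => u t y i))) x)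
      - pd 0 (Av 2 (fun y => u t y 0 * u t y 2)) x - pd 1 (Av 2 (fun y => u t y 1 * u t y 2)) x

/-- The maximum of the vertical average. -/
noncomputable def Ms (u : ℝ → V → V) (t : ℝ) : ℝ≥0∞ :=
  ⨆ x : V, ENNReal.ofReal |mm (fun i y => u t y i) x|

/-- N5, the integral inequality for the maximum of the vertical average. G4 with
`f t = mm (u t)`, `F_j t = Av 2 (u_j u_2) = mm Av 2 u_j + Av 2 (u_j bb)` (`av_prod` in MM2.lean;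
smooth, independent of the last coordinate), the bound with G6 (`γ = 1/2 + 1/k`,
`(1/c)(1+1/c)^{2/k} ≤ C (t-s)^{-γ}` for `c = √(2ν(t-s))`, `t - s ≤ T`), with N2, N3 and the energy
inequality `esq (u s) ≤ E0` (`h.energy_le`, see MM4.lean); `|mm| ≤ Ms` (finite, as `mm` is
continuous and periodic). Allowed hypotheses: G0, G4, G6, N2, N3, N4. -/
def N5 : Prop := ∀ (ν T : ℝ) (u : ℝ → V → V) (p : ℝ → V → ℝ), IsSol ν T u p → 0 < ν → 0 < T →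
  ∀ k r : ℝ, 2 < k → k < r → ∀ N : ℝ → ℝ, (∀ t ∈ Ioo 0 T, 1 ≤ N t) →
  (∀ t ∈ Ioo 0 T, ∀ x, NR r (Gb (fun i y => u t y i)) x ≤ N t ^ r) →
  ∃ C : ℝ, 0 < C ∧ ∀ t0 t : ℝ, 0 < t0 → t0 < t → t < T →
  Ms u t ≤ Ms u t0
    + If (1 / 2 + 1 / k) t0 (fun s => ENNReal.ofReal
        (C * (1 + ysq (fun i y => u s y i)) ^ (1 / 2 - 1 / k)) * Ms u s) t
    + If (1 / 2 + 1 / k) t0 (fun s => ENNReal.ofReal (N s) * ENNReal.ofReal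
        (C * (1 + ysq (fun i y => u s y i)) ^ (1 / 2 - 1 / k + 1 / r))) t

/-- N6. Measurability and local boundedness: `Ms u` is continuous or lower semicontinuous on
`(0, T)` (supremum over a countable dense set of continuous functions of `t`; `js_mm`), bounded on
compact intervals (a continuous function on `[t0,t1] × [0,1]³`, periodicity); the square integral of
the gradient is continuous on `(0, T)` (see MM4.lean, `cy`) and `∫_0^T ysq < ∞` (`h.int_enstrophy`,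
see MM4.lean). -/
def N6 : Prop := ∀ (ν T : ℝ) (u : ℝ → V → V) (p : ℝ → V → ℝ), IsSol ν T u p → 0 < ν → 0 < T →
  Measurable ((Ioo 0 T).indicator (Ms u)) ∧
  (∀ t0 t1 : ℝ, 0 < t0 → t0 < t1 → t1 < T → ∃ B : ℝ≥0∞, B < ⊤ ∧ ∀ t ∈ Icc t0 t1, Ms u t ≤ B) ∧
  Measurable ((Ioo 0 T).indicator fun t => ysq (fun i y => u t y i)) ∧
  ∫⁻ t in Ioo 0 T, ENNReal.ofReal (1 + ysq (fun i y => u t y i)) ≠ ⊤

/-- N7, the conclusion for the vertical average: T6 with `m = 1_{(0,T)} Ms u`,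
`v = 1_{(0,T)} C (1+y)^{1/2-1/k}`, `ψ = 1_{(0,T)} C (1+y)^{1/2-1/k+1/r}` and a measurable version of
`N` (`If` and `Lz` do not see null sets), any `k` with `2 < k < r`. Allowed hypotheses: T6, N5, N6. -/
def N7 : Prop := ∀ (ν T : ℝ) (u : ℝ → V → V) (p : ℝ → V → ℝ), IsSol ν T u p → 0 < ν → 0 < T →
  ∀ r : ℝ, 2 < r → ∀ N : ℝ → ℝ, (∀ t ∈ Ioo 0 T, 1 ≤ N t) →
  AEMeasurable N (volume.restrict (Ioo 0 T)) → Lz (1 / (1 / 2 - 1 / r)) N 0 T ≠ ⊤ →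
  (∀ t ∈ Ioo 0 T, ∀ x, NR r (Gb (fun i y => u t y i)) x ≤ N t ^ r) →
  ∀ ε : ℝ≥0∞, 0 < ε → ∀ tm : ℝ, tm < T → ∃ t0 : ℝ, tm < t0 ∧ 0 < t0 ∧ t0 < T ∧
  ∀ t1 ∈ Ioo t0 T, ∫⁻ t in Ioo t0 t1, ENNReal.ofReal ((t1 - t) ^ (-(1 / 2) : ℝ)) * Ms u t ≤ ε

/-- IS, the bound for the slice energies near the time `T` (taken by helper4; adapts SUP.lean). -/
def IS : Prop := ∀ (ν T : ℝ) (u : ℝ → V → V) (p : ℝ → V → ℝ), IsSol ν T u p → 0 < ν → 0 < T →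
  ∀ r : ℝ, 2 < r → ∀ N : ℝ → ℝ, (∀ t ∈ Ioo 0 T, 1 ≤ N t) →
  AEMeasurable N (volume.restrict (Ioo 0 T)) → Lz (1 / (1 / 2 - 1 / r)) N 0 T ≠ ⊤ →
  (∀ t ∈ Ioo 0 T, ∀ x, NR r (Gb (fun i y => u t y i)) x ≤ N t ^ r) →
  ∃ t0 D : ℝ, t0 ∈ Ioo 0 T ∧ ∀ t ∈ Ico t0 T, ∀ x, Hz (vsq (fun i y => u t y i)) x ≤ D

end Pool.Agent.H4NI
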