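import Pool.Agent.H4NC.Fin
import Pool.Agent.H4NI.StmN

/-!
Project NCI: the critical criterion for `a = ∞` at almost every time.
-/

set_option autoImplicit false
set_option linter.unusedVariables false

open MeasureTheory Set Function Filter Topology
open scoped ENNReal ContDiff

namespace Pool.Agent.H4NI

open H459R3.NS H4LA H4NC

variable {ν T : ℝ} {u : ℝ → V → V} {p : ℝ → V → ℝ}

/-- A continuous periodic function is bounded by the limit of its norms. -/
theorem le_of_pow {f : V → ℝ} (hf : CP f) (f0 : ∀ x, 0 ≤ f x) {L : ℝ} (hL : 0 ≤ L)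
    (h : ∀ n : ℕ, 1 ≤ n → ∫ x in cube, f x ^ n ≤ L ^ n) (x : V) : f x ≤ L := by
  by_contra hlt
  rw [not_le] at hlt
  obtain ⟨c, hc1, hc2⟩ := exists_between hlt
  have hc0 : 0 < c := hL.trans_lt hc1
  -- a point of the cube
  set m : K3 := fun i => -⌊x i⌋ with hm
  have h1 : f (x + fun i => (m i : ℝ)) = f x := hf.per.int m x
  have h2 : (x + fun i => (m i : ℝ)) ∈ cube := by
    constructor
    · intro i
      have := Int.floor_le (x i)
      simp only [hm, Pi.zero_apply, Pi.add_apply]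
      push_cast
      linarith
    · intro i
      have := Int.lt_floor_add_one (x i)
      simp only [hm, Pi.one_apply, Pi.add_apply]
      push_cast
      linarith
  set A : Set V := cube ∩ {y | c < f y} with hA
  have mA : MeasurableSet A := (isCompact_Icc (a := (0 : V)) (b := 1)).measurableSet.inter
    (measurableSet_lt measurable_const hf.cont.measurable)
  have hO : IsOpen {y : V | c < f y} := isOpen_lt continuous_const hf.cont
  have hcl : (x + fun i => (m i : ℝ)) ∈ closure (interior (cube : Set V)) := by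
    have e : interior (cube : Set V) = Set.pi univ fun _ : Fin 3 => Ioo (0 : ℝ) 1 := by
      unfold cube
      rw [← pi_univ_Icc, interior_pi_set finite_univ]
      simp
    rw [e, closure_pi_set]
    intro i _
    rw [closure_Ioo zero_ne_one]
    exact ⟨h2.1 i, h2.2 i⟩
  obtain ⟨y, hy1, hy2⟩ := mem_closure_iff.1 hcl _ hO (by
    show c < f (x + fun i => (m i : ℝ))
    rw [h1]
    exact hc2)
  have hpos : 0 < volume A := by
    have hU : IsOpen ({y : V | c < f y} ∩ interior (cube : Set V)) := hO.inter isOpen_interior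
    refine (hU.measure_pos volume ⟨y, hy1, hy2⟩).trans_le (measure_mono ?_)
    rintro z ⟨hz1, hz2⟩
    exact ⟨interior_subset hz2, hz1⟩
  have hfin : volume A ≠ ⊤ :=
    ne_top_of_le_ne_top (isCompact_Icc (a := (0 : V)) (b := 1)).measure_lt_top.ne
      (measure_mono inter_subset_left)
  have hpos' : 0 < volume.real A := ENNReal.toReal_pos hpos.ne' hfin
  have key : ∀ n : ℕ, 1 ≤ n → c ^ n * volume.real A ≤ L ^ n := by
    intro n hn
    have c1 : Continuous fun y => f y ^ n := hf.cont.pow n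
    calc c ^ n * volume.real A = ∫ y in A, c ^ n := by
          rw [setIntegral_const, smul_eq_mul, mul_comm]
      _ ≤ ∫ y in A, f y ^ n := by
          refine setIntegral_mono_on (integrableOn_const hfin)
            ((integrableOn_cube c1).mono_set inter_subset_left) mA fun y hy => ?_
          exact pow_le_pow_left₀ hc0.le (le_of_lt hy.2) n
      _ ≤ ∫ y in cube, f y ^ n :=
          setIntegral_mono_set (integrableOn_cube c1)
            (Eventually.of_forall fun y => pow_nonneg (f0 y) n) inter_subset_left.eventuallyLE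
      _ ≤ L ^ n := h n hn
  have hr : L / c < 1 := by rwa [div_lt_one hc0]
  have htend := tendsto_pow_atTop_nhds_zero_of_lt_one (div_nonneg hL hc0.le) hr
  obtain ⟨n, hn1, hn2⟩ := ((htend.eventually (Iio_mem_nhds hpos')).and
    (eventually_ge_atTop 1)).exists
  have k1 := key n hn2
  have k2 : (L / c) ^ n < volume.real A := hn1
  rw [div_pow, div_lt_iff₀ (by positivity)] at k2
  linarith

/-- The pointwise condition on the slices from the mixed norms. -/
theorem mixT_of {v : V → V} (hv : ∀ i, SP (fun y => v y i)) {j : Fin 3} {r k : ℝ} (hr : 2 < r)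
    (hk : 0 ≤ k)
    (h : ∀ a : ℝ, 2 < a → mixNorm j (ENNReal.ofReal a) (ENNReal.ofReal r)
      (fun x => v x j - Av j (fun y => v y j) x) ≤ ENNReal.ofReal k) (x : V) :
    NR r (Gb (fun i y => pm j (v (pm j y)) i)) x ≤ (2 ^ (1 / r) * (1 + k)) ^ r := by
  have hr0 : 0 < r := by linarith
  have cB : CP (fun x => v x j - Av j (fun y => v y j) x) := (cp_of (hv j)).sub ((cp_of (hv j)).av j)
  have cG : CP (Gb (fun i y => pm j (v (pm j y)) i)) := by
    have eG : Gb (fun i y => pm j (v (pm j y)) i)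
        = fun y => |(fun x => v x j - Av j (fun y => v y j) x) (pm j y)| := by
      funext y
      unfold Gb bb mm Av
      simp only [pm_apply]
      have e2 : sw j 2 = j := Equiv.swap_apply_right j 2
      rw [e2]
      congr 2
      congr 1
      funext s
      rw [pm_update]
    rw [eG]
    exact (cp_pm cB j).abs
  have n1 : ∀ x, 1 ≤ NR r (Gb (fun i y => pm j (v (pm j y)) i)) x := fun x =>
    NR_one (Gb_nonneg _) x
  refine le_of_pow (NR_cp hr0.le cG) (fun x => zero_le_one.trans (n1 x)) (by positivity) ?_ x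
  intro n hn
  have hn1 : (1 : ℝ) ≤ n := by exact_mod_cast hn
  have ha : 2 < (n : ℝ) * r := by nlinarith
  have h1 := mix_of hv (j := j) (a := n * r) (r := r) (by linarith) hr0 hk (h _ ha)
  unfold Mix at h1
  have e1 : (n : ℝ) * r / r = n := mul_div_cancel_right₀ _ hr0.ne'
  rw [e1] at h1
  have e2 : ((2 : ℝ) ^ (1 / r) * (1 + k)) ^ ((n : ℝ) * r)
      = (((2 : ℝ) ^ (1 / r) * (1 + k)) ^ r) ^ n := by
    rw [mul_comm (n : ℝ) r, Real.rpow_mul (by positivity), Real.rpow_natCast]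
  rw [e2] at h1
  simpa only [Real.rpow_natCast] using h1

/-- The critical criterion for `a = ∞`. -/
theorem near_T (hIS : IS) (hIF3 : IF3) (hA9 : A9) (h : IsSol ν T u p) (hν : 0 < ν)
    (hT : 0 < T) {r : ℝ} (hr : 2 < r) {N : ℝ → ℝ}
    (N1 : ∀ t ∈ Ioo 0 T, 1 ≤ N t) (mN : AEMeasurable N (volume.restrict (Ioo 0 T)))
    (hL : Lz (1 / (1 / 2 - 1 / r)) N 0 T ≠ ⊤)
    (hb : ∀ t ∈ Ioo 0 T, ∀ x, NR r (Gb (fun i y => u t y i)) x ≤ N t ^ r) :
    ∃ M, ∀ t ∈ Ico 0 T, ∀ x i, |u t x i| ≤ M := by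
  obtain ⟨t0, D, ht0, hD⟩ := hIS ν T u p h hν hT r hr N N1 mN hL hb
  have hr12 : 1 / r < 1 / 2 := one_div_lt_one_div_of_lt (by norm_num) hr
  have hr0 : 0 < 1 / r := by positivity
  have hx0 : 0 < 1 / 2 - 1 / r := by linarith
  have hs1 : 1 ≤ 1 / (1 / 2 - 1 / r) := by
    rw [le_div_iff₀ hx0]
    linarith
  have hNs := hA9 (1 / (1 / 2 - 1 / r)) N T hs1 (fun t ht => by linarith [N1 t ht]) mN hL
  exact hIF3 ν T u p h hν hT r hr N N1 hNs hb t0 D ht0 hD

/-- The criterion at almost every time, for the last component. -/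
theorem crit_T (hIS : IS) (hIF3 : IF3) (hA9 : A9) (hA11 : A11) (h : IsSol ν T u p) (hν : 0 < ν)
    {r : ℝ} (hr : 2 < r) {g : ℝ → ℝ} (mg : AEMeasurable g (volume.restrict (Ioo 0 T)))
    (hg : Lz (1 / (1 / 2 - 1 / r)) (fun t => |g t|) 0 T ≠ ⊤) {K : ℝ} (hK : 1 ≤ K)
    (ho : ∀ᵐ t ∂(volume.restrict (Ioo 0 T)), ∀ x,
      NR r (Gb (fun i y => u t y i)) x ≤ (K * (1 + |g t|)) ^ r) :
    ∃ M, ∀ t ∈ Ico 0 T, ∀ x i, |u t x i| ≤ M := by
  rcases le_or_gt T 0 with hT | hT
  · exact ⟨0, fun t ht => absurd (ht.1.trans_lt ht.2) (by linarith)⟩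
  classical
  have hr0 : 0 < r := by linarith
  have ex : ∀ t : ℝ, ∃ n : ℝ, 1 ≤ n ∧ (t ∈ Ioo 0 T →
      ∀ x, NR r (Gb (fun i y => u t y i)) x ≤ n ^ r) := by
    intro t
    by_cases ht : t ∈ Ioo 0 T
    · obtain ⟨C, hC0, hC⟩ := (NR_cp hr0.le (Gb_cp (h.sp ⟨ht.1.le, ht.2⟩))).bdd
      have k1 : 0 ≤ C ^ (1 / r) := by positivity
      refine ⟨1 + C ^ (1 / r), by linarith, fun _ x => ?_⟩
      calc _ ≤ C := (le_abs_self _).trans (hC x)
        _ = (C ^ (1 / r)) ^ r := by
            rw [← Real.rpow_mul hC0, one_div_mul_cancel hr0.ne', Real.rpow_one]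
        _ ≤ _ := Real.rpow_le_rpow k1 (by linarith) hr0.le
    · exact ⟨1, le_rfl, fun h => absurd h ht⟩
  choose n0 n1 n2 using ex
  set N : ℝ → ℝ := fun t => if ∀ x, NR r (Gb (fun i y => u t y i)) x ≤ (K * (1 + |g t|)) ^ r
    then K * (1 + |g t|) else n0 t with hN
  have N1 : ∀ t ∈ Ioo 0 T, 1 ≤ N t := by
    intro t ht
    simp only [hN]
    split_ifs
    · have := abs_nonneg (g t)
      nlinarith
    · exact n1 t
  have hae : ∀ᵐ t ∂(volume.restrict (Ioo 0 T)), N t = K * (1 + |g t|) := by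
    filter_upwards [ho] with t ht
    simp only [hN]
    rw [if_pos ht]
  have mN : AEMeasurable N (volume.restrict (Ioo 0 T)) := by
    have m1 : AEMeasurable (fun t => K * (1 + |g t|)) (volume.restrict (Ioo 0 T)) :=
      (aemeasurable_const.add (measurable_norm.comp_aemeasurable mg)).const_mul K
    exact m1.congr (hae.mono fun t ht => ht.symm)
  have hr12 : 1 / r < 1 / 2 := one_div_lt_one_div_of_lt (by norm_num) hr
  have hx0 : 0 < 1 / 2 - 1 / r := by linarith
  refine near_T hIS hIF3 hA9 h hν hT hr N1 mN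
    (hA11 _ g N T K (by positivity) (by linarith) hg hae) ?_
  intro t ht x
  simp only [hN]
  split_ifs with h1
  · exact h1 x
  · exact n2 t ht x

/-- The exponents for `a = ∞`. -/
theorem pickT {s : ℝ} {r : ℝ≥0∞} (hrt : r ≠ ⊤)
    (h : 2 / ENNReal.ofReal s + 1 / (⊤ : ℝ≥0∞) + 2 / r ≤ 1) :
    2 < r.toReal ∧ 1 / (1 / 2 - 1 / r.toReal) ≤ s := by
  have hs : 0 < s := by
    by_contra h1
    rw [not_lt] at h1
    rw [ENNReal.ofReal_eq_zero.2 h1, ENNReal.div_zero (by norm_num)] at h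
    simp at h
  have e1 : 2 / ENNReal.ofReal s = ENNReal.ofReal (2 / s) := by
    rw [ENNReal.ofReal_div_of_pos hs]
    norm_num
  have r0 : r ≠ 0 := by
    rintro rfl
    rw [ENNReal.div_zero (by norm_num)] at h
    simp at h
  have pr : 0 < r.toReal := ENNReal.toReal_pos r0 hrt
  have er : 2 / r = ENNReal.ofReal (2 / r.toReal) := by
    rw [ENNReal.ofReal_div_of_pos pr, ENNReal.ofReal_toReal hrt]
    norm_num
  have ea : (1 : ℝ≥0∞) / ⊤ = 0 := by simp
  rw [e1, ea, er, add_zero, ← ENNReal.ofReal_add (by positivity) (by positivity),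
    ENNReal.ofReal_le_one] at h
  have h2s : 0 < 2 / s := by positivity
  have hlt : 2 / r.toReal < 1 := by linarith
  have hr2 : 2 < r.toReal := by rwa [div_lt_one pr] at hlt
  refine ⟨hr2, ?_⟩
  have e3 : 2 / r.toReal = 2 * (1 / r.toReal) := by ring
  have hx : 0 < 1 / 2 - 1 / r.toReal := by linarith
  rw [div_le_iff₀ hx]
  have h4 : 1 / s ≤ 1 / 2 - 1 / r.toReal := by
    have e4 : 2 / s = 2 * (1 / s) := by ring
    linarith
  have h5 := mul_le_mul_of_nonneg_left h4 hs.le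
  rwa [mul_one_div_cancel hs.ne'] at h5

/-- The criterion in mixed norms, for all the components, with `a = ∞` on the critical line. -/
theorem finalI (hSUP : SUP) (hF3 : F3) (hIS : IS) (hIF3 : IF3) (hA9 : A9) (hA10 : A10) (hA11 : A11)
    (h : IsSol ν T u p)
    (hν : 0 < ν) (j : Fin 3) {s : ℝ} {a r : ℝ≥0∞} (ha : 2 < a) {g : ℝ → ℝ}
    (hg : (2 / ENNReal.ofReal s + 1 / a + 2 / r < 1 ∧
        IntegrableOn (fun t => |g t| ^ s) (Ioo 0 T)) ∨
      (2 / ENNReal.ofReal s + 1 / a + 2 / r ≤ 1 ∧ r ≠ ⊤ ∧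
        AEMeasurable g (volume.restrict (Ioo 0 T)) ∧
        ∫⁻ lam in Ioi (0 : ℝ), volume {t | t ∈ Ioo 0 T ∧ lam < |g t|} ^ (1 / s) ≠ ⊤))
    (ho : ∀ᵐ t ∂(volume.restrict (Ioo 0 T)),
      (∃ c : V → ℝ, Measurable c ∧ (∀ x σ, c (update x j σ) = c x) ∧
        mixNorm j a r (fun x => u t x j - c x) ≤ ENNReal.ofReal (g t)) ∨
      eLpNorm (fun x => ∫ σ in Icc (0 : ℝ) 1, max (pd j (fun y => u t y j) (update x j σ)) 0) r
        (volume.restrict cube) ≤ ENNReal.ofReal (g t)) :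
    ∃ M, ∀ t ∈ Ico 0 T, ∀ x i, |u t x i| ≤ M := by
  rcases hg with hg | ⟨hsr, hrt, mg, hg⟩
  · exact final hSUP hF3 hA9 hA10 hA11 h hν j ha (Or.inl hg) ho
  rcases ne_or_eq a ⊤ with hat | rfl
  · exact final hSUP hF3 hA9 hA10 hA11 h hν j ha (Or.inr ⟨hsr, hat, hrt, mg, hg⟩) ho
  obtain ⟨hr2, hsx⟩ := pickT hrt hsr
  set r0 : ℝ := r.toReal with hr0
  have hr12 : 1 / r0 < 1 / 2 := one_div_lt_one_div_of_lt (by norm_num) hr2
  have hx0 : 0 < 1 / 2 - 1 / r0 := by linarith
  have hLg : Lz (1 / (1 / 2 - 1 / r0)) (fun t => |g t|) 0 T ≠ ⊤ :=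
    Lz_exp (by positivity) hsx hg
  have hsw := Pool.Agent.H4LA.IsSol.swap h j
  have hr1 : 0 < r0 := by linarith
  apply back (j := j)
  have k1 : 1 ≤ (2 : ℝ) ^ (1 / r0) := Real.one_le_rpow (by norm_num) (by positivity)
  refine crit_T (g := fun t => |g t|) hIS hIF3 hA9 hA11 hsw hν hr2
    (measurable_norm.comp_aemeasurable mg)
    (by simpa only [abs_abs] using hLg) (K := 2 ^ (1 / r0) * 2) (by linarith) ?_
  filter_upwards [ho, ae_restrict_mem measurableSet_Ioo] with t ht htI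
  have h1 : ∀ a0 : ℝ, 2 < a0 → mixNorm j (ENNReal.ofReal a0) (ENNReal.ofReal r0)
      (fun x => u t x j - Av j (fun y => u t y j) x) ≤ ENNReal.ofReal (2 * |g t|) := fun a0 ha0 =>
    mixav_line (h.sp ⟨htI.1.le, htI.2⟩ j) ha0 hr2 le_top (ENNReal.ofReal_toReal hrt).le ht
  intro x
  have h2 := mixT_of (v := u t) (h.sp ⟨htI.1.le, htI.2⟩) hr2 (by positivity) h1 x
  refine h2.trans (Real.rpow_le_rpow (by positivity) ?_ hr1.le)
  rw [mul_assoc, abs_abs]
  refine mul_le_mul_of_nonneg_left ?_ (by positivity)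
  linarith

end Pool.Agent.H4NI
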