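import Pool.Agent.H4NI.StmG

/-!
Project NCI: integrability of the Gaussian averages.
-/

set_option autoImplicit false

open MeasureTheory Set Function Filter Topology
open scoped ENNReal ContDiff

namespace Pool.Agent.H4NI.G0

open Pool.Agent.H4NI H459R3.NS H4LA H4NC

theorem gs_eq (ξ : ℝ) : gs ξ = (√(2 * Real.pi))⁻¹ * Real.exp (-(1 / 2) * ξ ^ 2) := by
  unfold gs
  congr 2
  ring

theorem gs_int : Integrable gs := by
  have h := (integrable_exp_neg_mul_sq (b := (1 / 2 : ℝ)) (by norm_num)).const_mul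
    (√(2 * Real.pi))⁻¹
  refine h.congr (Eventually.of_forall fun ξ => ?_)
  exact (gs_eq ξ).symm

theorem gs_one : ∫ ξ, gs ξ = 1 := by
  have h1 : (fun ξ => gs ξ) = fun ξ => (√(2 * Real.pi))⁻¹ * Real.exp (-(1 / 2) * ξ ^ 2) := by
    funext ξ
    exact gs_eq ξ
  rw [h1, integral_const_mul, integral_gaussian]
  have h2 : Real.pi / (1 / 2) = 2 * Real.pi := by ring
  rw [h2]
  exact inv_mul_cancel₀ (by positivity)

theorem gs_pos (ξ : ℝ) : 0 ≤ gs ξ := by
  unfold gs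
  positivity

theorem gs_cont : Continuous gs := by
  unfold gs
  fun_prop

theorem gs_abs_int : Integrable fun ξ => |ξ| * gs ξ := by
  have h := ((integrable_mul_exp_neg_mul_sq (b := (1 / 2 : ℝ)) (by norm_num)).abs).const_mul
    (√(2 * Real.pi))⁻¹
  refine h.congr (Eventually.of_forall fun ξ => ?_)
  change (√(2 * Real.pi))⁻¹ * |ξ * Real.exp (-(1 / 2) * ξ ^ 2)| = |ξ| * gs ξ
  rw [gs_eq, abs_mul, abs_of_pos (Real.exp_pos _)]
  ring

theorem cont_sh (c : ℝ) (x : Fin 3 → ℝ) : Continuous (sh c x) := by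
  unfold sh
  refine (continuous_const.add ?_).add ?_
  · exact (continuous_single (A := fun _ : Fin 3 => ℝ) 0).comp (continuous_const.mul continuous_fst)
  · exact (continuous_single (A := fun _ : Fin 3 => ℝ) 1).comp (continuous_const.mul continuous_snd)

theorem dom_int (C : ℝ) : Integrable fun ξ : ℝ × ℝ =>
    C * (gs ξ.1 * gs ξ.2 * (1 + |ξ.1| + |ξ.2|)) := by
  have h1 : Integrable (fun ξ : ℝ × ℝ => gs ξ.1 * gs ξ.2) := gs_int.mul_prod gs_int
  have h2 : Integrable (fun ξ : ℝ × ℝ => (|ξ.1| * gs ξ.1) * gs ξ.2) := gs_abs_int.mul_prod gs_int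
  have h3 : Integrable (fun ξ : ℝ × ℝ => gs ξ.1 * (|ξ.2| * gs ξ.2)) := gs_int.mul_prod gs_abs_int
  refine (((h1.add h2).add h3).const_mul C).congr (Eventually.of_forall fun ξ => ?_)
  change C * (gs ξ.1 * gs ξ.2 + (|ξ.1| * gs ξ.1) * gs ξ.2 + gs ξ.1 * (|ξ.2| * gs ξ.2)) =
    C * (gs ξ.1 * gs ξ.2 * (1 + |ξ.1| + |ξ.2|))
  ring

theorem t : Pool.Agent.H4NI.G0 := by
  refine ⟨⟨gs_int, gs_one⟩, fun c f x hf => ⟨fun w hw hb => ?_, fun B hB => ?_⟩⟩
  · obtain ⟨C, hC0, hC⟩ := hf.bdd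
    refine Integrable.mono' (dom_int C) ?_ (Eventually.of_forall fun ξ => ?_)
    · refine Continuous.aestronglyMeasurable ?_
      exact (((gs_cont.comp continuous_fst).mul (gs_cont.comp continuous_snd)).mul hw).mul
        (hf.cont.comp (cont_sh c x))
    · rw [Real.norm_eq_abs, abs_mul, abs_mul, abs_mul, abs_of_nonneg (gs_pos _),
        abs_of_nonneg (gs_pos _)]
      have h1 := hb ξ
      have h2 := hC (sh c x ξ)
      have h3 : 0 ≤ gs ξ.1 * gs ξ.2 := mul_nonneg (gs_pos _) (gs_pos _)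
      calc gs ξ.1 * gs ξ.2 * |w ξ| * |f (sh c x ξ)|
          ≤ gs ξ.1 * gs ξ.2 * (1 + |ξ.1| + |ξ.2|) * C := by
            refine mul_le_mul (mul_le_mul_of_nonneg_left h1 h3) h2 (abs_nonneg _) ?_
            positivity
        _ = C * (gs ξ.1 * gs ξ.2 * (1 + |ξ.1| + |ξ.2|)) := by ring
  · have h1 : Integrable (fun ξ : ℝ × ℝ => gs ξ.1 * gs ξ.2 * B) :=
      (gs_int.mul_prod gs_int).mul_const B
    have h2 : ∫ ξ : ℝ × ℝ, gs ξ.1 * gs ξ.2 * B = B := by
      rw [integral_mul_const]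
      have h3 : ∫ ξ : ℝ × ℝ, gs ξ.1 * gs ξ.2 = (∫ ξ, gs ξ) * ∫ ξ, gs ξ :=
        integral_prod_mul (μ := volume) (ν := volume) gs gs
      rw [h3, gs_one]
      ring
    unfold GG
    rw [← Real.norm_eq_abs]
    calc ‖∫ ξ : ℝ × ℝ, gs ξ.1 * gs ξ.2 * 1 * f (sh c x ξ)‖
        ≤ ∫ ξ : ℝ × ℝ, gs ξ.1 * gs ξ.2 * B := by
          refine norm_integral_le_of_norm_le h1 (Eventually.of_forall fun ξ => ?_)
          have h3 : 0 ≤ gs ξ.1 * gs ξ.2 := mul_nonneg (gs_pos _) (gs_pos _)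
          rw [Real.norm_eq_abs, mul_one, abs_mul, abs_of_nonneg h3]
          exact mul_le_mul_of_nonneg_left (hB _) h3
      _ = B := h2

end Pool.Agent.H4NI.G0
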