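import Pool.Agent.H4NI.StmG

/-! Project NCI, stub G1: integration by parts for the Gaussian averages. -/

set_option autoImplicit false

open MeasureTheory Set Function Filter Topology
open scoped ENNReal ContDiff

namespace Pool.Agent.H4NI

open H459R3.NS H4LA H4NC

namespace G1

lemma gs_cont : Continuous gs := by
  unfold gs
  fun_prop

lemma gs_int : Integrable gs := by
  have h := (integrable_exp_neg_mul_sq (b := 1 / 2) (by norm_num)).const_mul ((√(2 * Real.pi))⁻¹)
  refine h.congr (Filter.Eventually.of_forall fun s => ?_)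
  unfold gs
  simp only
  congr 2
  ring

lemma gs_int1 : Integrable fun s => s * gs s := by
  have h := (integrable_mul_exp_neg_mul_sq (b := 1 / 2) (by norm_num)).const_mul ((√(2 * Real.pi))⁻¹)
  refine h.congr (Filter.Eventually.of_forall fun s => ?_)
  unfold gs
  simp only
  have e : -(1 / 2) * s ^ 2 = -(s ^ 2 / 2) := by ring
  rw [e]
  ring

lemma gs_deriv (s : ℝ) : HasDerivAt gs (-(s * gs s)) s := by
  have h1 : HasDerivAt (fun s : ℝ => -(s ^ 2 / 2)) (-s) s := by
    have := ((hasDerivAt_pow 2 s).div_const 2).neg
    refine this.congr_deriv ?_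
    norm_num
  have h2 := (h1.exp).const_mul ((√(2 * Real.pi))⁻¹)
  refine h2.congr_deriv ?_
  unfold gs
  ring

lemma ibp (φ φ' : ℝ → ℝ) (h : ∀ s, HasDerivAt φ (φ' s) s) (hc' : Continuous φ') (B : ℝ) (hB : ∀ s, |φ s| ≤ B)
    (hB' : ∀ s, |φ' s| ≤ B) : ∫ s, gs s * s * φ s = ∫ s, gs s * φ' s := by
  have hc : Continuous φ := continuous_iff_continuousAt.2 fun s => (h s).continuousAt
  have i1 : Integrable (gs * φ') := by
    refine (gs_int.bdd_mul (c := B) hc'.aestronglyMeasurable (Filter.Eventually.of_forall fun s => ?_)).congr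
      (Filter.Eventually.of_forall fun s => ?_)
    · exact hB' s
    · simp only [Pi.mul_apply]
      ring
  have i2 : Integrable (gs * φ) := by
    refine (gs_int.bdd_mul (c := B) hc.aestronglyMeasurable (Filter.Eventually.of_forall fun s => ?_)).congr
      (Filter.Eventually.of_forall fun s => ?_)
    · exact hB s
    · simp only [Pi.mul_apply]
      ring
  have i3 : Integrable ((fun s => -(s * gs s)) * φ) := by
    refine (gs_int1.neg.bdd_mul (c := B) hc.aestronglyMeasurable (Filter.Eventually.of_forall fun s => ?_)).congr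
      (Filter.Eventually.of_forall fun s => ?_)
    · exact hB s
    · simp only [Pi.mul_apply, Pi.neg_apply]
      ring
  have key := integral_mul_deriv_eq_deriv_mul_of_integrable (u := gs) (v := φ) (u' := fun s => -(s * gs s)) (v' := φ')
    (fun s _ => gs_deriv s) (fun s _ => h s) i1 i3 i2
  rw [key, ← integral_neg]
  refine integral_congr_ae (Filter.Eventually.of_forall fun s => ?_)
  simp only
  ring

lemma sh_deriv0 (c : ℝ) (f : V → ℝ) (x : V) (hf : SP f) (r s : ℝ) :
    HasDerivAt (fun s => f (sh c x (s, r))) (c * pd 0 f (sh c x (s, r))) s := by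
  have h1 : HasFDerivAt f (fderiv ℝ f (sh c x (s, r))) (sh c x (s, r)) := (hf.diff _).hasFDerivAt
  have h2 : HasDerivAt (fun s => sh c x (s, r)) (c • (Pi.single 0 1 : V)) s := by
    have h3 : (fun s => sh c x (s, r)) = fun s => s • (c • (Pi.single 0 1 : V)) + (x + Pi.single 1 (c * r)) := by
      funext s
      unfold sh
      funext k
      by_cases hk : k = 0
      · subst hk
        simp
        ring
      · simp [Pi.single_apply, hk]
    rw [h3]
    have := ((hasDerivAt_id s).smul_const (c • (Pi.single 0 1 : V))).add_const (x + Pi.single 1 (c * r))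
    simpa using this
  have h3 := h1.comp_hasDerivAt s h2
  refine h3.congr_deriv ?_
  rw [map_smul, smul_eq_mul]
  rfl

lemma sh_deriv1 (c : ℝ) (f : V → ℝ) (x : V) (hf : SP f) (r s : ℝ) :
    HasDerivAt (fun s => f (sh c x (r, s))) (c * pd 1 f (sh c x (r, s))) s := by
  have h1 : HasFDerivAt f (fderiv ℝ f (sh c x (r, s))) (sh c x (r, s)) := (hf.diff _).hasFDerivAt
  have h2 : HasDerivAt (fun s => sh c x (r, s)) (c • (Pi.single 1 1 : V)) s := by
    have h3 : (fun s => sh c x (r, s)) = fun s => s • (c • (Pi.single 1 1 : V)) + (x + Pi.single 0 (c * r)) := by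
      funext s
      unfold sh
      funext k
      by_cases hk : k = 1
      · subst hk
        simp
        ring
      · simp [Pi.single_apply, hk]
    rw [h3]
    have := ((hasDerivAt_id s).smul_const (c • (Pi.single 1 1 : V))).add_const (x + Pi.single 0 (c * r))
    simpa using this
  have h3 := h1.comp_hasDerivAt s h2
  refine h3.congr_deriv ?_
  rw [map_smul, smul_eq_mul]
  rfl

lemma sh_cont (c : ℝ) (x : V) : Continuous (sh c x) := by
  unfold sh
  refine (continuous_const.add ?_).add ?_
  · exact (continuous_single 0).comp (continuous_const.mul continuous_fst)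
  · exact (continuous_single 1).comp (continuous_const.mul continuous_snd)

theorem t (h0 : G0) : Pool.Agent.H4NI.G1 := by
  intro c f x hf
  obtain ⟨B, hB0, hB⟩ := (cp_of hf).bdd
  have hint : ∀ (g : V → ℝ), CP g → ∀ w : ℝ × ℝ → ℝ, Continuous w → (∀ ξ, |w ξ| ≤ 1 + |ξ.1| + |ξ.2|) →
    Integrable (fun ξ : ℝ × ℝ => gs ξ.1 * gs ξ.2 * w ξ * g (sh c x ξ)) := fun g hg => (h0.2 c g x hg).1
  constructor
  · obtain ⟨B', hB'0, hB'⟩ := (cp_of (hf.pd 0)).bdd
    have i1 := hint f (cp_of hf) (fun ξ => ξ.1) continuous_fst (fun ξ => by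
      have := abs_nonneg ξ.2
      linarith [abs_nonneg ξ.1])
    have i2 := hint (pd 0 f) (cp_of (hf.pd 0)) (fun _ => 1) continuous_const (fun ξ => by
      have := abs_nonneg ξ.2
      have := abs_nonneg ξ.1
      simp only [abs_one]
      linarith)
    unfold GG
    rw [Measure.volume_eq_prod] at i1 i2 ⊢
    rw [integral_prod_symm _ i1, integral_prod_symm _ i2, ← integral_const_mul]
    refine integral_congr_ae (Filter.Eventually.of_forall fun r => ?_)
    simp only
    have key := ibp (fun s => f (sh c x (s, r))) (fun s => c * pd 0 f (sh c x (s, r))) (fun s => sh_deriv0 c f x hf r s)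
      (continuous_const.mul ((hf.pd 0).cont.comp ((sh_cont c x).comp (continuous_id.prodMk continuous_const))))
      (max B (|c| * B')) (fun s => (hB _).trans (le_max_left _ _)) (fun s => by
        rw [abs_mul]
        exact (mul_le_mul_of_nonneg_left (hB' _) (abs_nonneg _)).trans (le_max_right _ _))
    have e1 : ∫ s, gs s * gs r * s * f (sh c x (s, r)) = gs r * ∫ s, gs s * s * f (sh c x (s, r)) := by
      rw [← integral_const_mul]
      refine integral_congr_ae (Filter.Eventually.of_forall fun s => ?_)
      ring
    have e2 : c * ∫ s, gs s * gs r * 1 * pd 0 f (sh c x (s, r)) = gs r * ∫ s, gs s * (c * pd 0 f (sh c x (s, r))) := by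
      rw [← integral_const_mul, ← integral_const_mul]
      refine integral_congr_ae (Filter.Eventually.of_forall fun s => ?_)
      simp only
      ring
    rw [e1, e2, key]
  · obtain ⟨B', hB'0, hB'⟩ := (cp_of (hf.pd 1)).bdd
    have i1 := hint f (cp_of hf) (fun ξ => ξ.2) continuous_snd (fun ξ => by
      have := abs_nonneg ξ.1
      linarith [abs_nonneg ξ.2])
    have i2 := hint (pd 1 f) (cp_of (hf.pd 1)) (fun _ => 1) continuous_const (fun ξ => by
      have := abs_nonneg ξ.2
      have := abs_nonneg ξ.1
      simp only [abs_one]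
      linarith)
    unfold GG
    rw [Measure.volume_eq_prod] at i1 i2 ⊢
    rw [integral_prod _ i1, integral_prod _ i2, ← integral_const_mul]
    refine integral_congr_ae (Filter.Eventually.of_forall fun r => ?_)
    simp only
    have key := ibp (fun s => f (sh c x (r, s))) (fun s => c * pd 1 f (sh c x (r, s))) (fun s => sh_deriv1 c f x hf r s)
      (continuous_const.mul ((hf.pd 1).cont.comp ((sh_cont c x).comp (continuous_const.prodMk continuous_id))))
      (max B (|c| * B')) (fun s => (hB _).trans (le_max_left _ _)) (fun s => by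
        rw [abs_mul]
        exact (mul_le_mul_of_nonneg_left (hB' _) (abs_nonneg _)).trans (le_max_right _ _))
    have e1 : ∫ s, gs r * gs s * s * f (sh c x (r, s)) = gs r * ∫ s, gs s * s * f (sh c x (r, s)) := by
      rw [← integral_const_mul]
      refine integral_congr_ae (Filter.Eventually.of_forall fun s => ?_)
      ring
    have e2 : c * ∫ s, gs r * gs s * 1 * pd 1 f (sh c x (r, s)) = gs r * ∫ s, gs s * (c * pd 1 f (sh c x (r, s))) := by
      rw [← integral_const_mul, ← integral_const_mul]
      refine integral_congr_ae (Filter.Eventually.of_forall fun s => ?_)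
      simp only
      ring
    rw [e1, e2, key]

end G1

end Pool.Agent.H4NI
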