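import Pool.Agent.H4NI.StmG

/-!
Project NCI, stub G2: the derivative in time of the Gaussian average.
-/

set_option autoImplicit false
set_option linter.all false

open MeasureTheory Set Function Filter Topology
open scoped ENNReal ContDiff

namespace Pool.Agent.H4NI.G2

open H459R3.NS H4LA H4NC

/-- A function continuous on `(0,T) × V` and periodic in `x` is bounded on compact time intervals. -/
theorem bd {T : ℝ} {F : ℝ → V → ℝ}
    (hF : ContinuousOn (fun z : ℝ × V => F z.1 z.2) (Ioo 0 T ×ˢ univ))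
    (hp : ∀ t ∈ Ioo 0 T, Per (F t)) {a b : ℝ} (ha : 0 < a) (hb : b < T) :
    ∃ C, 0 ≤ C ∧ ∀ t ∈ Icc a b, ∀ x, |F t x| ≤ C := by
  have hK : IsCompact (Icc a b ×ˢ (cube : Set V)) := isCompact_Icc.prod isCompact_Icc
  have hsub : Icc a b ×ˢ cube ⊆ Ioo 0 T ×ˢ (univ : Set V) :=
    prod_mono (fun s hs => ⟨ha.trans_le hs.1, hs.2.trans_lt hb⟩) (subset_univ _)
  obtain ⟨C, hC⟩ := hK.exists_bound_of_continuousOn (hF.mono hsub)
  refine ⟨|C|, abs_nonneg _, fun t ht x => ?_⟩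
  set m : K3 := fun i => -⌊x i⌋ with hm
  have htT : t ∈ Ioo 0 T := ⟨ha.trans_le ht.1, ht.2.trans_lt hb⟩
  have h1 : F t (x + fun i => (m i : ℝ)) = F t x := (hp t htT).int m x
  have h2 : (x + fun i => (m i : ℝ)) ∈ cube := by
    constructor
    · intro i
      have := Int.floor_le (x i)
      simp only [hm, Pi.zero_apply, Pi.add_apply]
      push_cast
      linarith
    · intro i
      have := Int.lt_floor_add_one (x i)
      simp only [hm, Pi.one_apply, Pi.add_apply]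
      push_cast
      linarith
  rw [← h1]
  exact (hC (t, _) ⟨ht, h2⟩).trans (le_abs_self C)

/-- The spatial derivative of a function which is smooth in space-time. -/
theorem pd_eq {T : ℝ} {f : ℝ → V → ℝ} (hf : JS T f) {t : ℝ} (ht : t ∈ Ioo 0 T) (j : Fin 3) (x : V) :
    pd j (f t) x = fderiv ℝ (fun z : ℝ × V => f z.1 z.2) (t, x) (0, Pi.single j 1) := by
  have hmem : Ioo 0 T ×ˢ (univ : Set V) ∈ 𝓝 (t, x) :=
    prod_mem_nhds (Ioo_mem_nhds ht.1 ht.2) Filter.univ_mem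
  have h1 : DifferentiableAt ℝ (fun z : ℝ × V => f z.1 z.2) (t, x) :=
    (hf.contDiffAt hmem).differentiableAt (by norm_cast)
  have h2 : HasFDerivAt (fun y : V => ((t, y) : ℝ × V)) (ContinuousLinearMap.inr ℝ ℝ V) x :=
    hasFDerivAt_prodMk_right t x
  have h3 := h1.hasFDerivAt.comp x h2
  unfold pd
  have h4 : fderiv ℝ (f t) x = _ := h3.fderiv
  rw [h4]
  simp

theorem dt_eq' {T : ℝ} {f : ℝ → V → ℝ} (hf : JS T f) {t : ℝ} (ht : t ∈ Ioo 0 T) (x : V) :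
    dt f t x = fderiv ℝ (fun z : ℝ × V => f z.1 z.2) (t, x) (1, 0) :=
  (hasDerivAt_slice (F := f) (hf.of_le (by norm_cast)) ht x).deriv

theorem cont_dir {T : ℝ} {f : ℝ → V → ℝ} (hf : JS T f) (w : ℝ × V) :
    ContinuousOn (fun z : ℝ × V => fderiv ℝ (fun z : ℝ × V => f z.1 z.2) z w) (Ioo 0 T ×ˢ univ) := by
  have hO : IsOpen (Ioo 0 T ×ˢ (univ : Set V)) := isOpen_Ioo.prod isOpen_univ
  exact (ContDiffOn.continuousOn_fderiv_of_isOpen hf hO (by norm_cast)).clm_apply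
    continuousOn_const

theorem cont_dt {T : ℝ} {f : ℝ → V → ℝ} (hf : JS T f) :
    ContinuousOn (fun z : ℝ × V => dt f z.1 z.2) (Ioo 0 T ×ˢ univ) :=
  (cont_dir hf (1, 0)).congr fun z hz => dt_eq' hf hz.1 z.2

theorem cont_pd {T : ℝ} {f : ℝ → V → ℝ} (hf : JS T f) (j : Fin 3) :
    ContinuousOn (fun z : ℝ × V => pd j (f z.1) z.2) (Ioo 0 T ×ˢ univ) :=
  (cont_dir hf (0, Pi.single j 1)).congr fun z hz => pd_eq hf hz.1 j z.2

theorem per_dt {T : ℝ} {f : ℝ → V → ℝ} (hsp : ∀ t ∈ Ioo 0 T, SP (f t)) {t : ℝ}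
    (ht : t ∈ Ioo 0 T) : Per (dt f t) := by
  intro i x
  unfold dt
  apply Filter.EventuallyEq.deriv_eq
  filter_upwards [Ioo_mem_nhds ht.1 ht.2] with s hs
  exact (hsp s hs).per i x

theorem cp_dt {T : ℝ} {f : ℝ → V → ℝ} (hf : JS T f) (hsp : ∀ t ∈ Ioo 0 T, SP (f t)) {t : ℝ}
    (ht : t ∈ Ioo 0 T) : CP (dt f t) := by
  refine ⟨?_, per_dt hsp ht⟩
  have := (cont_dt hf).comp_continuous (f := fun x : V => ((t, x) : ℝ × V)) (by fun_prop)
    (fun x => ⟨ht, mem_univ _⟩)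
  exact this

theorem sh_eq (c : ℝ) (x : V) (ξ : ℝ × ℝ) :
    sh c x ξ = x + (c * ξ.1) • (Pi.single 0 1 : V) + (c * ξ.2) • (Pi.single 1 1 : V) := by
  unfold sh
  congr 1
  · congr 1
    rw [← Pi.single_smul, smul_eq_mul, mul_one]
  · rw [← Pi.single_smul, smul_eq_mul, mul_one]

/-- The chain rule. -/
theorem chain {T : ℝ} {f : ℝ → V → ℝ} (hf : JS T f) {r : ℝ} (hr : r ∈ Ioo 0 T) {c : ℝ → ℝ} {c' : ℝ}
    (hc : HasDerivAt c c' r) (x : V) (ξ : ℝ × ℝ) :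
    HasDerivAt (fun r => f r (sh (c r) x ξ)) (dt f r (sh (c r) x ξ)
      + c' * (ξ.1 * pd 0 (f r) (sh (c r) x ξ) + ξ.2 * pd 1 (f r) (sh (c r) x ξ))) r := by
  have hmem : Ioo 0 T ×ˢ (univ : Set V) ∈ 𝓝 (r, sh (c r) x ξ) :=
    prod_mem_nhds (Ioo_mem_nhds hr.1 hr.2) Filter.univ_mem
  have h1 : DifferentiableAt ℝ (fun z : ℝ × V => f z.1 z.2) (r, sh (c r) x ξ) :=
    (hf.contDiffAt hmem).differentiableAt (by norm_cast)
  have h2 : HasDerivAt (fun r => sh (c r) x ξ)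
      ((c' * ξ.1) • (Pi.single 0 1 : V) + (c' * ξ.2) • (Pi.single 1 1 : V)) r := by
    have e : (fun r => sh (c r) x ξ) = fun r => x + (c r * ξ.1) • (Pi.single 0 1 : V)
        + (c r * ξ.2) • (Pi.single 1 1 : V) := funext fun r => sh_eq _ _ _
    rw [e]
    exact (((hc.mul_const ξ.1).smul_const _).const_add x).add ((hc.mul_const ξ.2).smul_const _)
  have h3 : HasDerivAt (fun r => ((r, sh (c r) x ξ) : ℝ × V))
      (1, (c' * ξ.1) • (Pi.single 0 1 : V) + (c' * ξ.2) • (Pi.single 1 1 : V)) r :=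
    (hasDerivAt_id r).prodMk h2
  have h4 := h1.hasFDerivAt.comp_hasDerivAt r h3
  refine HasDerivAt.congr_deriv h4 ?_
  rw [dt_eq' hf hr, pd_eq hf hr, pd_eq hf hr]
  have e : ((1, (c' * ξ.1) • (Pi.single 0 1 : V) + (c' * ξ.2) • (Pi.single 1 1 : V)) : ℝ × V)
      = (1, 0) + (c' * ξ.1) • (0, (Pi.single 0 1 : V)) + (c' * ξ.2) • (0, (Pi.single 1 1 : V)) := by
    ext <;> simp
  rw [e, map_add, map_add, map_smul, map_smul, smul_eq_mul, smul_eq_mul]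
  ring

theorem t (g0 : G0) : Pool.Agent.H4NI.G2 := by
  intro T f hf hsp c c' s hs hc hc' x
  obtain ⟨a, ha1, ha2⟩ := exists_between hs.1
  obtain ⟨b, hb1, hb2⟩ := exists_between hs.2
  have hab : ∀ r ∈ Icc a b, r ∈ Ioo 0 T := fun r hr => ⟨ha1.trans_le hr.1, hr.2.trans_lt hb2⟩
  obtain ⟨B0, hB0, hb0⟩ := bd (cont_dt hf) (fun t ht => per_dt hsp ht) ha1 hb2
  obtain ⟨B1, hB1, hb1'⟩ := bd (cont_pd hf 0) (fun t ht => ((hsp t ht).pd 0).per) ha1 hb2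
  obtain ⟨B2, hB2, hb2'⟩ := bd (cont_pd hf 1) (fun t ht => ((hsp t ht).pd 1).per) ha1 hb2
  have hbc : ∀ᶠ r in 𝓝 s, |c' r| ≤ |c' s| + 1 := by
    have : ∀ᶠ r in 𝓝 s, |c' r| < |c' s| + 1 :=
      (hc'.abs).eventually (Iio_mem_nhds (by linarith))
    exact this.mono fun r hr => hr.le
  have hI : ∀ᶠ r in 𝓝 s, r ∈ Icc a b := Icc_mem_nhds ha2 hb1
  have hS : {r | r ∈ Icc a b ∧ HasDerivAt c (c' r) r ∧ |c' r| ≤ |c' s| + 1} ∈ 𝓝 s :=
    hI.and (hc.and hbc)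
  have hg : ∀ ξ, 0 ≤ gs ξ := fun ξ => by unfold gs; positivity
  have cp1 : CP (fun _ : V => (1 : ℝ)) := CP.const 1
  have i0 := (g0.2 0 (fun _ => 1) x cp1).1 (fun _ => 1) continuous_const
    (fun ξ => by rw [abs_one]; have := abs_nonneg ξ.1; have := abs_nonneg ξ.2; linarith)
  have i1 := (g0.2 0 (fun _ => 1) x cp1).1 (fun ξ => |ξ.1|) (by fun_prop)
    (fun ξ => by rw [abs_abs]; have := abs_nonneg ξ.1; have := abs_nonneg ξ.2; linarith)
  have i2 := (g0.2 0 (fun _ => 1) x cp1).1 (fun ξ => |ξ.2|) (by fun_prop)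
    (fun ξ => by rw [abs_abs]; have := abs_nonneg ξ.1; have := abs_nonneg ξ.2; linarith)
  have j0 := (g0.2 (c s) (dt f s) x (cp_dt hf hsp hs)).1 (fun _ => 1) continuous_const
    (fun ξ => by rw [abs_one]; have := abs_nonneg ξ.1; have := abs_nonneg ξ.2; linarith)
  have j1 := (g0.2 (c s) (pd 0 (f s)) x (cp_of ((hsp s hs).pd 0))).1 (fun ξ => ξ.1) (by fun_prop)
    (fun ξ => by have := abs_nonneg ξ.1; have := abs_nonneg ξ.2; linarith)
  have j2 := (g0.2 (c s) (pd 1 (f s)) x (cp_of ((hsp s hs).pd 1))).1 (fun ξ => ξ.2) (by fun_prop)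
    (fun ξ => by have := abs_nonneg ξ.1; have := abs_nonneg ξ.2; linarith)
  have j12 : Integrable (fun ξ : ℝ × ℝ => c' s * (gs ξ.1 * gs ξ.2 * ξ.1 * pd 0 (f s) (sh (c s) x ξ)) +
      c' s * (gs ξ.1 * gs ξ.2 * ξ.2 * pd 1 (f s) (sh (c s) x ξ))) :=
    (j1.const_mul _).add (j2.const_mul _)
  have eF : (fun ξ : ℝ × ℝ => gs ξ.1 * gs ξ.2 * (dt f s (sh (c s) x ξ)
      + c' s * (ξ.1 * pd 0 (f s) (sh (c s) x ξ) + ξ.2 * pd 1 (f s) (sh (c s) x ξ)))) =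
      fun ξ => gs ξ.1 * gs ξ.2 * 1 * dt f s (sh (c s) x ξ) +
        (c' s * (gs ξ.1 * gs ξ.2 * ξ.1 * pd 0 (f s) (sh (c s) x ξ)) +
          c' s * (gs ξ.1 * gs ξ.2 * ξ.2 * pd 1 (f s) (sh (c s) x ξ))) := by
    funext ξ
    ring
  have key := (hasDerivAt_integral_of_dominated_loc_of_deriv_le (𝕜 := ℝ) (μ := (volume : Measure (ℝ × ℝ)))
    (s := {r | r ∈ Icc a b ∧ HasDerivAt c (c' r) r ∧ |c' r| ≤ |c' s| + 1}) (x₀ := s)
    (F := fun r ξ => gs ξ.1 * gs ξ.2 * 1 * f r (sh (c r) x ξ))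
    (F' := fun r ξ => gs ξ.1 * gs ξ.2 * (dt f r (sh (c r) x ξ)
      + c' r * (ξ.1 * pd 0 (f r) (sh (c r) x ξ) + ξ.2 * pd 1 (f r) (sh (c r) x ξ))))
    (bound := fun ξ => B0 * (gs ξ.1 * gs ξ.2 * 1 * 1) + (|c' s| + 1) * (B1 * (gs ξ.1 * gs ξ.2 * |ξ.1| * 1) +
      B2 * (gs ξ.1 * gs ξ.2 * |ξ.2| * 1))) hS ?_ ?_ ?_ ?_ ?_ ?_).2
  · refine HasDerivAt.congr_deriv key ?_
    show ∫ ξ : ℝ × ℝ, gs ξ.1 * gs ξ.2 * (dt f s (sh (c s) x ξ)
      + c' s * (ξ.1 * pd 0 (f s) (sh (c s) x ξ) + ξ.2 * pd 1 (f s) (sh (c s) x ξ))) = _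
    rw [eF, integral_add j0 j12,
      integral_add (j1.const_mul _) (j2.const_mul _), integral_const_mul, integral_const_mul]
    unfold GG
    ring
  · filter_upwards [Ioo_mem_nhds hs.1 hs.2] with r hr
    exact ((g0.2 (c r) (f r) x (cp_of (hsp r hr))).1 (fun _ => 1) continuous_const
      (fun ξ => by rw [abs_one]; have := abs_nonneg ξ.1; have := abs_nonneg ξ.2; linarith)).1
  · exact (g0.2 (c s) (f s) x (cp_of (hsp s hs))).1 (fun _ => 1) continuous_const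
      (fun ξ => by rw [abs_one]; have := abs_nonneg ξ.1; have := abs_nonneg ξ.2; linarith)
  · show AEStronglyMeasurable (fun ξ : ℝ × ℝ => gs ξ.1 * gs ξ.2 * (dt f s (sh (c s) x ξ)
      + c' s * (ξ.1 * pd 0 (f s) (sh (c s) x ξ) + ξ.2 * pd 1 (f s) (sh (c s) x ξ)))) volume
    rw [eF]
    exact (j0.add j12).1
  · refine Filter.Eventually.of_forall fun ξ r hr => ?_
    obtain ⟨hr1, hr2, hr3⟩ := hr
    have a0 := hb0 r hr1 (sh (c r) x ξ)
    have a1 := hb1' r hr1 (sh (c r) x ξ)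
    have a2 := hb2' r hr1 (sh (c r) x ξ)
    rw [Real.norm_eq_abs, abs_mul, abs_of_nonneg (mul_nonneg (hg _) (hg _))]
    have h1 : |dt f r (sh (c r) x ξ) + c' r * (ξ.1 * pd 0 (f r) (sh (c r) x ξ)
        + ξ.2 * pd 1 (f r) (sh (c r) x ξ))| ≤ B0 + (|c' s| + 1) * (|ξ.1| * B1 + |ξ.2| * B2) := by
      refine (abs_add_le _ _).trans (add_le_add a0 ?_)
      rw [abs_mul]
      refine mul_le_mul hr3 ?_ (abs_nonneg _) (by positivity)
      refine (abs_add_le _ _).trans (add_le_add ?_ ?_)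
      · rw [abs_mul]
        exact mul_le_mul_of_nonneg_left a1 (abs_nonneg _)
      · rw [abs_mul]
        exact mul_le_mul_of_nonneg_left a2 (abs_nonneg _)
    refine (mul_le_mul_of_nonneg_left h1 (mul_nonneg (hg _) (hg _))).trans (le_of_eq ?_)
    ring
  · exact (i0.const_mul B0).add (((i1.const_mul B1).add (i2.const_mul B2)).const_mul _)
  · refine Filter.Eventually.of_forall fun ξ r hr => ?_
    obtain ⟨hr1, hr2, hr3⟩ := hr
    have h := (chain hf (hab r hr1) hr2 x ξ).const_mul (gs ξ.1 * gs ξ.2)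
    have e : (fun r => gs ξ.1 * gs ξ.2 * 1 * f r (sh (c r) x ξ)) =
        fun r => gs ξ.1 * gs ξ.2 * f r (sh (c r) x ξ) := by
      funext r
      ring
    rw [e]
    exact h

end Pool.Agent.H4NI.G2
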