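import Pool.Agent.H4NI.StmG

/-!
Project NCI (helper4), stub G3 (helper67): the Gaussian average tends to the function at the final time.
-/

set_option autoImplicit false

open MeasureTheory Set Function Filter Topology
open scoped ENNReal ContDiff

namespace Pool.Agent.H4NI.G3

open H459R3.NS H4LA H4NC

/-- the functions `f s` are uniformly bounded for `s` near `t` -/
lemma bdd_near {T : ℝ} {f : ℝ → V → ℝ} (hf : JS T f) (hsp : ∀ t ∈ Ioo 0 T, SP (f t)) {t : ℝ}
    (ht : t ∈ Ioo 0 T) : ∃ B : ℝ, ∀ᶠ s in 𝓝 t, s ∈ Ioo 0 T ∧ ∀ y, |f s y| ≤ B := by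
  obtain ⟨a, ha0, hat⟩ := exists_between ht.1
  obtain ⟨b, htb, hbT⟩ := exists_between ht.2
  have hK : IsCompact (Icc a b ×ˢ (cube : Set V)) := isCompact_Icc.prod isCompact_Icc
  have hsub : Icc a b ×ˢ (cube : Set V) ⊆ Ioo 0 T ×ˢ univ := by
    rintro ⟨s, y⟩ h
    exact ⟨⟨ha0.trans_le h.1.1, h.1.2.trans_lt hbT⟩, mem_univ _⟩
  have hc : ContinuousOn (fun z : ℝ × V => f z.1 z.2) (Icc a b ×ˢ (cube : Set V)) :=
    (ContDiffOn.continuousOn hf).mono hsub
  obtain ⟨B, hB⟩ := hK.exists_bound_of_continuousOn hc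
  refine ⟨B, ?_⟩
  filter_upwards [Ioo_mem_nhds hat htb] with s hs
  have hsT : s ∈ Ioo 0 T := ⟨ha0.trans hs.1, hs.2.trans hbT⟩
  refine ⟨hsT, fun x => ?_⟩
  set m : K3 := fun i => -⌊x i⌋ with hm
  have h1 : f s (x + fun i => (m i : ℝ)) = f s x := (hsp s hsT).per.int m x
  have h2 : (x + fun i => (m i : ℝ)) ∈ cube := by
    constructor
    · intro i
      have := Int.floor_le (x i)
      simp only [hm, Pi.zero_apply, Pi.add_apply]
      push_cast
      linarith
    · intro i
      have := Int.lt_floor_add_one (x i)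
      simp only [hm, Pi.one_apply, Pi.add_apply]
      push_cast
      linarith
  rw [← h1]
  exact hB (s, _) ⟨⟨hs.1.le, hs.2.le⟩, h2⟩

lemma cont_gs : Continuous gs := by
  unfold gs
  fun_prop

lemma cont_sh : Continuous fun q : ℝ × (ℝ × ℝ) × V => sh q.1 q.2.2 q.2.1 := by
  unfold sh
  refine (continuous_snd.snd.add ?_).add ?_
  · refine continuous_pi fun i => ?_
    by_cases hi : i = 0
    · subst hi
      simp only [Pi.single_eq_same]
      fun_prop
    · simp only [Pi.single_eq_of_ne hi]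
      fun_prop
  · refine continuous_pi fun i => ?_
    by_cases hi : i = 1
    · subst hi
      simp only [Pi.single_eq_same]
      fun_prop
    · simp only [Pi.single_eq_of_ne hi]
      fun_prop

theorem t (h0 : G0) : G3 := by
  intro T f hf hsp c t ht hct hc x
  obtain ⟨⟨hgi, hg1⟩, -⟩ := h0
  obtain ⟨B, hB⟩ := bdd_near hf hsp ht
  have hgg : Integrable (fun ξ : ℝ × ℝ => gs ξ.1 * gs ξ.2) := hgi.mul_prod hgi
  have hgpos : ∀ ξ, 0 ≤ gs ξ := by
    intro ξ
    unfold gs
    positivity
  have hlim : ∫ ξ : ℝ × ℝ, gs ξ.1 * gs ξ.2 * 1 * f t x = f t x := by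
    have h1 : ∫ ξ : ℝ × ℝ, gs ξ.1 * gs ξ.2 = 1 := by
      rw [Measure.volume_eq_prod, integral_prod_mul, hg1, mul_one]
    rw [integral_mul_const]
    simp only [mul_one]
    rw [h1, one_mul]
  unfold GG
  rw [← hlim]
  refine tendsto_integral_filter_of_dominated_convergence (fun ξ => B * (gs ξ.1 * gs ξ.2)) ?_ ?_
    (hgg.const_mul B) ?_
  · filter_upwards [nhdsWithin_le_nhds hB] with s hs
    have h1 : Continuous (f s) := (hsp s hs.1).cont
    have h2 : Continuous fun ξ : ℝ × ℝ => sh (c s) x ξ :=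
      cont_sh.comp (continuous_const.prodMk (continuous_id.prodMk continuous_const))
    exact ((((cont_gs.comp continuous_fst).mul (cont_gs.comp continuous_snd)).mul continuous_const).mul
      (h1.comp h2)).aestronglyMeasurable
  · filter_upwards [nhdsWithin_le_nhds hB] with s hs
    refine Eventually.of_forall fun ξ => ?_
    have h1 := hgpos ξ.1
    have h2 := hgpos ξ.2
    rw [Real.norm_eq_abs, mul_one, abs_mul, abs_of_nonneg (mul_nonneg h1 h2), mul_comm]
    exact mul_le_mul_of_nonneg_right (hs.2 _) (mul_nonneg h1 h2)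
  · refine Eventually.of_forall fun ξ => ?_
    refine Tendsto.mul tendsto_const_nhds ?_
    have h1 : ContinuousAt (fun z : ℝ × V => f z.1 z.2) (t, x) :=
      (ContDiffOn.continuousOn hf).continuousAt ((js_open T).mem_nhds ⟨ht, mem_univ _⟩)
    have h2 : Tendsto (fun s => (s, sh (c s) x ξ)) (𝓝[<] t) (𝓝 (t, x)) := by
      refine Tendsto.prodMk_nhds (tendsto_id.mono_left nhdsWithin_le_nhds) ?_
      have h3 : Continuous fun a : ℝ => sh a x ξ :=
        cont_sh.comp (continuous_id.prodMk (continuous_const (y := (ξ, x))))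
      have h4 : sh (c t) x ξ = x := by
        unfold sh
        rw [hct]
        simp
      have h5 : Tendsto (fun s => sh (c s) x ξ) (𝓝 t) (𝓝 (sh (c t) x ξ)) :=
        (h3.continuousAt (x := c t)).tendsto.comp hc
      rw [h4] at h5
      exact h5.mono_left nhdsWithin_le_nhds
    exact h1.tendsto.comp h2

end Pool.Agent.H4NI.G3
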