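import Pool.Agent.H4NI.StmG

/-!
Project NCI, stub G4: Duhamel's formula.
-/

set_option autoImplicit false

open MeasureTheory Set Function Filter Topology
open scoped ENNReal ContDiff

namespace Pool.Agent.H4NI.G4

open H459R3.NS H4LA H4NC

theorem gs_nonneg (ξ : ℝ) : 0 ≤ gs ξ := by
  unfold gs
  positivity

theorem one_w (ξ : ℝ × ℝ) : |(1 : ℝ)| ≤ 1 + |ξ.1| + |ξ.2| := by
  rw [abs_one]
  have h1 := abs_nonneg ξ.1
  have h2 := abs_nonneg ξ.2
  linarith

theorem int1 (h0 : G0) (c : ℝ) {f : V → ℝ} (x : V) (hf : CP f) :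
    Integrable (fun ξ : ℝ × ℝ => gs ξ.1 * gs ξ.2 * (fun _ : ℝ × ℝ => (1 : ℝ)) ξ * f (sh c x ξ)) :=
  (h0.2 c f x hf).1 (fun _ => 1) continuous_const one_w

/-- linearity -/
theorem GG_lin (h0 : G0) (c ν : ℝ) (x : V) {a b p q : V → ℝ} (ha : CP a) (hb : CP b) (hp : CP p) (hq : CP q) :
    GG c (fun _ => 1) (fun y => ν * (a y + b y) - p y - q y) x =
      ν * (GG c (fun _ => 1) a x + GG c (fun _ => 1) b x) - GG c (fun _ => 1) p x - GG c (fun _ => 1) q x := by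
  have ia := int1 h0 c x ha
  have ib := int1 h0 c x hb
  have ip := int1 h0 c x hp
  have iq := int1 h0 c x hq
  have key : ∀ A B P Q : ℝ × ℝ → ℝ, Integrable A → Integrable B → Integrable P → Integrable Q →
      ∫ ξ : ℝ × ℝ, (ν * (A ξ + B ξ) - P ξ - Q ξ) =
        ν * ((∫ ξ, A ξ) + ∫ ξ, B ξ) - (∫ ξ, P ξ) - ∫ ξ, Q ξ := by
    intro A B P Q iA iB iP iQ
    have h1 : Integrable (fun ξ => A ξ + B ξ) := iA.add iB
    have h2 : Integrable (fun ξ => ν * (A ξ + B ξ)) := h1.const_mul ν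
    have h3 : Integrable (fun ξ => ν * (A ξ + B ξ) - P ξ) := h2.sub iP
    rw [integral_sub h3 iQ, integral_sub h2 iP, integral_const_mul, integral_add iA iB]
  have e2 := key _ _ _ _ ia ib ip iq
  unfold GG
  rw [← e2]
  refine integral_congr_ae (Eventually.of_forall fun ξ => ?_)
  simp only
  ring

theorem GG_abs (c : ℝ) (w : ℝ × ℝ → ℝ) (f : V → ℝ) (x : V) :
    |GG c w f x| ≤ GG c (fun ξ => |w ξ|) (fun y => |f y|) x := by
  unfold GG
  refine (abs_integral_le_integral_abs).trans (le_of_eq ?_)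
  refine integral_congr_ae (Eventually.of_forall fun ξ => ?_)
  simp only [abs_mul, abs_of_nonneg (gs_nonneg _)]

/-- the fundamental theorem with a lower integral -/
theorem ftc {Φ : ℝ → ℝ} {t0 t1 : ℝ} (h01 : t0 ≤ t1) {b : ℝ → ℝ≥0∞}
    (hd : ∀ s ∈ Icc t0 t1, DifferentiableAt ℝ Φ s) (hb : ∀ s ∈ Ioo t0 t1, ENNReal.ofReal |deriv Φ s| ≤ b s) :
    ENNReal.ofReal |Φ t1 - Φ t0| ≤ ∫⁻ s in Ioo t0 t1, b s := by
  have hm : Measurable (deriv Φ) := measurable_deriv Φ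
  have h1 : ∫⁻ s in Ioo t0 t1, ENNReal.ofReal |deriv Φ s| ≤ ∫⁻ s in Ioo t0 t1, b s := by
    refine lintegral_mono_ae ?_
    filter_upwards [ae_restrict_mem measurableSet_Ioo] with s hs
    exact hb s hs
  refine le_trans ?_ h1
  by_cases hfin : ∫⁻ s in Ioo t0 t1, ENNReal.ofReal |deriv Φ s| = ⊤
  · rw [hfin]
    exact le_top
  · have hI : IntegrableOn (deriv Φ) (Ioo t0 t1) := by
      refine ⟨hm.aestronglyMeasurable, ?_⟩
      rw [hasFiniteIntegral_iff_norm]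
      simp only [Real.norm_eq_abs]
      exact lt_top_iff_ne_top.mpr hfin
    have hII : IntervalIntegrable (deriv Φ) volume t0 t1 := by
      rw [intervalIntegrable_iff_integrableOn_Ioo_of_le h01]
      exact hI
    have h2 : ∫ s in t0..t1, deriv Φ s = Φ t1 - Φ t0 := by
      refine intervalIntegral.integral_eq_sub_of_hasDerivAt (fun s hs => ?_) hII
      rw [uIcc_of_le h01] at hs
      exact (hd s hs).hasDerivAt
    rw [← h2, intervalIntegral.integral_of_le h01, integral_Ioc_eq_integral_Ioo]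
    have h3 := ENNReal.ofReal_le_ofReal (abs_integral_le_integral_abs (μ := volume.restrict (Ioo t0 t1)) (f := deriv Φ))
    refine h3.trans ?_
    rw [ofReal_integral_eq_lintegral_ofReal hI.abs (Eventually.of_forall fun s => abs_nonneg _)]

section

variable {ν t : ℝ}

theorem c_deriv (hν : 0 < ν) {s : ℝ} (hs : s < t) :
    HasDerivAt (fun r => √(2 * ν * (t - r))) (-ν / √(2 * ν * (t - s))) s := by
  have h1 : HasDerivAt (fun r => 2 * ν * (t - r)) (2 * ν * (0 - 1)) s :=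
    ((hasDerivAt_const s t).sub (hasDerivAt_id s)).const_mul (2 * ν)
  have h2 : (0 : ℝ) < 2 * ν * (t - s) := by
    have : 0 < t - s := by linarith
    positivity
  have h3 := h1.sqrt h2.ne'
  convert h3 using 1
  field_simp
  ring

theorem cp_cont (hν : 0 < ν) {s : ℝ} (hs : s < t) : ContinuousAt (fun r => -ν / √(2 * ν * (t - r))) s := by
  have h2 : (0 : ℝ) < 2 * ν * (t - s) := by
    have : 0 < t - s := by linarith
    positivity
  refine ContinuousAt.div continuousAt_const ?_ (Real.sqrt_pos.mpr h2).ne'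
  fun_prop

theorem c_pos (hν : 0 < ν) {s : ℝ} (hs : s < t) : 0 < √(2 * ν * (t - s)) := by
  have : 0 < t - s := by linarith
  exact Real.sqrt_pos.mpr (by positivity)

end

theorem t (h0 : G0) (h1 : G1) (h2 : G2) (h3 : G3) : G4 := by
  intro ν T f F0 F1 hν hJ hS heq t0 t ht0 ht0t htT x A hA b hb
  set c : ℝ → ℝ := fun s => √(2 * ν * (t - s)) with hc
  set Φ : ℝ → ℝ := fun s => GG (c s) (fun _ => 1) (f s) x with hΦ
  have hSf : ∀ s ∈ Ioo 0 T, SP (f s) := fun s hs => (hS s hs).1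
  -- the derivative
  have hder : ∀ s ∈ Ioo 0 t, HasDerivAt Φ
      (-(c s)⁻¹ * (GG (c s) (fun ξ => ξ.1) (F0 s) x + GG (c s) (fun ξ => ξ.2) (F1 s) x)) s := by
    intro s hs
    have hsT : s ∈ Ioo 0 T := ⟨hs.1, hs.2.trans htT⟩
    obtain ⟨hf, hF0, hF1⟩ := hS s hsT
    have hcs : 0 < c s := c_pos hν hs.2
    have hd := h2 T f hJ hSf c (fun r => -ν / c r) s hsT
      (by
        filter_upwards [Iio_mem_nhds hs.2] with r hr
        exact c_deriv hν hr) (cp_cont hν hs.2) x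
    have e1 := (h1 (c s) (pd 0 (f s)) x (hf.pd 0)).1
    have e2 := (h1 (c s) (pd 1 (f s)) x (hf.pd 1)).2
    have e3 := (h1 (c s) (F0 s) x hF0).1
    have e4 := (h1 (c s) (F1 s) x hF1).2
    have e5 : dt f s = fun y => ν * (pd 0 (pd 0 (f s)) y + pd 1 (pd 1 (f s)) y)
        - pd 0 (F0 s) y - pd 1 (F1 s) y := by
      funext y
      exact heq s hsT y
    have e6 := GG_lin h0 (c s) ν x (cp_of ((hf.pd 0).pd 0)) (cp_of ((hf.pd 1).pd 1)) (cp_of (hF0.pd 0))
      (cp_of (hF1.pd 1))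
    convert hd using 1
    rw [e5, e6, e1, e2, e3, e4]
    field_simp
    ring
  have hdiff : ∀ s ∈ Ioo 0 t, DifferentiableAt ℝ Φ s := fun s hs => (hder s hs).differentiableAt
  have hbd : ∀ s ∈ Ioo t0 t, ENNReal.ofReal |deriv Φ s| ≤ b s := by
    intro s hs
    have hs0 : s ∈ Ioo 0 t := ⟨ht0.trans hs.1, hs.2⟩
    have hcs : 0 < c s := c_pos hν hs.2
    refine le_trans (ENNReal.ofReal_le_ofReal ?_) (hb s hs)
    rw [(hder s hs0).deriv, abs_mul, abs_neg, abs_of_pos (inv_pos.mpr hcs)]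
    refine mul_le_mul_of_nonneg_left ?_ (inv_pos.mpr hcs).le
    refine (abs_add_le _ _).trans ?_
    exact add_le_add (GG_abs _ _ _ _) (GG_abs _ _ _ _)
  have hmain : ∀ t1 ∈ Ioo t0 t, ENNReal.ofReal |Φ t1| ≤ ENNReal.ofReal A + ∫⁻ s in Ioo t0 t, b s := by
    intro t1 ht1
    have a1 := ftc ht1.1.le (b := b) (Φ := Φ)
      (fun s hs => hdiff s ⟨ht0.trans_le hs.1, hs.2.trans_lt ht1.2⟩)
      (fun s hs => hbd s ⟨hs.1, hs.2.trans ht1.2⟩)
    have a2 : ∫⁻ s in Ioo t0 t1, b s ≤ ∫⁻ s in Ioo t0 t, b s :=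
      lintegral_mono_set (Ioo_subset_Ioo le_rfl ht1.2.le)
    have a3 : |Φ t0| ≤ A := (h0.2 (c t0) (f t0) x (cp_of (hSf t0 ⟨ht0, ht0t.trans htT⟩))).2 A hA
    have a4 : |Φ t1| ≤ |Φ t0| + |Φ t1 - Φ t0| := by
      have := abs_add_le (Φ t0) (Φ t1 - Φ t0)
      rwa [add_sub_cancel] at this
    calc ENNReal.ofReal |Φ t1| ≤ ENNReal.ofReal (|Φ t0| + |Φ t1 - Φ t0|) := ENNReal.ofReal_le_ofReal a4
      _ ≤ ENNReal.ofReal |Φ t0| + ENNReal.ofReal |Φ t1 - Φ t0| := ENNReal.ofReal_add_le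
      _ ≤ _ := add_le_add (ENNReal.ofReal_le_ofReal a3) (a1.trans a2)
  have hct : c t = 0 := by
    simp [hc]
  have hcc : ContinuousAt c t := by
    simp only [hc]
    fun_prop
  have hlim := h3 T f hJ hSf c t ⟨ht0.trans ht0t, htT⟩ hct hcc x
  have hlim2 : Tendsto (fun s => ENNReal.ofReal |Φ s|) (𝓝[<] t) (𝓝 (ENNReal.ofReal |f t x|)) :=
    (ENNReal.continuous_ofReal.tendsto _).comp ((continuous_abs.tendsto _).comp hlim)
  refine le_of_tendsto hlim2 ?_
  filter_upwards [Ioo_mem_nhdsLT ht0t] with s hs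
  exact hmain s hs

end Pool.Agent.H4NI.G4
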