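import Pool.Agent.H4NI.StmG

/-!
Stub G5 of project NCI: the Gaussian average of a periodic function of one variable.
-/

set_option autoImplicit false

open MeasureTheory Set Function Filter Topology
open scoped ENNReal ContDiff

namespace Pool.Agent.H4NI.G5

theorem gs_nonneg (ξ : ℝ) : 0 ≤ gs ξ := by unfold gs; positivity

theorem gs_le (n : ℤ) (ξ : ℝ) (h : ξ ∈ Ioc (n : ℝ) (n + 1)) :
    gs ξ ≤ Real.exp 2 * Real.exp (-|(n : ℝ)|) := by
  have h1 : (√(2 * Real.pi))⁻¹ ≤ 1 := by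
    apply inv_le_one_of_one_le₀
    rw [Real.one_le_sqrt]
    have := Real.pi_gt_three
    linarith
  have h2 : Real.exp (-(ξ ^ 2 / 2)) ≤ Real.exp 2 * Real.exp (-|(n : ℝ)|) := by
    rw [← Real.exp_add]
    apply Real.exp_le_exp.mpr
    have h3 : |(n : ℝ)| ≤ |ξ| + 1 := by
      have e1 : |(n : ℝ) - ξ| ≤ 1 := by
        rw [abs_le]
        constructor <;> linarith [h.1, h.2]
      have e2 := abs_add_le ((n : ℝ) - ξ) ξ
      rw [sub_add_cancel] at e2
      linarith
    have h4 : |ξ| ≤ ξ ^ 2 / 2 + 1 / 2 := by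
      have : 0 ≤ (|ξ| - 1) ^ 2 := sq_nonneg _
      have e : |ξ| ^ 2 = ξ ^ 2 := sq_abs ξ
      nlinarith
    linarith
  unfold gs
  calc (√(2 * Real.pi))⁻¹ * Real.exp (-(ξ ^ 2 / 2)) ≤ 1 * Real.exp (-(ξ ^ 2 / 2)) :=
        mul_le_mul_of_nonneg_right h1 (Real.exp_pos _).le
    _ = Real.exp (-(ξ ^ 2 / 2)) := one_mul _
    _ ≤ _ := h2

theorem summ : Summable (fun n : ℤ => Real.exp 2 * Real.exp (-|(n : ℝ)|)) := by
  apply Summable.mul_left
  have h1 := Real.summable_exp_neg_nat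
  apply Summable.of_nat_of_neg
  · refine h1.congr fun n => ?_
    simp
  · refine h1.congr fun n => ?_
    simp

theorem unit_bound (c a : ℝ) (h : ℝ → ℝ) (hc : 0 < c) (hcont : Continuous h)
    (hper : ∀ y, h (y + 1) = h y) (hpos : ∀ y, 0 ≤ h y) (x : ℝ) :
    ∫⁻ ξ in Ioc x (x + 1), ENNReal.ofReal (h (a + c * ξ)) ≤
      ENNReal.ofReal ((1 + 1 / c) * ∫ y in Icc (0 : ℝ) 1, h y) := by
  have hp : Function.Periodic h 1 := hper
  have hc' : Continuous fun ξ => h (a + c * ξ) := by fun_prop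
  have hI : ∀ u v : ℝ, IntervalIntegrable h volume u v := fun u v => hcont.intervalIntegrable _ _
  rw [← ofReal_integral_eq_lintegral_ofReal]
  · apply ENNReal.ofReal_le_ofReal
    rw [← intervalIntegral.integral_of_le (by linarith : x ≤ x + 1)]
    have e1 : ∫ ξ in x..(x + 1), h (a + c * ξ) = c⁻¹ * ∫ u in (a + c * x)..(a + c * (x + 1)), h u := by
      rw [intervalIntegral.integral_comp_add_mul h hc.ne', smul_eq_mul]
    have e2 : ∫ u in (a + c * x)..(a + c * (x + 1)), h u ≤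
        ∫ u in (a + c * x)..(a + c * x + (⌈c⌉ : ℤ) • (1 : ℝ)), h u := by
      apply intervalIntegral.integral_mono_interval le_rfl
      · nlinarith
      · have := Int.le_ceil c
        rw [zsmul_eq_mul, mul_one]
        linarith
      · exact Filter.Eventually.of_forall fun y => hpos y
      · exact hI _ _
    rw [hp.intervalIntegral_add_zsmul_eq _ _ hI, hp.intervalIntegral_add_eq _ 0, zero_add] at e2
    have e3 : ∫ y in Icc (0 : ℝ) 1, h y = ∫ y in (0 : ℝ)..1, h y := by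
      rw [intervalIntegral.integral_of_le zero_le_one, integral_Icc_eq_integral_Ioc]
    have e4 : 0 ≤ ∫ y in (0 : ℝ)..1, h y :=
      intervalIntegral.integral_nonneg zero_le_one fun y _ => hpos y
    rw [e1, e3]
    rw [zsmul_eq_mul] at e2
    have e5 : (⌈c⌉ : ℝ) ≤ c + 1 := (Int.ceil_lt_add_one c).le
    calc c⁻¹ * ∫ u in (a + c * x)..(a + c * (x + 1)), h u
        ≤ c⁻¹ * ((⌈c⌉ : ℝ) * ∫ y in (0 : ℝ)..1, h y) :=
          mul_le_mul_of_nonneg_left e2 (inv_nonneg.mpr hc.le)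
      _ ≤ c⁻¹ * ((c + 1) * ∫ y in (0 : ℝ)..1, h y) :=
          mul_le_mul_of_nonneg_left (mul_le_mul_of_nonneg_right e5 e4) (inv_nonneg.mpr hc.le)
      _ = _ := by field_simp
  · exact (hc'.integrableOn_Icc (a := x) (b := x + 1)).mono_set Ioc_subset_Icc_self
  · exact Filter.Eventually.of_forall fun y => hpos _

theorem t : Pool.Agent.H4NI.G5 := by
  refine ⟨∑' n : ℤ, Real.exp 2 * Real.exp (-|(n : ℝ)|), summ.tsum_pos (fun n => by positivity) 0
    (by positivity), ?_⟩
  intro c a h hc hcont hper hpos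
  have hI0 : 0 ≤ ∫ y in Icc (0 : ℝ) 1, h y := integral_nonneg fun y => hpos y
  have hgc : Continuous gs := by unfold gs; fun_prop
  have hC0 : 0 ≤ ∑' n : ℤ, Real.exp 2 * Real.exp (-|(n : ℝ)|) :=
    tsum_nonneg fun n => by positivity
  rw [integral_eq_lintegral_of_nonneg_ae
    (Filter.Eventually.of_forall fun ξ => mul_nonneg (gs_nonneg ξ) (hpos _))
    (by
      have : Continuous fun ξ => gs ξ * h (a + c * ξ) := by fun_prop
      exact this.aestronglyMeasurable)]
  apply ENNReal.toReal_le_of_le_ofReal (by positivity)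
  rw [← setLIntegral_univ, ← iUnion_Ioc_intCast ℝ, lintegral_iUnion
    (fun n => measurableSet_Ioc) (pairwise_disjoint_Ioc_intCast ℝ), mul_assoc,
    ENNReal.ofReal_mul hC0, ENNReal.ofReal_tsum_of_nonneg (fun n => by positivity) summ,
    ← ENNReal.tsum_mul_right]
  refine ENNReal.tsum_le_tsum fun n => ?_
  calc ∫⁻ ξ in Ioc (n : ℝ) (n + 1), ENNReal.ofReal (gs ξ * h (a + c * ξ))
      ≤ ∫⁻ ξ in Ioc (n : ℝ) (n + 1), ENNReal.ofReal (Real.exp 2 * Real.exp (-|(n : ℝ)|)) *
          ENNReal.ofReal (h (a + c * ξ)) := by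
        apply setLIntegral_mono' measurableSet_Ioc
        intro ξ hξ
        rw [← ENNReal.ofReal_mul (by positivity)]
        exact ENNReal.ofReal_le_ofReal (mul_le_mul_of_nonneg_right (gs_le n ξ hξ) (hpos _))
    _ = ENNReal.ofReal (Real.exp 2 * Real.exp (-|(n : ℝ)|)) *
          ∫⁻ ξ in Ioc (n : ℝ) (n + 1), ENNReal.ofReal (h (a + c * ξ)) := by
        rw [lintegral_const_mul]
        exact ENNReal.measurable_ofReal.comp (by fun_prop : Measurable fun ξ => h (a + c * ξ))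
    _ ≤ _ := mul_le_mul_right (unit_bound c a h hc hcont hper hpos n) _

end Pool.Agent.H4NI.G5
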