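import Pool.Agent.H4NI.StmG

set_option autoImplicit false
set_option linter.unusedVariables false

open MeasureTheory Set Function Filter Topology
open scoped ENNReal ContDiff

namespace Pool.Agent.H4NI

open H459R3.NS H4LA H4NC

namespace G6

theorem gs_pos (ξ : ℝ) : 0 < gs ξ := by unfold gs; positivity

theorem gs_cont : Continuous gs := by unfold gs; fun_prop

theorem gs_mom {s : ℝ} (hs : 0 ≤ s) : Integrable (fun ξ => gs ξ * |ξ| ^ s) := by
  obtain ⟨n, hn⟩ := exists_nat_ge s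
  have h1 : Integrable (fun ξ : ℝ => Real.exp (-(1/2) * ξ ^ 2)) :=
    integrable_exp_neg_mul_sq (by norm_num)
  have h2 : Integrable (fun ξ : ℝ => ξ ^ ((2 * n : ℕ) : ℝ) * Real.exp (-(1/2) * ξ ^ 2)) :=
    integrable_rpow_mul_exp_neg_mul_sq (by norm_num)
      (lt_of_lt_of_le (by norm_num) (Nat.cast_nonneg _))
  have h3 := (h1.add h2).const_mul (√(2 * Real.pi))⁻¹
  refine h3.mono' ?_ ?_
  · exact (gs_cont.mul (continuous_abs.rpow_const fun _ => Or.inr hs)).aestronglyMeasurable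
  · refine Filter.Eventually.of_forall fun ξ => ?_
    have e1 : Real.exp (-(1/2) * ξ ^ 2) = Real.exp (-(ξ ^ 2 / 2)) := by congr 1; ring
    have h0 : 0 ≤ |ξ| ^ s := Real.rpow_nonneg (abs_nonneg _) _
    rw [Real.norm_of_nonneg (mul_nonneg (gs_pos ξ).le h0)]
    simp only [Pi.add_apply]
    rw [e1, Real.rpow_natCast, pow_mul]
    have h4 : |ξ| ^ s ≤ 1 + (ξ ^ 2) ^ n := by
      have hn0 : 0 ≤ (ξ ^ 2) ^ n := by positivity
      rcases le_or_gt |ξ| 1 with h | h
      · have := Real.rpow_le_one (abs_nonneg ξ) h hs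
        linarith
      · have a1 : |ξ| ^ s ≤ |ξ| ^ ((2 * n : ℕ) : ℝ) := by
          refine Real.rpow_le_rpow_of_exponent_le h.le (hn.trans ?_)
          push_cast
          have : (0 : ℝ) ≤ n := Nat.cast_nonneg n
          linarith
        rw [Real.rpow_natCast, pow_mul, sq_abs] at a1
        linarith
    have h5 : 0 < (√(2 * Real.pi))⁻¹ * Real.exp (-(ξ ^ 2 / 2)) := gs_pos ξ
    unfold gs
    calc (√(2 * Real.pi))⁻¹ * Real.exp (-(ξ ^ 2 / 2)) * |ξ| ^ s
        ≤ (√(2 * Real.pi))⁻¹ * Real.exp (-(ξ ^ 2 / 2)) * (1 + (ξ ^ 2) ^ n) :=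
          mul_le_mul_of_nonneg_left h4 h5.le
      _ = _ := by ring

/-- The Gaussian measure on the plane. -/
noncomputable def gm : Measure (ℝ × ℝ) :=
  volume.withDensity fun ξ => ENNReal.ofReal (gs ξ.1 * gs ξ.2)

theorem meas_dens : Measurable fun ξ : ℝ × ℝ => gs ξ.1 * gs ξ.2 :=
  ((gs_cont.comp continuous_fst).mul (gs_cont.comp continuous_snd)).measurable

theorem int_gm (f : ℝ × ℝ → ℝ) : ∫ ξ, f ξ ∂gm = ∫ ξ : ℝ × ℝ, gs ξ.1 * gs ξ.2 * f ξ := by
  unfold gm
  rw [integral_withDensity_eq_integral_toReal_smul meas_dens.ennreal_ofReal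
    (Filter.Eventually.of_forall fun _ => ENNReal.ofReal_lt_top)]
  refine integral_congr_ae (Filter.Eventually.of_forall fun ξ => ?_)
  simp only [smul_eq_mul]
  rw [ENNReal.toReal_ofReal (mul_pos (gs_pos _) (gs_pos _)).le]

theorem integrable_gm {f : ℝ × ℝ → ℝ} :
    Integrable f gm ↔ Integrable (fun ξ : ℝ × ℝ => gs ξ.1 * gs ξ.2 * f ξ) := by
  unfold gm
  rw [integrable_withDensity_iff_integrable_smul' meas_dens.ennreal_ofReal
    (Filter.Eventually.of_forall fun _ => ENNReal.ofReal_lt_top)]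
  have : (fun ξ : ℝ × ℝ => (ENNReal.ofReal (gs ξ.1 * gs ξ.2)).toReal • f ξ)
      = fun ξ : ℝ × ℝ => gs ξ.1 * gs ξ.2 * f ξ := by
    funext ξ
    rw [ENNReal.toReal_ofReal (mul_pos (gs_pos _) (gs_pos _)).le, smul_eq_mul]
  rw [this]

theorem prod_mom {s : ℝ} (hs : 0 ≤ s) :
    Integrable (fun ξ : ℝ × ℝ => gs ξ.1 * gs ξ.2 * |ξ.1| ^ s) ∧
    Integrable (fun ξ : ℝ × ℝ => gs ξ.1 * gs ξ.2 * |ξ.2| ^ s) := by
  have h0 : Integrable gs := by
    have := gs_mom (le_refl (0 : ℝ))
    simpa using this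
  constructor
  · have := (gs_mom hs).mul_prod h0
    refine this.congr (Filter.Eventually.of_forall fun ξ => ?_)
    simp only
    ring
  · have := h0.mul_prod (gs_mom hs)
    refine this.congr (Filter.Eventually.of_forall fun ξ => ?_)
    simp only
    ring

theorem upd_add (z : V) (j : Fin 3) (s : ℝ) : update z j (s + 1) = update z j s + Pi.single j 1 := by
  funext i
  by_cases h : i = j
  · subst h; simp
  · simp [h]

theorem sh_eq (c : ℝ) (x : V) (a b : ℝ) :
    sh c x (a, b) = update (update x 0 (x 0 + c * a)) 1 (x 1 + c * b) := by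
  unfold sh
  funext i
  fin_cases i <;> simp

theorem int_bdd {h : ℝ → ℝ} (hc : Continuous h) {B : ℝ} (hB : ∀ y, |h y| ≤ B) :
    Integrable fun ξ => gs ξ * h ξ := by
  have h0 : Integrable gs := by
    have := gs_mom (le_refl (0 : ℝ))
    simpa using this
  refine (h0.mul_const B).mono' (gs_cont.mul hc).aestronglyMeasurable
    (Filter.Eventually.of_forall fun ξ => ?_)
  rw [norm_mul, Real.norm_of_nonneg (gs_pos ξ).le]
  exact mul_le_mul_of_nonneg_left (hB ξ) (gs_pos ξ).le

theorem it (h0 : G0) {C : ℝ} (hC : 0 < C)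
    (h5 : ∀ (c a : ℝ) (h : ℝ → ℝ), 0 < c → Continuous h → (∀ y, h (y + 1) = h y) →
      (∀ y, 0 ≤ h y) → ∫ ξ, gs ξ * h (a + c * ξ) ≤ C * (1 + 1 / c) * ∫ y in Icc (0 : ℝ) 1, h y)
    {c : ℝ} (hc : 0 < c) {f : V → ℝ} (hf : CP f) (hp : ∀ x, 0 ≤ f x) (x : V) :
    GG c (fun _ => 1) f x ≤ (C * (1 + 1 / c)) ^ 2 * Hz f x := by
  have hi := (h0.2 c f x hf).1 (fun _ => 1) continuous_const (fun ξ => by
    rw [abs_one]
    have := abs_nonneg ξ.1
    have := abs_nonneg ξ.2
    linarith)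
  have hD : 0 < C * (1 + 1 / c) := by positivity
  set D := C * (1 + 1 / c) with hDd
  have cf := hf.cont
  have ca := (hf.av 1).cont
  have inner : ∀ a, ∫ b, gs a * gs b * 1 * f (sh c x (a, b))
      ≤ gs a * (D * Av 1 f (update x 0 (x 0 + c * a))) := by
    intro a
    have e : ∀ b, gs a * gs b * 1 * f (sh c x (a, b))
        = gs a * (gs b * f (update (update x 0 (x 0 + c * a)) 1 (x 1 + c * b))) := by
      intro b
      rw [sh_eq]
      ring
    simp_rw [e]
    rw [integral_const_mul]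
    refine mul_le_mul_of_nonneg_left ?_ (gs_pos a).le
    refine h5 c (x 1) (fun s => f (update (update x 0 (x 0 + c * a)) 1 s)) hc ?_ ?_ ?_
    · exact cf.comp (continuous_const.update 1 continuous_id)
    · intro y
      rw [upd_add, hf.per]
    · exact fun y => hp _
  have hav : ∀ y, 0 ≤ Av 1 f y := fun y => Av_nonneg hp 1 y
  obtain ⟨B, hB0, hB⟩ := (hf.av 1).bdd
  have cc : Continuous fun a : ℝ => Av 1 f (update x 0 (x 0 + c * a)) :=
    ca.comp (continuous_const.update 0 (by fun_prop))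
  have outer : ∫ a, gs a * Av 1 f (update x 0 (x 0 + c * a)) ≤ D * Hz f x := by
    refine h5 c (x 0) (fun s => Av 1 f (update x 0 s)) hc ?_ ?_ ?_
    · exact ca.comp (continuous_const.update 0 continuous_id)
    · intro y
      rw [upd_add, (hf.av 1).per]
    · exact fun y => hav _
  unfold GG
  rw [Measure.volume_eq_prod] at hi ⊢
  rw [integral_prod _ hi]
  have hig : Integrable fun a => gs a * (D * Av 1 f (update x 0 (x 0 + c * a))) := by
    have := (int_bdd cc (fun a => hB _)).const_mul D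
    refine this.congr (Filter.Eventually.of_forall fun a => ?_)
    simp only
    ring
  refine (integral_mono_of_nonneg (Filter.Eventually.of_forall fun a => ?_) hig
    (Filter.Eventually.of_forall inner)).trans ?_
  · refine integral_nonneg fun b => ?_
    have := gs_pos a
    have := gs_pos b
    have := hp (sh c x (a, b))
    simp only [Pi.zero_apply]
    positivity
  · have e : ∀ a, gs a * (D * Av 1 f (update x 0 (x 0 + c * a)))
        = D * (gs a * Av 1 f (update x 0 (x 0 + c * a))) := fun a => by ring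
    simp_rw [e]
    rw [integral_const_mul]
    refine (mul_le_mul_of_nonneg_left outer hD.le).trans (le_of_eq ?_)
    ring

theorem const_of_ind {f : V → ℝ} (h0 : Ind 0 f) (h1 : Ind 1 f) (h2 : Ind 2 f) (x y : V) :
    f x = f y := by
  have : y = update (update (update x 0 (y 0)) 1 (y 1)) 2 (y 2) := by
    funext i
    fin_cases i <;> simp
  rw [this, h2, h1, h0]

theorem hz_eq {f : V → ℝ} (hf : CP f) (h2 : Ind 2 f) (x : V) : Hz f x = ∫ y in cube, f y := by
  have i01 := i01_hz f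
  have i2 : Ind 2 (Hz f) := (h2.av (by decide)).av (by decide)
  have e : ∀ y, Hz f y = Hz f x := fun y => const_of_ind i01.1 i01.2 i2 y x
  rw [← int_Hz hf]
  simp_rw [e]
  rw [setIntegral_const, measureReal_def, volume_cube]
  simp

theorem t (h0 : G0) (h5 : G5) : H4NI.G6 := by
  obtain ⟨C, hC, h5⟩ := h5
  intro k hk
  have hk0 : 0 < k := by linarith
  set k' := Real.conjExponent k with hk'
  have hpq : k'.HolderConjugate k := (Real.HolderConjugate.conjExponent hk).symm
  have hk'0 : 0 < k' := hpq.pos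
  set M1 : ℝ := ∫ ξ : ℝ × ℝ, gs ξ.1 * gs ξ.2 * |ξ.1| ^ k' with hM1
  set M2 : ℝ := ∫ ξ : ℝ × ℝ, gs ξ.1 * gs ξ.2 * |ξ.2| ^ k' with hM2
  have hM10 : 0 ≤ M1 := integral_nonneg fun ξ => by
    have := gs_pos ξ.1
    have := gs_pos ξ.2
    simp only [Pi.zero_apply]
    positivity
  have hM20 : 0 ≤ M2 := integral_nonneg fun ξ => by
    have := gs_pos ξ.1
    have := gs_pos ξ.2
    simp only [Pi.zero_apply]
    positivity
  have q1 : 0 ≤ M1 ^ (1 / k') := Real.rpow_nonneg hM10 _
  have q2 : 0 ≤ M2 ^ (1 / k') := Real.rpow_nonneg hM20 _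
  have qC : 0 < C ^ (2 / k) := Real.rpow_pos_of_pos hC _
  refine ⟨(M1 ^ (1 / k') + M2 ^ (1 / k') + 1) * C ^ (2 / k), by positivity, ?_⟩
  intro c F x hc hF hI w hw
  have hG : CP (fun y => |F y| ^ k) :=
    ⟨hF.cont.abs.rpow_const (fun _ => Or.inr hk0.le), fun i x => by simp only [hF.per i x]⟩
  have hGI : Ind 2 (fun y => |F y| ^ k) := fun x s => by simp only [hI x s]
  have hG0 : ∀ y, 0 ≤ |F y| ^ k := fun y => Real.rpow_nonneg (abs_nonneg _) _
  have hit := it h0 hC h5 hc hG hG0 x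
  rw [hz_eq hG hGI] at hit
  set J : ℝ := ∫ y in cube, |F y| ^ k with hJ
  have hJ0 : 0 ≤ J := integral_nonneg fun y => hG0 y
  have hsh : Continuous (sh c x) := by
    unfold sh
    have a0 : Continuous fun t : ℝ => (Pi.single 0 t : V) :=
      continuous_single (A := fun _ : Fin 3 => ℝ) 0
    have a1 : Continuous fun t : ℝ => (Pi.single 1 t : V) :=
      continuous_single (A := fun _ : Fin 3 => ℝ) 1
    exact (continuous_const.add (a0.comp (by fun_prop))).add (a1.comp (by fun_prop))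
  have hcF : Continuous fun ξ => |F (sh c x ξ)| := (hF.cont.comp hsh).abs
  have hcw : Continuous w := by
    rcases hw with rfl | rfl
    · exact continuous_fst.abs
    · exact continuous_snd.abs
  have hw0 : ∀ ξ, 0 ≤ w ξ := by
    rcases hw with rfl | rfl
    · exact fun ξ => abs_nonneg _
    · exact fun ξ => abs_nonneg _
  -- the moments
  have hwk : Integrable (fun ξ : ℝ × ℝ => gs ξ.1 * gs ξ.2 * w ξ ^ k') := by
    rcases hw with rfl | rfl
    · exact (prod_mom hk'0.le).1
    · exact (prod_mom hk'0.le).2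
  have hwI : (∫ ξ : ℝ × ℝ, gs ξ.1 * gs ξ.2 * w ξ ^ k') ^ (1 / k')
      ≤ M1 ^ (1 / k') + M2 ^ (1 / k') + 1 := by
    rcases hw with rfl | rfl
    · change M1 ^ (1 / k') ≤ _
      linarith
    · change M2 ^ (1 / k') ≤ _
      linarith
  have hFk : Integrable (fun ξ : ℝ × ℝ => gs ξ.1 * gs ξ.2 * |F (sh c x ξ)| ^ k) := by
    have := (h0.2 c _ x hG).1 (fun _ => 1) continuous_const (fun ξ => by
      rw [abs_one]
      have := abs_nonneg ξ.1
      have := abs_nonneg ξ.2
      linarith)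
    refine this.congr (Filter.Eventually.of_forall fun ξ => ?_)
    simp only [mul_one]
  have m1 : MemLp w (ENNReal.ofReal k') gm := by
    rw [← integrable_norm_rpow_iff hcw.aestronglyMeasurable (by simpa using hk'0)
      ENNReal.ofReal_ne_top, ENNReal.toReal_ofReal hk'0.le, integrable_gm]
    refine hwk.congr (Filter.Eventually.of_forall fun ξ => ?_)
    simp only
    rw [Real.norm_of_nonneg (hw0 ξ)]
  have m2 : MemLp (fun ξ => |F (sh c x ξ)|) (ENNReal.ofReal k) gm := by
    rw [← integrable_norm_rpow_iff hcF.aestronglyMeasurable (by simpa using hk0)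
      ENNReal.ofReal_ne_top, ENNReal.toReal_ofReal hk0.le, integrable_gm]
    refine hFk.congr (Filter.Eventually.of_forall fun ξ => ?_)
    simp only
    rw [Real.norm_of_nonneg (abs_nonneg _)]
  have key := integral_mul_le_Lp_mul_Lq_of_nonneg hpq (Filter.Eventually.of_forall hw0)
    (Filter.Eventually.of_forall fun ξ => abs_nonneg (F (sh c x ξ))) m1 m2
  rw [int_gm, int_gm, int_gm] at key
  have e1 : GG c w (fun y => |F y|) x = ∫ ξ : ℝ × ℝ, gs ξ.1 * gs ξ.2 * (w ξ * |F (sh c x ξ)|) := by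
    unfold GG
    refine integral_congr_ae (Filter.Eventually.of_forall fun ξ => ?_)
    simp only
    ring
  have e2 : ∫ ξ : ℝ × ℝ, gs ξ.1 * gs ξ.2 * |F (sh c x ξ)| ^ k = GG c (fun _ => 1) (fun y => |F y| ^ k) x := by
    unfold GG
    refine integral_congr_ae (Filter.Eventually.of_forall fun ξ => ?_)
    simp only
    ring
  rw [e1]
  refine key.trans ?_
  have hp1 : 0 ≤ ∫ ξ : ℝ × ℝ, gs ξ.1 * gs ξ.2 * |F (sh c x ξ)| ^ k := integral_nonneg fun ξ => by
    have := gs_pos ξ.1
    have := gs_pos ξ.2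
    simp only [Pi.zero_apply]
    positivity
  have b1 : (∫ ξ : ℝ × ℝ, gs ξ.1 * gs ξ.2 * |F (sh c x ξ)| ^ k) ^ (1 / k)
      ≤ C ^ (2 / k) * ((1 + 1 / c) ^ (2 / k) * J ^ (1 / k)) := by
    have : (∫ ξ : ℝ × ℝ, gs ξ.1 * gs ξ.2 * |F (sh c x ξ)| ^ k) ^ (1 / k)
        ≤ ((C * (1 + 1 / c)) ^ 2 * J) ^ (1 / k) := by
      refine Real.rpow_le_rpow hp1 ?_ (by positivity)
      rw [e2]
      exact hit
    refine this.trans (le_of_eq ?_)
    have hc1 : 0 < 1 + 1 / c := by positivity
    rw [Real.mul_rpow (by positivity) hJ0, ← Real.rpow_natCast, ← Real.rpow_mul (by positivity),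
      Real.mul_rpow hC.le hc1.le]
    have : ((2 : ℕ) : ℝ) * (1 / k) = 2 / k := by push_cast; ring
    rw [this]
    ring
  calc _ ≤ (M1 ^ (1 / k') + M2 ^ (1 / k') + 1) * (C ^ (2 / k) * ((1 + 1 / c) ^ (2 / k) * J ^ (1 / k))) := by
        refine mul_le_mul hwI b1 (Real.rpow_nonneg hp1 _) (by positivity)
    _ = _ := by ring

end G6

end Pool.Agent.H4NI
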