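import Pool.Agent.H4NI.StmN
import Pool.Agent.H4NC.B1
import Pool.Agent.H4NC.A1
import Pool.Agent.H4NC.A4
import Pool.Agent.H4NC.A5

set_option autoImplicit false

open MeasureTheory Set Function Filter Topology
open scoped ENNReal ContDiff

namespace Pool.Agent.H4NI.I1

open H459R3.NS H4LA Pool.Agent.H4NC Pool.Agent.H4NI

theorem gc {W H w4 : V → ℝ} (hW : CP W) (hH : CP H) (c4 : Continuous w4)
    (p4 : ∀ x, 0 < w4 x) (s : V) {lam p3 : ℝ} (hl : 0 ≤ lam) :
    Continuous (fun x => (W (x + s) * H (x + s)) ^ lam * w4 x ^ p3) := by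
  have c1 : Continuous (fun x => W (x + s) * H (x + s)) := (hW.shift s).cont.mul (hH.shift s).cont
  exact (c1.rpow_const fun x => Or.inr hl).mul (c4.rpow_const fun x => Or.inl (p4 _).ne')

theorem gen {W H w4 : V → ℝ} (hW : CP W) (W0 : ∀ x, 0 ≤ W x) (hH : CP H) (H0 : ∀ x, 0 ≤ H x)
    (c4 : Continuous w4) (p4 : ∀ x, 0 < w4 x) (s : V)
    {lam p3 D : ℝ} (hl : 0 ≤ lam) (hp3 : 0 ≤ p3) (hs : lam + p3 = 1)
    (hD : ∫ x in cube, w4 x ≤ D) :
    ∫ x in cube, (W (x + s) * H (x + s)) ^ lam * w4 x ^ p3 ≤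
      (∫ x in cube, W x * H x) ^ lam * D ^ p3 := by
  have hWH : CP (fun x => W x * H x) := hW.mul hH
  have hWH0 : ∀ x, 0 ≤ W x * H x := fun x => mul_nonneg (W0 x) (H0 x)
  have cs : Continuous (fun x => W (x + s) * H (x + s)) := (hWH.shift s).cont
  have hh := hold4 (p1 := lam) (p2 := p3) (p3 := 0) (p4 := 0) cs c4
    (continuous_const (y := (1 : ℝ))) (continuous_const (y := (1 : ℝ))) (fun x => hWH0 _)
    (fun x => (p4 _).le) (fun _ => zero_le_one) (fun _ => zero_le_one) hl hp3 le_rfl le_rfl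
    (by rw [add_zero, add_zero]; exact hs)
  simp only [Real.rpow_zero, mul_one] at hh
  refine hh.trans ?_
  have i1 : ∫ x in cube, W (x + s) * H (x + s) = ∫ x in cube, W x * H x := int_shift hWH s
  have i4 : 0 ≤ ∫ x in cube, w4 x := integral_nonneg fun y => (p4 _).le
  have i3 : (∫ x in cube, w4 x) ^ p3 ≤ D ^ p3 := Real.rpow_le_rpow i4 hD hp3
  rw [i1]
  have hI0 : 0 ≤ ∫ x in cube, W x * H x := integral_nonneg hWH0
  exact mul_le_mul_of_nonneg_left i3 (Real.rpow_nonneg hI0 _)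

theorem t0 (hA1 : A1) (hA4 : A4) (hA5 : A5) : I1 := by
  intro κ lam hκ hl0 hl1
  obtain ⟨p3, hp3⟩ : ∃ p3 : ℝ, p3 = 1 - lam := ⟨_, rfl⟩
  have hp3pos : 0 < p3 := by rw [hp3]; linarith
  obtain ⟨C4, hC4, h4⟩ := hA4 κ hκ
  have hκ4 : 0 < 4 * κ := by linarith
  obtain ⟨C5, hC5, h5⟩ := hA5 (4 * κ) 1 hκ4 le_rfl
  refine ⟨(C4 + 1) * C5 ^ p3, by positivity, ?_⟩
  intro τ z hτ hτ1 H hH H0
  obtain ⟨wpos, wper, wsm, dwk, dwy, -, -⟩ := hA1 κ τ hκ hτ
  obtain ⟨w4pos, w4per, w4sm, -, -, -, -⟩ := hA1 (4 * κ) τ hκ4 hτ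
  have hyc : Continuous (wy κ τ) :=
    continuous_iff_continuousAt.2 fun y => (dwy y).continuousAt
  have wc : Continuous (wk κ τ) := wsm.continuous
  have w4c : Continuous (wk (4 * κ) τ) := w4sm.continuous
  have cx : Continuous (fun x : V => x 2 - z) := by fun_prop
  have cy : Continuous (fun x : V => |wy κ τ (x 2 - z)|) := (hyc.comp cx).abs
  have hW := B1.Wt_cp wc wper z
  have hW4 := B1.Wt_cp w4c w4per z
  have hW0 : ∀ x, 0 ≤ Wt κ τ z x := fun x => (wpos _).le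
  have hW4p : ∀ x, 0 < Wt (4 * κ) τ z x := fun x => w4pos _
  have hI0 : 0 ≤ ∫ x in cube, Wt κ τ z x * H x :=
    integral_nonneg fun x => mul_nonneg (hW0 x) (H0 x)
  have hD : ∫ x in cube, Wt (4 * κ) τ z x ≤ C5 := by
    have cφ : Continuous (fun y => wk (4 * κ) τ (y - z)) :=
      w4c.comp (continuous_id.sub continuous_const)
    have e3 := int_coord (φ := fun y => wk (4 * κ) τ (y - z)) cφ 2
    have h6 := h5 τ z hτ hτ1
    simp only [Real.rpow_one, sub_self, zero_div, Real.rpow_zero, mul_one] at h6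
    rw [← e3] at h6
    exact h6
  have hs : lam + p3 = 1 := by rw [hp3]; ring
  have main : ∀ s : V, _ := fun s =>
    gen hW hW0 hH H0 hW4.cont hW4p s hl0 hp3pos.le hs hD
  have mc : ∀ s : V, _ := fun s =>
    gc hW hH hW4.cont hW4p s (p3 := p3) hl0
  obtain ⟨I, hI⟩ : ∃ I : ℝ, I = ∫ x in cube, Wt κ τ z x * H x := ⟨_, rfl⟩
  rw [← hI] at main hI0 ⊢
  have hIl := Real.rpow_nonneg hI0 lam
  constructor
  · intro h hh
    have cf : Continuous (fun x : V => |wy κ τ (x 2 - z)| * H (x + Pi.single 2 h) ^ lam) :=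
      cy.mul ((hH.shift _).cont.rpow_const fun x => Or.inr hl0)
    have cg : Continuous (fun x : V => C4 * τ ^ (-(1 / 2) : ℝ) *
        ((Wt κ τ z (x + Pi.single 2 h) * H (x + Pi.single 2 h)) ^ lam *
          Wt (4 * κ) τ z x ^ p3)) :=
      Continuous.mul continuous_const (mc (Pi.single 2 h))
    have step := B1.imono cf cg (by
      intro x
      have h8 := h4 τ h lam (x 2 - z) hτ hτ1 hh hl0 hl1
      have h9 : 0 ≤ H (x + Pi.single 2 h) ^ lam := Real.rpow_nonneg (H0 _) _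
      have h10 := mul_le_mul_of_nonneg_right h8 h9
      refine h10.trans (le_of_eq ?_)
      rw [B1.Wt_shift, Real.mul_rpow (wpos _).le (H0 _), hp3]
      have : Wt (4 * κ) τ z x = wk (4 * κ) τ (x 2 - z) := rfl
      rw [this]
      ring)
    rw [integral_const_mul] at step
    refine step.trans ?_
    have hpos : 0 ≤ C4 * τ ^ (-(1 / 2) : ℝ) := mul_nonneg hC4 (Real.rpow_nonneg hτ.le _)
    refine (mul_le_mul_of_nonneg_left (main _) hpos).trans ?_
    have h10 : C4 * τ ^ (-(1 / 2) : ℝ) * (I ^ lam * C5 ^ p3) =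
      C4 * (C5 ^ p3 * (τ ^ (-(1 / 2) : ℝ) * I ^ lam)) := by ring
    have h11 : (C4 + 1) * C5 ^ p3 * (τ ^ (-(1 / 2) : ℝ) * I ^ lam) =
      (C4 + 1) * (C5 ^ p3 * (τ ^ (-(1 / 2) : ℝ) * I ^ lam)) := by ring
    rw [h10, h11]
    refine mul_le_mul_of_nonneg_right (by linarith) ?_
    positivity
  · have cf : Continuous (fun x : V => Wt κ τ z x * H x ^ lam) :=
      hW.cont.mul (hH.cont.rpow_const fun x => Or.inr hl0)
    have step := B1.imono cf (mc (Pi.single 2 0)) (by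
      intro x
      have e6 : (x + Pi.single (2 : Fin 3) (0 : ℝ) : V) = x := by
        rw [Pi.single_zero, add_zero]
      rw [e6, Real.mul_rpow (hW0 x) (H0 _)]
      have h12 : Wt κ τ z x ≤ Wt (4 * κ) τ z x := by
        unfold Wt wk
        refine mul_le_mul_of_nonneg_left (Real.exp_le_exp.2 (neg_le_neg ?_))
          (Real.rpow_nonneg hτ.le _)
        refine div_le_div_of_nonneg_left (sq_nonneg _) (by positivity) ?_
        have := mul_pos hκ hτ
        linarith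
      have h13 : Wt κ τ z x ≤ Wt κ τ z x ^ lam * Wt (4 * κ) τ z x ^ p3 := by
        have hp : 0 < Wt κ τ z x := wpos _
        have e7 : Wt κ τ z x ^ lam * Wt κ τ z x ^ p3 = Wt κ τ z x := by
          rw [← Real.rpow_add hp, hs, Real.rpow_one]
        have h14 : Wt κ τ z x ^ p3 ≤ Wt (4 * κ) τ z x ^ p3 :=
          Real.rpow_le_rpow hp.le h12 hp3pos.le
        calc Wt κ τ z x = Wt κ τ z x ^ lam * Wt κ τ z x ^ p3 := e7.symm
          _ ≤ _ := mul_le_mul_of_nonneg_left h14 (Real.rpow_nonneg hp.le _)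
      have h14 : 0 ≤ H x ^ lam := Real.rpow_nonneg (H0 _) _
      refine (mul_le_mul_of_nonneg_right h13 h14).trans (le_of_eq ?_)
      ring)
    refine (step.trans (main _)).trans ?_
    have h11 : (C4 + 1) * C5 ^ p3 * I ^ lam = (C4 + 1) * (I ^ lam * C5 ^ p3) := by ring
    rw [h11]
    have h15 : 0 ≤ I ^ lam * C5 ^ p3 := by positivity
    nlinarith

theorem t : I1 := t0 A1.t A4.t A5.t

end Pool.Agent.H4NI.I1
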