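import Pool.Agent.H4NI.StmT
import Pool.Agent.H4NC.A12

set_option autoImplicit false

open MeasureTheory Set Function Filter Topology
open scoped ENNReal ContDiff

namespace Pool.Agent.H4NI.I12

open Pool.Agent.H4NC.A12

theorem t : I12 := by
  intro r ε C0 hr hε hC0
  have hr0 : 0 < r := by linarith
  have hr2 : 0 < r - 2 := by linarith
  have hr1 : 0 < r - 1 := by linarith
  obtain ⟨σ, hσ⟩ : ∃ σ, σ = 1 / 2 - 1 / r := ⟨_, rfl⟩
  obtain ⟨P, hP⟩ : ∃ P, P = 1 / (1 / 2 - 1 / r) := ⟨_, rfl⟩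
  have hr_lt : 1 / r < 1 / 2 := one_div_lt_one_div_of_lt (by norm_num) hr
  have hr_pos : 0 < 1 / r := by positivity
  have hσ0 : 0 < σ := by rw [hσ]; linarith
  have hPσ : P * σ = 1 := by
    rw [hP, ← hσ]
    field_simp
  have hP2 : 2 < P := by
    rw [hP, ← hσ, lt_div_iff₀ hσ0, hσ]
    linarith
  set δ : ℝ := ε / 3 with hδ
  have hδ0 : 0 < δ := by positivity
  set K1 : ℝ := (C0 * δ ^ (-(1 / r))) ^ (1 / (1 - 1 / r)) with hK1
  set K2 : ℝ := (C0 * δ ^ (-(1 / 2 : ℝ))) ^ (1 / (1 - 1 / 2 : ℝ)) with hK2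
  set K5 : ℝ := (C0 * δ ^ (-(1 / r))) ^ (1 / (1 / 2 - 1 / r)) with hK5
  set K6 : ℝ := (C0 * (1 : ℝ) ^ (-(1 / 2 + 1 / r))) ^ (1 / (1 - (1 / 2 + 1 / r))) with hK6
  have h10 : 0 ≤ K1 := by positivity
  have h20 : 0 ≤ K2 := by positivity
  have h50 : 0 ≤ K5 := by positivity
  have h60 : 0 ≤ K6 := by positivity
  refine ⟨K1 + K2 + C0 + K5 + K6 + 2, by positivity, ?_⟩
  intro M m τ D J Y hM hm hτ hτ1 hD hJ hY
  have hM0 : 0 < M := by linarith
  have hD0 : 0 < D := by linarith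
  rw [← hP]
  -- the common quantities
  set ξ : ℝ := M * τ ^ σ with hξ
  have hξ0 : 0 < ξ := by positivity
  set F : ℝ := M * τ ^ (-(1 / 2 + 1 / r)) with hF
  set G : ℝ := M ^ P with hG
  set B : ℝ := m * τ ^ (-(1 / 2) : ℝ) with hB
  have hF0 : 0 < F := by positivity
  have hG0 : 0 < G := by positivity
  have hB0 : 0 ≤ B := by positivity
  have hpow : ∀ p : ℝ, M ^ p * τ ^ (p * σ - 1) = ξ ^ p * τ ^ (-1 : ℝ) := by
    intro p
    rw [hξ, Real.mul_rpow hM0.le (by positivity), ← Real.rpow_mul hτ.le, mul_assoc,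
      ← Real.rpow_add hτ]
    congr 2
    ring
  have hF' : F = ξ * τ ^ (-1 : ℝ) := by
    have := hpow 1
    rw [Real.rpow_one, Real.rpow_one, one_mul] at this
    rw [hF, ← this]
    congr 2
    rw [hσ]
    ring
  have hG' : G = ξ ^ P * τ ^ (-1 : ℝ) := by
    rw [← hpow P, hPσ, sub_self, Real.rpow_zero, mul_one]
  have hbet : ∀ p : ℝ, 1 ≤ p → p ≤ P → M ^ p * τ ^ (p * σ - 1) ≤ F + G := by
    intro p h1 h2
    rw [hpow, hF', hG', ← add_mul]
    exact mul_le_mul_of_nonneg_right (rpow_between hξ0.le h1 h2) (by positivity)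
  -- the first term
  have t1 : C0 * (M * τ ^ (-(1 / 2) : ℝ) * (D ^ (1 - 1 / r) * J ^ (1 / r)))
      ≤ δ * J + K1 * ((F + G) * D) := by
    have k := y2 (θ := 1 / r) (X := M * τ ^ (-(1 / 2) : ℝ)) (D := D) (J := J) (δ := δ)
      (c := C0) hr_pos (by linarith) (by positivity) hD0.le hJ hδ0 hC0
    refine k.trans ?_
    have e : (M * τ ^ (-(1 / 2) : ℝ)) ^ (1 / (1 - 1 / r))
        = M ^ (1 / (1 - 1 / r)) * τ ^ (1 / (1 - 1 / r) * σ - 1) := by
      rw [Real.mul_rpow hM0.le (by positivity), ← Real.rpow_mul hτ.le]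
      congr 2
      rw [hσ]
      have h3 : 1 / (1 - 1 / r) = r / (r - 1) := by
        field_simp
      rw [h3]
      field_simp
      ring
    rw [e]
    have l1 : 1 ≤ 1 / (1 - 1 / r) := by
      rw [le_div_iff₀ (by linarith)]
      linarith
    have l2 : 1 / (1 - 1 / r) ≤ P := by
      refine le_trans ?_ hP2.le
      rw [div_le_iff₀ (by linarith)]
      linarith
    have l3 := hbet _ l1 l2
    have l4 := mul_le_mul_of_nonneg_left (mul_le_mul_of_nonneg_right l3 hD0.le) h10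
    linarith
  -- the second term
  have t2 : C0 * (M * τ ^ (-(1 / r)) * (√D * √J))
      ≤ δ * J + K2 * ((F + G) * D) := by
    have k := y2 (θ := (1 / 2 : ℝ)) (X := M * τ ^ (-(1 / r))) (D := D) (J := J)
      (δ := δ) (c := C0) (by norm_num) (by norm_num) (by positivity) hD0.le hJ hδ0 hC0
    have e1 : (1 - 1 / 2 : ℝ) = 1 / 2 := by norm_num
    rw [Real.sqrt_eq_rpow, Real.sqrt_eq_rpow]
    rw [e1] at k
    rw [hK2, e1]
    refine k.trans ?_
    have e : (M * τ ^ (-(1 / r))) ^ (1 / (1 / 2 : ℝ))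
        = M ^ (2 : ℝ) * τ ^ (2 * σ - 1) := by
      have e2 : (1 / (1 / 2 : ℝ)) = 2 := by norm_num
      rw [e2, Real.mul_rpow hM0.le (by positivity), ← Real.rpow_mul hτ.le]
      congr 2
      rw [hσ]
      field_simp
      ring
    rw [e]
    have l3 := hbet 2 (by norm_num) hP2.le
    have l5 : 0 ≤ (C0 * δ ^ (-(1 / 2 : ℝ))) ^ (1 / (1 / 2 : ℝ)) := by positivity
    have l4 := mul_le_mul_of_nonneg_left (mul_le_mul_of_nonneg_right l3 hD0.le) l5
    linarith
  -- the fifth term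
  have t5 : C0 * (M * (D ^ (1 / 2 - 1 / r) * (J ^ (1 / r) * √Y)))
      ≤ δ * J + Y + K5 * (G * D) := by
    have k := y3 (α := 1 / 2 - 1 / r) (θ := 1 / r) (γ := (1 / 2 : ℝ))
      (X := M) (D := D) (J := J) (Y := Y) (δ := δ)
      (c := C0) (by linarith) hr_pos (by norm_num) (by ring) (by positivity) hD0.le hJ hY hδ0 hC0
    rw [Real.sqrt_eq_rpow]
    refine k.trans ?_
    rw [← hP]
    rw [hK5, ← hP]
  -- the sixth term
  have t6 : C0 * (M * (D ^ (1 / 2 - 1 / r) * Y ^ (1 / 2 + 1 / r)))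
      ≤ 1 * Y + K6 * (G * D) := by
    have k := y2 (θ := 1 / 2 + 1 / r) (X := M) (D := D) (J := Y)
      (δ := 1) (c := C0) (by linarith) (by linarith) (by positivity) hD0.le hY one_pos hC0
    have e1 : 1 - (1 / 2 + 1 / r) = 1 / 2 - 1 / r := by ring
    rw [e1] at k
    rw [hK6, e1]
    refine k.trans ?_
    rw [← hP]
  have e4 : 3 * δ = ε := by rw [hδ]; ring
  have n1 : 0 ≤ F * D := by positivity
  have n2 : 0 ≤ G * D := by positivity
  have n3 : 0 ≤ B * D := by positivity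
  have n4 : 0 ≤ K1 * (B * D) := by positivity
  have n5 : 0 ≤ K2 * (B * D) := by positivity
  have n6 : 0 ≤ C0 * (G * D) := by positivity
  have n9 : 0 ≤ K5 * (F * D) := by positivity
  have n10 : 0 ≤ K5 * (B * D) := by positivity
  have n11 : 0 ≤ K6 * (F * D) := by positivity
  have n12 : 0 ≤ K6 * (B * D) := by positivity
  have n13 : 0 ≤ (K1 + K2 + C0 + K5 + K6) * Y := by positivity
  have e5 : (K1 + K2 + C0 + K5 + K6 + 2) * (Y + D * (B + F + G))
      = 2 * Y + (K1 + K2 + C0 + K5 + K6) * Y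
        + 2 * (F * D) + 2 * (G * D) + 2 * (B * D)
        + (K1 * ((F + G) * D) + K2 * ((F + G) * D) + C0 * (F * D))
        + C0 * (G * D)
        + (K1 * (B * D) + K2 * (B * D) + C0 * (B * D))
        + (K5 * (G * D) + K5 * (F * D) + K5 * (B * D))
        + (K6 * (G * D) + K6 * (F * D) + K6 * (B * D)) := by ring
  rw [e5]
  have e6 : ε * J = 3 * (δ * J) := by rw [← e4]; ring
  rw [e6, mul_add, mul_add, mul_add, mul_add, mul_add]
  linarith

end Pool.Agent.H4NI.I12
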