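import Pool.Agent.H4NI.StmN
import Pool.Agent.H4NC.B5

/-!
Project NCI: the pressure term (stub I5), the case `a = ∞` of B5.
-/

set_option autoImplicit false
set_option linter.unusedVariables false

open MeasureTheory Set Function Filter Topology
open scoped ENNReal ContDiff

namespace Pool.Agent.H4NI.I5

open H459R3.NS H4LA H4NC H4NC.B5

theorem t (h1 : I1) (h3 : B3) : I5 := by
  intro κ r hκ hr
  obtain ⟨C1, hC1, hP⟩ := press_slice_G
  obtain ⟨C2, hC2, hL⟩ := h1 κ 0 hκ le_rfl (by norm_num)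
  obtain ⟨C3, hC3, hM⟩ := h1 κ (1 / 2) hκ (by norm_num) le_rfl
  obtain ⟨C4, hC4, hQ⟩ := h3 r hr
  have hr0 : 0 < r := by linarith
  have h2r : 0 < 1 - 2 / r := by
    rw [sub_pos, div_lt_one hr0]
    exact hr
  refine ⟨C1 * (2 * C2 + 2 * √3 * C4 * C3 / (1 - 2 / r) + r * C4 * C2), by positivity, ?_⟩
  intro τ z M D hτ hτ1 hM1 hD0 G cG G0 hG v p hv hdiv hp hl h0 hU
  set W : V → ℝ := fun x => |wy κ τ (x 2 - z)| with hW
  have cW : Continuous W := cont_wy κ τ z
  have W0 : ∀ x, 0 ≤ W x := fun x => abs_nonneg _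
  set ε : ℝ := √τ with hε
  have hε0 : 0 < ε := Real.sqrt_pos.2 hτ
  have hε1 : ε ≤ 1 := by
    rw [hε]
    exact Real.sqrt_le_one.2 hτ1
  set N0 : ℝ := M * τ ^ (-(1 / 2) : ℝ) with hN0
  have hN00 : 0 ≤ N0 := by positivity
  have NR1 : ∀ x, 1 ≤ NR r G x := NR_one G0
  have NR0 : ∀ x, 0 ≤ NR r G x := fun x => by linarith [NR1 x]
  have cNR : CP (NR r G) := NR_cp hr0.le cG
  have cN : CP fun x => NR r G x ^ (1 / r) := cprp cNR (by positivity)
  have N0' : ∀ x, 0 ≤ NR r G x ^ (1 / r) := fun x => Real.rpow_nonneg (NR0 x) _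
  have cH : CP (Hz (ga v)) := (cp_of (ga_sp hv)).hz
  have H0 : ∀ x, 0 ≤ Hz (ga v) x := Hz_nonneg (ga_nonneg (v := v))
  set J : ℝ := ∫ x in cube, Wt κ τ z x * Hz (ga v) x with hJ
  have hNM : ∀ x, NR r G x ^ (1 / r) ≤ M := by
    intro x
    have k := Real.rpow_le_rpow (NR0 x) (hG x) (by positivity : 0 ≤ 1 / r)
    rwa [← Real.rpow_mul (by linarith : 0 ≤ M), mul_one_div_cancel hr0.ne', Real.rpow_one] at k
  -- the integral with `NR ^ (1/r)` alone
  have hN : ∫ x in cube, W x * NR r G x ^ (1 / r) ≤ C2 * N0 := by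
    have k := (hL τ z hτ hτ1 (fun _ => 1) (CP.const 1) (fun _ => zero_le_one)).1 0
      (by simp [Real.sqrt_nonneg])
    simp only [Real.rpow_zero, mul_one] at k
    have k1 : ∫ x in cube, W x * NR r G x ^ (1 / r) ≤ ∫ x in cube, M * W x := by
      refine integral_mono (integrableOn_cube (cW.mul cN.cont))
        (integrableOn_cube (continuous_const.mul cW)) fun x => ?_
      have l := mul_le_mul_of_nonneg_left (hNM x) (W0 x)
      refine l.trans (le_of_eq ?_)
      ring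
    rw [integral_const_mul] at k1
    have k2 := mul_le_mul_of_nonneg_left k (by linarith : 0 ≤ M)
    refine (k1.trans k2).trans (le_of_eq ?_)
    rw [hN0]
    ring
  have hH : ∀ h : ℝ, |h| ≤ √τ →
      ∫ x in cube, W x * (NR r G x ^ (1 / r) * √(Hz (ga v) (x + Pi.single 2 h)))
        ≤ C3 * (N0 * √J) := by
    intro h hh
    have k := (hM τ z hτ hτ1 (Hz (ga v)) cH H0).1 h hh
    simp only [← Real.sqrt_eq_rpow] at k
    have cs : Continuous fun x : V => √(Hz (ga v) (x + Pi.single 2 h)) :=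
      cH.sqrt.cont.comp (continuous_id.add continuous_const)
    have k1 : ∫ x in cube, W x * (NR r G x ^ (1 / r) * √(Hz (ga v) (x + Pi.single 2 h)))
        ≤ ∫ x in cube, M * (W x * √(Hz (ga v) (x + Pi.single 2 h))) := by
      refine integral_mono (integrableOn_cube (cW.mul (cN.cont.mul cs)))
        (integrableOn_cube (continuous_const.mul (cW.mul cs))) fun x => ?_
      have l := mul_le_mul_of_nonneg_left (mul_le_mul_of_nonneg_right (hNM x)
        (Real.sqrt_nonneg (Hz (ga v) (x + Pi.single 2 h)))) (W0 x)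
      refine l.trans (le_of_eq ?_)
      ring
    rw [integral_const_mul] at k1
    have k2 := mul_le_mul_of_nonneg_left k (by linarith : 0 ≤ M)
    refine (k1.trans k2).trans (le_of_eq ?_)
    rw [hN0]
    ring
  -- the first term
  have t1 : ∫ x in cube, W x * Hz G x ≤ 2 * (C2 * N0) := by
    have k : ∫ x in cube, W x * Hz G x ≤ ∫ x in cube, 2 * (W x * NR r G x ^ (1 / r)) := by
      refine integral_mono (integrableOn_cube (cW.mul cG.hz.cont))
        (integrableOn_cube (continuous_const.mul (cW.mul cN.cont))) fun x => ?_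
      have l := mul_le_mul_of_nonneg_left (Hz_le_N hr cG G0 x) (W0 x)
      refine l.trans (le_of_eq ?_)
      ring
    rw [integral_const_mul] at k
    linarith
  -- the near part
  have hnear : ∀ ρ ∈ Ioc (0 : ℝ) ε, ∫ x in cube, W x * QG G (hh v) ρ x
      ≤ C4 * (√3 * √D) * (2 * (C3 * (N0 * √J))) * ρ ^ (-(2 / r)) := by
    intro ρ hρ
    have hρ1 : ρ ∈ Ioc (0 : ℝ) 1 := ⟨hρ.1, hρ.2.trans hε1⟩
    have ch : CP (hh v) := hh_cp hv
    have kB := near_int cW cN.cont cH.sqrt.cont (ρ := ρ) (K := C3 * (N0 * √J)) (fun s hs => by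
      refine hH (ρ * s) ?_
      rw [abs_mul, abs_of_pos hρ.1]
      have l1 : |s| ≤ 1 := abs_le.2 hs
      calc ρ * |s| ≤ ρ * 1 := mul_le_mul_of_nonneg_left l1 hρ.1.le
        _ ≤ √τ := by rw [mul_one]; exact hρ.2)
    have pt : ∀ x, QG G (hh v) ρ x ≤ (C4 * (√3 * √D) * ρ ^ (-(2 / r)))
        * (NR r G x ^ (1 / r) * BB 2 ρ (fun y => √(Hz (ga v) y)) x) := by
      intro x
      have l1 := hQ G (hh v) cG G0 ch hh_nonneg ρ hρ1 x
      have l2 : BB 2 ρ (Hz (hh v)) x ≤ BB 2 ρ (fun y => (√3 * √D) * √(Hz (ga v) y)) x := by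
        refine BB_mono ch.hz.cont (cH.sqrt.cmul _).cont (fun y => ?_) 2 ρ x
        have m1 := near_slice hv y
        have m2 : Hz (hh v) y ^ 2 ≤ 3 * (D * Hz (ga v) y) := by
          have := mul_le_mul_of_nonneg_right (hU y) (H0 y)
          linarith
        rw [mul_assoc, ← Real.sqrt_mul hD0, ← Real.sqrt_mul (by norm_num : (0 : ℝ) ≤ 3)]
        exact Real.le_sqrt_of_sq_le m2
      rw [BB_cmul] at l2
      have hρp : 0 ≤ ρ ^ (-(2 / r)) := Real.rpow_nonneg hρ.1.le _
      have l3 : C4 * (ρ ^ (-(2 / r)) * (NR r G x ^ (1 / r) * BB 2 ρ (Hz (hh v)) x))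
          ≤ C4 * (ρ ^ (-(2 / r)) * (NR r G x ^ (1 / r)
            * (√3 * √D * BB 2 ρ (fun y => √(Hz (ga v) y)) x))) := by
        have := N0' x
        gcongr
      refine (l1.trans l3).trans (le_of_eq ?_)
      ring
    have k1 : ∫ x in cube, W x * QG G (hh v) ρ x
        ≤ ∫ x in cube, (C4 * (√3 * √D) * ρ ^ (-(2 / r)))
          * (W x * (NR r G x ^ (1 / r) * BB 2 ρ (fun y => √(Hz (ga v) y)) x)) := by
      refine integral_mono (integrableOn_cube (cW.mul (QG_cp cG ch ρ).cont))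
        (integrableOn_cube (continuous_const.mul (cW.mul (cN.cont.mul
          (BB_cp cH.sqrt 2 ρ).cont)))) fun x => ?_
      have l := mul_le_mul_of_nonneg_left (pt x) (W0 x)
      refine l.trans (le_of_eq ?_)
      ring
    rw [integral_const_mul] at k1
    have hρp : 0 ≤ ρ ^ (-(2 / r)) := Real.rpow_nonneg hρ.1.le _
    have k2 := mul_le_mul_of_nonneg_left kB
      (by positivity : 0 ≤ C4 * (√3 * √D) * ρ ^ (-(2 / r)))
    refine (k1.trans k2).trans (le_of_eq ?_)
    ring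
  -- the far part
  have hfar : ∀ ρ ∈ Icc ε 1, ∫ x in cube, W x * QG G (vsq v) ρ x
      ≤ C4 * (2 * D) * (C2 * N0) * ρ ^ (-(2 / r)) := by
    intro ρ hρ
    have hρ0 : 0 < ρ := hε0.trans_le hρ.1
    have hρ1 : ρ ∈ Ioc (0 : ℝ) 1 := ⟨hρ0, hρ.2⟩
    have cv : CP (vsq v) := cp_of (vsq_sp hv)
    have hρp : 0 ≤ ρ ^ (-(2 / r)) := Real.rpow_nonneg hρ0.le _
    have pt : ∀ x, QG G (vsq v) ρ x
        ≤ (C4 * (2 * D) * ρ ^ (-(2 / r))) * NR r G x ^ (1 / r) := by
      intro x
      have l1 := hQ G (vsq v) cG G0 cv (vsq_nonneg v) ρ hρ1 x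
      have l2 : BB 2 ρ (Hz (vsq v)) x ≤ 2 * D := by
        have := BB_mono cv.hz.cont continuous_const (fun y => hU y) 2 ρ x
        rwa [BB_const] at this
      have l3 : C4 * (ρ ^ (-(2 / r)) * (NR r G x ^ (1 / r) * BB 2 ρ (Hz (vsq v)) x))
          ≤ C4 * (ρ ^ (-(2 / r)) * (NR r G x ^ (1 / r) * (2 * D))) := by
        have := N0' x
        gcongr
      refine (l1.trans l3).trans (le_of_eq ?_)
      ring
    have k1 : ∫ x in cube, W x * QG G (vsq v) ρ x
        ≤ ∫ x in cube, (C4 * (2 * D) * ρ ^ (-(2 / r))) * (W x * NR r G x ^ (1 / r)) := by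
      refine integral_mono (integrableOn_cube (cW.mul (QG_cp cG cv ρ).cont))
        (integrableOn_cube (continuous_const.mul (cW.mul cN.cont))) fun x => ?_
      have l := mul_le_mul_of_nonneg_left (pt x) (W0 x)
      refine l.trans (le_of_eq ?_)
      ring
    rw [integral_const_mul] at k1
    have k2 := mul_le_mul_of_nonneg_left hN (by positivity : 0 ≤ C4 * (2 * D) * ρ ^ (-(2 / r)))
    refine (k1.trans k2).trans (le_of_eq ?_)
    ring
  have hcube : IsCompact (cube : Set V) := isCompact_Icc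
  -- integration over the radii
  have cQ1 : Continuous fun q : V × ℝ => QG G (hh v) q.2 q.1 := QG_cont2 cG (hh_cp hv)
  have cQ2 : Continuous fun q : V × ℝ => QG G (vsq v) q.2 q.1 :=
    QG_cont2 cG (cp_of (vsq_sp hv))
  have hc2 : Continuous fun ρ : ℝ => ∫ x in cube, W x * QG G (hh v) ρ x := par_cont cW cQ1
  have hc3 : Continuous fun ρ : ℝ => ∫ x in cube, W x * QG G (vsq v) ρ x := par_cont cW cQ2
  have hmax : ∀ ρ : ℝ, 0 < max ρ ε := fun ρ => lt_of_lt_of_le hε0 (le_max_right _ _)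
  have cinv : Continuous fun ρ : ℝ => (max ρ ε)⁻¹ :=
    (continuous_id.max continuous_const).inv₀ fun ρ => (hmax ρ).ne'
  have t2 : ∫ x in cube, W x * (∫ ρ in Icc 0 ε, QG G (hh v) ρ x)
      ≤ C4 * (√3 * √D) * (2 * (C3 * (N0 * √J))) * (ε ^ (1 - 2 / r) / (1 - 2 / r)) := by
    have e := par_eq cW (w := fun _ => 1) continuous_const cQ1 0 ε
    simp only [one_mul] at e
    rw [e]
    have hθ : 2 / r < 1 := by linarith
    have k := rad_near (Φ := fun ρ => ∫ x in cube, W x * QG G (hh v) ρ x)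
      (K := C4 * (√3 * √D) * (2 * (C3 * (N0 * √J)))) hc2 hε0 hθ hnear
    exact k
  have t3 : ∫ x in cube, W x * (∫ ρ in Icc ε 1, (max ρ ε)⁻¹ * QG G (vsq v) ρ x)
      ≤ C4 * (2 * D) * (C2 * N0) * (r / 2 * ε ^ (-(2 / r))) := by
    have e := par_eq cW cinv cQ2 ε 1
    simp only at e
    rw [e]
    have hKK : 0 ≤ C4 * (2 * D) * (C2 * N0) := by positivity
    have k := rad_far (Φ := fun ρ => ∫ x in cube, W x * QG G (vsq v) ρ x)
      (K := C4 * (2 * D) * (C2 * N0)) hc3 hε0 hε1 hr0 hKK hfar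
    exact k
  -- assembly
  have cI1 : Continuous fun x => ∫ ρ in Icc 0 ε, QG G (hh v) ρ x :=
    continuous_parametric_integral_of_continuous cQ1 isCompact_Icc
  have cI2 : Continuous fun x => ∫ ρ in Icc ε 1, (max ρ ε)⁻¹ * QG G (vsq v) ρ x := by
    have hF : Continuous fun q : V × ℝ => (max q.2 ε)⁻¹ * QG G (vsq v) q.2 q.1 :=
      (cinv.comp continuous_snd).mul cQ2
    exact continuous_parametric_integral_of_continuous hF isCompact_Icc
  have cp' : CP fun y => G y * |p y| := cG.mul (cp_of hp).abs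
  have main : ∫ x in cube, W x * Hz (fun y => G y * |p y|) x
      ≤ C1 * (esq v * (∫ x in cube, W x * Hz G x)
        + (∫ x in cube, W x * (∫ ρ in Icc 0 ε, QG G (hh v) ρ x))
        + ∫ x in cube, W x * (∫ ρ in Icc ε 1, (max ρ ε)⁻¹ * QG G (vsq v) ρ x)) := by
    have k1 : ∫ x in cube, W x * Hz (fun y => G y * |p y|) x
        ≤ ∫ x in cube, C1 * ((esq v * (W x * Hz G x)
          + W x * (∫ ρ in Icc 0 ε, QG G (hh v) ρ x))
          + W x * (∫ ρ in Icc ε 1, (max ρ ε)⁻¹ * QG G (vsq v) ρ x)) := by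
      refine integral_mono (integrableOn_cube (cW.mul cp'.hz.cont))
        (integrableOn_cube (continuous_const.mul (((continuous_const.mul
          (cW.mul cG.hz.cont)).add (cW.mul cI1)).add (cW.mul cI2)))) fun x => ?_
      have l := mul_le_mul_of_nonneg_left (hP G cG G0 v p hv hdiv hp hl h0 ε ⟨hε0, hε1⟩ x) (W0 x)
      refine l.trans (le_of_eq ?_)
      ring
    rw [integral_const_mul, integral_add, integral_add, integral_const_mul] at k1
    · exact k1
    · exact integrableOn_cube (continuous_const.mul (cW.mul cG.hz.cont))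
    · exact integrableOn_cube (cW.mul cI1)
    · exact integrableOn_cube ((continuous_const.mul (cW.mul cG.hz.cont)).add (cW.mul cI1))
    · exact integrableOn_cube (cW.mul cI2)
  have hE0 : 0 ≤ esq v := esq_nonneg v
  have eε1 : N0 * ε ^ (1 - 2 / r) = M * τ ^ (-(1 / r)) := by
    rw [hN0, hε, Real.sqrt_eq_rpow, ← Real.rpow_mul hτ.le, mul_assoc, ← Real.rpow_add hτ]
    congr 2
    field_simp
    ring
  have eε2 : N0 * ε ^ (-(2 / r)) = M * τ ^ (-(1 / 2 + 1 / r)) := by
    rw [hN0, hε, Real.sqrt_eq_rpow, ← Real.rpow_mul hτ.le, mul_assoc, ← Real.rpow_add hτ]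
    congr 2
    field_simp
    ring
  have s1 : esq v * (∫ x in cube, W x * Hz G x) ≤ esq v * (2 * (C2 * N0)) :=
    mul_le_mul_of_nonneg_left t1 hE0
  set A2 : ℝ := M * τ ^ (-(1 / r)) with hA2
  set A3 : ℝ := M * τ ^ (-(1 / 2 + 1 / r)) with hA3
  have hA20 : 0 ≤ A2 := by positivity
  have hA30 : 0 ≤ A3 := by positivity
  have s2 : C4 * (√3 * √D) * (2 * (C3 * (N0 * √J))) * (ε ^ (1 - 2 / r) / (1 - 2 / r))
      = (2 * √3 * C4 * C3 / (1 - 2 / r)) * (A2 * (√D * √J)) := by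
    rw [← eε1]
    ring
  have s3 : C4 * (2 * D) * (C2 * N0) * (r / 2 * ε ^ (-(2 / r))) = (r * C4 * C2) * (A3 * D) := by
    rw [← eε2]
    ring
  rw [s2] at t2
  rw [s3] at t3
  refine main.trans ?_
  rw [mul_assoc]
  refine mul_le_mul_of_nonneg_left ?_ hC1
  have u1 : 0 ≤ A2 * (√D * √J) := by positivity
  have u2 : 0 ≤ A3 * D := by positivity
  have u3 : 0 ≤ N0 * esq v := by positivity
  have c1 : 0 ≤ 2 * √3 * C4 * C3 / (1 - 2 / r) := by positivity
  have c2 : 0 ≤ r * C4 * C2 := by positivity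
  have c3 : 0 ≤ 2 * C2 := by positivity
  have p1 := mul_nonneg c1 u2
  have p2 := mul_nonneg c1 u3
  have p3 := mul_nonneg c2 u1
  have p4 := mul_nonneg c2 u3
  have p5 := mul_nonneg c3 u1
  have p6 := mul_nonneg c3 u2
  nlinarith [s1, t2, t3, p1, p2, p3, p4, p5, p6]

end Pool.Agent.H4NI.I5
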