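import Pool.Agent.H4NI.StmN
import Pool.Agent.H4NC.B6

/-!
Project NCI (helper4), stub I6 (helper39): the flux with the factor `G`, case `a = ∞`.
-/

set_option autoImplicit false

open MeasureTheory Set Function Filter Topology
open scoped ENNReal ContDiff

namespace Pool.Agent.H4NI.I6

open H459R3.NS H4LA H4NC

/-- **I6** -/
theorem t (hI1 : I1) (hB2 : B2v) (hB0 : B0) : Pool.Agent.H4NI.I6 := by
  intro κ r hκ hr
  have hr0 : 0 < r := by linarith
  obtain ⟨C0, hC0, hB0⟩ := hB0 κ hκ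
  obtain ⟨C1, hC1, hI1a⟩ := hI1 κ (1 / r) hκ (by positivity) (by
    rw [div_le_div_iff₀ hr0 (by norm_num)]
    linarith)
  obtain ⟨C3, hC3, hI1b⟩ := hI1 κ 0 hκ le_rfl (by norm_num)
  obtain ⟨C2, hC2, hB2⟩ := hB2 r hr
  have hC20 : 0 ≤ C2 := by linarith
  refine ⟨√C2 * C1 + C3, by positivity, ?_⟩
  intro τ z M D hτ hτ1 hM hD G cG G0 w hw hwD
  obtain ⟨sW, iW, W0, dW, -, -⟩ := hB0 τ z hτ hτ1
  have cwy : CP (fun x : V => |wy κ τ (x 2 - z)|) := by
    have h := (cp_of (sW.pd 2)).abs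
    have e : (fun x : V => |pd 2 (Wt κ τ z) x|) = fun x : V => |wy κ τ (x 2 - z)| := by
      funext x
      rw [dW]
    rwa [e] at h
  have cv : CP (vsq w) := cp_of (vsq_sp hw)
  have cga : CP (ga w) := cp_of (ga_sp hw)
  have cH : CP (fun x => Hz (vsq w) x + Hz (ga w) x) := cv.hz.add cga.hz
  have U0 : ∀ x, 0 ≤ Hz (vsq w) x := Hz_nonneg (vsq_nonneg w)
  have g0 : ∀ x, 0 ≤ Hz (ga w) x := Hz_nonneg (ga_nonneg)
  have H0 : ∀ x, 0 ≤ Hz (vsq w) x + Hz (ga w) x := fun x => add_nonneg (U0 x) (g0 x)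
  have s0 : (Pi.single 2 0 : V) = 0 := Pi.single_zero 2
  have hD1 : 0 ≤ D ^ (1 - 1 / r) := Real.rpow_nonneg hD _
  have cGv : CP (fun y => G y * vsq w y) := cG.mul cv
  have hM0 : 0 ≤ M := by linarith
  constructor
  · intro hNR
    have N1 := fun x => NR_one (r := r) G0 x
    have h1 := (hI1a τ z hτ hτ1 (fun x => Hz (vsq w) x + Hz (ga w) x) cH H0).1 0 (by
        rw [abs_zero]; exact Real.sqrt_nonneg _)
    simp only [s0, add_zero] at h1
    have hpt : ∀ x, |wy κ τ (x 2 - z)| * Hz (fun y => G y * vsq w y) x ≤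
        (√C2 * (M * D ^ (1 - 1 / r))) * (|wy κ τ (x 2 - z)| *
          (Hz (vsq w) x + Hz (ga w) x) ^ (1 / r)) := by
      intro x
      have h2 := B6.alg hr hC20 (by linarith [N1 x] : 0 ≤ NR r G x) (U0 x) (hwD x) (H0 x)
        (hB2 G cG G0 w hw x).2
      have h3 := (B6.cs cG G0 hw x).trans h2
      have h4 : NR r G x ^ (1 / r) ≤ M := by
        calc NR r G x ^ (1 / r) ≤ (M ^ r) ^ (1 / r) :=
              Real.rpow_le_rpow (by linarith [N1 x]) (hNR x) (by positivity)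
          _ = M := by
              rw [← Real.rpow_mul hM0, mul_one_div_cancel hr0.ne', Real.rpow_one]
      have h5 : 0 ≤ (Hz (vsq w) x + Hz (ga w) x) ^ (1 / r) := Real.rpow_nonneg (H0 x) _
      calc |wy κ τ (x 2 - z)| * Hz (fun y => G y * vsq w y) x
          ≤ |wy κ τ (x 2 - z)| * (√C2 * (NR r G x ^ (1 / r) * (D ^ (1 - 1 / r) *
            (Hz (vsq w) x + Hz (ga w) x) ^ (1 / r)))) := mul_le_mul_of_nonneg_left h3 (abs_nonneg _)
        _ ≤ |wy κ τ (x 2 - z)| * (√C2 * (M * (D ^ (1 - 1 / r) *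
            (Hz (vsq w) x + Hz (ga w) x) ^ (1 / r)))) := by gcongr
        _ = _ := by ring
    have cR : CP (fun x => |wy κ τ (x 2 - z)| * (Hz (vsq w) x + Hz (ga w) x) ^ (1 / r)) :=
      cwy.mul (cprp cH (by positivity))
    have hI0 : 0 ≤ (∫ x in cube, Wt κ τ z x * (Hz (vsq w) x + Hz (ga w) x)) ^ (1 / r) :=
      Real.rpow_nonneg (integral_nonneg fun x => mul_nonneg (W0 x).le (H0 x)) _
    have hτ0 : 0 ≤ τ ^ (-(1 / 2) : ℝ) := Real.rpow_nonneg hτ.le _
    calc ∫ x in cube, |wy κ τ (x 2 - z)| * Hz (fun y => G y * vsq w y) x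
        ≤ ∫ x in cube, (√C2 * (M * D ^ (1 - 1 / r))) * (|wy κ τ (x 2 - z)| *
          (Hz (vsq w) x + Hz (ga w) x) ^ (1 / r)) := integral_mono (cwy.mul cGv.hz).int (cR.cmul _).int hpt
      _ = (√C2 * (M * D ^ (1 - 1 / r))) * ∫ x in cube, |wy κ τ (x 2 - z)| *
          (Hz (vsq w) x + Hz (ga w) x) ^ (1 / r) := integral_const_mul _ _
      _ ≤ (√C2 * (M * D ^ (1 - 1 / r))) * (C1 * (τ ^ (-(1 / 2) : ℝ) *
          (∫ x in cube, Wt κ τ z x * (Hz (vsq w) x + Hz (ga w) x)) ^ (1 / r))) :=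
        mul_le_mul_of_nonneg_left h1 (by positivity)
      _ = (√C2 * C1) * (M * τ ^ (-(1 / 2) : ℝ) * (D ^ (1 - 1 / r) *
          (∫ x in cube, Wt κ τ z x * (Hz (vsq w) x + Hz (ga w) x)) ^ (1 / r))) := by ring
      _ ≤ (√C2 * C1 + C3) * (M * τ ^ (-(1 / 2) : ℝ) * (D ^ (1 - 1 / r) *
          (∫ x in cube, Wt κ τ z x * (Hz (vsq w) x + Hz (ga w) x)) ^ (1 / r))) := by
        apply mul_le_mul_of_nonneg_right (by linarith)
        positivity
  · intro m hm
    have hm0 : 0 ≤ m := (G0 0).trans (hm 0)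
    have h1 := (hI1b τ z hτ hτ1 (fun _ => 1) (CP.const 1) (fun _ => zero_le_one)).1 0 (by
        rw [abs_zero]; exact Real.sqrt_nonneg _)
    simp only [Real.rpow_zero, mul_one] at h1
    have hpt : ∀ x, |wy κ τ (x 2 - z)| * Hz (fun y => G y * vsq w y) x ≤
        (m * D) * |wy κ τ (x 2 - z)| := by
      intro x
      have h2 : Hz (fun y => G y * vsq w y) x ≤ Hz (fun y => m * vsq w y) x :=
        Hz_mono cGv (cv.cmul m) (fun y => mul_le_mul_of_nonneg_right (hm y) (vsq_nonneg w y)) x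
      have h3 : Hz (fun y => m * vsq w y) x = m * Hz (vsq w) x := by
        exact Hz_cmul m (vsq w) x
      have h4 : Hz (fun y => G y * vsq w y) x ≤ m * D := by
        rw [h3] at h2
        exact h2.trans (mul_le_mul_of_nonneg_left (hwD x) hm0)
      calc |wy κ τ (x 2 - z)| * Hz (fun y => G y * vsq w y) x ≤ |wy κ τ (x 2 - z)| * (m * D) :=
            mul_le_mul_of_nonneg_left h4 (abs_nonneg _)
        _ = _ := by ring
    calc ∫ x in cube, |wy κ τ (x 2 - z)| * Hz (fun y => G y * vsq w y) x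
        ≤ ∫ x in cube, (m * D) * |wy κ τ (x 2 - z)| :=
          integral_mono (cwy.mul cGv.hz).int (cwy.cmul _).int hpt
      _ = (m * D) * ∫ x in cube, |wy κ τ (x 2 - z)| := integral_const_mul _ _
      _ ≤ (m * D) * (C3 * τ ^ (-(1 / 2) : ℝ)) := mul_le_mul_of_nonneg_left h1 (by positivity)
      _ = C3 * (m * τ ^ (-(1 / 2) : ℝ) * D) := by ring
      _ ≤ (√C2 * C1 + C3) * (m * τ ^ (-(1 / 2) : ℝ) * D) := by
        apply mul_le_mul_of_nonneg_right _ (by positivity)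
        have : 0 ≤ √C2 * C1 := by positivity
        linarith

end Pool.Agent.H4NI.I6
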