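import Pool.Agent.H4NI.StmN
import Pool.Agent.H4NC.B8

/-!
Project NCI: the sources (adapted from `Pool/Agent/H4NC/B8.lean`). By helper92.
-/

set_option autoImplicit false
set_option linter.unusedVariables false

open MeasureTheory Set Function Filter Topology
open scoped ENNReal ContDiff

namespace Pool.Agent.H4NI.I8

open H459R3.NS H4LA H4NC

theorem t (hB0 : B0) (hI1 : I1) (hB2 : B2v) : Pool.Agent.H4NI.I8 := by
  intro κ r hκ hr
  obtain ⟨C0, hC0, h0⟩ := hB0 κ hκ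
  have hr0 : 0 < r := by linarith
  have hlam : 1 / r ≤ 1 / 2 := one_div_le_one_div_of_le (by norm_num) hr.le
  have e0 : 0 ≤ 1 / 2 - 1 / r := by linarith
  obtain ⟨C1, hC1, h1⟩ := hI1 κ (1 / r) hκ (by positivity) hlam
  obtain ⟨C1', hC1', h1'⟩ := hI1 κ 0 hκ le_rfl (by norm_num)
  obtain ⟨C2, hC2, h2⟩ := hB2 r hr
  refine ⟨2 * √C2 * C1 + √C2 * C1', by positivity, ?_⟩
  intro τ z M D hτ hτ1 hM hD G cG G0 hG v hv hU
  obtain ⟨sW, iW, W0, -, -, -⟩ := h0 τ z hτ hτ1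
  have cW := cp_of sW
  have cv : CP (vsq v) := cp_of (vsq_sp hv)
  have cg : CP (ga v) := cp_of (ga_sp hv)
  have cH : CP (fun x => Hz (vsq v) x + Hz (ga v) x) := cv.hz.add cg.hz
  have H0 : ∀ x, 0 ≤ Hz (vsq v) x + Hz (ga v) x := fun x =>
    add_nonneg (Hz_nonneg (vsq_nonneg v) x) (Hz_nonneg ga_nonneg x)
  have NR1 : ∀ x, 1 ≤ NR r G x := NR_one G0
  have hM0 : 0 ≤ M := by linarith
  have hNM : ∀ x, NR r G x ^ (1 / r) ≤ M := by
    intro x
    have h := Real.rpow_le_rpow (by linarith [NR1 x]) (hG x) (by positivity : 0 ≤ 1 / r)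
    rw [← Real.rpow_mul hM0, mul_one_div_cancel hr0.ne', Real.rpow_one] at h
    exact h
  have b1 := (h1 τ z hτ hτ1 _ cH H0).2
  have b1' := (h1' τ z hτ hτ1 _ cH H0).2
  simp only [Real.rpow_zero, mul_one] at b1'
  -- the pointwise bound on slices
  have sm := mm_sp hv
  have cA : CP (Av 2 (conv v 2)) := (cp_of (sp_conv hv 2)).av 2
  have cGA : CP (fun y => G y * |Av 2 (conv v 2) y|) := cG.mul cA.abs
  have cq : ∀ j, CP (fun y => G y * (|v j y| * |pd j (mm v) y|)) := fun j =>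
    cG.mul ((cp_of (hv j)).abs.mul (cp_of (sm.pd j)).abs)
  have hE : 0 ≤ esq v + ysq v := add_nonneg (esq_nonneg v) (ysq_nonneg v)
  have p1 : ∀ x, Hz (fun y => G y * |rr v 2 y|) x
      ≤ (2 * √C2 * (M * (D ^ (1 / 2 - 1 / r) * √(hsq v))))
          * (Hz (vsq v) x + Hz (ga v) x) ^ (1 / r)
        + (√C2 * (M * (D ^ (1 / 2 - 1 / r) * (esq v + ysq v) ^ (1 / 2 + 1 / r)))) := by
    intro x
    have h3 : Hz (fun y => G y * |rr v 2 y|) x ≤ Hz (fun y => G y * |Av 2 (conv v 2) y|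
        + (G y * (|v 0 y| * |pd 0 (mm v) y|) + G y * (|v 1 y| * |pd 1 (mm v) y|))) x := by
      apply Hz_mono (cG.mul (cp_of (rr_sp hv 2)).abs) (cGA.add ((cq 0).add (cq 1)))
      intro y
      have l1 : |rr v 2 y| ≤ |Av 2 (conv v 2) y| + (|v 0 y| * |pd 0 (mm v) y|
          + |v 1 y| * |pd 1 (mm v) y|) := by
        show |Av 2 (conv v 2) y - ∑ j, v j y * pd j (mm v) y| ≤ _
        rw [Fin.sum_univ_three, pd2_mm hv, mul_zero, add_zero, ← abs_mul, ← abs_mul]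
        refine (abs_sub _ _).trans ?_
        exact add_le_add le_rfl (abs_add_le _ _)
      have l2 := mul_le_mul_of_nonneg_left l1 (G0 y)
      refine l2.trans (le_of_eq ?_)
      ring
    rw [Hz_add cGA ((cq 0).add (cq 1)), Hz_add (cq 0) (cq 1)] at h3
    have a0 := H4NC.B8.partA hv cG G0 mem0 x
    have a1 := H4NC.B8.partA hv cG G0 mem1 x
    have a2 := Real.sqrt_le_sqrt ((h2 G cG G0 v hv x).2)
    have hUx : 0 ≤ Hz (vsq v) x := Hz_nonneg (vsq_nonneg v) x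
    have hHx : 0 ≤ Hz (ga v) x := Hz_nonneg ga_nonneg x
    have a3 := a2.trans (H4NC.B8.expo hr (by linarith : 0 ≤ C2)
      (by linarith [NR1 x] : 0 ≤ NR r G x) hUx (hU x) hHx)
    have a3' : √C2 * (NR r G x ^ (1 / r) * (D ^ (1 / 2 - 1 / r)
          * (Hz (vsq v) x + Hz (ga v) x) ^ (1 / r))) ≤ √C2 * (M * (D ^ (1 / 2 - 1 / r)
          * (Hz (vsq v) x + Hz (ga v) x) ^ (1 / r))) := by
      refine mul_le_mul_of_nonneg_left (mul_le_mul_of_nonneg_right (hNM x) ?_) (Real.sqrt_nonneg _)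
      exact mul_nonneg (Real.rpow_nonneg hD _) (Real.rpow_nonneg (H0 x) _)
    have a4 := mul_le_mul_of_nonneg_right (a3.trans a3') (Real.sqrt_nonneg (hsq v))
    have a5 := H4NC.B8.partB hv hr hC2 (fun G cG G0 x => (h2 G cG G0 v hv x).1) hU cG G0 x
    have a5' : √C2 * (NR r G x ^ (1 / r) * (D ^ (1 / 2 - 1 / r)
          * (esq v + ysq v) ^ (1 / 2 + 1 / r))) ≤ √C2 * (M * (D ^ (1 / 2 - 1 / r)
          * (esq v + ysq v) ^ (1 / 2 + 1 / r))) := by
      refine mul_le_mul_of_nonneg_left (mul_le_mul_of_nonneg_right (hNM x) ?_) (Real.sqrt_nonneg _)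
      exact mul_nonneg (Real.rpow_nonneg hD _) (Real.rpow_nonneg hE _)
    have e1 : (2 * √C2 * (M * (D ^ (1 / 2 - 1 / r) * √(hsq v))))
          * (Hz (vsq v) x + Hz (ga v) x) ^ (1 / r)
        = 2 * (√C2 * (M * (D ^ (1 / 2 - 1 / r)
          * (Hz (vsq v) x + Hz (ga v) x) ^ (1 / r))) * √(hsq v)) := by ring
    rw [e1]
    linarith
  have cHr : CP (fun x => (Hz (vsq v) x + Hz (ga v) x) ^ (1 / r)) := cprp cH (by positivity)
  have cR : CP (Hz (fun y => G y * |rr v 2 y|)) := (cG.mul (cp_of (rr_sp hv 2)).abs).hz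
  have p2 : ∫ x in cube, Wt κ τ z x * Hz (fun y => G y * |rr v 2 y|) x
      ≤ ∫ x in cube, ((2 * √C2 * (M * (D ^ (1 / 2 - 1 / r) * √(hsq v))))
          * (Wt κ τ z x * (Hz (vsq v) x + Hz (ga v) x) ^ (1 / r))
        + (√C2 * (M * (D ^ (1 / 2 - 1 / r) * (esq v + ysq v) ^ (1 / 2 + 1 / r))))
          * Wt κ τ z x) := by
    refine integral_mono (cW.mul cR).int
      (((cW.mul cHr).cmul _).add (cW.cmul _)).int fun x => ?_
    refine (mul_le_mul_of_nonneg_left (p1 x) (W0 x).le).trans (le_of_eq ?_)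
    ring
  rw [integral_add ((cW.mul cHr).cmul _).int (cW.cmul _).int,
    integral_const_mul, integral_const_mul] at p2
  have hDe : 0 ≤ D ^ (1 / 2 - 1 / r) := Real.rpow_nonneg hD _
  have hEe : 0 ≤ (esq v + ysq v) ^ (1 / 2 + 1 / r) := Real.rpow_nonneg hE _
  have q1 := mul_le_mul_of_nonneg_left b1
    (by positivity : 0 ≤ 2 * √C2 * (M * (D ^ (1 / 2 - 1 / r) * √(hsq v))))
  have q2 := mul_le_mul_of_nonneg_left b1'
    (by positivity : 0 ≤ √C2 * (M * (D ^ (1 / 2 - 1 / r) * (esq v + ysq v) ^ (1 / 2 + 1 / r))))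
  refine (p2.trans (add_le_add q1 q2)).trans ?_
  set X : ℝ := ∫ x in cube, Wt κ τ z x * (Hz (vsq v) x + Hz (ga v) x) with hX
  have hX0 : 0 ≤ X := integral_nonneg fun x => mul_nonneg (W0 x).le (H0 x)
  have hXr : 0 ≤ X ^ (1 / r) := Real.rpow_nonneg hX0 _
  have r1 : 0 ≤ M * (D ^ (1 / 2 - 1 / r) * (X ^ (1 / r) * √(hsq v))) := by positivity
  have r2 : 0 ≤ M * (D ^ (1 / 2 - 1 / r) * (esq v + ysq v) ^ (1 / 2 + 1 / r)) := by positivity
  set Y1 : ℝ := M * (D ^ (1 / 2 - 1 / r) * (X ^ (1 / r) * √(hsq v))) with hY1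
  set Y2 : ℝ := M * (D ^ (1 / 2 - 1 / r) * (esq v + ysq v) ^ (1 / 2 + 1 / r)) with hY2
  have f1 : 2 * √C2 * (M * (D ^ (1 / 2 - 1 / r) * √(hsq v))) * (C1 * X ^ (1 / r))
      = 2 * √C2 * C1 * Y1 := by
    rw [hY1]
    ring
  have f2 : √C2 * Y2 * C1' = √C2 * C1' * Y2 := by ring
  rw [f1, f2]
  have g1 : 0 ≤ √C2 * C1' * Y1 := by positivity
  have g2 : 0 ≤ 2 * √C2 * C1 * Y2 := by positivity
  have e1 : (2 * √C2 * C1 + √C2 * C1') * (Y1 + Y2)
      = 2 * √C2 * C1 * Y1 + √C2 * C1' * Y2 + (√C2 * C1' * Y1 + 2 * √C2 * C1 * Y2) := by ring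
  rw [e1]
  linarith

end Pool.Agent.H4NI.I8
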