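import Pool.Agent.H4NI.StmN
import Pool.Agent.H4LA.Gen4
import Pool.Agent.H4LA.EtaL

set_option autoImplicit false
set_option linter.unusedVariables false

open MeasureTheory Set Function Filter Topology
open scoped ENNReal ContDiff

namespace Pool.Agent.H4NI.IF3

open H459R3.NS H4LA Pool.Agent.H4NC Pool.Agent.H4NI

/-- The algebra for the rate. -/
theorem alg {ν A K c5 ε e' y' η π y n Q : ℝ} (hK : 0 ≤ K) (hA : 0 < A) (hc5 : 0 ≤ c5)
    (hAν : A * ν = c5 + 1) (hAε : A * ε = ν / 2) (hη : 0 ≤ η) (hπ : 0 ≤ π) (hy : 0 ≤ y)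
    (hn : 0 ≤ n) (hQ : 0 ≤ Q)
    (h1 : e' ≤ -(ν * π) + K * ((1 + η) * y + n * y) + ε * Q)
    (h2 : y' ≤ -(ν * Q) + c5 * (η + π)) :
    A * e' + y' ≤ -(ν / 2 * Q)
      + (K * (1 + A) + A * K + c5 / A) * ((n + (1 + y)) * (1 + (A * η + y))) := by
  have k1 := mul_le_mul_of_nonneg_left h1 hA.le
  have e1 : A * (-(ν * π) + K * ((1 + η) * y + n * y) + ε * Q)
      = -((c5 + 1) * π) + K * ((A + A * η) * y) + A * K * (n * y) + ν / 2 * Q := by
    rw [← hAν, ← hAε]
    ring
  rw [e1] at k1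
  have p1 : 0 ≤ A * η := by positivity
  have p2 : 0 ≤ n * y := by positivity
  have p3 : 0 ≤ A * η * y := by positivity
  have q1 : K * ((A + A * η) * y) ≤ K * (1 + A) * ((n + (1 + y)) * (1 + (A * η + y))) := by
    have l1 : (A + A * η) * y ≤ (1 + A) * ((n + (1 + y)) * (1 + (A * η + y))) := by
      have : 0 ≤ (1 + A) * ((n + (1 + y)) * (1 + (A * η + y))) - (A + A * η) * y := by
        have e : (1 + A) * ((n + (1 + y)) * (1 + (A * η + y))) - (A + A * η) * y
            = 1 + A * η + y + y * y + y + n * (1 + (A * η + y)) + A * (1 + A * η + y + y * y)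
              + A * (A * η * y) + A * (n * (1 + (A * η + y))) := by ring
        rw [e]
        positivity
      linarith
    calc K * ((A + A * η) * y) ≤ K * ((1 + A) * ((n + (1 + y)) * (1 + (A * η + y)))) :=
          mul_le_mul_of_nonneg_left l1 hK
      _ = _ := by ring
  have q2 : A * K * (n * y) ≤ A * K * ((n + (1 + y)) * (1 + (A * η + y))) := by
    refine mul_le_mul_of_nonneg_left ?_ (by positivity)
    have : 0 ≤ (n + (1 + y)) * (1 + (A * η + y)) - n * y := by
      have e : (n + (1 + y)) * (1 + (A * η + y)) - n * y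
          = n * (1 + A * η) + (1 + y) * (1 + (A * η + y)) := by ring
      rw [e]
      positivity
    linarith
  have q3 : c5 * η ≤ c5 / A * ((n + (1 + y)) * (1 + (A * η + y))) := by
    have e : c5 * η = c5 / A * (A * η) := by
      field_simp
    rw [e]
    refine mul_le_mul_of_nonneg_left ?_ (by positivity)
    have : 0 ≤ (n + (1 + y)) * (1 + (A * η + y)) - A * η := by
      have e : (n + (1 + y)) * (1 + (A * η + y)) - A * η
          = 1 + y + (n + y) * (1 + (A * η + y)) := by ring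
      rw [e]
      positivity
    linarith
  have e2 : (K * (1 + A) + A * K + c5 / A) * ((n + (1 + y)) * (1 + (A * η + y)))
      = K * (1 + A) * ((n + (1 + y)) * (1 + (A * η + y)))
        + A * K * ((n + (1 + y)) * (1 + (A * η + y)))
        + c5 / A * ((n + (1 + y)) * (1 + (A * η + y))) := by ring
  rw [e2]
  linarith

theorem t (hV2 : IV2) (hR4 : IR4) : IF3 := by
  intro ν T u p h hν hT r hr N N1 hN hb t0 D0 ht0 hD0
  set y : ℝ → ℝ := fun t => ysq (fun i y => u t y i) with hy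
  set η : ℝ → ℝ := fun t => hsq (fun i y => u t y i) with hη
  set π : ℝ → ℝ := fun t => psq (fun i y => u t y i) with hπ
  set Q : ℝ → ℝ := fun t => palin (u t) with hQ
  have y0 : ∀ t, 0 ≤ y t := fun t => ysq_nonneg _
  have η0 : ∀ t, 0 ≤ η t := fun t => hsq_nonneg _
  have π0 : ∀ t, 0 ≤ π t := fun t => psq_nonneg _
  have Q0 : ∀ t, 0 ≤ Q t := fun t => palin_nonneg _
  have cy : ContinuousOn y (Ico 0 T) := h.enstrophy_continuousOn
  have cη : ContinuousOn η (Ico 0 T) := hsq_continuousOn h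
  have cQ : ContinuousOn Q (Ico 0 T) := h.palin_continuousOn
  set E0 : ℝ := energy (u 0) with hE0
  have hE00 : 0 ≤ E0 := energy_nonneg _
  have hyD : ∀ t ∈ Ico 0 T, ∫ s in (0 : ℝ)..t, y s ≤ E0 / (2 * ν) := fun t ht =>
    h.int_enstrophy hν ht
  have hyI := integrableOn_of_bdd cy y0 hyD hT
  have hyI' : IntegrableOn y (Ioo 0 T) := by
    rwa [← integrableOn_Ioc_iff_integrableOn_Ioo]
  have hspt : ∀ t ∈ Ioo 0 T, ∀ i, SP (fun y => u t y i) := fun t ht => h.sp ⟨ht.1.le, ht.2⟩
  have hdivt : ∀ t ∈ Ioo 0 T, ∀ x, ∑ i, pd i (fun y => u t y i) x = 0 := fun t ht =>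
    h.divfree t ⟨ht.1.le, ht.2⟩
  have N0 : ∀ t ∈ Ioo 0 T, 0 < N t := fun t ht => by linarith [N1 t ht]
  set s : ℝ := 1 / (1 / 2 - 1 / r) with hs'
  -- the bound for the squares
  obtain ⟨Cv, hCv0, hCv⟩ := hV2 r hr
  -- the growth of the gradient
  set c5 : ℝ := (ν + 874800 / ν) * (1 + |D0|) with hc5
  have hc50 : 0 ≤ c5 := by positivity
  have hsub0 : Ico t0 T ⊆ Ioo 0 T := fun t ht => ⟨ht0.1.trans_le ht.1, ht.2⟩
  have hcub : ∀ t ∈ Ico t0 T, -2 * cub (fun i y => u t y i)
      ≤ ν * Q t + c5 * (η t + π t) := by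
    intro t ht
    have ht' := hsub0 ht
    have h1 := abs_cub_le2 (hspt t ht') (hdivt t ht') (E := |D0|) (abs_nonneg _)
      (fun x => (hD0 t ht x).trans (le_abs_self _))
    have h2 := absorb (e := |D0|) (ν := ν) (η0 t) (π0 t) (qsq_nonneg (fun i y => u t y i))
      (abs_nonneg _) hν
    have h3 := (abs_le.1 h1).1
    have h4 : qsq (fun i y => u t y i) = Q t := rfl
    rw [← h4]
    have h5 : (ν + 874800 / ν) * ((1 + |D0|) * (η t + π t)) = c5 * (η t + π t) := by
      rw [hc5]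
      ring
    rw [← h5]
    simp only [hη, hπ] at h2 ⊢
    linarith
  set A : ℝ := (c5 + 1) / ν with hA
  have hA0 : 0 < A := by positivity
  have hAν : A * ν = c5 + 1 := by
    rw [hA]
    field_simp
  set ε : ℝ := ν / (2 * A) with hε
  have hε0 : 0 < ε := by positivity
  have hAε : A * ε = ν / 2 := by
    rw [hε]
    field_simp
  obtain ⟨K, hK0, hK⟩ := hR4 r E0 Cv ε ν hr hν hε0 hCv0
  set C1 : ℝ := K * (1 + A) + A * K + c5 / A with hC1
  have hC10 : 0 ≤ C1 := by positivity
  set Z : ℝ → ℝ := fun t => A * η t + y t with hZ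
  have Z0 : ∀ t, 0 ≤ Z t := fun t => add_nonneg (mul_nonneg hA0.le (η0 t)) (y0 t)
  set w : ℝ → ℝ := fun t => N t ^ s + (1 + y t) with hw
  have wI : IntegrableOn w (Ioo 0 T) := hN.add ((integrableOn_const (by simp)).add hyI')
  have w0 : ∀ t ∈ Ioo 0 T, 0 ≤ w t := fun t ht =>
    add_nonneg (Real.rpow_nonneg (N0 t ht).le _) (by linarith [y0 t])
  have hrate : ∀ t ∈ Ico t0 T, ∃ D, HasDerivAt Z D t ∧
      D ≤ -(ν / 2 * Q t) + C1 * (w t * (1 + Z t)) := by
    intro t ht
    have ht' := hsub0 ht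
    have hW := fun i j => hCv (N t) (N1 t ht') (fun i y => u t y i) (hspt t ht')
      (hb t ht') i j
    have hcu := abs_cubh_le (hspt t ht') (hdivt t ht') hW
    have h1 := hK _ (η t) (π t) (y t) _ _ (N t) (Q t) (esq_nonneg (fun i y => u t y i))
      (h.energy_le hν ⟨ht'.1.le, ht'.2⟩)
      (η0 t) (π0 t) (y0 t) ((isq_nonneg _).trans (hW 0 0)) (N1 t ht') (Q0 t) hcu le_rfl
    have h2 : -(2 * ν * palin (u t)) - 2 * cub (fun i y => u t y i)
        ≤ -(ν * Q t) + c5 * (η t + π t) := by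
      have := hcub t ht
      simp only [hQ] at this ⊢
      linarith
    have d1 := (hsq_hasDerivAt h ht').const_mul A
    have d2 := h.enstrophy_hasDerivAt ht'
    refine ⟨_, d1.add d2, ?_⟩
    exact alg hK0 hA0 hc50 hAν hAε (η0 t) (π0 t) (y0 t) (Real.rpow_nonneg (N0 t ht').le _)
      (Q0 t) h1 h2
  choose! Dz hD1 hD2 using hrate
  have cZ : ContinuousOn Z (Ico 0 T) := (continuousOn_const.mul cη).add cy
  set W : ℝ := ∫ r in Ioo 0 T, w r with hW
  -- integrals of the weight
  have hWle : ∀ t ∈ Ico t0 T, ∫ r in t0..t, w r ≤ W := by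
    intro t ht
    rw [intervalIntegral.integral_of_le ht.1]
    refine setIntegral_mono_set wI ?_ ?_
    · exact (ae_restrict_iff' measurableSet_Ioo).2 (Filter.Eventually.of_forall w0)
    · exact Filter.Eventually.of_forall
        (fun r hr => ⟨ht0.1.trans hr.1, hr.2.trans_lt ht.2⟩)
  -- the logarithm
  have late : ∀ t ∈ Ico t0 T, Z t ≤ (1 + Z t0) * Real.exp (C1 * W) := by
    intro t ht
    have hsub : Icc t0 t ⊆ Ico t0 T := fun r hr => ⟨hr.1, hr.2.trans_lt ht.2⟩
    have hsub' : Icc t0 t ⊆ Ioo 0 T := hsub.trans hsub0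
    have hl : ∀ r ∈ Ico t0 T, HasDerivAt (fun r => Real.log (1 + Z r)) (Dz r / (1 + Z r)) r := by
      intro r hr
      have h1 : HasDerivAt (fun r => 1 + Z r) (Dz r) r := (hD1 r hr).const_add 1
      exact h1.log (by linarith [Z0 r])
    have h1 := intervalIntegral.sub_le_integral_of_hasDeriv_right_of_le
      (φ := fun r => C1 * w r) (g := fun r => Real.log (1 + Z r)) ht.1
      (fun r hr => (hl r (hsub hr)).continuousAt.continuousWithinAt)
      (fun r hr => (hl r (hsub ⟨hr.1.le, hr.2.le⟩)).hasDerivWithinAt)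
      ((wI.mono_set hsub').const_mul C1)
      (by
        intro r hr
        have hr' := hsub ⟨hr.1.le, hr.2.le⟩
        rw [div_le_iff₀ (by linarith [Z0 r])]
        refine (hD2 r hr').trans ?_
        have l1 : 0 ≤ ν / 2 * Q r := mul_nonneg (by positivity) (Q0 r)
        have l2 : C1 * (w r * (1 + Z r)) = C1 * w r * (1 + Z r) := by ring
        linarith)
    rw [intervalIntegral.integral_const_mul] at h1
    have h2 := mul_le_mul_of_nonneg_left (hWle t ht) hC10
    have h3 : Real.log (1 + Z t) ≤ Real.log (1 + Z t0) + C1 * W := by linarith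
    have p1 : 0 < 1 + Z t := by linarith [Z0 t]
    have p2 : 0 < 1 + Z t0 := by linarith [Z0 t0]
    have h4 := Real.exp_le_exp.2 h3
    rw [Real.exp_add, Real.exp_log p1, Real.exp_log p2] at h4
    linarith
  set Zm : ℝ := (1 + Z t0) * Real.exp (C1 * W) with hZm
  have hZm0 : 0 ≤ Zm := by
    have := Z0 t0
    positivity
  -- the integral of the palinstrophy
  have hpal : ∀ t ∈ Ico t0 T, ∫ r in t0..t, Q r ≤ 2 / ν * (Z t0 + C1 * ((1 + Zm) * W)) := by
    intro t ht
    have hsub : Icc t0 t ⊆ Ico t0 T := fun r hr => ⟨hr.1, hr.2.trans_lt ht.2⟩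
    have hsub' : Icc t0 t ⊆ Ioo 0 T := hsub.trans hsub0
    have hsub2 : Icc t0 t ⊆ Ico 0 T := fun r hr => ⟨(hsub' hr).1.le, (hsub' hr).2⟩
    have cQ' : ContinuousOn Q (Icc t0 t) := cQ.mono hsub2
    have i1 : IntegrableOn (fun r => -(ν / 2 * Q r)) (Icc t0 t) :=
      (continuousOn_const.mul cQ').neg.integrableOn_Icc
    have i2 : IntegrableOn (fun r => C1 * ((1 + Zm) * w r)) (Icc t0 t) :=
      ((wI.mono_set hsub').const_mul (1 + Zm)).const_mul C1
    have h1 := intervalIntegral.sub_le_integral_of_hasDeriv_right_of_le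
      (φ := fun r => -(ν / 2 * Q r) + C1 * ((1 + Zm) * w r)) (g := Z) ht.1
      (cZ.mono hsub2)
      (fun r hr => (hD1 r (hsub ⟨hr.1.le, hr.2.le⟩)).hasDerivWithinAt)
      (i1.add i2)
      (by
        intro r hr
        have hr' := hsub ⟨hr.1.le, hr.2.le⟩
        have l1 := late r hr'
        have l2 := w0 r (hsub0 hr')
        have l3 : w r * (1 + Z r) ≤ (1 + Zm) * w r := by
          have := mul_le_mul_of_nonneg_left l1 l2
          linarith
        have l4 := mul_le_mul_of_nonneg_left l3 hC10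
        have := hD2 r hr'
        linarith)
    have j1 : IntervalIntegrable (fun r => -(ν / 2 * Q r)) volume t0 t :=
      (intervalIntegrable_iff_integrableOn_Icc_of_le ht.1).2 i1
    have j2 : IntervalIntegrable (fun r => C1 * ((1 + Zm) * w r)) volume t0 t :=
      (intervalIntegrable_iff_integrableOn_Icc_of_le ht.1).2 i2
    rw [intervalIntegral.integral_add j1 j2, intervalIntegral.integral_neg,
      intervalIntegral.integral_const_mul, intervalIntegral.integral_const_mul,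
      intervalIntegral.integral_const_mul] at h1
    have h2 := mul_le_mul_of_nonneg_left (mul_le_mul_of_nonneg_left (hWle t ht)
      (by linarith : 0 ≤ 1 + Zm)) hC10
    have h3 := Z0 t
    have h4 : ν / 2 * ∫ r in t0..t, Q r ≤ Z t0 + C1 * ((1 + Zm) * W) := by linarith
    have h5 := mul_le_mul_of_nonneg_left h4 (by positivity : 0 ≤ 2 / ν)
    have e : 2 / ν * (ν / 2 * ∫ r in t0..t, Q r) = ∫ r in t0..t, Q r := by
      field_simp
    rwa [e] at h5
  have hI0 : ∀ t ∈ Ico 0 T, IntervalIntegrable Q volume 0 t := fun t ht => by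
    refine (intervalIntegrable_iff_integrableOn_Icc_of_le ht.1).2 ?_
    exact (cQ.mono fun r hr => ⟨hr.1, hr.2.trans_lt ht.2⟩).integrableOn_Icc
  have hW0 : 0 ≤ W := setIntegral_nonneg measurableSet_Ioo w0
  have hc : 0 ≤ 2 / ν * (Z t0 + C1 * ((1 + Zm) * W)) := by
    have := Z0 t0
    positivity
  refine h.bounded_of_int_palin hν (K := (∫ r in (0 : ℝ)..t0, Q r)
    + 2 / ν * (Z t0 + C1 * ((1 + Zm) * W))) fun t ht => ?_
  have ht0' : t0 ∈ Ico 0 T := ⟨ht0.1.le, ht0.2⟩
  rcases lt_or_ge t t0 with h1 | h1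
  · have h2 : ∫ r in (0 : ℝ)..t, Q r ≤ ∫ r in (0 : ℝ)..t0, Q r :=
      intervalIntegral.integral_mono_interval le_rfl ht.1 h1.le
        (Filter.Eventually.of_forall fun r => Q0 r) (hI0 t0 ht0')
    simp only [hQ] at h2 hc ⊢
    linarith
  · have h2 := hpal t ⟨h1, ht.2⟩
    have h3 : (∫ r in (0 : ℝ)..t0, Q r) + ∫ r in t0..t, Q r = ∫ r in (0 : ℝ)..t, Q r :=
      intervalIntegral.integral_add_adjacent_intervals (hI0 t0 ht0')
        ((hI0 t0 ht0').symm.trans (hI0 t ht))
    show ∫ r in (0 : ℝ)..t, Q r ≤ _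
    rw [← h3]
    linarith

end Pool.Agent.H4NI.IF3
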