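import Pool.Agent.H4NI.StmN
import Pool.Agent.H4NC.KS

/-!
Stub IK of project NCI: the inequality at a fixed time (the case of the exponent infinity).
-/

set_option autoImplicit false
set_option linter.unusedVariables false

open MeasureTheory Set Function Filter Topology
open scoped ENNReal ContDiff

namespace Pool.Agent.H4NI.IK

open H459R3.NS H4LA H4NC

theorem t (h12 : I12) (h0 : B0) (h5 : I5) (h6 : I6) (h8 : I8) (h9 : B9) : Pool.Agent.H4NI.IK := by
  intro ν r E hν hr hE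
  have hr0 : 0 < r := by linarith
  obtain ⟨κ0, hκ0d⟩ : ∃ κ0 : ℝ, κ0 = 4 * Real.pi ^ 2 * ν := ⟨_, rfl⟩
  have hκ0 : 0 < κ0 := by rw [hκ0d]; positivity
  obtain ⟨C0, hC00, hC0⟩ := h0 κ0 hκ0
  obtain ⟨C5, hC50, hC5⟩ := h5 κ0 r hκ0 hr
  obtain ⟨C6, hC60, hC6⟩ := h6 κ0 r hκ0 hr
  obtain ⟨C8, hC80, hC8⟩ := h8 κ0 r hκ0 hr
  set K : ℝ := 4 * C6 + 4 * (C6 * 1) + 2 * (C5 * (1 + E)) + 2 * C8 with hK
  have hK0 : 0 ≤ K := by positivity
  obtain ⟨C12, hC120, hC12⟩ := h12 r (ν / 3) K hr (by positivity) hK0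
  refine ⟨Real.pi ^ 2 * ν * (4 * C0) + 3 * ν * C0 + C12 * (1 + E), by positivity, ?_⟩
  intro κ hκ τ z M D m hτ hτ1 hM hD hm v p F hv hdiv hp hl hF hesE hNR hUD hmm
  rw [← hκ0d] at hκ
  subst hκ
  have hD0 : 0 ≤ D := by linarith
  -- subtraction of the mean
  set c : ℝ := ∫ x in cube, p x with hc
  set p' : V → ℝ := fun x => p x - c with hp'
  have sp' : SP p' := hp.sub (SP.constf c)
  have dp' : ∀ i, pd i p' = pd i p := by
    intro i
    funext x
    rw [hp', pd_subf hp (SP.constf c)]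
    have : pd i (fun _ : V => c) x = 0 := by
      unfold pd
      simp
    rw [this, sub_zero]
  have lp' : ∀ x, -lap p' x = ∑ i, pd i (conv v i) x := by
    intro x
    rw [← hl x]
    unfold lap
    simp_rw [dp']
  have hfin := cube_finite
  have zp' : ∫ x in cube, p' x = 0 := by
    rw [hp', integral_sub hp.int (integrable_const c), KS.int_cube_const]
    linarith
  have hF' : ∀ i x, F i x = ν * lap (v i) x - conv v i x - pd i p' x := by
    intro i x
    rw [hF, dp']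
  have hw := ww_sp hv
  -- the functions
  obtain ⟨sW, iW, W0, -, -, hWC⟩ := hC0 τ z hτ hτ1
  have cW := cp_of sW
  set W : V → ℝ := Wt κ τ z with hWd
  have cU : CP (Hz (vsq v)) := (cp_of (vsq_sp hv)).hz
  have cH : CP (Hz (ga v)) := (cp_of (ga_sp hv)).hz
  have cUw : CP (Hz (vsq (ww v))) := (cp_of (vsq_sp hw)).hz
  have cHw : CP (Hz (ga (ww v))) := (cp_of (ga_sp hw)).hz
  have U0 : ∀ x, 0 ≤ Hz (vsq v) x := Hz_nonneg (vsq_nonneg v)
  have H0 : ∀ x, 0 ≤ Hz (ga v) x := Hz_nonneg ga_nonneg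
  have Uw0 : ∀ x, 0 ≤ Hz (vsq (ww v)) x := Hz_nonneg (vsq_nonneg _)
  have Hw0 : ∀ x, 0 ≤ Hz (ga (ww v)) x := Hz_nonneg ga_nonneg
  have hes0 := esq_nonneg v
  have hy0 : 0 ≤ ysq v := ysq_nonneg v
  have hη0 : 0 ≤ hsq v := hsq_nonneg v
  have hηy : hsq v ≤ ysq v := hsq_le_ysq v
  have eE : ∫ x in cube, Hz (vsq v) x = esq v := by
    rw [int_Hz (cp_of (vsq_sp hv))]
    unfold vsq esq
    rw [integral_finsetSum _ fun i _ => (SP.sqr (hv i)).int]
  have hesD : esq v ≤ D := by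
    rw [← eE]
    calc ∫ x in cube, Hz (vsq v) x ≤ ∫ x in (cube : Set V), D :=
          integral_mono cU.int (integrable_const D) hUD
      _ = D := KS.int_cube_const D
  have hUw4 : ∀ x, Hz (vsq (ww v)) x ≤ 4 * D := by
    intro x
    have := Hz_ww_le hv x
    have := hUD x
    linarith
  -- the integrals with the kernel
  set Xu : ℝ := ∫ x in cube, W x * Hz (vsq (ww v)) x with hXu
  set Xh : ℝ := ∫ x in cube, W x * Hz (ga (ww v)) x with hXh
  set Yu : ℝ := ∫ x in cube, W x * Hz (vsq v) x with hYu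
  set Yh : ℝ := ∫ x in cube, W x * Hz (ga v) x with hYh
  have Xu0 : 0 ≤ Xu := integral_nonneg fun x => mul_nonneg (W0 x).le (Uw0 x)
  have Xh0 : 0 ≤ Xh := integral_nonneg fun x => mul_nonneg (W0 x).le (Hw0 x)
  have Yu0 : 0 ≤ Yu := integral_nonneg fun x => mul_nonneg (W0 x).le (U0 x)
  have Yh0 : 0 ≤ Yh := integral_nonneg fun x => mul_nonneg (W0 x).le (H0 x)
  have eXw : ∫ x in cube, W x * (Hz (vsq (ww v)) x + Hz (ga (ww v)) x) = Xu + Xh := by
    have : ∀ x, W x * (Hz (vsq (ww v)) x + Hz (ga (ww v)) x)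
        = W x * Hz (vsq (ww v)) x + W x * Hz (ga (ww v)) x := fun x => by ring
    simp_rw [this]
    rw [integral_add (cW.mul cUw).int (cW.mul cHw).int]
  have eXv : ∫ x in cube, W x * (Hz (vsq v) x + Hz (ga v) x) = Yu + Yh := by
    have : ∀ x, W x * (Hz (vsq v) x + Hz (ga v) x)
        = W x * Hz (vsq v) x + W x * Hz (ga v) x := fun x => by ring
    simp_rw [this]
    rw [integral_add (cW.mul cU).int (cW.mul cH).int]
  have hXuB : Xu ≤ 4 * D * C0 := by
    calc Xu ≤ ∫ x in cube, 4 * D * W x := by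
          refine integral_mono (cW.mul cUw).int (cW.cmul _).int fun x => ?_
          have := mul_le_mul_of_nonneg_left (hUw4 x) (W0 x).le
          simp only
          linarith
      _ = 4 * D * ∫ x in cube, W x := integral_const_mul _ _
      _ ≤ 4 * D * C0 := mul_le_mul_of_nonneg_left hWC (by positivity)
  have hYuB : Yu ≤ D * C0 := by
    calc Yu ≤ ∫ x in cube, D * W x := by
          refine integral_mono (cW.mul cU).int (cW.cmul _).int fun x => ?_
          have := mul_le_mul_of_nonneg_left (hUD x) (W0 x).le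
          simp only
          linarith
      _ = D * ∫ x in cube, W x := integral_const_mul _ _
      _ ≤ D * C0 := mul_le_mul_of_nonneg_left hWC (by positivity)
  have hYhB : Yh ≤ 2 * Xh + 4 * ysq v * C0 := by
    have h1 : Yh ≤ ∫ x in cube, (2 * (W x * Hz (ga (ww v)) x) + 4 * ysq v * W x) := by
      refine integral_mono (cW.mul cH).int (((cW.mul cHw).cmul 2).add (cW.cmul _)).int
        fun x => ?_
      have := mul_le_mul_of_nonneg_left (Hz_ga_le hv x) (W0 x).le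
      simp only
      linarith
    rw [integral_add ((cW.mul cHw).cmul 2).int (cW.cmul _).int, integral_const_mul,
      integral_const_mul] at h1
    have h2 := mul_le_mul_of_nonneg_left hWC (by positivity : 0 ≤ 4 * ysq v)
    linarith
  -- the terms
  set J : ℝ := (Xu + Xh) + (Yu + Yh) with hJ
  have J0 : 0 ≤ J := by positivity
  have cG : CP (Gb v) := Gb_cp hv
  have G0 : ∀ x, 0 ≤ Gb v x := Gb_nonneg v
  have cm : CP (fun x => |mm v x|) := (cp_of (mm_sp hv)).abs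
  have m0 : ∀ x, 0 ≤ |mm v x| := fun x => abs_nonneg _
  have b9 := h9 ν hν κ hκ0d τ z hτ hτ1 v p' F hv hdiv sp' hF'
  have b5 := hC5 τ z M D hτ hτ1 hM hD0 (Gb v) cG G0 hNR v p' hv hdiv sp' lp' zp' hUD
  have b6 := (hC6 τ z M (4 * D) hτ hτ1 hM (by positivity) (Gb v) cG G0 (ww v) hw hUw4).1 hNR
  have b7 := (hC6 τ z M (4 * D) hτ hτ1 hM (by positivity) (fun x => |mm v x|) cm m0 (ww v) hw
    hUw4).2 m hmm
  have b8 := hC8 τ z M D hτ hτ1 hM hD0 (Gb v) cG G0 hNR v hv hUD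
  rw [← hWd] at b5 b6 b8 b9
  rw [eXw] at b6
  rw [eXv] at b8
  have b12 := hC12 M m τ D J (1 + esq v + ysq v) hM hm hτ hτ1 hD J0 (by positivity)
  set Θ : ℝ := 1 + m * τ ^ (-(1 / 2) : ℝ) + M * τ ^ (-(1 / 2 + 1 / r))
      + M ^ (1 / (1 / 2 - 1 / r)) with hΘ
  have hM0 : 0 < M := by linarith
  have hΘ1 : 1 ≤ Θ := by
    have t1 : 0 ≤ m * τ ^ (-(1 / 2) : ℝ) := mul_nonneg hm (Real.rpow_nonneg hτ.le _)
    have t2 : 0 ≤ M * τ ^ (-(1 / 2 + 1 / r)) := mul_nonneg hM0.le (Real.rpow_nonneg hτ.le _)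
    have t3 : 0 ≤ M ^ (1 / (1 / 2 - 1 / r)) := Real.rpow_nonneg hM0.le _
    rw [hΘ]
    linarith
  have ir : 1 / r < 1 / 2 := one_div_lt_one_div_of_lt (by norm_num) hr
  have ir0 : 0 < 1 / r := by positivity
  have b7' : ∫ x in cube, |wy κ τ (x 2 - z)| * Hz (fun y => |mm v y| * vsq (ww v) y) x
      ≤ C6 * (1 * (m * τ ^ (-(1 / 2) : ℝ) * (4 * D * 1))) := by
    refine b7.trans (le_of_eq ?_)
    ring
  have key := KS.arith (C5 := C5) (C6 := C6) (C7 := C6) (C8 := C8) (E := E) (R := 1)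
    (P1 := M * τ ^ (-(1 / 2) : ℝ)) (P2 := M * τ ^ (-(1 / r)))
    (P3 := M * τ ^ (-(1 / 2 + 1 / r))) (P4 := m * τ ^ (-(1 / 2) : ℝ))
    (P5 := M)
    (Dr := D ^ (1 - 1 / r)) (Dr4 := (4 * D) ^ (1 - 1 / r)) (Dq := D)
    (Dq4 := 4 * D) (Dh := D ^ (1 / 2 - 1 / r)) (Jw := (Xu + Xh) ^ (1 / r))
    (Jwq := 1) (Jv := (Yu + Yh) ^ (1 / r)) (J := J ^ (1 / r))
    (Jq := 1) (sD := √D) (sX := √Yh) (sJ := √J) (es := esq v) (hs := √(hsq v))
    (sY := √(1 + esq v + ysq v)) (Z := (esq v + ysq v) ^ (1 / 2 + 1 / r))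
    (Zy := (1 + esq v + ysq v) ^ (1 / 2 + 1 / r)) (D := D)
    hC50 hC60 hC60 hC80 hE zero_le_one (by positivity) (by positivity) (by positivity)
    (mul_nonneg hm (Real.rpow_nonneg hτ.le _))
    (by positivity) (by positivity) hD0 (by positivity)
    (KS.rpow4 hD0 (by linarith)) le_rfl (by positivity)
    (Real.rpow_le_rpow (by positivity) (by rw [hJ]; linarith) (by positivity)) zero_le_one
    le_rfl
    (Real.rpow_le_rpow (by positivity) (by rw [hJ]; linarith) (by positivity))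
    (by positivity) (Real.sqrt_le_sqrt (by rw [hJ]; linarith)) (by positivity)
    (by
      have l1 : τ ^ (-(1 / 2) : ℝ) ≤ τ ^ (-(1 / 2 + 1 / r)) :=
        Real.rpow_le_rpow_of_exponent_ge hτ hτ1 (by linarith)
      have l2 : esq v ≤ E * D := hesE.trans (le_mul_of_one_le_right hE hD)
      exact mul_le_mul (mul_le_mul_of_nonneg_left l1 hM0.le) l2 hes0 (by positivity))
    hD (Real.sqrt_le_sqrt (by linarith)) (by positivity)
    (Real.rpow_le_rpow (by positivity) (by linarith) (by positivity)) (by positivity)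
    b6 b7' b5 b8
  have hK' : (∫ x in cube, |wy κ τ (x 2 - z)| * Hz (fun y => Gb v y * vsq (ww v) y) x)
      + (∫ x in cube, |wy κ τ (x 2 - z)| * Hz (fun y => |mm v y| * vsq (ww v) y) x)
      + 2 * (∫ x in cube, |wy κ τ (x 2 - z)| * Hz (fun y => Gb v y * |p' y|) x)
      + 2 * (∫ x in cube, W x * Hz (fun y => Gb v y * |rr v 2 y|) x)
      ≤ ν / 3 * J + C12 * (1 + esq v + ysq v + D * Θ) := by
    refine key.trans ?_
    have e1 : (4 * C6 + 4 * (C6 * 1) + 2 * (C5 * (1 + E)) + 2 * C8)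
        * (M * τ ^ (-(1 / 2) : ℝ) * (D ^ (1 - 1 / r) * J ^ (1 / r))
          + M * τ ^ (-(1 / r)) * (√D * √J) + M * τ ^ (-(1 / 2 + 1 / r)) * D
          + m * τ ^ (-(1 / 2) : ℝ) * (D * 1)
          + M * (D ^ (1 / 2 - 1 / r) * (J ^ (1 / r) * √(1 + esq v + ysq v)))
          + M * (D ^ (1 / 2 - 1 / r) * (1 + esq v + ysq v) ^ (1 / 2 + 1 / r)))
        = K * (M * τ ^ (-(1 / 2) : ℝ) * (D ^ (1 - 1 / r) * J ^ (1 / r))
          + M * τ ^ (-(1 / r)) * (√D * √J) + M * τ ^ (-(1 / 2 + 1 / r)) * D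
          + m * τ ^ (-(1 / 2) : ℝ) * D
          + M * (D ^ (1 / 2 - 1 / r) * (J ^ (1 / r) * √(1 + esq v + ysq v)))
          + M * (D ^ (1 / 2 - 1 / r) * (1 + esq v + ysq v) ^ (1 / 2 + 1 / r))) := by
      rw [mul_one D]
    rw [e1]
    refine b12.trans ?_
    have h1 : D * (m * τ ^ (-(1 / 2) : ℝ) + M * τ ^ (-(1 / 2 + 1 / r)) + M ^ (1 / (1 / 2 - 1 / r)))
        ≤ D * Θ := mul_le_mul_of_nonneg_left (by rw [hΘ]; linarith) hD0
    have h2 := mul_le_mul_of_nonneg_left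
      (add_le_add (le_refl (1 + esq v + ysq v)) h1) hC120
    linarith
  refine KS.fin_arith (Xh := Xh) (Xu := Xu) (Yh := Yh) (Yu := Yu) (J := J) (es := esq v) hν hC00
    hC120 hE hD Xh0 hy0 hesE hΘ1 hXuB hYuB hYhB hJ le_rfl hK' ?_
  linarith

end Pool.Agent.H4NI.IK
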