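import Pool.Agent.H4NI.StmN

/-!
Project NCI: stub IR4 (helper19), adapted from `Pool.Agent.H4NC.R4`.
-/

set_option autoImplicit false
set_option linter.unusedVariables false

open MeasureTheory Set Function Filter Topology
open scoped ENNReal ContDiff

namespace Pool.Agent.H4NI.IR4

open H459R3.NS H4LA H4NC

/-- The inequality of Young for two factors. -/
theorem y2n {r K y p e2 : ℝ} (hr : 2 < r) (hK : 0 ≤ K) (hy : 0 ≤ y)
    (hp : 0 ≤ p) (h2 : 0 < e2) :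
    K * (y ^ (1 - 2 / r) * p ^ (2 / r))
      ≤ (K * e2 ^ (-(2 / r))) ^ (1 / (1 - 2 / r)) * y + e2 * p := by
  have hr0 : 0 < r := by linarith
  have hth1 : 2 / r < 1 := by rw [div_lt_one hr0]; exact hr
  have h1θ : 0 < 1 - 2 / r := by linarith
  have hw : (1 - 2 / r) + 2 / r = 1 := by ring
  set L : ℝ := K * e2 ^ (-(2 / r)) with hL
  have hL0 : 0 ≤ L := by positivity
  have k1 := Real.geom_mean_le_arith_mean2_weighted (w₁ := 1 - 2 / r) (w₂ := 2 / r)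
    (p₁ := L ^ (1 / (1 - 2 / r)) * y) (p₂ := e2 * p) h1θ.le (by positivity)
    (by positivity) (by positivity) hw
  have e : (L ^ (1 / (1 - 2 / r)) * y) ^ (1 - 2 / r) * (e2 * p) ^ (2 / r)
      = K * (y ^ (1 - 2 / r) * p ^ (2 / r)) := by
    rw [Real.mul_rpow (by positivity) hy, Real.mul_rpow h2.le hp, ← Real.rpow_mul hL0]
    have : 1 / (1 - 2 / r) * (1 - 2 / r) = 1 := one_div_mul_cancel h1θ.ne'
    rw [this, Real.rpow_one, hL, Real.rpow_neg h2.le]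
    have n2 : e2 ^ (2 / r) ≠ 0 := (Real.rpow_pos_of_pos h2 _).ne'
    field_simp
  rw [e] at k1
  refine k1.trans ?_
  have w1 : (1 - 2 / r) * (L ^ (1 / (1 - 2 / r)) * y) ≤ 1 * (L ^ (1 / (1 - 2 / r)) * y) :=
    mul_le_mul_of_nonneg_right (by linarith [show 0 < 2 / r by positivity]) (by positivity)
  have w3 : 2 / r * (e2 * p) ≤ 1 * (e2 * p) :=
    mul_le_mul_of_nonneg_right (by linarith) (by positivity)
  linarith

/-- The pointwise bound for the growth of `hsq`. -/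
theorem rate4i {r E E0 η π y cu W C N ν : ℝ} (hr : 2 < r) (hν : 0 < ν) (hE : 0 ≤ E)
    (hE0 : E ≤ E0) (hη : 0 ≤ η) (hπ : 0 ≤ π) (hy : 0 ≤ y) (hW0 : 0 ≤ W) (hC : 0 ≤ C)
    (hN : 0 < N) (hcu : |cu| ≤ 26 * (√W * √π))
    (hW : W ≤ 2 * (E + 2 * (√E * √η)) * (y + 2 * (√y * √(2 * π)))
      + C * (N ^ 2 * (y ^ (1 - 2 / r) * (y + π) ^ (2 / r)))) :
    -(2 * ν * π) - 2 * cu ≤ -(ν * π) + (5408 / ν * (1 + (2 * E0 ^ 2 + 8 * E0))
      + 2 * 10816 ^ 2 / ν ^ 3 * (2 * E0 ^ 2 + 8 * E0) + ν / 4) * ((1 + η) * y)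
      + (2704 / ν * C * (ν / 4) ^ (-(2 / r))) ^ (1 / (1 - 2 / r))
        * (N ^ (1 / (1 / 2 - 1 / r)) * y) := by
  set μ : ℝ := E + 2 * (√E * √η) with hμ
  have hE00 : 0 ≤ E0 := hE.trans hE0
  have hμ0 : 0 ≤ μ := by positivity
  have sπ : √π ^ 2 = π := Real.sq_sqrt hπ
  have sW : √W ^ 2 = W := Real.sq_sqrt hW0
  have sy : √y ^ 2 = y := Real.sq_sqrt hy
  have s2 : √(2 * π) ^ 2 = 2 * π := Real.sq_sqrt (by positivity)
  have h1 : -2 * cu ≤ 52 * (√W * √π) := by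
    have := (abs_le.1 hcu).1
    linarith
  have h2 : 52 * (√W * √π) ≤ ν / 4 * π + 2704 / ν * W := by
    have h := yng (ν := ν / 4) (by positivity) 52 (√W) (√π)
    rw [sπ, sW] at h
    refine h.trans (le_of_eq ?_)
    field_simp
    ring
  have h3 := mul_le_mul_of_nonneg_left hW (by positivity : 0 ≤ 2704 / ν)
  -- the mixed term
  have h4 : 10816 * μ / ν * (√y * √(2 * π)) ≤ ν / 4 * π + 2 * 10816 ^ 2 / ν ^ 3 * μ ^ 2 * y := by
    have h := yng (ν := ν / 8) (by positivity) (10816 * μ / ν) (√y) (√(2 * π))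
    rw [s2, sy] at h
    refine h.trans (le_of_eq ?_)
    field_simp
    ring
  -- the term with the second derivatives
  set Q0 : ℝ := 2704 / ν * C * (ν / 4) ^ (-(2 / r)) with hQ0
  have hQ00 : 0 ≤ Q0 := by positivity
  set κL : ℝ := Q0 ^ (1 / (1 - 2 / r)) with hκL
  have h5 : 2704 / ν * (C * (N ^ 2 * (y ^ (1 - 2 / r) * (y + π) ^ (2 / r)))) ≤
      κL * (N ^ (1 / (1 / 2 - 1 / r)) * y) + ν / 4 * (y + π) := by
    have k1 := y2n hr (K := 2704 / ν * C * N ^ 2) (y := y) (p := y + π)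
      (e2 := ν / 4) (by positivity) hy (by linarith) (by positivity)
    have e1 : (2704 / ν * C * N ^ 2 * (ν / 4) ^ (-(2 / r))) ^ (1 / (1 - 2 / r))
        = κL * N ^ (1 / (1 / 2 - 1 / r)) := by
      have q1 : 2704 / ν * C * N ^ 2 * (ν / 4) ^ (-(2 / r)) = Q0 * N ^ 2 := by
        rw [hQ0]
        ring
      rw [q1, Real.mul_rpow hQ00 (by positivity), ← Real.rpow_natCast N 2,
        ← Real.rpow_mul hN.le, ← hκL]
      have q3 : ((2 : ℕ) : ℝ) * (1 / (1 - 2 / r)) = 1 / (1 / 2 - 1 / r) := by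
        have hr0 : 0 < r := by linarith
        have hth1 : 2 / r < 1 := by rw [div_lt_one hr0]; exact hr
        have e0 : 1 / 2 - 1 / r = (1 - 2 / r) / 2 := by ring
        have h1θ : 1 - 2 / r ≠ 0 := by linarith
        rw [e0]
        push_cast
        field_simp
      rw [q3]
    rw [e1] at k1
    refine le_trans (le_of_eq ?_) (k1.trans (le_of_eq ?_))
    · ring
    · ring
  have hμ2 : μ ^ 2 ≤ (2 * E0 ^ 2 + 8 * E0) * (1 + η) := by
    have k1 : μ ^ 2 ≤ 2 * E ^ 2 + 2 * (2 * (√E * √η)) ^ 2 := by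
      rw [hμ]
      linarith only [sq_nonneg (E - 2 * (√E * √η))]
    have k2 : (2 * (√E * √η)) ^ 2 = 4 * (E * η) := by
      rw [mul_pow, mul_pow, Real.sq_sqrt hE, Real.sq_sqrt hη]
      norm_num
    have k3 : E ^ 2 ≤ E0 ^ 2 := pow_le_pow_left₀ hE hE0 2
    have k4 : E * η ≤ E0 * η := mul_le_mul_of_nonneg_right hE0 hη
    have k5 : 0 ≤ E0 ^ 2 * η := by positivity
    rw [k2] at k1
    linarith
  have hμ1 : μ ≤ 1 + μ ^ 2 := by linarith only [sq_nonneg (μ - 1), sq_nonneg μ]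
  set b : ℝ := 2 * E0 ^ 2 + 8 * E0 with hb
  have hb0 : 0 ≤ b := by positivity
  have e1 : 2704 / ν * (2 * μ * (y + 2 * (√y * √(2 * π)))
        + C * (N ^ 2 * (y ^ (1 - 2 / r) * (y + π) ^ (2 / r))))
      = 5408 / ν * (μ * y) + 10816 * μ / ν * (√y * √(2 * π))
        + 2704 / ν * (C * (N ^ 2 * (y ^ (1 - 2 / r) * (y + π) ^ (2 / r)))) := by
    field_simp
    ring
  rw [e1] at h3
  have h7 : μ * y ≤ (1 + b) * ((1 + η) * y) := by
    have l1 : μ ≤ (1 + b) * (1 + η) := by linarith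
    have := mul_le_mul_of_nonneg_right l1 hy
    linarith
  have h8 : μ ^ 2 * y ≤ b * ((1 + η) * y) := by
    have := mul_le_mul_of_nonneg_right hμ2 hy
    linarith
  have h9 := mul_le_mul_of_nonneg_left h7 (by positivity : 0 ≤ 5408 / ν)
  have h10 := mul_le_mul_of_nonneg_left h8 (by positivity : 0 ≤ 2 * 10816 ^ 2 / ν ^ 3)
  have h11 : 0 ≤ ν * π := by positivity
  have h12 : 0 ≤ η * y := by positivity
  have h14 : ν / 4 * y ≤ ν / 4 * ((1 + η) * y) := by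
    have l3 : 0 ≤ ν / 4 * (η * y) := by positivity
    linarith
  linarith

theorem t : Pool.Agent.H4NI.IR4 := by
  intro r E0 C ε ν hr hν hε hC
  have hr0 : 0 < r := by linarith
  by_cases hE00 : 0 ≤ E0
  · refine ⟨(5408 / ν * (1 + (2 * E0 ^ 2 + 8 * E0))
      + 2 * 10816 ^ 2 / ν ^ 3 * (2 * E0 ^ 2 + 8 * E0) + ν / 4)
      + (2704 / ν * C * (ν / 4) ^ (-(2 / r))) ^ (1 / (1 - 2 / r)), by positivity, ?_⟩
    intro E η π y cu W N Q hE hE0 hη hπ hy hW0 hN hQ hcu hW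
    have hN0 : 0 < N := by linarith
    have h := rate4i (cu := cu) hr hν hE hE0 hη hπ hy hW0 hC hN0 hcu hW
    set K1 := 5408 / ν * (1 + (2 * E0 ^ 2 + 8 * E0))
      + 2 * 10816 ^ 2 / ν ^ 3 * (2 * E0 ^ 2 + 8 * E0) + ν / 4 with hK1
    set K2 := (2704 / ν * C * (ν / 4) ^ (-(2 / r))) ^ (1 / (1 - 2 / r)) with hK2
    have hK10 : 0 ≤ K1 := by positivity
    have hK20 : 0 ≤ K2 := by positivity
    have h1 : 0 ≤ K1 * (N ^ (1 / (1 / 2 - 1 / r)) * y) := by positivity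
    have h2 : 0 ≤ K2 * ((1 + η) * y) := by positivity
    have h3 : 0 ≤ ε * Q := by positivity
    linarith
  · refine ⟨0, le_rfl, ?_⟩
    intro E η π y cu W N Q hE hE0
    exact absurd (hE.trans hE0) hE00

end Pool.Agent.H4NI.IR4
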