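import Pool.Agent.H4NI.StmN
import Pool.Agent.H4LA.EtaL

/-!
Project NCI, stub IV2: the bound for `∫ (v₂ ∂ⱼvᵢ)²` in the case `a = ∞`.
-/

set_option autoImplicit false
set_option linter.unusedVariables false

open MeasureTheory Set Function Filter Topology
open scoped ENNReal ContDiff

namespace Pool.Agent.H4NI.IV2

open H459R3.NS H4LA Pool.Agent.H4NC Pool.Agent.H4NI

theorem t (hB2 : B2) : IV2 := by
  intro r hr
  have hr0 : 0 < r := by linarith
  obtain ⟨C, hC1, hC⟩ := hB2 r hr
  refine ⟨2 * (C * 2), by positivity, ?_⟩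
  intro M hM1 v hv hM i j
  set G : V → ℝ := fun x => |bb v x| with hG
  have cG : CP G := (cp_of (bb_sp hv)).abs
  have G0 : ∀ x, 0 ≤ G x := fun x => abs_nonneg _
  set f : V → ℝ := pd j (v i) with hf'
  have hf : SP f := (hv i).pd j
  have cf := cp_of hf
  have sm := mm_sp hv
  have cm := cp_of sm
  set μ : ℝ := esq v + 2 * (√(esq v) * √(hsq v)) with hμ
  have hE0 := esq_nonneg v
  have hy0 := ysq_nonneg v
  have hπ0 := psq_nonneg v
  have hQ0 := qsq_nonneg v
  have hμ0 : 0 ≤ μ := by positivity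
  have hM0 : 0 ≤ M := by linarith
  set A : V → ℝ := Hz (fun y => f y ^ 2) with hA
  have cA : CP A := (cf.pow 2).hz
  have A0 : ∀ x, 0 ≤ A x := Hz_nonneg fun y => sq_nonneg _
  set B : V → ℝ := fun x => Hz (fun y => pd 0 f y ^ 2) x + Hz (fun y => pd 1 f y ^ 2) x with hB
  have c0 : CP (fun y => pd 0 f y ^ 2) := (cp_of (hf.pd 0)).pow 2
  have c1 : CP (fun y => pd 1 f y ^ 2) := (cp_of (hf.pd 1)).pow 2
  have cB : CP B := c0.hz.add c1.hz
  have b0 : ∀ x, 0 ≤ Hz (fun y => pd 0 f y ^ 2) x := Hz_nonneg fun y => sq_nonneg _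
  have b1 : ∀ x, 0 ≤ Hz (fun y => pd 1 f y ^ 2) x := Hz_nonneg fun y => sq_nonneg _
  have B0 : ∀ x, 0 ≤ B x := fun x => add_nonneg (b0 x) (b1 x)
  have iA0 : ∫ x in cube, f x ^ 2 ≤ ysq v := le_ysq v i j
  have iA : ∫ x in cube, A x ≤ ysq v := by
    rw [hA, int_Hz (cf.pow 2)]
    exact iA0
  have iB : ∫ x in cube, B x ≤ 2 * psq v := by
    rw [hB, integral_add c0.hz.int c1.hz.int, int_Hz c0, int_Hz c1]
    have h0 := le_psq v i j mem0
    have h1 := le_psq v i j mem1
    rw [pd_comm (hv i) j 0] at h0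
    rw [pd_comm (hv i) j 1] at h1
    linarith
  -- the average
  have h1 : ∫ x in cube, mm v x ^ 2 * f x ^ 2
      ≤ μ * (ysq v + 2 * (√(ysq v) * √(2 * psq v))) := by
    have cmf : CP (fun y => mm v y ^ 2 * f y ^ 2) := (cm.pow 2).mul (cf.pow 2)
    rw [← int_Hz cmf]
    have cS : CP (fun x => √(A x) * √(B x)) := cA.sqrt.mul cB.sqrt
    have k1 : ∫ x in cube, Hz (fun y => mm v y ^ 2 * f y ^ 2) x
        ≤ ∫ x in cube, μ * (A x + 2 * (√(A x) * √(B x))) := by
      refine integral_mono cmf.hz.int ((cA.add (cS.cmul 2)).cmul μ).int fun x => ?_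
      have l1 := lady hf (x := x) (A := A x) (B := B x) le_rfl
        (by simp only [hB]; linarith [b1 x]) (by simp only [hB]; linarith [b0 x])
      have l2 := lady sm (x := x) (Hz_mm_sq_le hv x) (Hz_pd_mm_le hv mem0 x) (Hz_pd_mm_le hv mem1 x)
      rw [← hμ] at l2
      have l3 := Hz_cs (cm.pow 2) (cf.pow 2) x
      have e2 : ∀ g : V → ℝ, Hz (fun y => (g y ^ 2) ^ 2) x = Hz (fun y => g y ^ 4) x := by
        intro g
        congr 1
        funext y
        ring
      rw [e2, e2] at l3
      refine (le_abs_self _).trans (l3.trans ?_)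
      have n1 : 0 ≤ A x + 2 * (√(A x) * √(B x)) := by
        have := A0 x
        positivity
      exact mul_le_mul (Real.sqrt_le_iff.2 ⟨hμ0, l2⟩) (Real.sqrt_le_iff.2 ⟨n1, l1⟩)
        (Real.sqrt_nonneg _) hμ0
    have k2 : ∫ x in cube, √(A x) * √(B x) ≤ √(ysq v) * √(2 * psq v) :=
      (cs_cube cA.cont cB.cont A0 B0).trans (mul_le_mul (Real.sqrt_le_sqrt iA)
        (Real.sqrt_le_sqrt iB) (Real.sqrt_nonneg _) (Real.sqrt_nonneg _))
    rw [integral_const_mul, integral_add cA.int (cS.cmul 2).int, integral_const_mul] at k1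
    refine k1.trans (mul_le_mul_of_nonneg_left ?_ hμ0)
    linarith
  -- the rest
  have NN1 := fun x => NR_one (r := r) G0 x
  have h2r : 0 < 2 / r := by positivity
  have he : 0 ≤ 1 - 2 / r := by
    have : 2 / r ≤ 1 := by rw [div_le_one hr0]; linarith
    linarith
  have h2 : ∫ x in cube, G x ^ 2 * f x ^ 2
      ≤ C * 2 * (M ^ 2 * (ysq v ^ (1 - 2 / r) * (ysq v + psq v) ^ (2 / r))) := by
    have cGf : CP (fun y => G y ^ 2 * f y ^ 2) := (cG.pow 2).mul (cf.pow 2)
    rw [← int_Hz cGf]
    have cAB : CP fun x => A x + B x := cA.add cB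
    have AB0 : ∀ x, 0 ≤ A x + B x := fun x => add_nonneg (A0 x) (B0 x)
    have k1 : ∫ x in cube, Hz (fun y => G y ^ 2 * f y ^ 2) x
        ≤ ∫ x in cube, (C * M ^ 2) * ((1 : ℝ) ^ (0 : ℝ)
          * A x ^ (1 - 2 / r) * (A x + B x) ^ (2 / r) * (1 : ℝ) ^ (0 : ℝ)) := by
      refine integral_mono cGf.hz.int (integrableOn_cube ?_) fun x => ?_
      · exact continuous_const.mul (((continuous_const.mul
          (cA.cont.rpow_const fun x => Or.inr he)).mul
          (cAB.cont.rpow_const fun x => Or.inr h2r.le)).mul continuous_const)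
      · have ef : Hz (fun y => G y ^ 2 * f y ^ 2) x = Hz (fun y => fz G x y ^ 2 * f y ^ 2) x :=
          Hz_congr fun z hz => by rw [fz_eq hz]
        have q := hC (fz G x) (fz_cp cG x) (fz_ind G x) (fz_nonneg G0 x) f hf x (A x) (B x) le_rfl
          (by simp only [hB]; linarith [b1 x]) (by simp only [hB]; linarith [b0 x])
        rw [← ef] at q
        refine q.trans ?_
        have q1 : 1 + ∫ z in cube, fz G x z ^ r ≤ NR r G x := by
          have k := Hz_cube (cprp cG hr0.le) x
          have e : ∫ z in cube, fz G x z ^ r = Hz (fun y => G y ^ r) x := by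
            rw [k]
            rfl
          rw [e]
          exact le_rfl
        have q0 : 0 ≤ 1 + ∫ z in cube, fz G x z ^ r := by
          have : 0 ≤ ∫ z in cube, fz G x z ^ r :=
            integral_nonneg fun z => Real.rpow_nonneg (fz_nonneg G0 x z) _
          linarith
        have q2 : (1 + ∫ z in cube, fz G x z ^ r) ^ (2 / r) ≤ M ^ 2 := by
          refine (Real.rpow_le_rpow q0 (q1.trans (hM x)) h2r.le).trans (le_of_eq ?_)
          rw [← Real.rpow_mul hM0, ← Real.rpow_natCast]
          congr 1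
          push_cast
          field_simp
        have l2 : 0 ≤ A x ^ (1 - 2 / r) * (A x + B x) ^ (2 / r) :=
          mul_nonneg (Real.rpow_nonneg (A0 x) _) (Real.rpow_nonneg (AB0 x) _)
        have l5 := mul_le_mul_of_nonneg_right q2 l2
        have l6 := mul_le_mul_of_nonneg_left l5 (by linarith : 0 ≤ C)
        simp only [Real.rpow_zero, mul_one, one_mul]
        refine l6.trans (le_of_eq ?_)
        ring
    rw [integral_const_mul] at k1
    have k2 := hold4 (f1 := fun _ => (1 : ℝ)) (f2 := A) (f3 := fun x => A x + B x)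
      (f4 := fun _ => (1 : ℝ)) continuous_const cA.cont cAB.cont continuous_const
      (fun _ => zero_le_one) A0 AB0
      (fun _ => zero_le_one) (le_refl (0 : ℝ)) he h2r.le (le_refl (0 : ℝ)) (by ring)
    have hfin := cube_finite
    simp only [Real.rpow_zero, mul_one, one_mul] at k1 k2
    have k3 : ∫ x in cube, (A x + B x) ≤ 2 * (ysq v + psq v) := by
      rw [integral_add cA.int cB.int]
      linarith
    have j2 : (∫ x in cube, A x) ^ (1 - 2 / r) ≤ ysq v ^ (1 - 2 / r) :=
      Real.rpow_le_rpow (integral_nonneg A0) iA he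
    have j3 : (∫ x in cube, (A x + B x)) ^ (2 / r) ≤ 2 * (ysq v + psq v) ^ (2 / r) := by
      refine (Real.rpow_le_rpow (integral_nonneg AB0) k3 h2r.le).trans ?_
      rw [Real.mul_rpow (by norm_num) (by positivity)]
      refine mul_le_mul_of_nonneg_right ?_ (by positivity)
      exact rpow_le_self' (by norm_num) (by rw [div_le_one hr0]; linarith)
    have j123 := mul_le_mul j2 j3 (Real.rpow_nonneg (integral_nonneg AB0) _) (by positivity)
    have k4 := k2.trans j123
    have k7 := mul_le_mul_of_nonneg_left k4 (by positivity : 0 ≤ C * M ^ 2)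
    refine k1.trans (k7.trans (le_of_eq ?_))
    ring
  have h3 : ∫ x in cube, (v 2 x * f x) ^ 2
      ≤ ∫ x in cube, (2 * (mm v x ^ 2 * f x ^ 2) + 2 * (G x ^ 2 * f x ^ 2)) := by
    have c2 := cp_of (hv 2)
    refine integral_mono ((c2.mul cf).pow 2).int ((((cm.pow 2).mul (cf.pow 2)).cmul 2).add
      (((cG.pow 2).mul (cf.pow 2)).cmul 2)).int fun x => ?_
    have l1 : v 2 x ^ 2 ≤ 2 * mm v x ^ 2 + 2 * G x ^ 2 := by
      have e : v 2 x = mm v x + bb v x := by
        unfold bb
        ring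
      have l2 : bb v x ^ 2 = G x ^ 2 := by
        simp only [hG]
        rw [sq_abs]
      rw [e, ← l2]
      linarith only [sq_nonneg (mm v x - bb v x)]
    have := mul_le_mul_of_nonneg_right l1 (sq_nonneg (f x))
    simp only
    rw [mul_pow]
    linarith
  rw [integral_add (((cm.pow 2).mul (cf.pow 2)).cmul 2).int (((cG.pow 2).mul (cf.pow 2)).cmul 2).int,
    integral_const_mul, integral_const_mul] at h3
  linarith

end Pool.Agent.H4NI.IV2
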