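import Pool.Agent.H4NI.StmN

/-!
# Project NCI, stub N1: Gagliardo-Nirenberg on a slice in `L^k` (helper8)
-/

set_option autoImplicit false

open MeasureTheory Set Function Filter Topology
open scoped ENNReal ContDiff

namespace Pool.Agent.H4NI.N1

open H459R3.NS H4LA H4NC

/-- the real inequality -/
lemma num {k C S A B : ℝ} (hk : 2 < k) (hC : 1 ≤ C) (hS : 0 ≤ S) (hA : 0 ≤ A) (hB : 0 ≤ B)
    (h : S ≤ C * ((1 + S) ^ (1 - 2 / k) * (A ^ (2 / k) * (A + B) ^ (1 - 2 / k)))) :
    S ^ (1 / k) ≤ (1 + C) * ((1 + A) ^ (1 / k) * (1 + A + B) ^ (1 / 2 - 1 / k)) := by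
  have hk0 : 0 < k := by linarith
  have ha : 0 < 2 / k := by positivity
  have ha1 : 0 < 1 - 2 / k := by
    rw [sub_pos, div_lt_one hk0]
    exact hk
  set X : ℝ := 1 + S with hX
  have hX1 : 1 ≤ X := by linarith
  have hX0 : 0 < X := by linarith
  set M : ℝ := A ^ (2 / k) * (A + B) ^ (1 - 2 / k) with hM
  set M' : ℝ := (1 + A) ^ (2 / k) * (1 + A + B) ^ (1 - 2 / k) with hM'
  have hM0 : 0 ≤ M := by positivity
  have hMM : M ≤ M' := by
    apply mul_le_mul
    · exact Real.rpow_le_rpow hA (by linarith) ha.le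
    · exact Real.rpow_le_rpow (by positivity) (by linarith) ha1.le
    · positivity
    · positivity
  have hM1 : 1 ≤ M' := by
    have h1 : 1 ≤ (1 + A) ^ (2 / k) := Real.one_le_rpow (by linarith) ha.le
    have h2 : 1 ≤ (1 + A + B) ^ (1 - 2 / k) := Real.one_le_rpow (by linarith) ha1.le
    nlinarith
  have h1 : 1 ≤ X ^ (1 - 2 / k) := Real.one_le_rpow hX1 ha1.le
  have h2 : X ≤ X ^ (1 - 2 / k) * ((1 + C) * M') := by
    calc X = 1 + S := rfl
      _ ≤ X ^ (1 - 2 / k) * 1 + C * (X ^ (1 - 2 / k) * M) := by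
          rw [mul_one]
          exact add_le_add h1 h
      _ = X ^ (1 - 2 / k) * (1 + C * M) := by ring
      _ ≤ X ^ (1 - 2 / k) * ((1 + C) * M') := by
          refine mul_le_mul_of_nonneg_left ?_ (by positivity)
          have := mul_le_mul_of_nonneg_left hMM (by linarith : (0 : ℝ) ≤ C)
          nlinarith
  have h3 : X ^ (2 / k) ≤ (1 + C) * M' := by
    have h4 : X = X ^ (1 - 2 / k) * X ^ (2 / k) := by
      rw [← Real.rpow_add hX0]
      simp
    have h5 : X ^ (1 - 2 / k) * X ^ (2 / k) ≤ X ^ (1 - 2 / k) * ((1 + C) * M') := by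
      rw [← h4]
      exact h2
    exact le_of_mul_le_mul_left h5 (by positivity)
  have h4 : X ^ (1 / k) ≤ ((1 + C) * M') ^ (1 / 2 : ℝ) := by
    have : X ^ (1 / k) = (X ^ (2 / k)) ^ (1 / 2 : ℝ) := by
      rw [← Real.rpow_mul hX0.le]
      congr 1
      ring
    rw [this]
    exact Real.rpow_le_rpow (by positivity) h3 (by norm_num)
  have h5 : ((1 + C) * M') ^ (1 / 2 : ℝ) =
      (1 + C) ^ (1 / 2 : ℝ) * ((1 + A) ^ (1 / k) * (1 + A + B) ^ (1 / 2 - 1 / k)) := by
    rw [Real.mul_rpow (by linarith) (by positivity), hM',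
      Real.mul_rpow (by positivity) (by positivity), ← Real.rpow_mul (by positivity),
      ← Real.rpow_mul (by positivity)]
    congr 3
    · ring
    · ring
  have h6 : (1 + C) ^ (1 / 2 : ℝ) ≤ 1 + C := by
    have : (1 + C) ^ (1 / 2 : ℝ) ≤ (1 + C) ^ (1 : ℝ) :=
      Real.rpow_le_rpow_of_exponent_le (by linarith) (by norm_num)
    rwa [Real.rpow_one] at this
  calc S ^ (1 / k) ≤ X ^ (1 / k) := Real.rpow_le_rpow hS (by linarith) (by positivity)
    _ ≤ ((1 + C) * M') ^ (1 / 2 : ℝ) := h4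
    _ = _ := h5
    _ ≤ _ := mul_le_mul_of_nonneg_right h6 (by positivity)

theorem t (hB2 : B2) : Pool.Agent.H4NI.N1 := by
  intro k hk
  have hk2 : 0 < k - 2 := by linarith
  have hk0 : 0 < k := by linarith
  set r : ℝ := 2 * k / (k - 2) with hr
  have hr2 : 2 < r := by
    rw [hr, lt_div_iff₀ hk2]
    linarith
  have hr0 : 0 < r := by linarith
  obtain ⟨C, hC1, hC⟩ := hB2 r hr2
  refine ⟨1 + C, by linarith, ?_⟩
  intro f hf x A B hA hB h1 h2 h3
  set e : ℝ := (k - 2) / 2 with he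
  have he0 : 0 ≤ e := by positivity
  have cf : CP fun y => |f y| := (cp_of hf).abs
  have cG : CP fun y => |f y| ^ e := cprp cf he0
  have G0 : ∀ x, 0 ≤ (fun y => |f y| ^ e) x := fun x => Real.rpow_nonneg (abs_nonneg _) _
  have hmain := hC (fz (fun y => |f y| ^ e) x) (fz_cp cG x) (fz_ind _ x) (fz_nonneg G0 x) f hf x A B
    h1 h2 h3
  have e1 : Hz (fun y => fz (fun y => |f y| ^ e) x y ^ 2 * f y ^ 2) x = Hz (fun y => |f y| ^ k) x := by
    refine Hz_congr fun z hz => ?_
    rw [fz_eq hz]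
    rw [← Real.rpow_natCast, ← Real.rpow_mul (abs_nonneg _), ← sq_abs (f z)]
    rcases eq_or_lt_of_le (abs_nonneg (f z)) with h0 | h0
    · rw [← h0, Real.zero_rpow hk0.ne']
      simp
    · have : |f z| ^ k = |f z| ^ (e * (2 : ℕ)) * |f z| ^ (2 : ℝ) := by
        rw [← Real.rpow_add h0]
        congr 1
        rw [he]
        push_cast
        ring
      rw [this]
      congr 1
      exact_mod_cast (Real.rpow_natCast (|f z|) 2).symm
  have e2 : ∫ z in cube, fz (fun y => |f y| ^ e) x z ^ r = Hz (fun y => |f y| ^ k) x := by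
    have h := Hz_cube (cprp cG hr0.le) x
    have e3 : ∫ z in cube, fz (fun y => |f y| ^ e) x z ^ r = Hz (fun y => (|f y| ^ e) ^ r) x := by
      rw [h]
      rfl
    rw [e3]
    congr 1
    funext y
    rw [← Real.rpow_mul (abs_nonneg _)]
    congr 1
    rw [he, hr]
    field_simp
  have hS : 0 ≤ Hz (fun y => |f y| ^ k) x := Hz_nonneg (fun y => Real.rpow_nonneg (abs_nonneg _) _) x
  rw [e1, e2] at hmain
  have e3 : 2 / r = 1 - 2 / k := by
    rw [hr]
    field_simp
  rw [e3, show 1 - (1 - 2 / k) = 2 / k by ring] at hmain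
  exact num hk hC1 hS hA hB hmain

end Pool.Agent.H4NI.N1
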