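import Pool.Agent.H4NI.StmN

/-!
Project NCI: the norm of the vertical averages, from the inequality on a slice.
-/

set_option autoImplicit false
set_option linter.unusedVariables false

open MeasureTheory Set Function Filter Topology
open scoped ENNReal ContDiff

namespace Pool.Agent.H4NI.N2

open H459R3.NS H4LA H4NC

theorem cp_rp {h : V → ℝ} (hh : CP h) {r : ℝ} (hr : 0 ≤ r) : CP fun y => h y ^ r :=
  ⟨hh.cont.rpow_const fun x => Or.inr hr, fun i x => by simp only [hh.per i x]⟩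

theorem Hz_av_sq_le {f : V → ℝ} (hf : CP f) (x : V) :
    Hz (fun y => Av 2 f y ^ 2) x ≤ ∫ x in cube, f x ^ 2 := by
  rw [Hz_ind2 ((hf.av 2).pow 2) (fun x s => by simp only [ind_Av 2 f x s])]
  exact av_sq_le hf 2

theorem t (h : H4NI.N1) : H4NI.N2 := by
  intro k hk
  obtain ⟨C, hC, h1⟩ := h k hk
  refine ⟨C, hC, fun v hv j => ?_⟩
  have sf : SP (Av 2 (v j)) := av_sp (hv j) 2
  have e0 : pd 0 (Av 2 (v j)) = Av 2 (pd 0 (v j)) := pd_Av (hv j) (by decide)
  have e1 : pd 1 (Av 2 (v j)) = Av 2 (pd 1 (v j)) := pd_Av (hv j) (by decide)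
  have h2 := h1 (Av 2 (v j)) sf 0 (esq v) (ysq v) (esq_nonneg v) (ysq_nonneg v)
    ((Hz_av_sq_le (cp_of (hv j)) 0).trans (le_esq v j))
    (by
      rw [e0]
      exact (Hz_av_sq_le (cp_of ((hv j).pd 0)) 0).trans (le_ysq v j 0))
    (by
      rw [e1]
      exact (Hz_av_sq_le (cp_of ((hv j).pd 1)) 0).trans (le_ysq v j 1))
  have h3 : Hz (fun y => |Av 2 (v j) y| ^ k) 0 = ∫ x in cube, |Av 2 (v j) x| ^ k :=
    Hz_ind2 (cp_rp (cp_of sf).abs (by linarith)) (fun x s => by simp only [ind_Av 2 (v j) x s]) 0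
  rwa [h3] at h2

end Pool.Agent.H4NI.N2
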