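import Pool.Agent.H4NI.StmN
import Pool.Agent.H4LA.HldL

/-! Project NCI, stub N3 (the `L^k` norm of the vertical average of `vⱼ bb`). -/

set_option autoImplicit false
set_option linter.unusedVariables false

open MeasureTheory Set Function Filter Topology
open scoped ENNReal ContDiff

namespace Pool.Agent.H4NI.N3

open Pool.Agent.H4NI H459R3.NS H4LA H4NC

/-- Hoelder's inequality on a slice. -/
theorem hz_hold {a b : V → ℝ} (ca : CP a) (cb : CP b) (a0 : ∀ x, 0 ≤ a x) (b0 : ∀ x, 0 ≤ b x)
    {p q : ℝ} (hp : 0 ≤ p) (hq : 0 ≤ q) (hpq : p + q = 1) (x : V) :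
    Hz (fun y => a y ^ p * b y ^ q) x ≤ Hz a x ^ p * Hz b x ^ q := by
  rw [Hz_cube ((cprp ca hp).mul (cprp cb hq)) x, Hz_cube ca x, Hz_cube cb x]
  have h := hold4 (f1 := fun z => a (update z 2 (x 2))) (f2 := fun z => b (update z 2 (x 2)))
    (f3 := fun _ => 1) (f4 := fun _ => 1) (ca.frz (x 2)).cont (cb.frz (x 2)).cont
    continuous_const continuous_const (fun _ => a0 _) (fun _ => b0 _)
    (fun _ => zero_le_one) (fun _ => zero_le_one) (p1 := p) (p2 := q) (p3 := 0) (p4 := 0)
    hp hq le_rfl le_rfl (by linarith)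
  simpa only [Real.one_rpow, mul_one, Real.rpow_zero] using h

theorem int_Hz_vsq {v : Fin 3 → V → ℝ} (hv : ∀ i, SP (v i)) :
    ∫ x in cube, Hz (vsq v) x = esq v := by
  rw [int_Hz (cp_of (vsq_sp hv))]
  unfold vsq esq
  exact integral_finsetSum _ fun i _ => (SP.sqr (hv i)).int

theorem vol_one : ∫ x in cube, (1 : ℝ) = 1 := by
  rw [setIntegral_const, Measure.real, volume_cube]
  simp

theorem t (h1 : N1) : N3 := by
  intro k r hk hkr
  have hr : 2 < r := hk.trans hkr
  have hk0 : 0 < k := by linarith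
  have hr0 : 0 < r := by linarith
  have hd : 0 < 1 / k - 1 / r := by
    rw [sub_pos]; exact one_div_lt_one_div_of_lt hk0 hkr
  obtain ⟨l, hl⟩ : ∃ l : ℝ, l = 1 / (1 / k - 1 / r) := ⟨_, rfl⟩
  have hl2 : 2 < l := by
    rw [hl, lt_div_iff₀ hd]
    have h3 : 1 / k < 1 / 2 := one_div_lt_one_div_of_lt (by norm_num) hk
    have h4 : 0 < 1 / r := by positivity
    linarith
  have hl0 : 0 < l := by linarith
  have hinv : 1 / l = 1 / k - 1 / r := by rw [hl, one_div_one_div]
  have hl12 : 1 / l < 1 / 2 := one_div_lt_one_div_of_lt (by norm_num) hl2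
  obtain ⟨C, hC1, hC⟩ := h1 l hl2
  refine ⟨C, hC1, ?_⟩
  intro M hM v hv hNR j
  have cj : CP (v j) := cp_of (hv j)
  have cb : CP (bb v) := cp_of (bb_sp hv)
  have cg : CP (fun y => v j y * bb v y) := cj.mul cb
  set g : V → ℝ := fun y => v j y * bb v y with hg
  set f : V → ℝ := Av 2 g with hf
  have cf : CP f := cg.av 2
  have indf : Ind 2 f := ind_Av 2 _
  set X : ℝ := ∫ x in cube, |f x| ^ k with hX
  have hX0 : 0 ≤ X := integral_nonneg fun x => by positivity
  have cU : CP (vsq v) := cp_of (vsq_sp hv)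
  have cGa : CP (ga v) := cp_of (ga_sp hv)
  have cfk : CP (fun y => |f y| ^ k) := cprp cf.abs hk0.le
  have cgk : CP (fun y => |g y| ^ k) := cprp cg.abs hk0.le
  have cfk1 : CP (fun y => |f y| ^ (k - 1)) := cprp cf.abs (by linarith)
  have ifk : Ind 2 (fun y => |f y| ^ k) := fun z s => by simp only [indf z s]
  have ifk1 : Ind 2 (fun y => |f y| ^ (k - 1)) := fun z s => by simp only [indf z s]
  have hk1 : 0 ≤ (k - 1) / k := div_nonneg (by linarith) hk0.le
  have s1 : X ≤ ∫ x in cube, |f x| ^ (k - 1) * |g x| := by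
    have e1 : X = ∫ x in cube, |f x| ^ (k - 1) * |f x| := by
      rw [hX]
      congr 1
      funext x
      have := Real.rpow_add_one' (abs_nonneg (f x)) (y := k - 1) (by linarith)
      rw [sub_add_cancel] at this
      exact this
    rw [e1, ← int_mul_Av cg.abs cfk1 ifk1]
    refine integral_mono (cfk1.mul cf.abs).int (cfk1.mul (cg.abs.av 2)).int fun y => ?_
    exact mul_le_mul_of_nonneg_left (abs_Av_le 2 y) (by positivity)
  set W : V → ℝ := fun x => Hz (fun y => |g y| ^ k) x ^ (1 / k) with hW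
  have cW : CP W := cprp cgk.hz (by positivity)
  have W0 : ∀ x, 0 ≤ W x := fun x => Real.rpow_nonneg (Hz_nonneg (fun y => by positivity) x) _
  have s2 : ∫ x in cube, |f x| ^ (k - 1) * |g x| ≤ X ^ ((k - 1) / k) * ∫ x in cube, W x := by
    rw [← int_Hz (cfk1.mul cg.abs), ← integral_const_mul]
    refine integral_mono (cfk1.mul cg.abs).hz.int (cW.cmul _).int fun x => ?_
    have h := hz_hold cfk cgk (fun y => by positivity) (fun y => by positivity) hk1
      (by positivity : 0 ≤ 1 / k) (by field_simp; ring) x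
    have e1 : (fun y => (|f y| ^ k) ^ ((k - 1) / k) * (|g y| ^ k) ^ (1 / k))
        = fun y => |f y| ^ (k - 1) * |g y| := by
      funext y
      rw [← Real.rpow_mul (abs_nonneg _), ← Real.rpow_mul (abs_nonneg _),
        show k * ((k - 1) / k) = k - 1 by field_simp, show k * (1 / k) = 1 by field_simp,
        Real.rpow_one]
    rw [e1, Hz_ind2 cfk ifk x] at h
    exact h
  have S0 : 0 ≤ ∫ x in cube, W x := integral_nonneg W0
  have s3 : X ^ (1 / k) ≤ ∫ x in cube, W x := by
    rcases hX0.eq_or_lt with h0 | h0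
    · rw [← h0, Real.zero_rpow (by positivity)]
      exact S0
    · have h := s1.trans s2
      have e1 : X = X ^ ((k - 1) / k) * X ^ (1 / k) := by
        rw [← Real.rpow_add h0, show (k - 1) / k + 1 / k = 1 by field_simp; ring, Real.rpow_one]
      have hp : 0 < X ^ ((k - 1) / k) := Real.rpow_pos_of_pos h0 _
      refine le_of_mul_le_mul_left ?_ hp
      calc X ^ ((k - 1) / k) * X ^ (1 / k) = X := e1.symm
        _ ≤ _ := h
  have cl : CP (fun y => |v j y| ^ l) := cprp cj.abs hl0.le
  have cr : CP (fun y => |bb v y| ^ r) := cprp cb.abs hr0.le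
  have s4 : ∀ x, W x ≤ M * C * ((1 + Hz (vsq v) x) ^ (1 / l)
      * (1 + Hz (vsq v) x + Hz (ga v) x) ^ (1 / 2 - 1 / l)) := by
    intro x
    have hU0 : 0 ≤ Hz (vsq v) x := Hz_nonneg (vsq_nonneg v) x
    have hH0 : 0 ≤ Hz (ga v) x := Hz_nonneg ga_nonneg x
    have h := hz_hold cl cr (fun y => by positivity) (fun y => by positivity)
      (by positivity : 0 ≤ k / l) (by positivity : 0 ≤ k / r) (by
        have : k / l + k / r = k * (1 / l + 1 / r) := by ring
        rw [this, hinv]
        field_simp; ring) x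
    have e1 : (fun y => (|v j y| ^ l) ^ (k / l) * (|bb v y| ^ r) ^ (k / r))
        = fun y => |g y| ^ k := by
      funext y
      rw [← Real.rpow_mul (abs_nonneg _), ← Real.rpow_mul (abs_nonneg _),
        show l * (k / l) = k by field_simp, show r * (k / r) = k by field_simp, hg]
      simp only
      rw [abs_mul, Real.mul_rpow (abs_nonneg _) (abs_nonneg _)]
    rw [e1] at h
    have L0 : 0 ≤ Hz (fun y => |v j y| ^ l) x := Hz_nonneg (fun y => by positivity) x
    have R0 : 0 ≤ Hz (fun y => |bb v y| ^ r) x := Hz_nonneg (fun y => by positivity) x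
    have h2 : W x ≤ Hz (fun y => |v j y| ^ l) x ^ (1 / l) * Hz (fun y => |bb v y| ^ r) x ^ (1 / r) := by
      have h3 := Real.rpow_le_rpow (Hz_nonneg (fun y => by positivity) x) h
        (by positivity : 0 ≤ 1 / k)
      rw [Real.mul_rpow (by positivity) (by positivity), ← Real.rpow_mul L0, ← Real.rpow_mul R0,
        show k / l * (1 / k) = 1 / l by field_simp, show k / r * (1 / k) = 1 / r by field_simp] at h3
      exact h3
    have h4 : Hz (fun y => |bb v y| ^ r) x ^ (1 / r) ≤ M := by
      have h5 : Hz (fun y => |bb v y| ^ r) x ≤ M ^ r := by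
        have := hNR x
        unfold NR Gb at this
        linarith
      have h6 := Real.rpow_le_rpow R0 h5 (by positivity : 0 ≤ 1 / r)
      rw [← Real.rpow_mul (by linarith), show r * (1 / r) = 1 by field_simp, Real.rpow_one] at h6
      exact h6
    have h7 := hC (v j) (hv j) x (Hz (vsq v) x) (Hz (ga v) x) hU0 hH0
      (Hz_mono (cj.pow 2) cU (fun y => Finset.single_le_sum (f := fun i => v i y ^ 2)
        (fun i _ => sq_nonneg _) (Finset.mem_univ j)) x)
      (Hz_mono ((cp_of ((hv j).pd 0)).pow 2) cGa (fun y =>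
        (Finset.single_le_sum (f := fun m => pd m (v j) y ^ 2)
          (fun i _ => sq_nonneg _) (Finset.mem_univ 0)).trans
        (Finset.single_le_sum (f := fun i => ∑ m, pd m (v i) y ^ 2)
          (fun i _ => Finset.sum_nonneg fun k _ => sq_nonneg _) (Finset.mem_univ j))) x)
      (Hz_mono ((cp_of ((hv j).pd 1)).pow 2) cGa (fun y =>
        (Finset.single_le_sum (f := fun m => pd m (v j) y ^ 2)
          (fun i _ => sq_nonneg _) (Finset.mem_univ 1)).trans
        (Finset.single_le_sum (f := fun i => ∑ m, pd m (v i) y ^ 2)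
          (fun i _ => Finset.sum_nonneg fun k _ => sq_nonneg _) (Finset.mem_univ j))) x)
    have h8 := mul_le_mul h7 h4 (Real.rpow_nonneg R0 _) (by positivity)
    refine (h2.trans h8).trans (le_of_eq ?_)
    ring
  have cf1 : CP (fun x => 1 + Hz (vsq v) x) := (CP.const 1).add cU.hz
  have cf2 : CP (fun x => 1 + Hz (vsq v) x + Hz (ga v) x) := cf1.add cGa.hz
  have f1 : ∀ x, 0 ≤ 1 + Hz (vsq v) x := fun x => by
    have := Hz_nonneg (vsq_nonneg v) x
    linarith
  have f2 : ∀ x, 0 ≤ 1 + Hz (vsq v) x + Hz (ga v) x := fun x => by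
    have := f1 x
    have := Hz_nonneg (ga_nonneg (v := v)) x
    linarith
  have s5 : ∫ x in cube, (1 + Hz (vsq v) x) ^ (1 / l)
      * (1 + Hz (vsq v) x + Hz (ga v) x) ^ (1 / 2 - 1 / l)
      ≤ (1 + esq v) ^ (1 / l) * (1 + esq v + ysq v) ^ (1 / 2 - 1 / l) := by
    have h := hold4 (f1 := fun x => 1 + Hz (vsq v) x)
      (f2 := fun x => 1 + Hz (vsq v) x + Hz (ga v) x)
      (f3 := fun _ => 1) (f4 := fun _ => 1) cf1.cont cf2.cont
      continuous_const continuous_const f1 f2
      (fun _ => zero_le_one) (fun _ => zero_le_one) (p1 := 1 / l) (p2 := 1 / 2 - 1 / l)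
      (p3 := 1 / 2) (p4 := 0) (by positivity) (by linarith) (by norm_num) le_rfl (by ring)
    simp only [Real.one_rpow, mul_one, Real.rpow_zero, vol_one] at h
    have e1 : ∫ x in cube, (1 + Hz (vsq v) x) = 1 + esq v := by
      rw [integral_add (CP.const 1).int cU.hz.int, vol_one, int_Hz_vsq hv]
    have e2 : ∫ x in cube, (1 + Hz (vsq v) x + Hz (ga v) x) = 1 + esq v + ysq v := by
      rw [integral_add cf1.int cGa.hz.int, e1, int_Hz cGa, int_ga hv]
    rw [e1, e2] at h
    exact h
  have s6 : ∫ x in cube, W x ≤ M * C * ((1 + esq v) ^ (1 / l)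
      * (1 + esq v + ysq v) ^ (1 / 2 - 1 / l)) := by
    have cR : CP (fun x => (1 + Hz (vsq v) x) ^ (1 / l)
      * (1 + Hz (vsq v) x + Hz (ga v) x) ^ (1 / 2 - 1 / l)) :=
      (cprp cf1 (by positivity)).mul (cprp cf2 (by linarith))
    have h := integral_mono cW.int (cR.cmul (M * C)).int s4
    rw [integral_const_mul] at h
    exact h.trans (mul_le_mul_of_nonneg_left s5 (by positivity))
  refine (s3.trans s6).trans (le_of_eq ?_)
  rw [hinv, show 1 / 2 - (1 / k - 1 / r) = 1 / 2 - 1 / k + 1 / r by ring]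
  ring

end Pool.Agent.H4NI.N3
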