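import Pool.Agent.H4NI.StmN
import Pool.Agent.H4NC.MM2

/-!
Project NCI, stub N4: the equation of the vertical average.
-/

set_option autoImplicit false

open MeasureTheory Set Function Filter Topology
open scoped ENNReal ContDiff

namespace Pool.Agent.H4NI.N4

open H459R3.NS H4LA H4NC

theorem lap_mm {v : Fin 3 → V → ℝ} (hv : ∀ i, SP (v i)) (x : V) :
    lap (mm v) x = pd 0 (pd 0 (mm v)) x + pd 1 (pd 1 (mm v)) x := by
  unfold lap
  rw [Fin.sum_univ_three]
  have h : pd 2 (pd 2 (mm v)) x = 0 := by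
    have e : pd 2 (mm v) = fun _ => 0 := funext fun y => pd2_mm hv y
    rw [e]
    unfold pd
    simp
  rw [h, add_zero]

theorem t : Pool.Agent.H4NI.N4 := by
  intro ν T u p h t ht x
  have hI : t ∈ Ico 0 T := ⟨ht.1.le, ht.2⟩
  have hv : ∀ i, SP ((fun i y => u t y i : Fin 3 → V → ℝ) i) := h.sp hI
  have hdiv : ∀ x, ∑ i, pd i ((fun i y => u t y i : Fin 3 → V → ℝ) i) x = 0 := h.divfree t hI
  have hp : SP (p t) := h.sp_p hI
  have h2 : dt (fun t => mm (fun i y => u t y i)) t x = Av 2 (dt (fun s y => u s y 2) t) x :=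
    (js_av_aux (js_u h 2) 2).2 t ht x
  have sF : dt (fun s y => u s y 2) t = fun x => (ν * lap (fun y => u t y 2) x
      - conv (fun i y => u t y i) 2 x) - pd 2 (p t) x :=
    funext fun y => h.dt_eq ht 2 y
  have s1 : SP (fun x => ν * lap (fun y => u t y 2) x) := (hv 2).lap.cmulf ν
  have s2 : SP (conv (fun i y => u t y i) 2) := sp_conv hv 2
  have e1 : Av 2 (dt (fun s y => u s y 2) t) x = ν * lap (mm (fun i y => u t y i)) x
      - Av 2 (conv (fun i y => u t y i) 2) x := by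
    rw [sF, Av_sub (f := fun x => ν * lap (fun y => u t y 2) x - conv (fun i y => u t y i) 2 x)
      (s1.sub s2).cont (hp.pd 2).cont, Av_sub s1.cont s2.cont, Av_cmul, Av_pd_self hp,
      Av_lap (hv 2), sub_zero]
    rfl
  have h3 := lap_mm hv x
  have h4 := H4NC.MM2.av_conv hv hdiv x
  have h5 := H4NC.MM2.pd_av_prod hv 0 x
  have h6 := H4NC.MM2.pd_av_prod hv 1 x
  have h7 := H4NC.MM2.div_V hv hdiv x
  have h8 : mm (fun i y => u t y i) x * (pd 0 (Av 2 (fun y => u t y 0)) x
      + pd 1 (Av 2 (fun y => u t y 1)) x) = 0 := by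
    rw [h7, mul_zero]
  rw [h2, e1, h3]
  have h9 : Av 2 (conv (fun i y => u t y i) 2) x = pd 0 (Av 2 (fun y => u t y 0 * u t y 2)) x
      + pd 1 (Av 2 (fun y => u t y 1 * u t y 2)) x := by
    rw [h4, h5, h6]
    linarith
  rw [h9]
  ring

end Pool.Agent.H4NI.N4
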