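import Pool.Agent.H4NI.StmN
import Pool.Agent.H4NC.MM2

/-!
Project NCI, stub N5: the integral inequality for the maximum of the vertical average.
-/

set_option autoImplicit false
set_option linter.unusedVariables false

open MeasureTheory Set Function Filter Topology
open scoped ENNReal ContDiff

namespace Pool.Agent.H4NI.N5

open H459R3.NS H4LA H4NC

lemma ms_lt {u : ℝ → V → V} {t : ℝ} (hv : ∀ i, SP (fun y => u t y i)) : Ms u t < ⊤ := by
  obtain ⟨B, hB0, hB⟩ := (cp_of (mm_sp (v := fun i y => u t y i) hv)).bdd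
  exact (iSup_le fun x => ENNReal.ofReal_le_ofReal (hB x)).trans_lt ENNReal.ofReal_lt_top

lemma mm_le {u : ℝ → V → V} {t : ℝ} (hv : ∀ i, SP (fun y => u t y i)) (x : V) :
    |mm (fun i y => u t y i) x| ≤ (Ms u t).toReal := by
  have h1 : ENNReal.ofReal |mm (fun i y => u t y i) x| ≤ Ms u t :=
    le_iSup (fun x : V => ENNReal.ofReal |mm (fun i y => u t y i) x|) x
  have h2 := ENNReal.toReal_mono (ms_lt hv).ne h1
  rwa [ENNReal.toReal_ofReal (abs_nonneg _)] at h2

lemma gs_nonneg (ξ : ℝ) : 0 ≤ gs ξ := by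
  unfold gs
  positivity

lemma gg_le (H0 : G0) {m a b : V → ℝ} (cm : CP m) (ca : CP a) (cb : CP b) {M : ℝ}
    (hM : ∀ x, |m x| ≤ M) {w : ℝ × ℝ → ℝ} (hw : Continuous w)
    (hw1 : ∀ ξ, |w ξ| ≤ 1 + |ξ.1| + |ξ.2|) (hw0 : ∀ ξ, 0 ≤ w ξ) (c : ℝ) (x : V) :
    GG c w (fun y => |m y * a y + b y|) x
      ≤ M * GG c w (fun y => |a y|) x + GG c w (fun y => |b y|) x := by
  have i1 := (H0.2 c (fun y => |m y * a y + b y|) x ((cm.mul ca).add cb).abs).1 w hw hw1
  have i2 := (H0.2 c (fun y => |a y|) x ca.abs).1 w hw hw1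
  have i3 := (H0.2 c (fun y => |b y|) x cb.abs).1 w hw hw1
  unfold GG
  rw [← integral_const_mul, ← integral_add (i2.const_mul M) i3]
  refine integral_mono i1 ((i2.const_mul M).add i3) fun ξ => ?_
  have g : 0 ≤ gs ξ.1 * gs ξ.2 * w ξ :=
    mul_nonneg (mul_nonneg (gs_nonneg _) (gs_nonneg _)) (hw0 ξ)
  set z := sh c x ξ
  have e : |m z * a z + b z| ≤ M * |a z| + |b z| := by
    calc |m z * a z + b z| ≤ |m z * a z| + |b z| := abs_add_le _ _
      _ = |m z| * |a z| + |b z| := by rw [abs_mul]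
      _ ≤ M * |a z| + |b z| := by
        have := mul_le_mul_of_nonneg_right (hM z) (abs_nonneg (a z))
        linarith
  show gs ξ.1 * gs ξ.2 * w ξ * |m z * a z + b z|
    ≤ M * (gs ξ.1 * gs ξ.2 * w ξ * |a z|) + gs ξ.1 * gs ξ.2 * w ξ * |b z|
  calc gs ξ.1 * gs ξ.2 * w ξ * |m z * a z + b z|
      ≤ gs ξ.1 * gs ξ.2 * w ξ * (M * |a z| + |b z|) := mul_le_mul_of_nonneg_left e g
    _ = _ := by ring

lemma kern {ν T k : ℝ} (hν : 0 < ν) (hT : 0 < T) (hk : 2 < k) : ∃ K : ℝ, 0 < K ∧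
    ∀ τ : ℝ, 0 < τ → τ < T →
    (√(2 * ν * τ))⁻¹ * (1 + 1 / √(2 * ν * τ)) ^ (2 / k) ≤ K * τ ^ (-(1 / 2 + 1 / k)) := by
  have hk0 : 0 < k := by linarith
  refine ⟨(√(2 * ν * T) + 1) ^ (2 / k) * (2 * ν) ^ (-(1 / 2 + 1 / k)), by positivity, ?_⟩
  intro τ h0 h1
  set c : ℝ := √(2 * ν * τ) with hc
  have c0 : 0 < c := Real.sqrt_pos.2 (by positivity)
  have cT : c ≤ √(2 * ν * T) :=
    Real.sqrt_le_sqrt (mul_le_mul_of_nonneg_left h1.le (by positivity))
  have e1 : 1 + 1 / c ≤ (√(2 * ν * T) + 1) / c := by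
    rw [le_div_iff₀ c0, add_mul, one_mul, div_mul_cancel₀ _ c0.ne']
    linarith
  have e2 : (1 + 1 / c) ^ (2 / k) ≤ (√(2 * ν * T) + 1) ^ (2 / k) / c ^ (2 / k) := by
    rw [← Real.div_rpow (by positivity) c0.le]
    exact Real.rpow_le_rpow (by positivity) e1 (by positivity)
  have e3 : c⁻¹ / c ^ (2 / k) = (2 * ν) ^ (-(1 / 2 + 1 / k)) * τ ^ (-(1 / 2 + 1 / k)) := by
    rw [← Real.mul_rpow (by positivity) h0.le]
    have h2 : c⁻¹ / c ^ (2 / k) = c ^ (-(1 + 2 / k)) := by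
      rw [Real.rpow_neg c0.le, Real.rpow_add c0, Real.rpow_one, mul_inv]
      rfl
    rw [h2, hc, Real.sqrt_eq_rpow, ← Real.rpow_mul (by positivity)]
    congr 1
    ring
  calc c⁻¹ * (1 + 1 / c) ^ (2 / k)
      ≤ c⁻¹ * ((√(2 * ν * T) + 1) ^ (2 / k) / c ^ (2 / k)) :=
        mul_le_mul_of_nonneg_left e2 (by positivity)
    _ = (√(2 * ν * T) + 1) ^ (2 / k) * (c⁻¹ / c ^ (2 / k)) := by ring
    _ = _ := by rw [e3]; ring

lemma iSup_dense {φ : V → ℝ≥0∞} (hφ : Continuous φ) :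
    ⨆ x, φ x = ⨆ n, φ (TopologicalSpace.denseSeq V n) := by
  apply le_antisymm
  · refine iSup_le fun x => ?_
    have hcl : IsClosed {x | φ x ≤ ⨆ n, φ (TopologicalSpace.denseSeq V n)} :=
      isClosed_le hφ continuous_const
    have h1 : closure (range (TopologicalSpace.denseSeq V))
        ⊆ {x | φ x ≤ ⨆ n, φ (TopologicalSpace.denseSeq V n)} := by
      refine closure_minimal ?_ hcl
      rintro _ ⟨n, rfl⟩
      exact le_iSup (fun n => φ (TopologicalSpace.denseSeq V n)) n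
    exact h1 (TopologicalSpace.denseRange_denseSeq V x)
  · exact iSup_le fun n => le_iSup φ _

lemma ms_meas {ν T : ℝ} {u : ℝ → V → V} {p : ℝ → V → ℝ} (h : IsSol ν T u p) :
    AEMeasurable (Ms u) (volume.restrict (Ioo 0 T)) := by
  have h1 : ∀ n : ℕ, AEMeasurable (fun s => ENNReal.ofReal
      |mm (fun i y => u s y i) (TopologicalSpace.denseSeq V n)|) (volume.restrict (Ioo 0 T)) := by
    intro n
    apply AEMeasurable.ennreal_ofReal
    refine ContinuousOn.aemeasurable ?_ measurableSet_Ioo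
    have h2 : ContinuousOn (fun s => mm (fun i y => u s y i) (TopologicalSpace.denseSeq V n))
        (Ioo 0 T) := fun s hs =>
      ((js_mm h).hasDerivAt hs _).continuousAt.continuousWithinAt
    exact h2.abs
  refine (AEMeasurable.iSup h1).congr ?_
  refine (ae_restrict_iff' measurableSet_Ioo).2 (Filter.Eventually.of_forall fun s hs => ?_)
  have hI : s ∈ Ico 0 T := ⟨hs.1.le, hs.2⟩
  have sm := mm_sp (v := fun i y => u s y i) (h.sp hI)
  unfold Ms
  rw [iSup_dense (φ := fun x => ENNReal.ofReal |mm (fun i y => u s y i) x|)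
    (ENNReal.continuous_ofReal.comp sm.cont.abs)]

theorem t (H0 : G0) (H4 : G4) (H6 : G6) (h2 : N2) (h3 : N3) (h4 : N4) : N5 := by
  intro ν T u p h hν hT k r hk hkr N hN1 hb
  have hk0 : 0 < k := by linarith
  have hr0 : 0 < r := by linarith
  obtain ⟨K, K0, hK⟩ := kern hν hT hk
  obtain ⟨C6, C60, hC6⟩ := H6 k (by linarith)
  obtain ⟨C2, C21, hC2⟩ := h2 k hk
  obtain ⟨C3, C31, hC3⟩ := h3 k r hk hkr
  set E0 : ℝ := energy (u 0) with hE0
  have E00 : 0 ≤ E0 := energy_nonneg _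
  have hEle : ∀ t ∈ Ico 0 T, esq (fun i y => u t y i) ≤ E0 := fun t ht => h.energy_le hν ht
  have hsp : ∀ t ∈ Ico 0 T, ∀ i, SP (fun y => u t y i) := fun t ht => h.sp ht
  have x1 : 1 / r < 1 / k := one_div_lt_one_div_of_lt hk0 hkr
  have x2 : 1 / k < 1 / 2 := one_div_lt_one_div_of_lt (by norm_num) hk
  have x3 : 0 < 1 / r := by positivity
  have x4 : 0 < 1 / k := by positivity
  set A1 : ℝ := C2 * ((1 + E0) ^ (1 / k) * (1 + E0) ^ (1 / 2 - 1 / k)) with hA1
  set A2 : ℝ := C3 * ((1 + E0) ^ (1 / k - 1 / r) * (1 + E0) ^ (1 / 2 - 1 / k + 1 / r)) with hA2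
  have A10 : 0 < A1 := by
    have : 0 < 1 + E0 := by linarith
    have : 0 < C2 := by linarith
    positivity
  have A20 : 0 < A2 := by
    have : 0 < 1 + E0 := by linarith
    have : 0 < C3 := by linarith
    positivity
  set C : ℝ := C6 * K * (2 * (A1 + A2)) with hC
  refine ⟨C, by positivity, ?_⟩
  intro t0 t ht0 ht0t htT
  -- the functions
  set b1 : ℝ → ℝ≥0∞ := fun s => ENNReal.ofReal ((t - s) ^ (-(1 / 2 + 1 / k)))
    * (ENNReal.ofReal (C * (1 + ysq (fun i y => u s y i)) ^ (1 / 2 - 1 / k)) * Ms u s) with hb1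
  set b2 : ℝ → ℝ≥0∞ := fun s => ENNReal.ofReal ((t - s) ^ (-(1 / 2 + 1 / k)))
    * (ENNReal.ofReal (N s) * ENNReal.ofReal
        (C * (1 + ysq (fun i y => u s y i)) ^ (1 / 2 - 1 / k + 1 / r))) with hb2
  -- the pointwise bound
  have key : ∀ x : V, ∀ s ∈ Ioo t0 t, ENNReal.ofReal ((√(2 * ν * (t - s)))⁻¹
      * (GG (√(2 * ν * (t - s))) (fun ξ => |ξ.1|)
          (fun y => |Av 2 (fun y => u s y 0 * u s y 2) y|) x
        + GG (√(2 * ν * (t - s))) (fun ξ => |ξ.2|)
          (fun y => |Av 2 (fun y => u s y 1 * u s y 2) y|) x)) ≤ b1 s + b2 s := by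
    intro x s hs
    have hsT : s ∈ Ioo 0 T := ⟨ht0.trans hs.1, hs.2.trans htT⟩
    have hI : s ∈ Ico 0 T := ⟨hsT.1.le, hsT.2⟩
    set v : Fin 3 → V → ℝ := fun i y => u s y i with hv
    have sv : ∀ i, SP (v i) := hsp s hI
    set c : ℝ := √(2 * ν * (t - s)) with hc
    have τ0 : 0 < t - s := by linarith [hs.2]
    have c0 : 0 < c := Real.sqrt_pos.2 (by positivity)
    set M : ℝ := (Ms u s).toReal with hM
    have M0 : 0 ≤ M := ENNReal.toReal_nonneg
    have hMs : ENNReal.ofReal M = Ms u s := ENNReal.ofReal_toReal (ms_lt sv).ne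
    set y : ℝ := ysq v with hy
    have y0 : 0 ≤ y := ysq_nonneg _
    have hE : esq v ≤ E0 := hEle s hI
    have hE' : 0 ≤ esq v := esq_nonneg _
    set X : ℝ := (1 + 1 / c) ^ (2 / k) with hX
    have X0 : 0 < X := by positivity
    have hn : 1 ≤ N s := hN1 s hsT
    have n0 : 0 ≤ N s := by linarith
    set Y1 : ℝ := (1 + y) ^ (1 / 2 - 1 / k) with hY1
    set Y2 : ℝ := (1 + y) ^ (1 / 2 - 1 / k + 1 / r) with hY2
    have Y10 : 0 < Y1 := by positivity
    have Y20 : 0 < Y2 := by positivity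
    have hprod : 1 + esq v + ysq v ≤ (1 + E0) * (1 + y) := by
      rw [← hy]
      nlinarith [mul_nonneg E00 y0]
    have hP : ∀ j, (∫ x in cube, |Av 2 (v j) x| ^ k) ^ (1 / k) ≤ A1 * Y1 := by
      intro j
      refine (hC2 v sv j).trans ?_
      have l1 : (1 + esq v) ^ (1 / k) ≤ (1 + E0) ^ (1 / k) :=
        Real.rpow_le_rpow (by linarith) (by linarith) x4.le
      have l2 : (1 + esq v + ysq v) ^ (1 / 2 - 1 / k)
          ≤ (1 + E0) ^ (1 / 2 - 1 / k) * Y1 := by
        rw [hY1, ← Real.mul_rpow (by linarith) (by linarith)]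
        exact Real.rpow_le_rpow (by linarith) hprod (by linarith)
      have m1 : 0 ≤ (1 + esq v + ysq v) ^ (1 / 2 - 1 / k) := Real.rpow_nonneg (by linarith) _
      have m2 : 0 ≤ (1 + E0) ^ (1 / k) := Real.rpow_nonneg (by linarith) _
      calc C2 * ((1 + esq v) ^ (1 / k) * (1 + esq v + ysq v) ^ (1 / 2 - 1 / k))
          ≤ C2 * ((1 + E0) ^ (1 / k) * ((1 + E0) ^ (1 / 2 - 1 / k) * Y1)) :=
            mul_le_mul_of_nonneg_left (mul_le_mul l1 l2 m1 m2) (by linarith)
        _ = _ := by rw [hA1]; ring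
    have hQ : ∀ j, (∫ x in cube, |Av 2 (fun y => v j y * bb v y) x| ^ k) ^ (1 / k)
        ≤ A2 * (N s * Y2) := by
      intro j
      refine (hC3 (N s) hn v sv (hb s hsT) j).trans ?_
      have l1 : (1 + esq v) ^ (1 / k - 1 / r) ≤ (1 + E0) ^ (1 / k - 1 / r) :=
        Real.rpow_le_rpow (by linarith) (by linarith) (by linarith)
      have l2 : (1 + esq v + ysq v) ^ (1 / 2 - 1 / k + 1 / r)
          ≤ (1 + E0) ^ (1 / 2 - 1 / k + 1 / r) * Y2 := by
        rw [hY2, ← Real.mul_rpow (by linarith) (by linarith)]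
        exact Real.rpow_le_rpow (by linarith) hprod (by linarith)
      have m1 : 0 ≤ (1 + esq v + ysq v) ^ (1 / 2 - 1 / k + 1 / r) :=
        Real.rpow_nonneg (by linarith) _
      have m2 : 0 ≤ (1 + E0) ^ (1 / k - 1 / r) := Real.rpow_nonneg (by linarith) _
      calc C3 * (N s * ((1 + esq v) ^ (1 / k - 1 / r)
            * (1 + esq v + ysq v) ^ (1 / 2 - 1 / k + 1 / r)))
          ≤ C3 * (N s * ((1 + E0) ^ (1 / k - 1 / r)
            * ((1 + E0) ^ (1 / 2 - 1 / k + 1 / r) * Y2))) :=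
            mul_le_mul_of_nonneg_left (mul_le_mul_of_nonneg_left (mul_le_mul l1 l2 m1 m2) n0)
              (by linarith)
        _ = _ := by rw [hA2]; ring
    -- the bound for one direction
    have hG : ∀ (j : Fin 3) (w : ℝ × ℝ → ℝ), Continuous w → (∀ ξ, |w ξ| ≤ 1 + |ξ.1| + |ξ.2|) →
        (∀ ξ, 0 ≤ w ξ) → ((w = fun ξ => |ξ.1|) ∨ (w = fun ξ => |ξ.2|)) →
        GG c w (fun y => |Av 2 (fun y => v j y * v 2 y) y|) x
          ≤ C6 * X * (A1 * Y1 * M + A2 * (N s * Y2)) := by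
      intro j w hw hw1 hw0 hww
      have ca : CP (Av 2 (v j)) := cp_of (av_sp (sv j) 2)
      have cb : CP (Av 2 (fun y => v j y * bb v y)) := cp_of (av_sp ((sv j).mul (bb_sp sv)) 2)
      rw [MM2.av_prod sv j]
      refine (gg_le H0 (cp_of (mm_sp sv)) ca cb (M := M) (fun x => mm_le sv x) hw hw1 hw0 c x).trans
        ?_
      have g1 := hC6 c (Av 2 (v j)) x c0 ca (ind_Av 2 _) w hww
      have g2 := hC6 c (Av 2 (fun y => v j y * bb v y)) x c0 cb (ind_Av 2 _) w hww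
      have g3 : GG c w (fun y => |Av 2 (v j) y|) x ≤ C6 * (X * (A1 * Y1)) :=
        g1.trans (mul_le_mul_of_nonneg_left (mul_le_mul_of_nonneg_left (hP j) X0.le) C60.le)
      have g4 : GG c w (fun y => |Av 2 (fun y => v j y * bb v y) y|) x
          ≤ C6 * (X * (A2 * (N s * Y2))) :=
        g2.trans (mul_le_mul_of_nonneg_left (mul_le_mul_of_nonneg_left (hQ j) X0.le) C60.le)
      have g5 := mul_le_mul_of_nonneg_left g3 M0
      calc M * GG c w (fun y => |Av 2 (v j) y|) x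
            + GG c w (fun y => |Av 2 (fun y => v j y * bb v y) y|) x
          ≤ M * (C6 * (X * (A1 * Y1))) + C6 * (X * (A2 * (N s * Y2))) := add_le_add g5 g4
        _ = _ := by ring
    have w1 := hG 0 (fun ξ => |ξ.1|) (by fun_prop) (fun ξ => by
      rw [abs_abs]
      linarith [abs_nonneg ξ.2]) (fun ξ => abs_nonneg _) (Or.inl rfl)
    have w2 := hG 1 (fun ξ => |ξ.2|) (by fun_prop) (fun ξ => by
      rw [abs_abs]
      linarith [abs_nonneg ξ.1]) (fun ξ => abs_nonneg _) (Or.inr rfl)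
    set R : ℝ := A1 * Y1 * M + A2 * (N s * Y2) with hR
    have R0 : 0 ≤ R := by positivity
    have hk1 : c⁻¹ * X ≤ K * (t - s) ^ (-(1 / 2 + 1 / k)) :=
      hK (t - s) τ0 (by linarith [hs.1])
    set θ : ℝ := (t - s) ^ (-(1 / 2 + 1 / k)) with hθ
    have θ0 : 0 ≤ θ := Real.rpow_nonneg τ0.le _
    have hmain : c⁻¹ * (GG c (fun ξ => |ξ.1|) (fun y => |Av 2 (fun y => v 0 y * v 2 y) y|) x
        + GG c (fun ξ => |ξ.2|) (fun y => |Av 2 (fun y => v 1 y * v 2 y) y|) x)
        ≤ θ * (C * Y1 * M) + θ * (N s * (C * Y2)) := by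
      calc _ ≤ c⁻¹ * (C6 * X * R + C6 * X * R) :=
            mul_le_mul_of_nonneg_left (add_le_add w1 w2) (by positivity)
        _ = c⁻¹ * X * (2 * C6 * R) := by ring
        _ ≤ K * θ * (2 * C6 * R) := mul_le_mul_of_nonneg_right hk1 (by positivity)
        _ = θ * (C6 * K * (2 * A1) * Y1 * M) + θ * (N s * (C6 * K * (2 * A2) * Y2)) := by
            rw [hR]; ring
        _ ≤ _ := by
            have q1 : C6 * K * (2 * A1) ≤ C := by
              rw [hC]
              apply mul_le_mul_of_nonneg_left _ (by positivity)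
              linarith
            have q2 : C6 * K * (2 * A2) ≤ C := by
              rw [hC]
              apply mul_le_mul_of_nonneg_left _ (by positivity)
              linarith
            gcongr
    refine (ENNReal.ofReal_le_ofReal hmain).trans (le_of_eq ?_)
    have C0 : 0 ≤ C := by positivity
    rw [ENNReal.ofReal_add (by positivity) (by positivity), ENNReal.ofReal_mul θ0,
      ENNReal.ofReal_mul θ0, ENNReal.ofReal_mul (by positivity : 0 ≤ C * Y1), ENNReal.ofReal_mul n0,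
      hMs]
  -- Duhamel
  have hI0 : t0 ∈ Ico 0 T := ⟨ht0.le, ht0t.trans htT⟩
  have hint : ∫⁻ s in Ioo t0 t, (b1 s + b2 s)
      = (∫⁻ s in Ioo t0 t, b1 s) + ∫⁻ s in Ioo t0 t, b2 s := by
    refine lintegral_add_left' ?_ _
    have hsub : Ioo t0 t ⊆ Ioo 0 T := fun s hs => ⟨ht0.trans hs.1, hs.2.trans htT⟩
    have m1 : AEMeasurable (Ms u) (volume.restrict (Ioo t0 t)) :=
      (ms_meas h).mono_measure (Measure.restrict_mono hsub le_rfl)
    have m2 : AEMeasurable (fun s => ysq (fun i y => u s y i)) (volume.restrict (Ioo t0 t)) := by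
      have cy : ContinuousOn (fun s => ysq (fun i y => u s y i)) (Ico 0 T) :=
        h.enstrophy_continuousOn
      exact (cy.mono fun s hs => ⟨ht0.le.trans hs.1.le, hs.2.trans htT⟩).aemeasurable
        measurableSet_Ioo
    have m3 : AEMeasurable (fun s => ENNReal.ofReal ((t - s) ^ (-(1 / 2 + 1 / k))))
        (volume.restrict (Ioo t0 t)) := by fun_prop
    have m4 : AEMeasurable (fun s => ENNReal.ofReal
        (C * (1 + ysq (fun i y => u s y i)) ^ (1 / 2 - 1 / k))) (volume.restrict (Ioo t0 t)) :=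
      (((m2.const_add 1).pow_const _).const_mul C).ennreal_ofReal
    exact m3.mul (m4.mul m1)
  refine iSup_le fun x => ?_
  have hG4 := H4 ν T (fun t => mm (fun i y => u t y i)) (fun t => Av 2 (fun y => u t y 0 * u t y 2))
    (fun t => Av 2 (fun y => u t y 1 * u t y 2)) hν (js_mm h)
    (fun s hs => by
      have sv := hsp s ⟨hs.1.le, hs.2⟩
      exact ⟨mm_sp (v := fun i y => u s y i) sv, av_sp ((sv 0).mul (sv 2)) 2,
        av_sp ((sv 1).mul (sv 2)) 2⟩)
    (fun s hs x => h4 ν T u p h s hs x) t0 t ht0 ht0t htT x (Ms u t0).toReal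
    (fun y => mm_le (hsp t0 hI0) y) (fun s => b1 s + b2 s) (key x)
  rw [hint, ENNReal.ofReal_toReal (ms_lt (hsp t0 hI0)).ne, ← add_assoc] at hG4
  exact hG4

end Pool.Agent.H4NI.N5
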