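import Pool.Agent.H4NI.StmN
import Pool.Agent.H4LA.Clo3
import Pool.Agent.H4LA.En3

/-!
Project NCI, stub N6: measurability and local boundedness of the maximum of the vertical average.
-/

set_option autoImplicit false

open MeasureTheory Set Function Filter Topology
open scoped ENNReal ContDiff

namespace Pool.Agent.H4NI.N6

open H459R3.NS H4LA H4NC

lemma iSup_dense {g : V → ℝ≥0∞} (hg : Continuous g) :
    ⨆ x, g x = ⨆ n : ℕ, g (TopologicalSpace.denseSeq V n) := by
  apply le_antisymm
  · refine iSup_le fun x => ?_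
    have hcl : IsClosed {x : V | g x ≤ ⨆ n : ℕ, g (TopologicalSpace.denseSeq V n)} :=
      isClosed_le hg continuous_const
    have hd := (TopologicalSpace.denseRange_denseSeq V)
    exact hd.induction_on (p := fun x => g x ≤ ⨆ n : ℕ, g (TopologicalSpace.denseSeq V n)) x hcl
      fun n => le_iSup (fun n => g (TopologicalSpace.denseSeq V n)) n
  · exact iSup_le fun n => le_iSup g _

lemma meas_ind {E : Type} [TopologicalSpace E] [MeasurableSpace E] [BorelSpace E] [Zero E] {T : ℝ}
    {f : ℝ → E} (hf : ContinuousOn f (Ioo 0 T)) : Measurable ((Ioo 0 T).indicator f) := by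
  classical
  rw [← piecewise_eq_indicator]
  exact hf.measurable_piecewise continuousOn_const measurableSet_Ioo

theorem t : Pool.Agent.H4NI.N6 := by
  intro ν T u p h hν hT
  have hjs := js_mm h
  have hsp : ∀ t ∈ Ico 0 T, ∀ i, SP (fun y => u t y i) := fun t ht => h.sp ht
  have hsm : ∀ t ∈ Ioo 0 T, SP (mm (fun i y => u t y i)) := fun t ht => mm_sp (hsp t ⟨ht.1.le, ht.2⟩)
  have hco : ContinuousOn (fun z : ℝ × V => mm (fun i y => u z.1 y i) z.2) (Ioo 0 T ×ˢ univ) :=
    ContDiffOn.continuousOn hjs
  have cy : ContinuousOn (fun t => ysq (fun i y => u t y i)) (Ico 0 T) := h.enstrophy_continuousOn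
  have y0 : ∀ t, 0 ≤ ysq (fun i y => u t y i) := fun t => ysq_nonneg _
  refine ⟨?_, ?_, ?_, ?_⟩
  · have e : (Ioo 0 T).indicator (Ms u) = fun t => ⨆ n : ℕ, (Ioo 0 T).indicator
        (fun t => ENNReal.ofReal |mm (fun i y => u t y i) (TopologicalSpace.denseSeq V n)|) t := by
      funext t
      by_cases ht : t ∈ Ioo 0 T
      · simp only [indicator_of_mem ht]
        exact iSup_dense (ENNReal.continuous_ofReal.comp (hsm t ht).cont.abs)
      · simp only [indicator_of_notMem ht, iSup_const]
    rw [e]
    refine Measurable.iSup fun n => meas_ind ?_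
    refine ENNReal.continuous_ofReal.comp_continuousOn ?_
    refine ContinuousOn.abs ?_
    exact hco.comp (by fun_prop : ContinuousOn (fun t : ℝ => (t, TopologicalSpace.denseSeq V n)) (Ioo 0 T))
      fun t ht => ⟨ht, mem_univ _⟩
  · intro t0 t1 h0 h01 h1
    have hK : IsCompact (Icc t0 t1 ×ˢ (cube : Set V)) := isCompact_Icc.prod isCompact_Icc
    obtain ⟨C, hC⟩ := hK.exists_bound_of_continuousOn (hco.mono fun z hz =>
      ⟨⟨h0.trans_le hz.1.1, hz.1.2.trans_lt h1⟩, mem_univ _⟩)
    refine ⟨ENNReal.ofReal C, ENNReal.ofReal_lt_top, fun t ht => ?_⟩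
    refine iSup_le fun x => ENNReal.ofReal_le_ofReal ?_
    have hti : t ∈ Ioo 0 T := ⟨h0.trans_le ht.1, ht.2.trans_lt h1⟩
    set m : K3 := fun i => -⌊x i⌋ with hm
    have h2 : (x + fun i => (m i : ℝ)) ∈ cube := by
      constructor
      · intro i
        have := Int.floor_le (x i)
        simp only [hm, Pi.zero_apply, Pi.add_apply]
        push_cast
        linarith
      · intro i
        have := Int.lt_floor_add_one (x i)
        simp only [hm, Pi.one_apply, Pi.add_apply]
        push_cast
        linarith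
    rw [← (hsm t hti).per.int m x]
    exact hC (t, _) ⟨ht, h2⟩
  · exact meas_ind (cy.mono Ioo_subset_Ico_self)
  · have hyD : ∀ t ∈ Ico 0 T, ∫ s in (0 : ℝ)..t, ysq (fun i y => u s y i) ≤ energy (u 0) / (2 * ν) :=
      fun t ht => h.int_enstrophy hν ht
    have hyI := integrableOn_of_bdd cy y0 hyD hT
    have hyI' : IntegrableOn (fun t => 1 + ysq (fun i y => u t y i)) (Ioo 0 T) :=
      (integrableOn_const (by simp)).add (by rwa [← integrableOn_Ioc_iff_integrableOn_Ioo])
    exact hyI'.lintegral_lt_top.ne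

end Pool.Agent.H4NI.N6
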