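import Pool.Agent.H4NI.StmN

/-!
# Project NCI: the stub N7, the conclusion for the vertical average
-/

set_option autoImplicit false

open MeasureTheory Set Function Filter Topology
open scoped ENNReal ContDiff

namespace Pool.Agent.H4NI.N7

open H459R3.NS H4LA H4NC

theorem Lz_congr {s T : ℝ} {N N' : ℝ → ℝ} (h : N =ᵐ[volume.restrict (Ioo 0 T)] N') :
    Lz s N 0 T = Lz s N' 0 T := by
  unfold Lz
  refine lintegral_congr fun lam => ?_
  congr 1
  refine measure_congr ?_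
  have h1 := (ae_restrict_iff' measurableSet_Ioo).1 h
  filter_upwards [h1] with t ht
  refine propext ⟨fun h2 => ⟨h2.1, ?_⟩, fun h2 => ⟨h2.1, ?_⟩⟩
  · rw [← ht h2.1]; exact h2.2
  · rw [ht h2.1]; exact h2.2

theorem If_congr {γ t0 t T : ℝ} (h0 : 0 < t0) (h1 : t < T) {f g : ℝ → ℝ≥0∞}
    (h : f =ᵐ[volume.restrict (Ioo 0 T)] g) : If γ t0 f t = If γ t0 g t := by
  unfold If
  have hsub : Ioo t0 t ⊆ Ioo 0 T := Ioo_subset_Ioo h0.le h1.le
  have h2 : f =ᵐ[volume.restrict (Ioo t0 t)] g := ae_mono (Measure.restrict_mono hsub le_rfl) h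
  refine lintegral_congr_ae ?_
  filter_upwards [h2] with s hs
  rw [hs]

theorem pw (C e : ℝ) (hC : 0 < C) (he : 0 < e) (y : ℝ → ℝ) (hy : ∀ t, 0 ≤ y t) (T : ℝ)
    (hf : ∫⁻ t in Ioo 0 T, ENNReal.ofReal (1 + y t) ≠ ⊤) :
    ∫⁻ s in Ioo 0 T, (ENNReal.ofReal (C * (1 + y s) ^ e)) ^ (1 / e) ≠ ⊤ := by
  have h1 : ∀ s, (ENNReal.ofReal (C * (1 + y s) ^ e)) ^ (1 / e) =
      ENNReal.ofReal (C ^ (1 / e)) * ENNReal.ofReal (1 + y s) := by
    intro s
    have h2 : 0 < 1 + y s := by linarith [hy s]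
    rw [ENNReal.ofReal_rpow_of_pos (by positivity), Real.mul_rpow hC.le (by positivity), ← Real.rpow_mul h2.le,
      mul_one_div_cancel he.ne', Real.rpow_one, ENNReal.ofReal_mul (by positivity)]
  simp_rw [h1]
  rw [lintegral_const_mul' _ _ ENNReal.ofReal_ne_top]
  exact ENNReal.mul_ne_top ENNReal.ofReal_ne_top hf

theorem t (h6 : T6) (n5 : N5) (n6 : N6) : N7 := by
  intro ν T u p h hν hT r hr N hN1 hNm hNL hNR ε hε tm htm
  obtain ⟨k, hk, hkr⟩ := exists_between hr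
  obtain ⟨C, hC, hI⟩ := n5 ν T u p h hν hT k r hk hkr N hN1 hNR
  obtain ⟨hMm, hMB, hym, hyf⟩ := n6 ν T u p h hν hT
  have he1 : 0 < 1 / 2 - 1 / k := by
    have : 1 / k < 1 / 2 := one_div_lt_one_div_of_lt (by norm_num) hk
    linarith
  have hr0 : 0 < r := by linarith
  have he2 : 0 < 1 / 2 - 1 / k + 1 / r := by positivity
  set y : ℝ → ℝ := fun t => ysq (fun i x => u t x i) with hy
  have hy0 : ∀ t, 0 ≤ y t := fun t => ysq_nonneg _
  set y' : ℝ → ℝ := (Ioo 0 T).indicator y with hy'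
  have hy'0 : ∀ t, 0 ≤ y' t := fun t => indicator_nonneg (fun t _ => hy0 t) t
  have hyy : ∀ t ∈ Ioo 0 T, y' t = y t := fun t ht => indicator_of_mem ht _
  set m : ℝ → ℝ≥0∞ := (Ioo 0 T).indicator (Ms u) with hm
  have hmm : ∀ t ∈ Ioo 0 T, m t = Ms u t := fun t ht => indicator_of_mem ht _
  set v : ℝ → ℝ≥0∞ := fun s => ENNReal.ofReal (C * (1 + y' s) ^ (1 / 2 - 1 / k)) with hv
  set ψ : ℝ → ℝ≥0∞ := fun s => ENNReal.ofReal (C * (1 + y' s) ^ (1 / 2 - 1 / k + 1 / r)) with hψ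
  have hyf' : ∫⁻ t in Ioo 0 T, ENNReal.ofReal (1 + y' t) ≠ ⊤ := by
    rw [setLIntegral_congr_fun measurableSet_Ioo (fun t ht => by rw [hyy t ht])]
    exact hyf
  have hvm : Measurable v := by
    rw [hv]
    exact ENNReal.measurable_ofReal.comp (measurable_const.mul ((measurable_const.add hym).pow_const _))
  have hψm : Measurable ψ := by
    rw [hψ]
    exact ENNReal.measurable_ofReal.comp (measurable_const.mul ((measurable_const.add hym).pow_const _))
  obtain ⟨N', hN'm, hNN⟩ := hNm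
  have key := h6 k r hk hkr T m v ψ N' hT hMm hvm hψm hN'm
    (fun t0 t1 h0 h01 h1 => by
      obtain ⟨B, hB, hB2⟩ := hMB t0 t1 h0 h01 h1
      exact ⟨B, hB, fun t ht => (indicator_le_self _ _ t).trans (hB2 t ht)⟩)
    (fun t0 t h0 h01 h1 => by
      rw [hmm t ⟨h0.trans h01, h1⟩, hmm t0 ⟨h0, h01.trans h1⟩]
      refine (hI t0 t h0 h01 h1).trans (le_of_eq ?_)
      congr 1
      · congr 1
        refine If_congr h0 h1 ?_
        rw [EventuallyEq, ae_restrict_iff' measurableSet_Ioo]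
        refine ae_of_all _ fun s hs => ?_
        rw [hmm s hs]
        simp only [hv, hyy s hs, hy]
      · refine If_congr h0 h1 ?_
        have h2 := (ae_restrict_iff' measurableSet_Ioo).1 hNN
        rw [EventuallyEq, ae_restrict_iff' measurableSet_Ioo]
        filter_upwards [h2] with s hs2 hs
        simp only [hψ, hyy s hs, hy, hs2 hs])
    (pw C _ hC he1 y' hy'0 T hyf') (pw C _ hC he2 y' hy'0 T hyf')
    (by rw [← Lz_congr hNN]; exact hNL) ε hε tm htm
  obtain ⟨t0, h1, h2, h3, h4⟩ := key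
  refine ⟨t0, h1, h2, h3, fun t1 ht1 => ?_⟩
  refine le_trans (le_of_eq ?_) (h4 t1 ht1)
  refine setLIntegral_congr_fun measurableSet_Ioo fun t ht => ?_
  rw [hmm t ⟨h2.trans ht.1, ht.2.trans ht1.2⟩]

end Pool.Agent.H4NI.N7
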