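import Pool.Agent.H4NI.StmT

/-! Stub T1 of project NCI (helper64). -/

set_option autoImplicit false

open MeasureTheory Set Function Filter Topology
open scoped ENNReal ContDiff

namespace Pool.Agent.H4NI.T1

lemma right_part (γ : ℝ) (h1 : γ < 1) (s m : ℝ) (hm : 0 < m) :
    ∫⁻ t in Ioc s (s + m), ENNReal.ofReal (|t - s| ^ (-γ)) = ENNReal.ofReal (m ^ (1 - γ) / (1 - γ)) := by
  have hI : IntervalIntegrable (fun t : ℝ => (t - s) ^ (-γ)) volume s (s + m) := by
    have h := (intervalIntegral.intervalIntegrable_rpow' (a := 0) (b := m) (r := -γ) (by linarith)).comp_sub_right s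
    simpa [add_comm] using h
  have he : ∫⁻ t in Ioc s (s + m), ENNReal.ofReal (|t - s| ^ (-γ)) =
      ∫⁻ t in Ioc s (s + m), ENNReal.ofReal ((t - s) ^ (-γ)) := by
    refine setLIntegral_congr_fun measurableSet_Ioc fun t ht => ?_
    rw [abs_of_pos (by linarith [ht.1])]
  rw [he, ← ofReal_integral_eq_lintegral_ofReal]
  · congr 1
    rw [← intervalIntegral.integral_of_le (by linarith),
      intervalIntegral.integral_comp_sub_right (fun u => u ^ (-γ)) s]
    rw [integral_rpow (Or.inl (by linarith))]
    rw [sub_self, add_sub_cancel_left, Real.zero_rpow (by linarith), sub_zero]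
    congr 1
    · congr 1; ring
    · ring
  · exact (intervalIntegrable_iff_integrableOn_Ioc_of_le (by linarith)).1 hI
  · refine (ae_restrict_iff' measurableSet_Ioc).2 (Eventually.of_forall fun t ht => ?_)
    exact Real.rpow_nonneg (by linarith [ht.1]) _

lemma left_part (γ : ℝ) (h1 : γ < 1) (s m : ℝ) (hm : 0 < m) :
    ∫⁻ t in Ioc (s - m) s, ENNReal.ofReal (|t - s| ^ (-γ)) = ENNReal.ofReal (m ^ (1 - γ) / (1 - γ)) := by
  have hI : IntervalIntegrable (fun t : ℝ => (s - t) ^ (-γ)) volume (s - m) s := by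
    have h := (intervalIntegral.intervalIntegrable_rpow' (a := 0) (b := m) (r := -γ) (by linarith)).comp_sub_left s
    simpa using h.symm
  have he : ∫⁻ t in Ioc (s - m) s, ENNReal.ofReal (|t - s| ^ (-γ)) =
      ∫⁻ t in Ioc (s - m) s, ENNReal.ofReal ((s - t) ^ (-γ)) := by
    refine setLIntegral_congr_fun measurableSet_Ioc fun t ht => ?_
    rw [abs_of_nonpos (by linarith [ht.2]), neg_sub]
  rw [he, ← ofReal_integral_eq_lintegral_ofReal]
  · congr 1
    rw [← intervalIntegral.integral_of_le (by linarith),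
      intervalIntegral.integral_comp_sub_left (fun u => u ^ (-γ)) s]
    rw [integral_rpow (Or.inl (by linarith))]
    rw [sub_self, sub_sub_cancel, Real.zero_rpow (by linarith), sub_zero]
    congr 1
    · congr 1; ring
    · ring
  · exact (intervalIntegrable_iff_integrableOn_Ioc_of_le (by linarith)).1 hI
  · refine (ae_restrict_iff' measurableSet_Ioc).2 (Eventually.of_forall fun t ht => ?_)
    exact Real.rpow_nonneg (by linarith [ht.2]) _

theorem t : Pool.Agent.H4NI.T1 := by
  intro γ h0 h1 A hA s
  have hc : 0 < 2 / (1 - γ) + 1 := by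
    have : 0 < 1 - γ := by linarith
    positivity
  rcases eq_or_ne (volume A) 0 with hz | hz
  · rw [setLIntegral_measure_zero _ _ hz]
    exact zero_le
  rcases eq_or_ne (volume A) ⊤ with ht | ht
  · rw [ht, ENNReal.top_rpow_of_pos (by linarith), ENNReal.mul_top (by
      rw [Ne, ENNReal.ofReal_eq_zero, not_le]; exact hc)]
    exact le_top
  obtain ⟨m, hm, hAm⟩ : ∃ m : ℝ, 0 < m ∧ volume A = ENNReal.ofReal m :=
    ⟨(volume A).toReal, ENNReal.toReal_pos hz ht, (ENNReal.ofReal_toReal ht).symm⟩
  have hpt : ∀ t : ℝ, ENNReal.ofReal (|t - s| ^ (-γ)) ≤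
      (Ioc (s - m) (s + m)).indicator (fun t => ENNReal.ofReal (|t - s| ^ (-γ))) t + ENNReal.ofReal (m ^ (-γ)) := by
    intro t
    by_cases h : t ∈ Ioc (s - m) (s + m)
    · rw [indicator_of_mem h]
      exact le_self_add
    · rw [indicator_of_notMem h, zero_add]
      apply ENNReal.ofReal_le_ofReal
      have h2 : m ≤ |t - s| := by
        rw [mem_Ioc, not_and_or, not_lt, not_le] at h
        rcases h with h | h
        · rw [abs_of_nonpos (by linarith)]; linarith
        · rw [abs_of_pos (by linarith)]; linarith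
      exact Real.rpow_le_rpow_of_nonpos hm h2 (by linarith)
  calc ∫⁻ t in A, ENNReal.ofReal (|t - s| ^ (-γ))
      ≤ ∫⁻ t in A, ((Ioc (s - m) (s + m)).indicator (fun t => ENNReal.ofReal (|t - s| ^ (-γ))) t +
          ENNReal.ofReal (m ^ (-γ))) := lintegral_mono hpt
    _ = (∫⁻ t in A, (Ioc (s - m) (s + m)).indicator (fun t => ENNReal.ofReal (|t - s| ^ (-γ))) t) +
          ENNReal.ofReal (m ^ (-γ)) * volume A := by
        rw [lintegral_add_right _ measurable_const, setLIntegral_const]
    _ ≤ (∫⁻ t, (Ioc (s - m) (s + m)).indicator (fun t => ENNReal.ofReal (|t - s| ^ (-γ))) t) +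
          ENNReal.ofReal (m ^ (-γ)) * volume A := by
        exact add_le_add_left (setLIntegral_le_lintegral _ _) _
    _ = (ENNReal.ofReal (m ^ (1 - γ) / (1 - γ)) + ENNReal.ofReal (m ^ (1 - γ) / (1 - γ))) +
          ENNReal.ofReal (m ^ (-γ)) * volume A := by
        rw [lintegral_indicator measurableSet_Ioc,
          ← Ioc_union_Ioc_eq_Ioc (show s - m ≤ s by linarith) (show s ≤ s + m by linarith),
          lintegral_union measurableSet_Ioc (Ioc_disjoint_Ioc_of_le le_rfl), left_part γ h1 s m hm,
          right_part γ h1 s m hm]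
    _ = ENNReal.ofReal (2 / (1 - γ) + 1) * volume A ^ (1 - γ) := by
        have hg : 0 < 1 - γ := by linarith
        rw [hAm, ENNReal.ofReal_rpow_of_pos hm, ← ENNReal.ofReal_mul (Real.rpow_nonneg hm.le _),
          ← ENNReal.ofReal_mul hc.le, ← ENNReal.ofReal_add (by positivity) (by positivity),
          ← ENNReal.ofReal_add (by positivity) (by positivity)]
        congr 1
        have h3 : m ^ (-γ) * m = m ^ (1 - γ) := by
          rw [← Real.rpow_add_one hm.ne']; congr 1; ring
        rw [h3]
        ring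

end Pool.Agent.H4NI.T1
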