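import Pool.Agent.H4NI.StmT

/-!
Project NCI (helper4), stub T2 (helper67): the dual fractional integral of an indicator function.
-/

set_option autoImplicit false

open MeasureTheory Set Function Filter Topology
open scoped ENNReal ContDiff

namespace Pool.Agent.H4NI.T2

lemma conv {k : ℝ → ℝ≥0∞} (hk : Measurable k) (A : Set ℝ) :
    ∫⁻ s, ∫⁻ t in A, k (t - s) = volume A * ∫⁻ u, k u := by
  have hm : Measurable (fun q : ℝ × ℝ => k (q.2 - q.1)) := hk.comp (measurable_snd.sub measurable_fst)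
  rw [lintegral_lintegral_swap hm.aemeasurable]
  have h1 : ∀ t : ℝ, ∫⁻ s, k (t - s) = ∫⁻ u, k u := fun t => lintegral_sub_left_eq_self k t
  simp only [h1]
  rw [lintegral_const, Measure.restrict_apply_univ, mul_comm]

lemma jensen {f : ℝ → ℝ≥0∞} (hf : Measurable f) (A : Set ℝ) {p : ℝ} (hp : 1 < p) :
    (∫⁻ t in A, f t) ^ p ≤ volume A ^ (p - 1) * ∫⁻ t in A, f t ^ p := by
  have hpq : p.HolderConjugate (p / (p - 1)) := Real.HolderConjugate.conjExponent hp
  have h1 := ENNReal.lintegral_mul_le_Lp_mul_Lq (volume.restrict A) hpq hf.aemeasurable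
    (measurable_const (a := (1 : ℝ≥0∞))).aemeasurable
  have h2 : (∫⁻ a in A, (f * (fun _ => (1 : ℝ≥0∞) : ℝ → ℝ≥0∞)) a) = ∫⁻ t in A, f t :=
    lintegral_congr fun a => by simp
  rw [h2] at h1
  have h3 : ∫⁻ _a in A, (1 : ℝ≥0∞) ^ (p / (p - 1)) = volume A := by simp
  rw [h3] at h1
  have hp0 : 0 < p := by linarith
  calc (∫⁻ t in A, f t) ^ p ≤ ((∫⁻ t in A, f t ^ p) ^ (1 / p) * volume A ^ (1 / (p / (p - 1)))) ^ p :=
        ENNReal.rpow_le_rpow h1 hp0.le
    _ = (∫⁻ t in A, f t ^ p) * volume A ^ (p - 1) := by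
        rw [ENNReal.mul_rpow_of_nonneg _ _ hp0.le, ← ENNReal.rpow_mul, ← ENNReal.rpow_mul,
          one_div_mul_cancel hp0.ne', ENNReal.rpow_one]
        congr 2
        field_simp
    _ = _ := mul_comm _ _

lemma int1 {γ m : ℝ} (hγ : 0 < γ) (hγ1 : γ < 1) (hm : 0 < m) :
    ∫⁻ u in Ioo 0 m, ENNReal.ofReal (u ^ (-γ)) = ENNReal.ofReal (m ^ (1 - γ) / (1 - γ)) := by
  have h1 : IntervalIntegrable (fun u : ℝ => u ^ (-γ)) volume 0 m :=
    intervalIntegral.intervalIntegrable_rpow' (by linarith)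
  have h2 : IntegrableOn (fun u : ℝ => u ^ (-γ)) (Ioo 0 m) := by
    rw [intervalIntegrable_iff_integrableOn_Ioo_of_le hm.le] at h1
    exact h1
  rw [← ofReal_integral_eq_lintegral_ofReal h2]
  · rw [← integral_Ioc_eq_integral_Ioo, ← intervalIntegral.integral_of_le hm.le, integral_rpow (Or.inl (by linarith))]
    congr 1
    rw [Real.zero_rpow (by linarith), sub_zero]
    congr 1 <;> [skip; ring]
    congr 1
    ring
  · filter_upwards [ae_restrict_mem measurableSet_Ioo] with u hu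
    exact Real.rpow_nonneg hu.1.le _

lemma int2 {γ p m : ℝ} (hγ : 0 < γ) (hp : 1 < γ * p) (hp0 : 0 < p) (hm : 0 < m) :
    ∫⁻ u in Ioi m, ENNReal.ofReal (u ^ (-γ)) ^ p = ENNReal.ofReal (m ^ (1 - γ * p) / (γ * p - 1)) := by
  have h0 : ∫⁻ u in Ioi m, ENNReal.ofReal (u ^ (-γ)) ^ p = ∫⁻ u in Ioi m, ENNReal.ofReal (u ^ (-(γ * p))) := by
    refine setLIntegral_congr_fun measurableSet_Ioi fun u hu => ?_
    have hu0 : 0 < u := hm.trans hu
    rw [ENNReal.ofReal_rpow_of_pos (Real.rpow_pos_of_pos hu0 _), ← Real.rpow_mul hu0.le]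
    congr 2
    ring
  rw [h0]
  have h2 : IntegrableOn (fun u : ℝ => u ^ (-(γ * p))) (Ioi m) := integrableOn_Ioi_rpow_of_lt (by linarith) hm
  rw [← ofReal_integral_eq_lintegral_ofReal h2]
  · rw [integral_Ioi_rpow_of_lt (by linarith) hm]
    congr 1
    rw [show -(γ * p) + 1 = 1 - γ * p by ring, show γ * p - 1 = -(1 - γ * p) by ring, div_neg, neg_div]
  · filter_upwards [ae_restrict_mem measurableSet_Ioi] with u hu
    exact Real.rpow_nonneg (hm.trans hu).le _

theorem t : T2 := by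
  intro γ p hγ hγ1 hp
  have hp1 : 1 < p := by nlinarith
  have hp0 : 0 < p := by linarith
  obtain ⟨C, hC⟩ : ∃ C : ℝ, C = 2 ^ (p - 1) * ((1 / (1 - γ)) ^ p + 1 / (γ * p - 1)) := ⟨_, rfl⟩
  have h1γ : 0 < 1 - γ := by linarith
  have h1γp : 0 < γ * p - 1 := by linarith
  have hC0 : 0 < C := by rw [hC]; positivity
  refine ⟨C, hC0, fun A hA => ?_⟩
  have hexp : 0 < 1 + p * (1 - γ) := by positivity
  by_cases htop : volume A = ⊤
  · rw [htop, ENNReal.top_rpow_of_pos hexp, ENNReal.mul_top (by simpa using hC0)]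
    exact le_top
  by_cases hzero : volume A = 0
  · have h1 : ∀ s : ℝ, (∫⁻ t in A ∩ Ioi s, ENNReal.ofReal ((t - s) ^ (-γ))) ^ p = 0 := by
      intro s
      have h2 : volume.restrict (A ∩ Ioi s) = 0 := by
        rw [Measure.restrict_eq_zero]
        exact measure_mono_null inter_subset_left hzero
      rw [h2, lintegral_zero_measure, ENNReal.zero_rpow_of_pos hp0]
    simp only [h1, lintegral_zero]
    exact bot_le
  obtain ⟨m, hm⟩ : ∃ m : ℝ, m = (volume A).toReal := ⟨_, rfl⟩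
  have hm0 : 0 < m := by rw [hm]; exact ENNReal.toReal_pos hzero htop
  have hmA : volume A = ENNReal.ofReal m := by rw [hm, ENNReal.ofReal_toReal htop]
  set k : ℝ → ℝ≥0∞ := fun u => ENNReal.ofReal (u ^ (-γ)) with hk
  have hkm : Measurable k := by fun_prop
  set k1 : ℝ → ℝ≥0∞ := (Ioo 0 m).indicator k with hk1
  set k2 : ℝ → ℝ≥0∞ := (Ici m).indicator k with hk2
  have hk1m : Measurable k1 := hkm.indicator measurableSet_Ioo
  have hk2m : Measurable k2 := hkm.indicator measurableSet_Ici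
  have hI1 : ∫⁻ u, k1 u = ENNReal.ofReal (m ^ (1 - γ) / (1 - γ)) := by
    rw [hk1, lintegral_indicator measurableSet_Ioo, hk]
    exact int1 hγ hγ1 hm0
  have hI2 : ∫⁻ u, k2 u ^ p = ENNReal.ofReal (m ^ (1 - γ * p) / (γ * p - 1)) := by
    have h1 : ∀ u, k2 u ^ p = (Ici m).indicator (fun u => k u ^ p) u := by
      intro u
      rw [hk2]
      by_cases hu : u ∈ Ici m
      · rw [indicator_of_mem hu, indicator_of_mem hu]
      · rw [indicator_of_notMem hu, indicator_of_notMem hu, ENNReal.zero_rpow_of_pos hp0]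
    simp only [h1]
    rw [lintegral_indicator measurableSet_Ici, setLIntegral_congr Ioi_ae_eq_Ici.symm]
    exact int2 hγ hp hp0 hm0
  -- splitting
  have hsplit : ∀ s : ℝ, ∫⁻ t in A ∩ Ioi s, ENNReal.ofReal ((t - s) ^ (-γ)) =
      (∫⁻ t in A, k1 (t - s)) + ∫⁻ t in A, k2 (t - s) := by
    intro s
    rw [← lintegral_add_left (f := fun t => k1 (t - s)) (hk1m.comp (measurable_id.sub_const s)), inter_comm,
      ← Measure.restrict_restrict measurableSet_Ioi, ← lintegral_indicator measurableSet_Ioi]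
    refine lintegral_congr fun t => ?_
    simp only [indicator, mem_Ioi, mem_Ioo, mem_Ici, hk1, hk2, hk]
    by_cases h1 : s < t
    · rw [if_pos h1]
      by_cases h2 : t - s < m
      · rw [if_pos ⟨by linarith, h2⟩, if_neg (by linarith), add_zero]
      · rw [if_neg (fun h => h2 h.2), if_pos (by linarith), zero_add]
    · rw [if_neg h1, if_neg (fun h => h1 (by linarith [h.1])), if_neg (by linarith), add_zero]
  have hb1 : ∫⁻ s, (∫⁻ t in A, k1 (t - s)) ^ p ≤
      ENNReal.ofReal ((m ^ (1 - γ) / (1 - γ)) ^ p * m) := by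
    have hκ : 0 < m ^ (1 - γ) / (1 - γ) := div_pos (Real.rpow_pos_of_pos hm0 _) h1γ
    have h1 : ∀ s : ℝ, ∫⁻ t in A, k1 (t - s) ≤ ENNReal.ofReal (m ^ (1 - γ) / (1 - γ)) := by
      intro s
      rw [← hI1, ← lintegral_sub_right_eq_self k1 s]
      exact lintegral_mono' Measure.restrict_le_self le_rfl
    calc ∫⁻ s, (∫⁻ t in A, k1 (t - s)) ^ p
        ≤ ∫⁻ s, ENNReal.ofReal (m ^ (1 - γ) / (1 - γ)) ^ (p - 1) * ∫⁻ t in A, k1 (t - s) := by
          refine lintegral_mono fun s => ?_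
          simp only
          have h2 : (∫⁻ t in A, k1 (t - s)) ^ p = (∫⁻ t in A, k1 (t - s)) ^ (p - 1) * ∫⁻ t in A, k1 (t - s) := by
            nth_rewrite 3 [← ENNReal.rpow_one (∫⁻ t in A, k1 (t - s))]
            rw [← ENNReal.rpow_add_of_nonneg _ _ (by linarith) zero_le_one, sub_add_cancel]
          rw [h2]
          gcongr
          exact h1 s
      _ = ENNReal.ofReal (m ^ (1 - γ) / (1 - γ)) ^ (p - 1) * (ENNReal.ofReal m * ENNReal.ofReal (m ^ (1 - γ) / (1 - γ))) := by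
          rw [lintegral_const_mul', conv hk1m, hI1, hmA]
          exact ENNReal.rpow_ne_top_of_nonneg (by linarith) ENNReal.ofReal_ne_top
      _ = ENNReal.ofReal ((m ^ (1 - γ) / (1 - γ)) ^ p * m) := by
          rw [ENNReal.ofReal_rpow_of_pos hκ, ← ENNReal.ofReal_mul hm0.le,
            ← ENNReal.ofReal_mul (Real.rpow_nonneg hκ.le _)]
          congr 1
          have e3 : (m ^ (1 - γ) / (1 - γ)) ^ p = (m ^ (1 - γ) / (1 - γ)) ^ (p - 1) * (m ^ (1 - γ) / (1 - γ)) := by
            rw [← Real.rpow_add_one hκ.ne', sub_add_cancel]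
          rw [e3]
          ring
      _ ≤ _ := le_rfl
  have hb2 : ∫⁻ s, (∫⁻ t in A, k2 (t - s)) ^ p ≤
      ENNReal.ofReal (m ^ p * (m ^ (1 - γ * p) / (γ * p - 1))) := by
    have hκ : 0 ≤ m ^ (1 - γ * p) / (γ * p - 1) := by positivity
    calc ∫⁻ s, (∫⁻ t in A, k2 (t - s)) ^ p
        ≤ ∫⁻ s, volume A ^ (p - 1) * ∫⁻ t in A, k2 (t - s) ^ p :=
          lintegral_mono fun s => jensen (hk2m.comp (measurable_id.sub_const s)) A hp1
      _ = volume A ^ (p - 1) * (volume A * ∫⁻ u, k2 u ^ p) := by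
          rw [lintegral_const_mul', conv (hk2m.pow_const p)]
          exact ENNReal.rpow_ne_top_of_nonneg (by linarith) htop
      _ = ENNReal.ofReal (m ^ p * (m ^ (1 - γ * p) / (γ * p - 1))) := by
          rw [hI2, hmA, ENNReal.ofReal_rpow_of_pos hm0, ← ENNReal.ofReal_mul hm0.le,
            ← ENNReal.ofReal_mul (Real.rpow_nonneg hm0.le _)]
          congr 1
          rw [← mul_assoc]
          congr 1
          nth_rewrite 2 [← Real.rpow_one m]
          rw [← Real.rpow_add hm0, sub_add_cancel]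
      _ ≤ _ := le_rfl
  have hm1 : Measurable fun s => ∫⁻ t in A, k1 (t - s) := by
    have h1 : Measurable (fun q : ℝ × ℝ => k1 (q.2 - q.1)) := hk1m.comp (measurable_snd.sub measurable_fst)
    exact h1.lintegral_prod_right'
  calc ∫⁻ s, (∫⁻ t in A ∩ Ioi s, ENNReal.ofReal ((t - s) ^ (-γ))) ^ p
      ≤ ∫⁻ s, ENNReal.ofReal (2 ^ (p - 1)) * ((∫⁻ t in A, k1 (t - s)) ^ p + (∫⁻ t in A, k2 (t - s)) ^ p) := by
        refine lintegral_mono fun s => ?_
        simp only
        rw [hsplit s]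
        have h2 : ENNReal.ofReal (2 ^ (p - 1)) = (2 : ℝ≥0∞) ^ (p - 1) := by
          rw [← ENNReal.ofReal_rpow_of_pos (by norm_num : (0 : ℝ) < 2)]
          norm_num
        rw [h2]
        exact ENNReal.rpow_add_le_mul_rpow_add_rpow _ _ hp1.le
    _ = ENNReal.ofReal (2 ^ (p - 1)) * ((∫⁻ s, (∫⁻ t in A, k1 (t - s)) ^ p) + ∫⁻ s, (∫⁻ t in A, k2 (t - s)) ^ p) := by
        rw [lintegral_const_mul' _ _ ENNReal.ofReal_ne_top, lintegral_add_left (hm1.pow_const p)]
    _ ≤ ENNReal.ofReal (2 ^ (p - 1)) * (ENNReal.ofReal ((m ^ (1 - γ) / (1 - γ)) ^ p * m) +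
          ENNReal.ofReal (m ^ p * (m ^ (1 - γ * p) / (γ * p - 1)))) := by gcongr
    _ = ENNReal.ofReal C * volume A ^ (1 + p * (1 - γ)) := by
        rw [hmA, ENNReal.ofReal_rpow_of_pos hm0, ← ENNReal.ofReal_add (by positivity) (by positivity),
          ← ENNReal.ofReal_mul (by positivity), ← ENNReal.ofReal_mul hC0.le]
        congr 1
        have e1 : (m ^ (1 - γ) / (1 - γ)) ^ p * m = (1 / (1 - γ)) ^ p * m ^ (1 + p * (1 - γ)) := by
          rw [div_eq_mul_one_div, Real.mul_rpow (by positivity) (by positivity), ← Real.rpow_mul hm0.le,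
            add_comm 1, Real.rpow_add hm0, Real.rpow_one, mul_comm (1 - γ) p]
          ring
        have e2 : m ^ p * (m ^ (1 - γ * p) / (γ * p - 1)) = 1 / (γ * p - 1) * m ^ (1 + p * (1 - γ)) := by
          rw [mul_div_assoc', ← Real.rpow_add hm0, show p + (1 - γ * p) = 1 + p * (1 - γ) by ring]
          ring
        rw [e1, e2, hC]
        ring

end Pool.Agent.H4NI.T2
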