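import Pool.Agent.H4NI.StmT

/-! Project NCI, stub T3 (weak type of the fractional integral). -/

set_option autoImplicit false

open MeasureTheory Set Function Filter Topology
open scoped ENNReal ContDiff

namespace Pool.Agent.H4NI.T3

open Pool.Agent.H4NI

theorem meas_If (γ t0 : ℝ) (f : ℝ → ℝ≥0∞) (hf : Measurable f) : Measurable (If γ t0 f) := by
  have h1 : Measurable (fun q : ℝ × ℝ => (Ioo t0 q.1).indicator
      (fun s => ENNReal.ofReal ((q.1 - s) ^ (-γ)) * f s) q.2) := by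
    have hset : MeasurableSet {q : ℝ × ℝ | t0 < q.2 ∧ q.2 < q.1} :=
      (measurableSet_lt measurable_const measurable_snd).inter
        (measurableSet_lt measurable_snd measurable_fst)
    have h2 : Measurable (fun q : ℝ × ℝ => ENNReal.ofReal ((q.1 - q.2) ^ (-γ)) * f q.2) := by
      fun_prop
    have : (fun q : ℝ × ℝ => (Ioo t0 q.1).indicator
        (fun s => ENNReal.ofReal ((q.1 - s) ^ (-γ)) * f s) q.2)
        = {q : ℝ × ℝ | t0 < q.2 ∧ q.2 < q.1}.indicator
          (fun q : ℝ × ℝ => ENNReal.ofReal ((q.1 - q.2) ^ (-γ)) * f q.2) := by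
      ext q; simp only [indicator, mem_Ioo, mem_setOf_eq]
    rw [this]
    exact h2.indicator hset
  have h3 : If γ t0 f = fun t => ∫⁻ s, (Ioo t0 t).indicator
      (fun s => ENNReal.ofReal ((t - s) ^ (-γ)) * f s) s := by
    ext t; rw [If, lintegral_indicator measurableSet_Ioo]
  rw [h3]
  exact h1.lintegral_prod_right'

/-- Tonelli's theorem. -/
theorem tonelli (γ t0 t1 : ℝ) (f : ℝ → ℝ≥0∞) (hf : Measurable f) (A : Set ℝ)
    (hA : MeasurableSet A) (hAs : A ⊆ Ioo t0 t1) :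
    ∫⁻ t in A, If γ t0 f t
      = ∫⁻ s in Ioo t0 t1, f s * ∫⁻ t in A ∩ Ioi s, ENNReal.ofReal ((t - s) ^ (-γ)) := by
  set S : Set (ℝ × ℝ) := {q : ℝ × ℝ | q.1 ∈ A ∧ t0 < q.2 ∧ q.2 < q.1} with hS
  have hSm : MeasurableSet S := (measurable_fst hA).inter
    ((measurableSet_lt measurable_const measurable_snd).inter
        (measurableSet_lt measurable_snd measurable_fst))
  set g : ℝ × ℝ → ℝ≥0∞ := S.indicator
    (fun q : ℝ × ℝ => ENNReal.ofReal ((q.1 - q.2) ^ (-γ)) * f q.2) with hg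
  have hgm : Measurable g := by
    have h2 : Measurable (fun q : ℝ × ℝ => ENNReal.ofReal ((q.1 - q.2) ^ (-γ)) * f q.2) := by
      fun_prop
    exact h2.indicator hSm
  have h1 : ∫⁻ t in A, If γ t0 f t = ∫⁻ t, ∫⁻ s, g (t, s) := by
    rw [← lintegral_indicator hA]
    refine lintegral_congr fun t => ?_
    by_cases ht : t ∈ A
    · rw [indicator_of_mem ht, If, ← lintegral_indicator measurableSet_Ioo]
      refine lintegral_congr fun s => ?_
      by_cases hs : s ∈ Ioo t0 t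
      · rw [indicator_of_mem hs, hg, indicator_of_mem (show (t, s) ∈ S from ⟨ht, hs.1, hs.2⟩)]
      · rw [indicator_of_notMem hs, hg,
          indicator_of_notMem (show (t, s) ∉ S from fun h => hs ⟨h.2.1, h.2.2⟩)]
    · rw [indicator_of_notMem ht]
      symm
      rw [← lintegral_zero (μ := volume) (α := ℝ)]
      refine lintegral_congr fun s => ?_
      rw [hg, indicator_of_notMem (show (t, s) ∉ S from fun h => ht h.1)]
  rw [h1, lintegral_lintegral_swap (f := fun t s => g (t, s)) hgm.aemeasurable,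
    ← lintegral_indicator measurableSet_Ioo]
  refine lintegral_congr fun s => ?_
  by_cases hs : s ∈ Ioo t0 t1
  · rw [indicator_of_mem hs, ← lintegral_indicator (hA.inter measurableSet_Ioi),
      ← lintegral_const_mul]
    · refine lintegral_congr fun t => ?_
      by_cases ht : t ∈ A ∩ Ioi s
      · rw [indicator_of_mem ht, hg,
          indicator_of_mem (show (t, s) ∈ S from ⟨ht.1, hs.1, ht.2⟩), mul_comm]
      · rw [indicator_of_notMem ht, hg,
          indicator_of_notMem (show (t, s) ∉ S from fun h => ht ⟨h.1, h.2.2⟩), mul_zero]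
    · refine Measurable.indicator ?_ (hA.inter measurableSet_Ioi)
      fun_prop
  · rw [indicator_of_notMem hs]
    rw [← lintegral_zero (μ := volume) (α := ℝ)]
    refine lintegral_congr fun t => ?_
    rw [hg, indicator_of_notMem]
    rintro ⟨h1, h2, h3⟩
    exact hs ⟨h2, h3.trans (hAs h1).2⟩

theorem t (h2 : T2) : T3 := by
  intro γ κ hγ0 hγ1 hκ hγκ
  have hκ0 : 0 < κ := by linarith
  have hcj : κ.HolderConjugate (κ / (κ - 1)) := Real.HolderConjugate.conjExponent hκ
  set κ' := κ / (κ - 1) with hκ'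
  have hκ'0 : 0 < κ' := hcj.symm.pos
  have hinv : 1 / κ + 1 / κ' = 1 := by
    have := hcj.inv_add_inv_eq_one
    simpa [one_div] using this
  have hγκ' : 1 < γ * κ' := by
    have h3 : 1 / κ' < γ := by linarith
    rwa [div_lt_iff₀ hκ'0] at h3
  obtain ⟨C, hC, hC2⟩ := h2 γ κ' hγ0 hγ1 hγκ'
  refine ⟨C ^ (1 / κ'), by positivity, ?_⟩
  intro t0 t1 f hf lam hlam hlam'
  set A : Set ℝ := {t | t ∈ Ioo t0 t1 ∧ lam < If γ t0 f t} with hAdef
  have hAm : MeasurableSet A :=
    measurableSet_Ioo.inter (measurableSet_lt measurable_const (meas_If γ t0 f hf))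
  have hAs : A ⊆ Ioo t0 t1 := fun t ht => ht.1
  have hAfin : volume A < ⊤ := lt_of_le_of_lt (measure_mono hAs) measure_Ioo_lt_top
  have hexp : 0 < 1 / κ - (1 - γ) := by linarith
  rcases eq_or_ne (volume A) 0 with hA0 | hA0
  · rw [hA0, ENNReal.zero_rpow_of_pos hexp]; exact zero_le
  have hK : Measurable (fun s : ℝ => ∫⁻ t in A ∩ Ioi s, ENNReal.ofReal ((t - s) ^ (-γ))) := by
    have h1 : Measurable (fun q : ℝ × ℝ => {q : ℝ × ℝ | q.2 ∈ A ∧ q.1 < q.2}.indicator
        (fun q : ℝ × ℝ => ENNReal.ofReal ((q.2 - q.1) ^ (-γ))) q) := by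
      refine Measurable.indicator ?_ ((measurable_snd hAm).inter
        (measurableSet_lt measurable_fst measurable_snd))
      fun_prop
    have h3 : (fun s : ℝ => ∫⁻ t in A ∩ Ioi s, ENNReal.ofReal ((t - s) ^ (-γ)))
        = fun s => ∫⁻ t, {q : ℝ × ℝ | q.2 ∈ A ∧ q.1 < q.2}.indicator
        (fun q : ℝ × ℝ => ENNReal.ofReal ((q.2 - q.1) ^ (-γ))) (s, t) := by
      ext s
      rw [← lintegral_indicator (hAm.inter measurableSet_Ioi)]
      refine lintegral_congr fun t => ?_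
      simp only [indicator, mem_inter_iff, mem_Ioi, mem_setOf_eq]
    rw [h3]
    exact h1.lintegral_prod_right'
  have hmain : lam * volume A ≤ (∫⁻ s in Ioo t0 t1, f s ^ κ) ^ (1 / κ)
      * (ENNReal.ofReal C * volume A ^ (1 + κ' * (1 - γ))) ^ (1 / κ') := by
    calc lam * volume A = ∫⁻ _ in A, lam := by rw [setLIntegral_const]
      _ ≤ ∫⁻ t in A, If γ t0 f t := setLIntegral_mono (meas_If γ t0 f hf) fun t ht => ht.2.le
      _ = ∫⁻ s in Ioo t0 t1, f s * ∫⁻ t in A ∩ Ioi s, ENNReal.ofReal ((t - s) ^ (-γ)) :=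
          tonelli γ t0 t1 f hf A hAm hAs
      _ ≤ (∫⁻ s in Ioo t0 t1, f s ^ κ) ^ (1 / κ)
          * (∫⁻ s in Ioo t0 t1, (∫⁻ t in A ∩ Ioi s, ENNReal.ofReal ((t - s) ^ (-γ))) ^ κ')
            ^ (1 / κ') :=
          ENNReal.lintegral_mul_le_Lp_mul_Lq _ hcj hf.aemeasurable hK.aemeasurable
      _ ≤ _ := by
          gcongr
          exact (setLIntegral_le_lintegral _ _).trans (hC2 A hAm)
  have hsplit : volume A = volume A ^ (1 / κ - (1 - γ)) * volume A ^ (1 / κ' + (1 - γ)) := by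
    rw [← ENNReal.rpow_add _ _ hA0 hAfin.ne]
    rw [show 1 / κ - (1 - γ) + (1 / κ' + (1 - γ)) = 1 by linarith, ENNReal.rpow_one]
  have hrw : (ENNReal.ofReal C * volume A ^ (1 + κ' * (1 - γ))) ^ (1 / κ')
      = ENNReal.ofReal (C ^ (1 / κ')) * volume A ^ (1 / κ' + (1 - γ)) := by
    rw [ENNReal.mul_rpow_of_nonneg _ _ (by positivity), ← ENNReal.rpow_mul,
      ENNReal.ofReal_rpow_of_pos hC]
    congr 2
    field_simp
  rw [hrw] at hmain
  have hB0 : volume A ^ (1 / κ' + (1 - γ)) ≠ 0 := by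
    rw [Ne, ENNReal.rpow_eq_zero_iff]
    rintro (h | h)
    · exact hA0 h.1
    · exact hAfin.ne h.1
  have hBt : volume A ^ (1 / κ' + (1 - γ)) ≠ ⊤ := ENNReal.rpow_ne_top_of_nonneg (by
    have : 0 < 1 / κ' := by positivity
    linarith) hAfin.ne
  have hfin : volume A ^ (1 / κ - (1 - γ)) * lam
      ≤ ENNReal.ofReal (C ^ (1 / κ')) * (∫⁻ s in Ioo t0 t1, f s ^ κ) ^ (1 / κ) := by
    rw [← ENNReal.mul_le_mul_iff_left hB0 hBt]
    calc volume A ^ (1 / κ - (1 - γ)) * lam * volume A ^ (1 / κ' + (1 - γ))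
        = lam * (volume A ^ (1 / κ - (1 - γ)) * volume A ^ (1 / κ' + (1 - γ))) := by ring
      _ = lam * volume A := by rw [← hsplit]
      _ ≤ _ := hmain
      _ = _ := by ring
  rw [ENNReal.le_div_iff_mul_le (Or.inl hlam.ne') (Or.inl hlam'.ne)]
  exact hfin

end Pool.Agent.H4NI.T3
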