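import Pool.Agent.H4NC.StmA

/-!
Project NCI (the critical case `a = ∞` of project NC, with one entry of the gradient): statements
which need Mathlib only. A stub `X` is proved as
`theorem Pool.Agent.H4NI.X.t : Pool.Agent.H4NI.X` in `Pool/Agent/H4NI/X.lean`; the hypotheses listed
as allowed in the docstring may be added (`theorem t (h1 : T1) : T2`). All functions of time are
`ℝ≥0∞`-valued and measurable, all the integrals are `lintegral`s, so Tonelli's theorem is free.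
-/

set_option autoImplicit false

open MeasureTheory Set Function Filter Topology
open scoped ENNReal ContDiff

namespace Pool.Agent.H4NI

open H4NC

/-- `‖h‖_{L^{2,∞}(t0,t1)} ≤ 1`. -/
def Wk2 (t0 t1 : ℝ) (h : ℝ → ℝ≥0∞) : Prop :=
  ∀ G : Set ℝ, MeasurableSet G → G ⊆ Ioo t0 t1 → ∫⁻ t in G, h t ≤ volume G ^ (1 / 2 : ℝ)

/-- The fractional integral `∫_{t0}^t (t-s)^{-γ} f(s) ds`. -/
noncomputable def If (γ t0 : ℝ) (f : ℝ → ℝ≥0∞) (t : ℝ) : ℝ≥0∞ :=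
  ∫⁻ s in Ioo t0 t, ENNReal.ofReal ((t - s) ^ (-γ)) * f s

/-- The dual fractional integral `∫_s^{t1} (t-s)^{-γ} h(t) dt`. -/
noncomputable def Ib (γ t1 : ℝ) (h : ℝ → ℝ≥0∞) (s : ℝ) : ℝ≥0∞ :=
  ∫⁻ t in Ioo s t1, ENNReal.ofReal ((t - s) ^ (-γ)) * h t

/-- T1. With `μ = volume A`: split `A` at `|t - s| < μ`: the first part is at most
`2 ∫_0^μ σ^{-γ} dσ = 2/(1-γ) μ^{1-γ}`, the second at most `μ^{-γ} μ` (trivial for `μ = 0, ∞`). -/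
def T1 : Prop := ∀ γ : ℝ, 0 < γ → γ < 1 → ∀ A : Set ℝ, MeasurableSet A → ∀ s : ℝ,
  ∫⁻ t in A, ENNReal.ofReal (|t - s| ^ (-γ)) ≤ ENNReal.ofReal (2 / (1 - γ) + 1) * volume A ^ (1 - γ)

/-- T2. With `μ = volume A` (trivial for `μ = 0`, and `μ = ∞` since then the right side is `∞` for
`C > 0`): `(t-s)^{-γ} = k1 + k2`, `k1` for `t - s < μ`; `(a+b)^p ≤ 2^{p-1}(a^p+b^p)`
(`ENNReal.rpow_add_le_mul_rpow_add_rpow` or similar); by Hoelder's inequality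
`(∫ k1(t-s) 1_A(t) dt)^p ≤ (∫ k1)^{p-1} ∫ k1(t-s) 1_A(t) dt`, and the integral in `s` is
`(∫ k1)^p μ = (μ^{1-γ}/(1-γ))^p μ`; `(∫_A k2(t-s) dt)^p ≤ μ^{p-1} ∫_A k2(t-s)^p dt`, and the integral
in `s` is `μ^p ∫ k2^p = μ^p μ^{1-γp}/(γp-1)`. -/
def T2 : Prop := ∀ γ p : ℝ, 0 < γ → γ < 1 → 1 < γ * p → ∃ C : ℝ, 0 < C ∧
  ∀ A : Set ℝ, MeasurableSet A →
  ∫⁻ s, (∫⁻ t in A ∩ Ioi s, ENNReal.ofReal ((t - s) ^ (-γ))) ^ p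
    ≤ ENNReal.ofReal C * volume A ^ (1 + p * (1 - γ))

/-- T3. Weak type of the fractional integral. Let `A = {t ∈ (t0,t1) : lam < If γ t0 f t}` (finite
measure), `κ' = κ/(κ-1)` (`γ κ' > 1`). Tonelli, Hoelder and T2:
`lam |A| ≤ ∫_A If = ∫ f(s) (∫_{A ∩ (s,∞)} (t-s)^{-γ} dt) ds ≤ ‖f‖_κ (C |A|^{1+κ'(1-γ)})^{1/κ'}`, so
`|A|^{1/κ-(1-γ)} ≤ C' ‖f‖_κ / lam` (`‖f‖_κ^κ = ∫_{(t0,t1)} f^κ`). Allowed hypothesis: T2. -/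
def T3 : Prop := ∀ γ κ : ℝ, 0 < γ → γ < 1 → 1 < κ → 1 - γ < 1 / κ → ∃ C : ℝ, 0 < C ∧
  ∀ (t0 t1 : ℝ) (f : ℝ → ℝ≥0∞), Measurable f → ∀ lam : ℝ≥0∞, 0 < lam → lam < ⊤ →
  volume {t | t ∈ Ioo t0 t1 ∧ lam < If γ t0 f t} ^ (1 / κ - (1 - γ))
    ≤ ENNReal.ofReal C * (∫⁻ s in Ioo t0 t1, f s ^ κ) ^ (1 / κ) / lam

/-- T4a. Split the integral at `Λ`. -/
def T4a : Prop := ∀ e1 e2 : ℝ, 0 < e1 → e1 < 1 → 1 < e2 → ∃ C : ℝ, 0 < C ∧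
  ∀ (X1 X2 Λ : ℝ≥0∞), X1 < ⊤ → X2 < ⊤ → 0 < Λ → Λ < ⊤ → ∀ φ : ℝ → ℝ≥0∞,
  (∀ lam : ℝ, 0 < lam → φ lam ≤ (X1 / ENNReal.ofReal lam) ^ e1) →
  (∀ lam : ℝ, 0 < lam → φ lam ≤ (X2 / ENNReal.ofReal lam) ^ e2) →
  ∫⁻ lam in Ioi (0 : ℝ), φ lam
    ≤ ENNReal.ofReal C * (X1 ^ e1 * Λ ^ (1 - e1) + X2 ^ e2 * Λ ^ (1 - e2))

/-- T4, the key inequality. Let `f = ψ 1_G`, `ϑ = 3/2 - γ - β > 0`, `0 < |G| < ∞`,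
`0 < ‖ψ‖ < ∞` with `‖ψ‖ = (∫_{(t0,t1)} ψ^{1/β})^β` (the other cases are trivial: the left side is
`0` or the right side is `∞`). Tonelli: the left side is `∫_{(t0,t1)} h(t) F(t) dt` with
`F = If γ t0 f`; if it is... layer cake `F(t) = ∫_0^∞ 1_{lam < F(t)} dlam` and `Wk2`:
`≤ ∫_0^∞ |{t ∈ (t0,t1) : lam < F(t)}|^{1/2} dlam` (`F(t) = ∞` is no problem:
`∫⁻ lam in Ioi 0, indicator {lam | ofReal lam < F t} 1 = F t` always).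
Let `δ > 0` be small (`δ < γ - 1/2`, `δ < ϑ`, `δ < 1/2`), `1/q = 1/2 ± δ`, `1/κ = 3/2 - γ ± δ`; T3:
`|{...}|^{1/2} ≤ (C ‖f‖_κ / lam)^{q/2}` and `‖f‖_κ ≤ ‖ψ‖ |G|^{1/κ-β}` (Hoelder). T4a with
`Λ = ‖ψ‖ |G|^{ϑ-1/2}` gives the result `C ‖ψ‖ |G|^ϑ` (the exponents are
`(1/κ-β) q/2 + (ϑ-1/2)(1-q/2) = ϑ`). Allowed hypotheses: T3, T4a. -/
def T4 : Prop := ∀ γ β : ℝ, 1 / 2 < γ → γ < 1 → 0 < β → β < 3 / 2 - γ → ∃ C : ℝ, 0 < C ∧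
  ∀ (t0 t1 : ℝ) (h ψ : ℝ → ℝ≥0∞), t0 < t1 → Measurable h → Measurable ψ → Wk2 t0 t1 h →
  ∀ G : Set ℝ, MeasurableSet G → G ⊆ Ioo t0 t1 →
  ∫⁻ s in G, ψ s * Ib γ t1 h s
    ≤ ENNReal.ofReal C * ((∫⁻ s in Ioo t0 t1, ψ s ^ (1 / β)) ^ β * volume G ^ (3 / 2 - γ - β))

/-- T5, the Gronwall lemma. Here `γ = 1/2 + 1/k`, `1/σ = 1/2 - 1/k`, `β = 1/2 - 1/k + 1/r`,
`1/s = 1/2 - 1/r` (so `3/2 - γ - 1/σ = 1/2`, `3/2 - γ - β = 1/s`). Let `ε = C₄ (∫ v^σ)^{1/σ} ≤ 1/2`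
with the constant `C₄` of T4 for `γ, 1/σ`, and let `Y` be the supremum of `∫_{(t0,t1)} h m` over all
measurable `h` with `Wk2 t0 t1 h`; `Y ≤ B (t1-t0)^{1/2} < ∞` if `m ≤ B`. For such an `h`:
`∫ h m ≤ A ∫ h + ∫ h If(N ψ) + ∫ h If(v m)`; `∫ h ≤ (t1-t0)^{1/2}`;
`∫ h If(v m) = ∫ (v Ib h) m ≤ Y/2`, since `2 v Ib h` is in the class by T4;
`∫ h If(N ψ) = ∫ N (ψ Ib h) = ∫_0^∞ (∫_{lam < N} ψ Ib h) dlam ≤ C ‖ψ‖ ∫_0^∞ |{lam < N}|^{1/s} dlam`.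
So `Y ≤ 2 (...)`. Finally `h(t) = (t1-t)^{-1/2}/5` is in the class by T1. Allowed: T1, T4. -/
def T5 : Prop := ∀ k r : ℝ, 2 < k → k < r → ∃ C : ℝ, 0 < C ∧
  ∀ (t0 t1 : ℝ) (m v ψ : ℝ → ℝ≥0∞) (N : ℝ → ℝ) (A B : ℝ≥0∞), t0 < t1 → B < ⊤ →
  Measurable m → Measurable v → Measurable ψ → Measurable N →
  (∀ t ∈ Ioo t0 t1, m t ≤ B) →
  (∀ t ∈ Ioo t0 t1, m t ≤ A + If (1 / 2 + 1 / k) t0 (fun s => v s * m s) t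
    + If (1 / 2 + 1 / k) t0 (fun s => ENNReal.ofReal (N s) * ψ s) t) →
  ENNReal.ofReal C * (∫⁻ s in Ioo t0 t1, v s ^ (1 / (1 / 2 - 1 / k))) ^ (1 / 2 - 1 / k) ≤ 1 →
  ∫⁻ t in Ioo t0 t1, ENNReal.ofReal ((t1 - t) ^ (-(1 / 2) : ℝ)) * m t
    ≤ ENNReal.ofReal C * (A * ENNReal.ofReal (t1 - t0) ^ (1 / 2 : ℝ)
      + (∫⁻ s in Ioo t0 t1, ψ s ^ (1 / (1 / 2 - 1 / k + 1 / r))) ^ (1 / 2 - 1 / k + 1 / r)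
        * Lz (1 / (1 / 2 - 1 / r)) N t0 t1)

/-- T6, smallness near `T`. By T5 and the tails of the integrals of `v`, `ψ` (absolute continuity)
there is `ta ∈ (tm, T)`, `ta > 0`, such that for all `ta ≤ t0 < t1 < T`
`K(t0,t1) := ∫_{(t0,t1)} (t1-t)^{-1/2} m ≤ C m(t0) (T-t0)^{1/2} + ε/2`. In particular
`K(ta,t1) ≤ B` for all `t1`. If `C m(t0) (T-t0)^{1/2} > ε/2` for all `t0 ∈ (ta,T)` then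
`K(ta,t1) ≥ (ε/(2C)) ∫_{ta}^{t1} (t1-t)^{-1/2} (T-t)^{-1/2} dt ≥ (ε/(2C)) ∫_{ta}^{t1} (T-t)^{-1} dt
= (ε/(2C)) log((T-ta)/(T-t1))`, which is unbounded. Allowed hypothesis: T5. -/
def T6 : Prop := ∀ k r : ℝ, 2 < k → k < r → ∀ (T : ℝ) (m v ψ : ℝ → ℝ≥0∞) (N : ℝ → ℝ), 0 < T →
  Measurable m → Measurable v → Measurable ψ → Measurable N →
  (∀ t0 t1 : ℝ, 0 < t0 → t0 < t1 → t1 < T → ∃ B : ℝ≥0∞, B < ⊤ ∧ ∀ t ∈ Icc t0 t1, m t ≤ B) →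
  (∀ t0 t : ℝ, 0 < t0 → t0 < t → t < T →
    m t ≤ m t0 + If (1 / 2 + 1 / k) t0 (fun s => v s * m s) t
      + If (1 / 2 + 1 / k) t0 (fun s => ENNReal.ofReal (N s) * ψ s) t) →
  ∫⁻ s in Ioo 0 T, v s ^ (1 / (1 / 2 - 1 / k)) ≠ ⊤ →
  ∫⁻ s in Ioo 0 T, ψ s ^ (1 / (1 / 2 - 1 / k + 1 / r)) ≠ ⊤ →
  Lz (1 / (1 / 2 - 1 / r)) N 0 T ≠ ⊤ →
  ∀ ε : ℝ≥0∞, 0 < ε → ∀ tm : ℝ, tm < T → ∃ t0 : ℝ, tm < t0 ∧ 0 < t0 ∧ t0 < T ∧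
  ∀ t1 ∈ Ioo t0 T, ∫⁻ t in Ioo t0 t1, ENNReal.ofReal ((t1 - t) ^ (-(1 / 2) : ℝ)) * m t ≤ ε

/-- I12. Young's inequality (the case `a = ∞` of `A12`, whose proof in `Pool/Agent/H4NC/A12.lean`
can be adapted; `1/s = 1/2 - 1/r`, `P = s`). The products are absorbed with Young's inequality:
the first with exponents `r, r/(r-1)`: `M^{r'} τ^{-r'/2} = M^{r'} τ^{r'/s-1}`; the second with
`2, 2`: `M² τ^{2/s-1}`; the third is `M τ^{1/s-1} D`; the fifth with exponents `r`, `2` and `s`: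
`M^s D`; the sixth with `1/(1/2+1/r)` and `s`: `M^s D`; and for `ξ = M τ^{1/s}` and `1 ≤ p ≤ s`:
`ξ^p ≤ ξ + ξ^s` (`r' ≤ 2 ≤ s`). -/
def I12 : Prop := ∀ r ε C0 : ℝ, 2 < r → 0 < ε → 0 ≤ C0 → ∃ C : ℝ, 0 ≤ C ∧
  ∀ M m τ D J Y : ℝ, 1 ≤ M → 0 ≤ m → 0 < τ → τ ≤ 1 → 1 ≤ D → 0 ≤ J → 0 ≤ Y →
  C0 * (M * τ ^ (-(1 / 2) : ℝ) * (D ^ (1 - 1 / r) * J ^ (1 / r))
      + M * τ ^ (-(1 / r)) * (√D * √J)
      + M * τ ^ (-(1 / 2 + 1 / r)) * D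
      + m * τ ^ (-(1 / 2) : ℝ) * D
      + M * (D ^ (1 / 2 - 1 / r) * (J ^ (1 / r) * √Y))
      + M * (D ^ (1 / 2 - 1 / r) * Y ^ (1 / 2 + 1 / r)))
    ≤ ε * J + C * (Y + D * (m * τ ^ (-(1 / 2) : ℝ) + M * τ ^ (-(1 / 2 + 1 / r))
      + M ^ (1 / (1 / 2 - 1 / r))))

end Pool.Agent.H4NI
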