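import Mathlib
import Pool.Agent.H4NI.StmT

/-! Project NCI, stub T4: the key inequality. By helper92. -/

set_option autoImplicit false

open MeasureTheory Set Function Filter Topology
open scoped ENNReal

namespace Pool.Agent.H4NI.T4

open Pool.Agent.H4NI

/-- the kernel of the double integral -/
noncomputable def K (γ t0 t1 : ℝ) (f h : ℝ → ℝ≥0∞) (s t : ℝ) : ℝ≥0∞ :=
  if t0 < s ∧ s < t ∧ t < t1 then ENNReal.ofReal ((t - s) ^ (-γ)) * (f s * h t) else 0

theorem ker_meas (γ : ℝ) : Measurable fun p : ℝ × ℝ => ENNReal.ofReal ((p.2 - p.1) ^ (-γ)) :=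
  ENNReal.measurable_ofReal.comp ((measurable_snd.sub measurable_fst).pow_const _)

theorem K_meas (γ t0 t1 : ℝ) {f h : ℝ → ℝ≥0∞} (hf : Measurable f) (hh : Measurable h) :
    Measurable (uncurry (K γ t0 t1 f h)) := by
  unfold K uncurry
  refine Measurable.ite ?_ ?_ measurable_const
  · refine MeasurableSet.inter ?_ (MeasurableSet.inter ?_ ?_)
    · exact measurableSet_lt measurable_const measurable_fst
    · exact measurableSet_lt measurable_fst measurable_snd
    · exact measurableSet_lt measurable_snd measurable_const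
  · exact (ker_meas γ).mul ((hf.comp measurable_fst).mul (hh.comp measurable_snd))

theorem left (γ t0 t1 : ℝ) {f h : ℝ → ℝ≥0∞} (hf : Measurable f) (hh : Measurable h) :
    ∫⁻ s in Ioo t0 t1, f s * Ib γ t1 h s = ∫⁻ s, ∫⁻ t, K γ t0 t1 f h s t := by
  rw [← lintegral_indicator measurableSet_Ioo]
  refine lintegral_congr fun s => ?_
  by_cases hs : s ∈ Ioo t0 t1
  · rw [indicator_of_mem hs]
    unfold Ib
    have hm : Measurable fun t => ENNReal.ofReal ((t - s) ^ (-γ)) * h t :=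
      (ENNReal.measurable_ofReal.comp ((measurable_id.sub_const s).pow_const _)).mul hh
    rw [← lintegral_const_mul _ hm, ← lintegral_indicator measurableSet_Ioo]
    refine lintegral_congr fun t => ?_
    unfold K
    by_cases ht : t ∈ Ioo s t1
    · rw [indicator_of_mem ht, if_pos ⟨hs.1, ht.1, ht.2⟩]
      ring
    · rw [indicator_of_notMem ht, if_neg]
      rintro ⟨_, h2, h3⟩
      exact ht ⟨h2, h3⟩
  · rw [indicator_of_notMem hs]
    symm
    rw [lintegral_eq_zero_iff']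
    · refine Filter.Eventually.of_forall fun t => ?_
      show K γ t0 t1 f h s t = 0
      unfold K
      rw [if_neg]
      rintro ⟨h1, h2, h3⟩
      exact hs ⟨h1, h2.trans h3⟩
    · exact ((K_meas γ t0 t1 hf hh).comp (measurable_const.prodMk measurable_id)).aemeasurable

theorem right (γ t0 t1 : ℝ) {f h : ℝ → ℝ≥0∞} (hf : Measurable f) (hh : Measurable h) :
    ∫⁻ t in Ioo t0 t1, h t * If γ t0 f t = ∫⁻ t, ∫⁻ s, K γ t0 t1 f h s t := by
  rw [← lintegral_indicator measurableSet_Ioo]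
  refine lintegral_congr fun t => ?_
  by_cases ht : t ∈ Ioo t0 t1
  · rw [indicator_of_mem ht]
    unfold If
    have hm : Measurable fun s => ENNReal.ofReal ((t - s) ^ (-γ)) * f s :=
      (ENNReal.measurable_ofReal.comp ((measurable_const.sub measurable_id).pow_const _)).mul hf
    rw [← lintegral_const_mul _ hm, ← lintegral_indicator measurableSet_Ioo]
    refine lintegral_congr fun s => ?_
    unfold K
    by_cases hs : s ∈ Ioo t0 t
    · rw [indicator_of_mem hs, if_pos ⟨hs.1, hs.2, ht.2⟩]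
      ring
    · rw [indicator_of_notMem hs, if_neg]
      rintro ⟨h1, h2, _⟩
      exact hs ⟨h1, h2⟩
  · rw [indicator_of_notMem ht]
    symm
    rw [lintegral_eq_zero_iff']
    · refine Filter.Eventually.of_forall fun s => ?_
      show K γ t0 t1 f h s t = 0
      unfold K
      rw [if_neg]
      rintro ⟨h1, h2, h3⟩
      exact ht ⟨h1.trans h2, h3⟩
    · exact ((K_meas γ t0 t1 hf hh).comp (measurable_id.prodMk measurable_const)).aemeasurable

theorem swap (γ t0 t1 : ℝ) {f h : ℝ → ℝ≥0∞} (hf : Measurable f) (hh : Measurable h) :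
    ∫⁻ s in Ioo t0 t1, f s * Ib γ t1 h s = ∫⁻ t in Ioo t0 t1, h t * If γ t0 f t := by
  rw [left γ t0 t1 hf hh, right γ t0 t1 hf hh]
  exact lintegral_lintegral_swap (K_meas γ t0 t1 hf hh).aemeasurable

theorem If_meas (γ t0 : ℝ) {f : ℝ → ℝ≥0∞} (hf : Measurable f) : Measurable (If γ t0 f) := by
  have h1 : If γ t0 f = fun t => ∫⁻ s, (if t0 < s ∧ s < t then
      ENNReal.ofReal ((t - s) ^ (-γ)) * f s else 0) := by
    funext t
    unfold If
    rw [← lintegral_indicator measurableSet_Ioo]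
    refine lintegral_congr fun s => ?_
    by_cases hs : s ∈ Ioo t0 t
    · rw [indicator_of_mem hs, if_pos ⟨hs.1, hs.2⟩]
    · rw [indicator_of_notMem hs, if_neg]
      rintro ⟨h1, h2⟩
      exact hs ⟨h1, h2⟩
  rw [h1]
  apply Measurable.lintegral_prod_right'
    (f := fun p : ℝ × ℝ => if t0 < p.2 ∧ p.2 < p.1 then ENNReal.ofReal ((p.1 - p.2) ^ (-γ)) * f p.2 else 0)
  refine Measurable.ite ?_ ?_ measurable_const
  · exact MeasurableSet.inter (measurableSet_lt measurable_const measurable_snd)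
      (measurableSet_lt measurable_snd measurable_fst)
  · exact (ENNReal.measurable_ofReal.comp ((measurable_fst.sub measurable_snd).pow_const _)).mul
      (hf.comp measurable_snd)

/-- layer cake -/
theorem cake (x : ℝ≥0∞) : x = ∫⁻ lam in Ioi (0 : ℝ), (if ENNReal.ofReal lam < x then 1 else 0) := by
  have h1 : ∫⁻ lam in Ioi (0 : ℝ), (if ENNReal.ofReal lam < x then (1 : ℝ≥0∞) else 0) =
      volume {lam : ℝ | 0 < lam ∧ ENNReal.ofReal lam < x} := by
    rw [← lintegral_indicator measurableSet_Ioi, ← lintegral_indicator_one]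
    · refine lintegral_congr fun lam => ?_
      by_cases h0 : 0 < lam
      · rw [indicator_of_mem (mem_Ioi.2 h0)]
        by_cases h : ENNReal.ofReal lam < x
        · rw [if_pos h, indicator_of_mem (show lam ∈ {lam : ℝ | 0 < lam ∧ ENNReal.ofReal lam < x}
            from ⟨h0, h⟩)]
          rfl
        · rw [if_neg h, indicator_of_notMem]
          exact fun h' => h h'.2
      · rw [indicator_of_notMem (show lam ∉ Ioi (0 : ℝ) from h0), indicator_of_notMem]
        exact fun h' => h0 h'.1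
    · exact MeasurableSet.inter measurableSet_Ioi
        (measurableSet_lt ENNReal.measurable_ofReal measurable_const)
  rw [h1]
  by_cases hx : x = ⊤
  · have h2 : {lam : ℝ | 0 < lam ∧ ENNReal.ofReal lam < x} = Ioi 0 := by
      ext lam
      simp [hx]
    rw [h2, hx, Real.volume_Ioi]
  · have h2 : {lam : ℝ | 0 < lam ∧ ENNReal.ofReal lam < x} = Ioo 0 x.toReal := by
      ext lam
      constructor
      · rintro ⟨h3, h4⟩
        refine ⟨h3, ?_⟩
        rwa [ENNReal.ofReal_lt_iff_lt_toReal h3.le hx] at h4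
      · rintro ⟨h3, h4⟩
        refine ⟨h3, ?_⟩
        rwa [ENNReal.ofReal_lt_iff_lt_toReal h3.le hx]
    rw [h2, Real.volume_Ioo, sub_zero, ENNReal.ofReal_toReal hx]

theorem layer {t0 t1 : ℝ} {F h : ℝ → ℝ≥0∞} (hF : Measurable F) (hh : Measurable h)
    (hw : Wk2 t0 t1 h) : ∫⁻ t in Ioo t0 t1, h t * F t ≤
      ∫⁻ lam in Ioi (0 : ℝ), volume {t | t ∈ Ioo t0 t1 ∧ ENNReal.ofReal lam < F t} ^ (1 / 2 : ℝ) := by
  have h1 : ∫⁻ t in Ioo t0 t1, h t * F t = ∫⁻ t in Ioo t0 t1, ∫⁻ lam in Ioi (0 : ℝ),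
      h t * (if ENNReal.ofReal lam < F t then 1 else 0) := by
    refine lintegral_congr fun t => ?_
    rw [lintegral_const_mul]
    · rw [← cake]
    · exact Measurable.ite (measurableSet_lt ENNReal.measurable_ofReal measurable_const)
        measurable_const measurable_const
  rw [h1, lintegral_lintegral_swap]
  · refine lintegral_mono fun lam => ?_
    have hms : MeasurableSet {t | t ∈ Ioo t0 t1 ∧ ENNReal.ofReal lam < F t} :=
      measurableSet_Ioo.inter (measurableSet_lt measurable_const hF)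
    refine le_trans (le_of_eq ?_) (hw {t | t ∈ Ioo t0 t1 ∧ ENNReal.ofReal lam < F t} hms
      (fun t ht => ht.1))
    rw [← lintegral_indicator measurableSet_Ioo, ← lintegral_indicator hms]
    refine lintegral_congr fun t => ?_
    by_cases ht : t ∈ Ioo t0 t1
    · rw [indicator_of_mem ht]
      by_cases h2 : ENNReal.ofReal lam < F t
      · rw [if_pos h2, mul_one, indicator_of_mem (show t ∈ {t | t ∈ Ioo t0 t1 ∧
          ENNReal.ofReal lam < F t} from ⟨ht, h2⟩)]
      · rw [if_neg h2, mul_zero, indicator_of_notMem]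
        exact fun h' => h2 h'.2
    · rw [indicator_of_notMem ht, indicator_of_notMem]
      exact fun h' => ht h'.1
  · apply Measurable.aemeasurable
    unfold uncurry
    refine (hh.comp measurable_fst).mul (Measurable.ite ?_ measurable_const measurable_const)
    exact measurableSet_lt (ENNReal.measurable_ofReal.comp measurable_snd) (hF.comp measurable_fst)

/-- Hoelder -/
theorem hoel {t0 t1 β a : ℝ} (hβ : 0 < β) (ha : β ≤ a) {ψ : ℝ → ℝ≥0∞} (hψ : Measurable ψ)
    {G : Set ℝ} (hG : MeasurableSet G) (hGs : G ⊆ Ioo t0 t1) :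
    (∫⁻ s in Ioo t0 t1, (G.indicator ψ s) ^ (1 / a)) ^ a ≤
      (∫⁻ s in Ioo t0 t1, ψ s ^ (1 / β)) ^ β * volume G ^ (a - β) := by
  have ha0 : 0 < a := hβ.trans_le ha
  have h1 : ∫⁻ s in Ioo t0 t1, (G.indicator ψ s) ^ (1 / a) =
      ∫⁻ s in G, (ψ s ^ (1 / β)) ^ (β / a) * (1 : ℝ≥0∞) ^ (1 - β / a) := by
    rw [← lintegral_indicator measurableSet_Ioo, ← lintegral_indicator hG]
    refine lintegral_congr fun s => ?_
    by_cases hs : s ∈ G
    · rw [indicator_of_mem (hGs hs), indicator_of_mem hs, indicator_of_mem hs, ENNReal.one_rpow,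
        mul_one, ← ENNReal.rpow_mul]
      congr 1
      field_simp
    · have h5 : G.indicator ψ s = 0 := indicator_of_notMem hs _
      rw [indicator_of_notMem hs (f := fun s => (ψ s ^ (1 / β)) ^ (β / a) * (1 : ℝ≥0∞) ^ (1 - β / a))]
      by_cases hs' : s ∈ Ioo t0 t1
      · rw [indicator_of_mem hs', h5, ENNReal.zero_rpow_of_pos (by positivity)]
      · rw [indicator_of_notMem hs']
  rw [h1]
  have hb0 : 0 ≤ β / a := by positivity
  have hb1 : β / a ≤ 1 := by rw [div_le_one ha0]; exact ha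
  have h2 := ENNReal.lintegral_mul_norm_pow_le (μ := volume.restrict G)
    (f := fun s => ψ s ^ (1 / β)) (g := fun _ => (1 : ℝ≥0∞))
    (hψ.pow_const _).aemeasurable aemeasurable_const hb0 (sub_nonneg.2 hb1) (by ring)
  have h3 := ENNReal.rpow_le_rpow h2 ha0.le
  refine h3.trans ?_
  rw [ENNReal.mul_rpow_of_nonneg _ _ ha0.le, ← ENNReal.rpow_mul, ← ENNReal.rpow_mul]
  have e1 : β / a * a = β := by field_simp
  have e2 : (1 - β / a) * a = a - β := by field_simp
  rw [e1, e2]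
  have h4 : ∫⁻ _ in G, (1 : ℝ≥0∞) = volume G := by simp
  rw [h4]
  refine mul_le_mul_left ?_ _
  refine ENNReal.rpow_le_rpow ?_ hβ.le
  exact lintegral_mono_set hGs

/-- one of the two bounds -/
theorem bound (h3 : T3) {γ β a : ℝ} (hγ : 1 / 2 < γ) (hγ1 : γ < 1) (hβ : 0 < β) (hβa : β ≤ a)
    (ha1 : a < 1) (haγ : 1 - γ < a) : ∃ C : ℝ, 0 < C ∧ ∀ (t0 t1 : ℝ) (ψ : ℝ → ℝ≥0∞), Measurable ψ →
    ∀ G : Set ℝ, MeasurableSet G → G ⊆ Ioo t0 t1 → ∀ lam : ℝ, 0 < lam →
    volume {t | t ∈ Ioo t0 t1 ∧ ENNReal.ofReal lam < If γ t0 (G.indicator ψ) t} ^ (1 / 2 : ℝ) ≤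
      (ENNReal.ofReal C * ((∫⁻ s in Ioo t0 t1, ψ s ^ (1 / β)) ^ β * volume G ^ (a - β)) /
        ENNReal.ofReal lam) ^ (1 / (2 * (a - (1 - γ)))) := by
  have ha0 : 0 < a := hβ.trans_le hβa
  obtain ⟨C, hC, H⟩ := h3 γ (1 / a) (by linarith) hγ1 (by rw [lt_div_iff₀ ha0]; linarith)
    (by rw [one_div_one_div]; exact haγ)
  refine ⟨C, hC, fun t0 t1 ψ hψ G hG hGs lam hlam => ?_⟩
  have h1 := H t0 t1 (G.indicator ψ) (hψ.indicator hG) (ENNReal.ofReal lam)
    (ENNReal.ofReal_pos.2 hlam) ENNReal.ofReal_lt_top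
  rw [one_div_one_div] at h1
  have hb : 0 < a - (1 - γ) := by linarith
  have h2 : volume {t | t ∈ Ioo t0 t1 ∧ ENNReal.ofReal lam < If γ t0 (G.indicator ψ) t} ^
      (a - (1 - γ)) ≤ ENNReal.ofReal C * ((∫⁻ s in Ioo t0 t1, ψ s ^ (1 / β)) ^ β *
        volume G ^ (a - β)) / ENNReal.ofReal lam := by
    refine h1.trans ?_
    gcongr
    exact hoel hβ hβa hψ hG hGs
  have h4 := ENNReal.rpow_le_rpow h2 (show 0 ≤ 1 / (2 * (a - (1 - γ))) by positivity)
  rw [← ENNReal.rpow_mul] at h4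
  have e1 : (a - (1 - γ)) * (1 / (2 * (a - (1 - γ)))) = 1 / 2 := by field_simp
  rwa [e1] at h4

/-- the exponents -/
theorem expo {n g : ℝ≥0∞} (hn0 : n ≠ 0) (hn : n ≠ ⊤) (hg0 : g ≠ 0) (hg : g ≠ ⊤) {C e u v w : ℝ}
    (he : 0 ≤ e) (hw : u * e + v * (1 - e) = w) :
    (ENNReal.ofReal C * (n * g ^ u)) ^ e * (n * g ^ v) ^ (1 - e) =
      ENNReal.ofReal C ^ e * (n * g ^ w) := by
  have gu0 : ∀ x : ℝ, g ^ x ≠ 0 := fun x h => by
    rcases ENNReal.rpow_eq_zero_iff.1 h with h | h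
    · exact hg0 h.1
    · exact hg h.1
  rw [ENNReal.mul_rpow_of_nonneg _ _ he, ENNReal.mul_rpow_of_nonneg _ _ he,
    ENNReal.mul_rpow_of_ne_zero hn0 (gu0 v), ← ENNReal.rpow_mul, ← ENNReal.rpow_mul, ← hw,
    ENNReal.rpow_add _ _ hg0 hg]
  have h1 : n = n ^ e * n ^ (1 - e) := by
    rw [← ENNReal.rpow_add _ _ hn0 hn]
    norm_num
  conv_rhs => rw [h1]
  ring

theorem t (h3 : T3) (h4 : T4a) : T4 := by
  intro γ β hγ hγ1 hβ hβγ
  obtain ⟨δ, hδ⟩ : ∃ δ : ℝ, δ = min (min (γ - 1 / 2) (3 / 2 - γ - β)) (1 / 2) / 2 := ⟨_, rfl⟩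
  have m1 : min (min (γ - 1 / 2) (3 / 2 - γ - β)) (1 / 2) ≤ γ - 1 / 2 :=
    (min_le_left _ _).trans (min_le_left _ _)
  have m2 : min (min (γ - 1 / 2) (3 / 2 - γ - β)) (1 / 2) ≤ 3 / 2 - γ - β :=
    (min_le_left _ _).trans (min_le_right _ _)
  have m3 : min (min (γ - 1 / 2) (3 / 2 - γ - β)) (1 / 2) ≤ 1 / 2 := min_le_right _ _
  have m0 : 0 < min (min (γ - 1 / 2) (3 / 2 - γ - β)) (1 / 2) :=
    lt_min (lt_min (by linarith) (by linarith)) (by norm_num)
  have hδ0 : 0 < δ := by rw [hδ]; linarith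
  have d1 : δ < γ - 1 / 2 := by linarith
  have d2 : δ < 3 / 2 - γ - β := by linarith
  have d3 : δ < 1 / 2 := by linarith
  clear hδ m1 m2 m3 m0
  obtain ⟨C1, hC1, H1⟩ := bound h3 hγ hγ1 hβ (a := 3 / 2 - γ + δ) (by linarith) (by linarith)
    (by linarith)
  obtain ⟨C2, hC2, H2⟩ := bound h3 hγ hγ1 hβ (a := 3 / 2 - γ - δ) (by linarith) (by linarith)
    (by linarith)
  obtain ⟨e1, he1⟩ : ∃ e : ℝ, e = 1 / (2 * ((3 / 2 - γ + δ) - (1 - γ))) := ⟨_, rfl⟩
  obtain ⟨e2, he2⟩ : ∃ e : ℝ, e = 1 / (2 * ((3 / 2 - γ - δ) - (1 - γ))) := ⟨_, rfl⟩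
  have a1 : (2 * ((3 / 2 - γ + δ) - (1 - γ))) = 1 + 2 * δ := by ring
  have a2 : (2 * ((3 / 2 - γ - δ) - (1 - γ))) = 1 - 2 * δ := by ring
  have e10 : 0 < e1 := by rw [he1, a1]; positivity
  have e11 : e1 < 1 := by rw [he1, a1, div_lt_one (by linarith)]; linarith
  have e20 : 1 < e2 := by rw [he2, a2, one_lt_div (by linarith)]; linarith
  rw [← he1] at H1
  rw [← he2] at H2
  obtain ⟨C3, hC3, H3⟩ := h4 e1 e2 e10 e11 e20
  refine ⟨C3 * (C1 ^ e1 + C2 ^ e2), by positivity, ?_⟩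
  intro t0 t1 h ψ _ hh hψ hw G hG hGs
  obtain ⟨n, hn⟩ : ∃ n, n = (∫⁻ s in Ioo t0 t1, ψ s ^ (1 / β)) ^ β := ⟨_, rfl⟩
  have hgt : volume G ≠ ⊤ := by
    refine ne_top_of_le_ne_top ?_ (measure_mono hGs)
    rw [Real.volume_Ioo]
    exact ENNReal.ofReal_ne_top
  rw [← hn]
  by_cases hg0 : volume G = 0
  · rw [Measure.restrict_eq_zero.2 hg0]
    simp
  by_cases hn0 : n = 0
  · have h5 : ∫⁻ s in Ioo t0 t1, ψ s ^ (1 / β) = 0 := by
      rw [hn] at hn0
      rcases ENNReal.rpow_eq_zero_iff.1 hn0 with h | h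
      · exact h.1
      · exact absurd h.2 (not_lt.2 hβ.le)
    have h6 : ∫⁻ s in G, ψ s ^ (1 / β) = 0 :=
      le_antisymm ((lintegral_mono_set hGs).trans h5.le) bot_le
    rw [lintegral_eq_zero_iff (hψ.pow_const _)] at h6
    have h7 : ∫⁻ s in G, ψ s * Ib γ t1 h s = 0 := by
      rw [lintegral_eq_zero_iff']
      · filter_upwards [h6] with s hs
        have : ψ s = 0 := by
          rcases ENNReal.rpow_eq_zero_iff.1 hs with h | h
          · exact h.1
          · exact absurd h.2 (not_lt.2 (by positivity))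
        show ψ s * _ = 0
        rw [this, zero_mul]
      · refine AEMeasurable.congr (f := fun _ => (0 : ℝ≥0∞)) aemeasurable_const ?_
        filter_upwards [h6] with s hs
        have : ψ s = 0 := by
          rcases ENNReal.rpow_eq_zero_iff.1 hs with h | h
          · exact h.1
          · exact absurd h.2 (not_lt.2 (by positivity))
        rw [this, zero_mul]
    rw [h7]
    exact bot_le
  by_cases hnt : n = ⊤
  · have h5 : volume G ^ (3 / 2 - γ - β) ≠ 0 := by
      intro h6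
      rcases ENNReal.rpow_eq_zero_iff.1 h6 with h | h
      · exact hg0 h.1
      · exact hgt h.1
    rw [hnt, ENNReal.top_mul h5, ENNReal.mul_top]
    · exact le_top
    · rw [Ne, ENNReal.ofReal_eq_zero, not_le]
      positivity
  -- the main case
  have hfm : Measurable (G.indicator ψ) := hψ.indicator hG
  have c1 : ∫⁻ s in G, ψ s * Ib γ t1 h s = ∫⁻ s in Ioo t0 t1, G.indicator ψ s * Ib γ t1 h s := by
    rw [← lintegral_indicator hG, ← lintegral_indicator measurableSet_Ioo]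
    refine lintegral_congr fun s => ?_
    by_cases hs : s ∈ G
    · rw [indicator_of_mem hs, indicator_of_mem (hGs hs), indicator_of_mem hs]
    · rw [indicator_of_notMem hs]
      by_cases hs' : s ∈ Ioo t0 t1
      · rw [indicator_of_mem hs', indicator_of_notMem hs, zero_mul]
      · rw [indicator_of_notMem hs']
  rw [c1, swap γ t0 t1 hfm hh]
  refine (layer (If_meas γ t0 hfm) hh hw).trans ?_
  have gne : ∀ x : ℝ, volume G ^ x ≠ 0 := fun x h => by
    rcases ENNReal.rpow_eq_zero_iff.1 h with h | h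
    · exact hg0 h.1
    · exact hgt h.1
  have gnt : ∀ x : ℝ, volume G ^ x ≠ ⊤ := fun x h => by
    rcases ENNReal.rpow_eq_top_iff.1 h with h | h
    · exact hg0 h.1
    · exact hgt h.1
  have X1 : ENNReal.ofReal C1 * (n * volume G ^ (3 / 2 - γ + δ - β)) < ⊤ :=
    ENNReal.mul_lt_top ENNReal.ofReal_lt_top
      (ENNReal.mul_lt_top (lt_top_iff_ne_top.2 hnt) (lt_top_iff_ne_top.2 (gnt _)))
  have X2 : ENNReal.ofReal C2 * (n * volume G ^ (3 / 2 - γ - δ - β)) < ⊤ :=
    ENNReal.mul_lt_top ENNReal.ofReal_lt_top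
      (ENNReal.mul_lt_top (lt_top_iff_ne_top.2 hnt) (lt_top_iff_ne_top.2 (gnt _)))
  refine (H3 _ _ (n * volume G ^ (3 / 2 - γ - β - 1 / 2)) X1 X2
    (pos_iff_ne_zero.2 (mul_ne_zero hn0 (gne _)))
    (ENNReal.mul_lt_top (lt_top_iff_ne_top.2 hnt) (lt_top_iff_ne_top.2 (gnt _))) _ ?_ ?_).trans ?_
  · intro lam hlam
    have := H1 t0 t1 ψ hψ G hG hGs lam hlam
    rw [← hn] at this
    exact this
  · intro lam hlam
    have := H2 t0 t1 ψ hψ G hG hGs lam hlam
    rw [← hn] at this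
    exact this
  · rw [expo (w := 3 / 2 - γ - β) hn0 hnt hg0 hgt e10.le (by
        have : (1 + 2 * δ) * e1 = 1 := by rw [he1, a1]; field_simp
        nlinarith [this]),
      expo (w := 3 / 2 - γ - β) hn0 hnt hg0 hgt (by linarith) (by
        have : (1 - 2 * δ) * e2 = 1 := by
          rw [he2, a2]
          have : 1 - 2 * δ ≠ 0 := by linarith
          field_simp
        nlinarith [this]), ← add_mul, ← mul_assoc]
    refine le_of_eq ?_
    congr 1
    rw [ENNReal.ofReal_rpow_of_pos hC1, ENNReal.ofReal_rpow_of_pos hC2,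
      ← ENNReal.ofReal_add (by positivity) (by positivity), ← ENNReal.ofReal_mul hC3.le]

end Pool.Agent.H4NI.T4
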