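import Pool.Agent.H4NI.StmT

/-! # Stub T4a of project NCI: splitting an integral -/

set_option autoImplicit false

open MeasureTheory Set Function Filter Topology
open scoped ENNReal

namespace Pool.Agent.H4NI.T4a

theorem pw (X : ℝ≥0∞) {e lam : ℝ} (he : 0 < e) (hl : 0 < lam) :
    (X / ENNReal.ofReal lam) ^ e = X ^ e * ENNReal.ofReal (lam ^ (-e)) := by
  rw [ENNReal.div_rpow_of_nonneg _ _ he.le, ENNReal.ofReal_rpow_of_pos hl, div_eq_mul_inv,
    ← ENNReal.ofReal_inv_of_pos (Real.rpow_pos_of_pos hl e), Real.rpow_neg hl.le]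

theorem part1 {e L : ℝ} (he : 0 < e) (he1 : e < 1) (hL : 0 < L) :
    ∫⁻ lam in Ioc (0 : ℝ) L, ENNReal.ofReal (lam ^ (-e)) = ENNReal.ofReal (L ^ (1 - e) / (1 - e)) := by
  have hint : IntegrableOn (fun lam : ℝ => lam ^ (-e)) (Ioc 0 L) := by
    have := (intervalIntegral.intervalIntegrable_rpow' (a := 0) (b := L) (r := -e) (by linarith))
    rwa [intervalIntegrable_iff_integrableOn_Ioc_of_le hL.le] at this
  rw [← ofReal_integral_eq_lintegral_ofReal hint]
  · congr 1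
    rw [← intervalIntegral.integral_of_le hL.le, integral_rpow (Or.inl (by linarith)),
      Real.zero_rpow (by linarith), sub_zero]
    congr 1
    · congr 1
      ring
    · ring
  · refine (ae_restrict_iff' measurableSet_Ioc).2 (Eventually.of_forall fun lam hlam => ?_)
    exact Real.rpow_nonneg hlam.1.le _

theorem part2 {e L : ℝ} (he : 1 < e) (hL : 0 < L) :
    ∫⁻ lam in Ioi L, ENNReal.ofReal (lam ^ (-e)) = ENNReal.ofReal (L ^ (1 - e) / (e - 1)) := by
  have hint : IntegrableOn (fun lam : ℝ => lam ^ (-e)) (Ioi L) :=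
    integrableOn_Ioi_rpow_of_lt (by linarith) hL
  rw [← ofReal_integral_eq_lintegral_ofReal hint]
  · congr 1
    rw [integral_Ioi_rpow_of_lt (by linarith) hL]
    have h1 : (-e + 1) = -(e - 1) := by ring
    have h2 : (1 - e) = -(e - 1) := by ring
    rw [h1, h2, neg_div_neg_eq]
  · refine (ae_restrict_iff' measurableSet_Ioi).2 (Eventually.of_forall fun lam hlam => ?_)
    exact Real.rpow_nonneg (hL.le.trans (le_of_lt hlam)) _

theorem t : Pool.Agent.H4NI.T4a := by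
  intro e1 e2 h1 h11 h2
  refine ⟨1 / (1 - e1) + 1 / (e2 - 1), by
    have : 0 < 1 - e1 := by linarith
    have : 0 < e2 - 1 := by linarith
    positivity, ?_⟩
  intro X1 X2 Λ hX1 hX2 hΛ hΛt φ hφ1 hφ2
  have hL : 0 < Λ.toReal := ENNReal.toReal_pos hΛ.ne' hΛt.ne
  set L := Λ.toReal with hLdef
  have hΛL : Λ = ENNReal.ofReal L := (ENNReal.ofReal_toReal hΛt.ne).symm
  have hsplit : Ioi (0 : ℝ) = Ioc 0 L ∪ Ioi L := (Ioc_union_Ioi_eq_Ioi hL.le).symm
  have hd1 : 0 < 1 - e1 := by linarith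
  have hd2 : 0 < e2 - 1 := by linarith
  have a1 : ∫⁻ lam in Ioc (0 : ℝ) L, φ lam ≤ X1 ^ e1 * ENNReal.ofReal (L ^ (1 - e1) / (1 - e1)) := by
    calc ∫⁻ lam in Ioc (0 : ℝ) L, φ lam
        ≤ ∫⁻ lam in Ioc (0 : ℝ) L, X1 ^ e1 * ENNReal.ofReal (lam ^ (-e1)) := by
          refine setLIntegral_mono' measurableSet_Ioc fun lam hlam => ?_
          rw [← pw X1 h1 hlam.1]
          exact hφ1 lam hlam.1
      _ = X1 ^ e1 * ∫⁻ lam in Ioc (0 : ℝ) L, ENNReal.ofReal (lam ^ (-e1)) := by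
          rw [lintegral_const_mul']
          exact (ENNReal.rpow_lt_top_of_nonneg h1.le hX1.ne).ne
      _ = _ := by rw [part1 h1 h11 hL]
  have a2 : ∫⁻ lam in Ioi L, φ lam ≤ X2 ^ e2 * ENNReal.ofReal (L ^ (1 - e2) / (e2 - 1)) := by
    calc ∫⁻ lam in Ioi L, φ lam
        ≤ ∫⁻ lam in Ioi L, X2 ^ e2 * ENNReal.ofReal (lam ^ (-e2)) := by
          refine setLIntegral_mono' measurableSet_Ioi fun lam hlam => ?_
          have hlam' : 0 < lam := hL.trans hlam
          rw [← pw X2 (by linarith) hlam']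
          exact hφ2 lam hlam'
      _ = X2 ^ e2 * ∫⁻ lam in Ioi L, ENNReal.ofReal (lam ^ (-e2)) := by
          rw [lintegral_const_mul']
          exact (ENNReal.rpow_lt_top_of_nonneg (by linarith) hX2.ne).ne
      _ = _ := by rw [part2 h2 hL]
  have b1 : ENNReal.ofReal (L ^ (1 - e1) / (1 - e1))
      ≤ ENNReal.ofReal (1 / (1 - e1) + 1 / (e2 - 1)) * Λ ^ (1 - e1) := by
    rw [hΛL, ENNReal.ofReal_rpow_of_pos hL, ← ENNReal.ofReal_mul (by positivity)]
    refine ENNReal.ofReal_le_ofReal ?_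
    have h3 : 0 < L ^ (1 - e1) := Real.rpow_pos_of_pos hL _
    have h4 : 0 < 1 / (e2 - 1) := by positivity
    have h5 : L ^ (1 - e1) / (1 - e1) = 1 / (1 - e1) * L ^ (1 - e1) := by ring
    rw [h5]
    nlinarith
  have b2 : ENNReal.ofReal (L ^ (1 - e2) / (e2 - 1))
      ≤ ENNReal.ofReal (1 / (1 - e1) + 1 / (e2 - 1)) * Λ ^ (1 - e2) := by
    rw [hΛL, ENNReal.ofReal_rpow_of_pos hL, ← ENNReal.ofReal_mul (by positivity)]
    refine ENNReal.ofReal_le_ofReal ?_
    have h3 : 0 < L ^ (1 - e2) := Real.rpow_pos_of_pos hL _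
    have h4 : 0 < 1 / (1 - e1) := by positivity
    have h5 : L ^ (1 - e2) / (e2 - 1) = 1 / (e2 - 1) * L ^ (1 - e2) := by ring
    rw [h5]
    nlinarith
  calc ∫⁻ lam in Ioi (0 : ℝ), φ lam
      ≤ (∫⁻ lam in Ioc (0 : ℝ) L, φ lam) + ∫⁻ lam in Ioi L, φ lam := by
        rw [hsplit]; exact lintegral_union_le _ _ _
    _ ≤ X1 ^ e1 * (ENNReal.ofReal (1 / (1 - e1) + 1 / (e2 - 1)) * Λ ^ (1 - e1))
        + X2 ^ e2 * (ENNReal.ofReal (1 / (1 - e1) + 1 / (e2 - 1)) * Λ ^ (1 - e2)) :=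
        add_le_add (a1.trans (mul_le_mul_right b1 _)) (a2.trans (mul_le_mul_right b2 _))
    _ = _ := by ring

end Pool.Agent.H4NI.T4a
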