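import Pool.Agent.H4NI.StmT

/-!
T5: the Gronwall lemma by duality.
-/

set_option autoImplicit false

open MeasureTheory Set Function Filter Topology
open scoped ENNReal ContDiff

namespace Pool.Agent.H4NI

open H4NC

namespace T5

/-- the region `t0 < s < t < t1`, `p = (t, s)` -/
def Rg (t0 t1 : ℝ) : Set (ℝ × ℝ) := {p | t0 < p.2 ∧ p.2 < p.1 ∧ p.1 < t1}

lemma meas_Rg (t0 t1 : ℝ) : MeasurableSet (Rg t0 t1) :=
  (measurableSet_lt measurable_const measurable_snd).inter
    ((measurableSet_lt measurable_snd measurable_fst).inter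
      (measurableSet_lt measurable_fst measurable_const))

lemma meas_ker (γ : ℝ) : Measurable (fun p : ℝ × ℝ => ENNReal.ofReal ((p.1 - p.2) ^ (-γ))) := by
  have : Measurable (fun p : ℝ × ℝ => (p.1 - p.2) ^ (-γ)) :=
    (measurable_fst.sub measurable_snd).pow_const _
  exact this.ennreal_ofReal

lemma meas_Ib (γ t1 : ℝ) (h : ℝ → ℝ≥0∞) (hh : Measurable h) : Measurable (Ib γ t1 h) := by
  have e : Ib γ t1 h = fun s => ∫⁻ t, ({p : ℝ × ℝ | p.1 < p.2 ∧ p.2 < t1}.indicator
      (fun p : ℝ × ℝ => ENNReal.ofReal ((p.2 - p.1) ^ (-γ)) * h p.2)) (s, t) := by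
    funext s
    unfold Ib
    rw [← lintegral_indicator measurableSet_Ioo]
    refine lintegral_congr fun t => ?_
    by_cases ht : t ∈ Ioo s t1
    · rw [indicator_of_mem ht, indicator_of_mem (show (s, t) ∈ {p : ℝ × ℝ | p.1 < p.2 ∧ p.2 < t1}
        from ht)]
    · rw [indicator_of_notMem ht, indicator_of_notMem
        (show (s, t) ∉ {p : ℝ × ℝ | p.1 < p.2 ∧ p.2 < t1} from ht)]
  rw [e]
  have hk : Measurable (fun p : ℝ × ℝ => ENNReal.ofReal ((p.2 - p.1) ^ (-γ))) :=
    ((measurable_snd.sub measurable_fst).pow_const (-γ)).ennreal_ofReal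
  exact Measurable.lintegral_prod_right' ((hk.mul (hh.comp measurable_snd)).indicator
    ((measurableSet_lt measurable_fst measurable_snd).inter
      (measurableSet_lt measurable_snd measurable_const)))

/-- Tonelli -/
lemma ton (γ t0 t1 : ℝ) (h f : ℝ → ℝ≥0∞) (hh : Measurable h) (hf : Measurable f) :
    ∫⁻ t in Ioo t0 t1, h t * If γ t0 f t = ∫⁻ s in Ioo t0 t1, f s * Ib γ t1 h s := by
  set F : ℝ × ℝ → ℝ≥0∞ := (Rg t0 t1).indicator
    (fun p => h p.1 * (ENNReal.ofReal ((p.1 - p.2) ^ (-γ)) * f p.2)) with hF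
  have mF : Measurable F :=
    ((hh.comp measurable_fst).mul ((meas_ker γ).mul (hf.comp measurable_snd))).indicator
      (meas_Rg t0 t1)
  have mk1 : ∀ t : ℝ, Measurable (fun s : ℝ => ENNReal.ofReal ((t - s) ^ (-γ))) := fun t =>
    ((measurable_const.sub measurable_id).pow_const (-γ)).ennreal_ofReal
  have mk2 : ∀ s : ℝ, Measurable (fun t : ℝ => ENNReal.ofReal ((t - s) ^ (-γ))) := fun t =>
    ((measurable_id.sub measurable_const).pow_const (-γ)).ennreal_ofReal
  have e1 : ∫⁻ t in Ioo t0 t1, h t * If γ t0 f t = ∫⁻ t, ∫⁻ s, F (t, s) := by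
    rw [← lintegral_indicator measurableSet_Ioo]
    refine lintegral_congr fun t => ?_
    by_cases ht : t ∈ Ioo t0 t1
    · rw [indicator_of_mem ht]
      unfold If
      rw [← lintegral_const_mul _ (show Measurable (fun s : ℝ =>
        ENNReal.ofReal ((t - s) ^ (-γ)) * f s) from (mk1 t).mul hf),
        ← lintegral_indicator measurableSet_Ioo]
      refine lintegral_congr fun s => ?_
      by_cases hs : s ∈ Ioo t0 t
      · rw [indicator_of_mem hs, hF, indicator_of_mem
          (show (t, s) ∈ Rg t0 t1 from ⟨hs.1, hs.2, ht.2⟩)]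
      · rw [indicator_of_notMem hs, hF, indicator_of_notMem]
        rintro ⟨h1, h2, h3⟩
        exact hs ⟨h1, h2⟩
    · rw [indicator_of_notMem ht]
      have : ∀ s, F (t, s) = 0 := by
        intro s
        rw [hF, indicator_of_notMem]
        rintro ⟨h1, h2, h3⟩
        exact ht ⟨h1.trans h2, h3⟩
      simp [this]
  have e2 : ∫⁻ s in Ioo t0 t1, f s * Ib γ t1 h s = ∫⁻ s, ∫⁻ t, F (t, s) := by
    rw [← lintegral_indicator measurableSet_Ioo]
    refine lintegral_congr fun s => ?_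
    by_cases hs : s ∈ Ioo t0 t1
    · rw [indicator_of_mem hs]
      unfold Ib
      rw [← lintegral_const_mul _ (show Measurable (fun t : ℝ =>
        ENNReal.ofReal ((t - s) ^ (-γ)) * h t) from (mk2 s).mul hh),
        ← lintegral_indicator measurableSet_Ioo]
      refine lintegral_congr fun t => ?_
      by_cases ht : t ∈ Ioo s t1
      · rw [indicator_of_mem ht, hF, indicator_of_mem
          (show (t, s) ∈ Rg t0 t1 from ⟨hs.1, ht.1, ht.2⟩)]
        ring
      · rw [indicator_of_notMem ht, hF, indicator_of_notMem]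
        rintro ⟨h1, h2, h3⟩
        exact ht ⟨h2, h3⟩
    · rw [indicator_of_notMem hs]
      have : ∀ t, F (t, s) = 0 := by
        intro t
        rw [hF, indicator_of_notMem]
        rintro ⟨h1, h2, h3⟩
        exact hs ⟨h1, h2.trans h3⟩
      simp [this]
  rw [e1, e2]
  exact lintegral_lintegral_swap mF.aemeasurable

/-- layer cake -/
lemma cake (t0 t1 : ℝ) (N : ℝ → ℝ) (g : ℝ → ℝ≥0∞) (hN : Measurable N) (hg : Measurable g) :
    ∫⁻ s in Ioo t0 t1, ENNReal.ofReal (N s) * g s =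
      ∫⁻ lam in Ioi (0 : ℝ), ∫⁻ s in {s | s ∈ Ioo t0 t1 ∧ lam < N s}, g s := by
  set F : ℝ × ℝ → ℝ≥0∞ := {p : ℝ × ℝ | p.2 < N p.1}.indicator (fun p => g p.1) with hF
  have mF : Measurable F := (hg.comp measurable_fst).indicator
    (measurableSet_lt measurable_snd (hN.comp measurable_fst))
  have e1 : ∫⁻ s in Ioo t0 t1, ENNReal.ofReal (N s) * g s =
      ∫⁻ s in Ioo t0 t1, ∫⁻ lam in Ioi (0 : ℝ), F (s, lam) := by
    refine lintegral_congr fun s => ?_
    have : ∀ lam, F (s, lam) = (Iio (N s)).indicator (fun _ => g s) lam := by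
      intro lam
      by_cases hl : lam < N s
      · rw [hF, indicator_of_mem (show (s, lam) ∈ {p : ℝ × ℝ | p.2 < N p.1} from hl),
          indicator_of_mem (show lam ∈ Iio (N s) from hl)]
      · rw [hF, indicator_of_notMem (show (s, lam) ∉ {p : ℝ × ℝ | p.2 < N p.1} from hl),
          indicator_of_notMem (show lam ∉ Iio (N s) from hl)]
    simp_rw [this]
    rw [lintegral_indicator measurableSet_Iio, lintegral_const,
      Measure.restrict_restrict measurableSet_Iio, Measure.restrict_apply MeasurableSet.univ,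
      univ_inter, mul_comm]
    congr 1
    rw [show Iio (N s) ∩ Ioi (0 : ℝ) = Ioo 0 (N s) from by ext x; simp [and_comm],
      Real.volume_Ioo, sub_zero]
  have e2 : ∀ lam : ℝ, ∫⁻ s in {s | s ∈ Ioo t0 t1 ∧ lam < N s}, g s =
      ∫⁻ s in Ioo t0 t1, F (s, lam) := by
    intro lam
    have : ∀ s, F (s, lam) = {s | lam < N s}.indicator g s := by
      intro s
      by_cases hl : lam < N s
      · rw [hF, indicator_of_mem (show (s, lam) ∈ {p : ℝ × ℝ | p.2 < N p.1} from hl),
          indicator_of_mem (show s ∈ {s | lam < N s} from hl)]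
      · rw [hF, indicator_of_notMem (show (s, lam) ∉ {p : ℝ × ℝ | p.2 < N p.1} from hl),
          indicator_of_notMem (show s ∉ {s | lam < N s} from hl)]
    simp_rw [this]
    have hm : MeasurableSet {s | lam < N s} := measurableSet_lt measurable_const hN
    rw [lintegral_indicator hm, Measure.restrict_restrict hm]
    congr 2
    ext x; simp only [mem_ofPred_eq, mem_inter_iff, and_comm]
  rw [e1]
  simp_rw [e2]
  exact lintegral_lintegral_swap (μ := volume.restrict (Ioo t0 t1))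
    (ν := volume.restrict (Ioi (0 : ℝ))) (f := fun s lam => F (s, lam)) mF.aemeasurable

/-- the trial function is in the class -/
lemma trial (hT1 : T1) (t0 t1 : ℝ) :
    Wk2 t0 t1 (fun t => ENNReal.ofReal ((t1 - t) ^ (-(1 / 2) : ℝ)) / 5) := by
  intro G hG hGs
  have h1 := hT1 (1 / 2) (by norm_num) (by norm_num) G hG t1
  have h2 : ∫⁻ t in G, ENNReal.ofReal ((t1 - t) ^ (-(1 / 2) : ℝ)) / 5 =
      (∫⁻ t in G, ENNReal.ofReal (|t - t1| ^ (-(1 / 2) : ℝ))) / 5 := by
    simp_rw [ENNReal.div_eq_inv_mul]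
    rw [lintegral_const_mul' _ _ (by simp)]
    congr 1
    refine setLIntegral_congr_fun hG fun t ht => ?_
    have : t < t1 := (hGs ht).2
    rw [abs_sub_comm, abs_of_pos (by linarith)]
  rw [h2]
  refine ENNReal.div_le_of_le_mul ?_
  refine h1.trans ?_
  rw [show (2 / (1 - 1 / 2) + 1 : ℝ) = 5 by norm_num, mul_comm, show (1 - 1 / 2 : ℝ) = 1 / 2 by
    norm_num]
  simp

/-- absorbing -/
lemma absorb {X Y : ℝ≥0∞} (hY : Y < ⊤) (h : Y ≤ X + Y / 2) : Y ≤ 2 * X := by
  by_cases hX : X = ⊤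
  · rw [hX, ENNReal.mul_top (by norm_num)]; exact le_top
  lift Y to NNReal using hY.ne
  lift X to NNReal using hX
  have h' : Y ≤ X + Y / 2 := by
    have e : ((Y : ℝ≥0∞) / 2) = ((Y / 2 : NNReal) : ℝ≥0∞) := by
      rw [ENNReal.coe_div (by norm_num)]; simp
    rw [e] at h
    exact_mod_cast h
  have h'' : (Y : ℝ) ≤ X + Y / 2 := by exact_mod_cast h'
  have h3 : (Y : ℝ) ≤ 2 * X := by linarith
  exact_mod_cast h3

end T5

theorem T5.t (hT1 : T1) (hT4 : T4) : T5 := by
  intro k r hk hkr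
  have hk0 : (0 : ℝ) < k := by linarith
  have hr0 : (0 : ℝ) < r := by linarith
  have hik : 1 / k < 1 / 2 := one_div_lt_one_div_of_lt (by norm_num) hk
  have hik0 : 0 < 1 / k := by positivity
  have hir0 : 0 < 1 / r := by positivity
  have hirk : 1 / r < 1 / k := one_div_lt_one_div_of_lt hk0 hkr
  obtain ⟨C1, hC1, H1⟩ := hT4 (1 / 2 + 1 / k) (1 / 2 - 1 / k) (by linarith) (by linarith)
    (by linarith) (by linarith)
  obtain ⟨C2, hC2, H2⟩ := hT4 (1 / 2 + 1 / k) (1 / 2 - 1 / k + 1 / r) (by linarith) (by linarith)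
    (by linarith) (by linarith)
  refine ⟨2 * C1 + 10 + 10 * C2, by positivity, ?_⟩
  intro t0 t1 m v ψ N A B htt hB mm mv mψ mN hmB hm hv
  set γ : ℝ := 1 / 2 + 1 / k with hγ
  set V : ℝ≥0∞ := (∫⁻ s in Ioo t0 t1, v s ^ (1 / (1 / 2 - 1 / k))) ^ (1 / 2 - 1 / k) with hV
  set P : ℝ≥0∞ := (∫⁻ s in Ioo t0 t1, ψ s ^ (1 / (1 / 2 - 1 / k + 1 / r))) ^ (1 / 2 - 1 / k + 1 / r)
    with hP
  set L : ℝ≥0∞ := Lz (1 / (1 / 2 - 1 / r)) N t0 t1 with hL
  -- the class
  let Cl : Set (ℝ → ℝ≥0∞) := {h | Measurable h ∧ Wk2 t0 t1 h}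
  set Y : ℝ≥0∞ := ⨆ h ∈ Cl, ∫⁻ t in Ioo t0 t1, h t * m t with hY
  have hvol : volume (Ioo t0 t1) = ENNReal.ofReal (t1 - t0) := Real.volume_Ioo
  have hh1 : ∀ h ∈ Cl, ∫⁻ t in Ioo t0 t1, h t ≤ ENNReal.ofReal (t1 - t0) ^ (1 / 2 : ℝ) := by
    intro h hh
    have := hh.2 (Ioo t0 t1) measurableSet_Ioo subset_rfl
    rwa [hvol] at this
  have hYfin : Y < ⊤ := by
    refine lt_of_le_of_lt (b := B * ENNReal.ofReal (t1 - t0) ^ (1 / 2 : ℝ)) ?_
      (ENNReal.mul_lt_top hB (ENNReal.rpow_lt_top_of_nonneg (by norm_num) ENNReal.ofReal_ne_top))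
    refine iSup₂_le fun h hh => ?_
    calc ∫⁻ t in Ioo t0 t1, h t * m t ≤ ∫⁻ t in Ioo t0 t1, B * h t := by
          refine setLIntegral_mono' measurableSet_Ioo fun t ht => ?_
          rw [mul_comm]
          exact mul_le_mul_left (hmB t ht) _
      _ = B * ∫⁻ t in Ioo t0 t1, h t := lintegral_const_mul _ hh.1
      _ ≤ _ := mul_le_mul_right (hh1 h hh) _
  have hle : ∀ h ∈ Cl, ∫⁻ t in Ioo t0 t1, h t * m t ≤ Y := fun h hh =>
    le_iSup₂ (f := fun (h : ℝ → ℝ≥0∞) (_ : h ∈ Cl) => ∫⁻ t in Ioo t0 t1, h t * m t) h hh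
  -- the main estimate
  have hmain : ∀ h ∈ Cl, ∫⁻ t in Ioo t0 t1, h t * m t ≤
      (A * ENNReal.ofReal (t1 - t0) ^ (1 / 2 : ℝ) + ENNReal.ofReal C2 * (P * L)) + Y / 2 := by
    intro h hh
    have mIb : Measurable (Ib γ t1 h) := T5.meas_Ib γ t1 h hh.1
    have mvm : Measurable (fun s => v s * m s) := mv.mul mm
    have mNp : Measurable (fun s => ENNReal.ofReal (N s) * ψ s) := mN.ennreal_ofReal.mul mψ
    have mIf : ∀ f : ℝ → ℝ≥0∞, Measurable f → Measurable (If γ t0 f) := by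
      intro f hf
      have e : If γ t0 f = fun t => ∫⁻ s, ({p : ℝ × ℝ | t0 < p.2 ∧ p.2 < p.1}.indicator
          (fun p : ℝ × ℝ => ENNReal.ofReal ((p.1 - p.2) ^ (-γ)) * f p.2)) (t, s) := by
        funext s
        unfold If
        rw [← lintegral_indicator measurableSet_Ioo]
        refine lintegral_congr fun t => ?_
        by_cases ht : t ∈ Ioo t0 s
        · rw [indicator_of_mem ht, indicator_of_mem
            (show (s, t) ∈ {p : ℝ × ℝ | t0 < p.2 ∧ p.2 < p.1} from ht)]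
        · rw [indicator_of_notMem ht, indicator_of_notMem
            (show (s, t) ∉ {p : ℝ × ℝ | t0 < p.2 ∧ p.2 < p.1} from ht)]
      rw [e]
      exact Measurable.lintegral_prod_right' (((T5.meas_ker γ).mul
        (hf.comp measurable_snd)).indicator
        ((measurableSet_lt measurable_const measurable_snd).inter
          (measurableSet_lt measurable_snd measurable_fst)))
    -- three terms
    have s1 : ∫⁻ t in Ioo t0 t1, h t * m t ≤ ∫⁻ t in Ioo t0 t1, ((A * h t +
        h t * If γ t0 (fun s => v s * m s) t) +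
          h t * If γ t0 (fun s => ENNReal.ofReal (N s) * ψ s) t) := by
      refine setLIntegral_mono' measurableSet_Ioo fun t ht => ?_
      calc h t * m t ≤ h t * (A + If γ t0 (fun s => v s * m s) t
            + If γ t0 (fun s => ENNReal.ofReal (N s) * ψ s) t) := mul_le_mul_right (hm t ht) _
        _ = _ := by ring
    have s2 : ∫⁻ t in Ioo t0 t1, ((A * h t + h t * If γ t0 (fun s => v s * m s) t) +
          h t * If γ t0 (fun s => ENNReal.ofReal (N s) * ψ s) t) =
        A * (∫⁻ t in Ioo t0 t1, h t) + (∫⁻ t in Ioo t0 t1, h t * If γ t0 (fun s => v s * m s) t)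
          + ∫⁻ t in Ioo t0 t1, h t * If γ t0 (fun s => ENNReal.ofReal (N s) * ψ s) t := by
      have m1 : Measurable (fun t => A * h t) := hh.1.const_mul A
      have m2 : Measurable (fun t => h t * If γ t0 (fun s => v s * m s) t) :=
        hh.1.mul (mIf _ mvm)
      have m3 : Measurable (fun t => A * h t + h t * If γ t0 (fun s => v s * m s) t) := m1.add m2
      rw [lintegral_add_left m3, lintegral_add_left m1, lintegral_const_mul _ hh.1]
    have s3 : A * ∫⁻ t in Ioo t0 t1, h t ≤ A * ENNReal.ofReal (t1 - t0) ^ (1 / 2 : ℝ) :=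
      mul_le_mul_right (hh1 h hh) _
    have s4 : ∫⁻ t in Ioo t0 t1, h t * If γ t0 (fun s => v s * m s) t ≤ Y / 2 := by
      rw [T5.ton γ t0 t1 h _ hh.1 mvm]
      have hcl : (fun s => 2 * (v s * Ib γ t1 h s)) ∈ Cl := by
        refine ⟨(mv.mul mIb).const_mul 2, ?_⟩
        intro G hG hGs
        rw [lintegral_const_mul _ (show Measurable (fun s => v s * Ib γ t1 h s) from mv.mul mIb)]
        have h1 := H1 t0 t1 h v htt hh.1 mv hh.2 G hG hGs
        rw [show (3 / 2 - γ - (1 / 2 - 1 / k) : ℝ) = 1 / 2 by rw [hγ]; ring] at h1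
        calc 2 * ∫⁻ s in G, v s * Ib γ t1 h s
            ≤ 2 * (ENNReal.ofReal C1 * (V * volume G ^ (1 / 2 : ℝ))) := mul_le_mul_right h1 _
          _ = (ENNReal.ofReal (2 * C1) * V) * volume G ^ (1 / 2 : ℝ) := by
              rw [ENNReal.ofReal_mul (by norm_num), show ENNReal.ofReal 2 = 2 by simp]; ring
          _ ≤ 1 * volume G ^ (1 / 2 : ℝ) := by
              refine mul_le_mul_left (le_trans (mul_le_mul_left (ENNReal.ofReal_le_ofReal ?_) _)
                hv) _
              linarith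
          _ = _ := one_mul _
      have h2 := hle _ hcl
      rw [ENNReal.le_div_iff_mul_le (Or.inl (by norm_num)) (Or.inl (by norm_num))]
      calc (∫⁻ s in Ioo t0 t1, v s * m s * Ib γ t1 h s) * 2
          = ∫⁻ s in Ioo t0 t1, 2 * (v s * Ib γ t1 h s) * m s := by
            rw [← lintegral_mul_const _ (show Measurable (fun s => v s * m s * Ib γ t1 h s) from
              mvm.mul mIb)]
            exact lintegral_congr fun s => by ring
        _ ≤ Y := h2
    have s5 : ∫⁻ t in Ioo t0 t1, h t * If γ t0 (fun s => ENNReal.ofReal (N s) * ψ s) t ≤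
        ENNReal.ofReal C2 * (P * L) := by
      rw [T5.ton γ t0 t1 h _ hh.1 mNp]
      have h3 : ∫⁻ s in Ioo t0 t1, ENNReal.ofReal (N s) * ψ s * Ib γ t1 h s =
          ∫⁻ s in Ioo t0 t1, ENNReal.ofReal (N s) * (ψ s * Ib γ t1 h s) :=
        lintegral_congr fun s => mul_assoc _ _ _
      rw [h3, T5.cake t0 t1 N (fun s => ψ s * Ib γ t1 h s) mN (mψ.mul mIb)]
      have h4 : ∀ lam : ℝ, ∫⁻ s in {s | s ∈ Ioo t0 t1 ∧ lam < N s}, ψ s * Ib γ t1 h s ≤
          ENNReal.ofReal C2 * P *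
            volume {s | s ∈ Ioo t0 t1 ∧ lam < N s} ^ (1 / (1 / (1 / 2 - 1 / r))) := by
        intro lam
        have h5 := H2 t0 t1 h ψ htt hh.1 mψ hh.2 {s | s ∈ Ioo t0 t1 ∧ lam < N s}
          (measurableSet_Ioo.inter (measurableSet_lt measurable_const mN)) (fun x hx => hx.1)
        rw [show (3 / 2 - γ - (1 / 2 - 1 / k + 1 / r) : ℝ) =
          1 / (1 / (1 / 2 - 1 / r)) by rw [one_div_one_div, hγ]; ring, ← mul_assoc] at h5
        exact h5
      calc ∫⁻ lam in Ioi (0 : ℝ), ∫⁻ s in {s | s ∈ Ioo t0 t1 ∧ lam < N s}, ψ s * Ib γ t1 h s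
          ≤ ∫⁻ lam in Ioi (0 : ℝ), ENNReal.ofReal C2 * P *
            volume {s | s ∈ Ioo t0 t1 ∧ lam < N s} ^ (1 / (1 / (1 / 2 - 1 / r))) :=
            lintegral_mono fun lam => h4 lam
        _ ≤ ENNReal.ofReal C2 * P * L := by
            rw [lintegral_const_mul _ ?_, hL]
            · rfl
            · have hanti : Antitone (fun lam : ℝ => volume {s | s ∈ Ioo t0 t1 ∧ lam < N s}) := by
                intro a b hab
                exact measure_mono fun x hx => ⟨hx.1, lt_of_le_of_lt hab hx.2⟩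
              exact hanti.measurable.pow_const _
        _ = _ := mul_assoc _ _ _
    calc ∫⁻ t in Ioo t0 t1, h t * m t ≤ _ := s1
      _ = _ := s2
      _ ≤ A * ENNReal.ofReal (t1 - t0) ^ (1 / 2 : ℝ) + Y / 2 + ENNReal.ofReal C2 * (P * L) :=
          add_le_add (add_le_add s3 s4) s5
      _ = _ := by ring
  have hYle : Y ≤ (A * ENNReal.ofReal (t1 - t0) ^ (1 / 2 : ℝ) + ENNReal.ofReal C2 * (P * L)) +
      Y / 2 := iSup₂_le fun h hh => hmain h hh
  have hY2 := T5.absorb hYfin hYle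
  -- the trial function
  have htr : (fun t => ENNReal.ofReal ((t1 - t) ^ (-(1 / 2) : ℝ)) / 5) ∈ Cl := by
    refine ⟨?_, T5.trial hT1 t0 t1⟩
    exact ((measurable_const.sub measurable_id).pow_const _).ennreal_ofReal.div_const _
  have h6 := (hle _ htr).trans hY2
  have h7 : ∫⁻ t in Ioo t0 t1, ENNReal.ofReal ((t1 - t) ^ (-(1 / 2) : ℝ)) * m t =
      5 * ∫⁻ t in Ioo t0 t1, ENNReal.ofReal ((t1 - t) ^ (-(1 / 2) : ℝ)) / 5 * m t := by
    rw [← lintegral_const_mul' _ _ (by norm_num)]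
    refine lintegral_congr fun t => ?_
    rw [← mul_assoc, ENNReal.mul_div_cancel (by norm_num) (by norm_num)]
  rw [h7]
  calc 5 * ∫⁻ t in Ioo t0 t1, ENNReal.ofReal ((t1 - t) ^ (-(1 / 2) : ℝ)) / 5 * m t
      ≤ 5 * (2 * (A * ENNReal.ofReal (t1 - t0) ^ (1 / 2 : ℝ) + ENNReal.ofReal C2 * (P * L))) :=
        mul_le_mul_right h6 _
    _ = 10 * (A * ENNReal.ofReal (t1 - t0) ^ (1 / 2 : ℝ)) +
        ENNReal.ofReal (10 * C2) * (P * L) := by
        rw [ENNReal.ofReal_mul (by norm_num), show ENNReal.ofReal 10 = 10 by simp]; ring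
    _ ≤ ENNReal.ofReal (2 * C1 + 10 + 10 * C2) * (A * ENNReal.ofReal (t1 - t0) ^ (1 / 2 : ℝ)) +
        ENNReal.ofReal (2 * C1 + 10 + 10 * C2) * (P * L) := by
        refine add_le_add (mul_le_mul_left ?_ _) (mul_le_mul_left ?_ _)
        · rw [show (10 : ℝ≥0∞) = ENNReal.ofReal 10 by simp]
          exact ENNReal.ofReal_le_ofReal (by linarith)
        · exact ENNReal.ofReal_le_ofReal (by linarith)
    _ = _ := by rw [mul_add]

end Pool.Agent.H4NI
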