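import Pool.Agent.H4NI.StmT

/-!
# Project NCI: the stub T6, smallness near the final time
-/

set_option autoImplicit false

open MeasureTheory Set Function Filter Topology
open scoped ENNReal ContDiff

namespace Pool.Agent.H4NI.T6

open H4NC

theorem Lz_mono {s t0 t1 T : ℝ} (N : ℝ → ℝ) (hs : 0 ≤ 1 / s) (h0 : 0 ≤ t0) (h1 : t1 ≤ T) :
    Lz s N t0 t1 ≤ Lz s N 0 T := by
  unfold Lz
  refine lintegral_mono fun lam => ENNReal.rpow_le_rpow (measure_mono fun t ht => ?_) hs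
  exact ⟨⟨h0.trans_lt ht.1.1, ht.1.2.trans_le h1⟩, ht.2⟩

theorem tail (f : ℝ → ℝ≥0∞) (T : ℝ) (hT : 0 < T) (hf : ∫⁻ t in Ioo 0 T, f t ≠ ⊤) :
    Tendsto (fun ta => ∫⁻ t in Ioo ta T, f t) (𝓝[<] T) (𝓝 0) := by
  have h1 : Tendsto (fun ta => ∫⁻ t in Ioo ta T, f t ∂(volume.restrict (Ioo 0 T))) (𝓝[<] T) (𝓝 0) := by
    refine tendsto_setLIntegral_zero hf ?_
    have h2 : Tendsto (fun ta : ℝ => ENNReal.ofReal (T - ta)) (𝓝[<] T) (𝓝 0) := by
      have h3 : Tendsto (fun ta : ℝ => T - ta) (𝓝 T) (𝓝 (T - T)) :=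
        (continuous_const.sub continuous_id).tendsto T
      rw [sub_self] at h3
      have := (ENNReal.continuous_ofReal.tendsto 0).comp h3
      rw [ENNReal.ofReal_zero] at this
      exact this.mono_left nhdsWithin_le_nhds
    refine tendsto_of_tendsto_of_tendsto_of_le_of_le tendsto_const_nhds h2 (fun _ => zero_le) fun ta => ?_
    exact (Measure.restrict_apply_le _ _).trans (by rw [Real.volume_Ioo])
  refine h1.congr' ?_
  filter_upwards [Ioo_mem_nhdsLT hT] with ta hta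
  rw [Measure.restrict_restrict measurableSet_Ioo,
    inter_eq_self_of_subset_left (Ioo_subset_Ioo_left hta.1.le)]

theorem tailp (f : ℝ → ℝ≥0∞) (T e : ℝ) (K : ℝ≥0∞) (hT : 0 < T) (he : 0 < e) (hK : K ≠ ⊤)
    (hf : ∫⁻ t in Ioo 0 T, f t ≠ ⊤) :
    Tendsto (fun ta => K * (∫⁻ t in Ioo ta T, f t) ^ e) (𝓝[<] T) (𝓝 0) := by
  have h1 := ((ENNReal.continuous_rpow_const (y := e)).tendsto 0).comp (tail f T hT hf)
  rw [ENNReal.zero_rpow_of_pos he] at h1
  have h2 := ENNReal.Tendsto.const_mul (a := K) h1 (Or.inr hK)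
  rwa [mul_zero] at h2

theorem log_int {ta t1 T : ℝ} (h1 : ta < t1) (h2 : t1 < T) :
    ∫⁻ t in Ioo ta t1, ENNReal.ofReal ((T - t)⁻¹) = ENNReal.ofReal (Real.log ((T - ta) / (T - t1))) := by
  have hc : ContinuousOn (fun t : ℝ => (T - t)⁻¹) (Icc ta t1) := by
    refine ContinuousOn.inv₀ (by fun_prop) fun t ht => ?_
    have := ht.2
    linarith
  have hi : IntegrableOn (fun t : ℝ => (T - t)⁻¹) (Ioo ta t1) :=
    (hc.integrableOn_Icc).mono_set Ioo_subset_Icc_self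
  rw [← ofReal_integral_eq_lintegral_ofReal hi]
  · congr 1
    rw [← integral_Ioc_eq_integral_Ioo, ← intervalIntegral.integral_of_le h1.le,
      intervalIntegral.integral_comp_sub_left (fun x : ℝ => x⁻¹) T,
      integral_inv_of_pos (by linarith) (by linarith)]
  · rw [EventuallyLE, ae_restrict_iff' measurableSet_Ioo]
    refine ae_of_all _ fun t ht => ?_
    have := ht.2
    exact inv_nonneg.2 (by linarith)

theorem t (h5 : T5) : T6 := by
  intro k r hk hkr T m v ψ N hT hm hv hψ hN hB hI hvf hψf hL ε hε tm htm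
  obtain ⟨C, hC, h5⟩ := h5 k r hk hkr
  have hk0 : 0 < k := by linarith
  have hr0 : 0 < r := by linarith
  have he1 : 0 < 1 / 2 - 1 / k := by
    have : 1 / k < 1 / 2 := one_div_lt_one_div_of_lt (by norm_num) hk
    linarith
  have he2 : 0 < 1 / 2 - 1 / k + 1 / r := by positivity
  have he3 : 0 ≤ 1 / (1 / (1 / 2 - 1 / r)) := by
    have : 1 / r < 1 / 2 := one_div_lt_one_div_of_lt (by norm_num) (hk.trans hkr)
    have : 0 < 1 / 2 - 1 / r := by linarith
    positivity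
  -- reduce to finite ε
  set δ : ℝ≥0∞ := min ε 1 / 2 with hδ
  have hδ0 : 0 < δ := ENNReal.div_pos (lt_min hε one_pos).ne' (by norm_num)
  have hδt : δ ≠ ⊤ := ENNReal.div_ne_top (ne_top_of_le_ne_top ENNReal.one_ne_top (min_le_right _ _)) (by norm_num)
  have hδε : δ + δ ≤ ε := by
    rw [hδ, ENNReal.add_halves]
    exact min_le_left _ _
  -- the point ta
  have e1 := (tailp _ T _ (ENNReal.ofReal C) hT he1 ENNReal.ofReal_ne_top hvf).eventually
    (ge_mem_nhds (zero_lt_one (α := ℝ≥0∞)))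
  have e2 := (tailp _ T _ (ENNReal.ofReal C * Lz (1 / (1 / 2 - 1 / r)) N 0 T) hT he2
    (ENNReal.mul_ne_top ENNReal.ofReal_ne_top hL) hψf).eventually (ge_mem_nhds hδ0)
  have e3 : ∀ᶠ ta in 𝓝[<] T, ta ∈ Ioo (max tm 0) T := Ioo_mem_nhdsLT (max_lt htm hT)
  obtain ⟨ta, ⟨hv1, hψ1⟩, hta⟩ := ((e1.and e2).and e3).exists
  have hta0 : 0 < ta := (le_max_right _ _).trans_lt hta.1
  have htam : tm < ta := (le_max_left _ _).trans_lt hta.1
  have htaT := hta.2
  -- the main inequality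
  have hK : ∀ t0 t1 : ℝ, ta ≤ t0 → t0 < t1 → t1 < T →
      ∫⁻ t in Ioo t0 t1, ENNReal.ofReal ((t1 - t) ^ (-(1 / 2) : ℝ)) * m t ≤
        ENNReal.ofReal C * (m t0 * ENNReal.ofReal (T - t0) ^ (1 / 2 : ℝ)) + δ := by
    intro t0 t1 h0 h01 h1
    obtain ⟨B, hBt, hB⟩ := hB t0 t1 (by linarith) h01 h1
    have hsub : Ioo t0 t1 ⊆ Ioo ta T := Ioo_subset_Ioo h0 h1.le
    have a1 := h5 t0 t1 m v ψ N (m t0) B h01 hBt hm hv hψ hN (fun t ht => hB t ⟨ht.1.le, ht.2.le⟩)
      (fun t ht => hI t0 t (by linarith) ht.1 (ht.2.trans h1)) (le_trans (by gcongr) hv1)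
    refine a1.trans ?_
    rw [mul_add]
    refine add_le_add ?_ ?_
    · gcongr
    · refine le_trans ?_ hψ1
      calc ENNReal.ofReal C * ((∫⁻ s in Ioo t0 t1, ψ s ^ (1 / (1 / 2 - 1 / k + 1 / r))) ^ (1 / 2 - 1 / k + 1 / r)
            * Lz (1 / (1 / 2 - 1 / r)) N t0 t1) ≤
          ENNReal.ofReal C * ((∫⁻ s in Ioo ta T, ψ s ^ (1 / (1 / 2 - 1 / k + 1 / r))) ^ (1 / 2 - 1 / k + 1 / r)
            * Lz (1 / (1 / 2 - 1 / r)) N 0 T) := by
            gcongr
            exact Lz_mono N he3 (by linarith) h1.le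
        _ = _ := by ring
  -- a good time
  have hgood : ∃ t0 ∈ Ioo ta T, ENNReal.ofReal C * (m t0 * ENNReal.ofReal (T - t0) ^ (1 / 2 : ℝ)) ≤ δ := by
    by_contra hcon
    push Not at hcon
    obtain ⟨Ba, hBat, hBa⟩ := hB ta ((ta + T) / 2) hta0 (by linarith) (by linarith)
    have hma : m ta ≠ ⊤ := ne_top_of_le_ne_top hBat.ne (hBa ta ⟨le_rfl, by linarith⟩)
    set Kb : ℝ≥0∞ := ENNReal.ofReal C * (m ta * ENNReal.ofReal (T - ta) ^ (1 / 2 : ℝ)) + δ with hKb
    have hKbt : Kb ≠ ⊤ := by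
      rw [hKb]
      refine ENNReal.add_ne_top.2 ⟨ENNReal.mul_ne_top ENNReal.ofReal_ne_top (ENNReal.mul_ne_top hma ?_), hδt⟩
      exact ENNReal.rpow_ne_top_of_nonneg (by norm_num) ENNReal.ofReal_ne_top
    set c : ℝ≥0∞ := δ / ENNReal.ofReal C with hc
    have hCe : ENNReal.ofReal C ≠ 0 := (ENNReal.ofReal_pos.2 hC).ne'
    have hc0 : c ≠ 0 := (ENNReal.div_pos hδ0.ne' ENNReal.ofReal_ne_top).ne'
    have hct : c ≠ ⊤ := ENNReal.div_ne_top hδt hCe
    -- lower bound for m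
    have hml : ∀ t ∈ Ioo ta T, c * ENNReal.ofReal ((T - t) ^ (-(1 / 2) : ℝ)) ≤ m t := by
      intro t ht
      have hTt : 0 < T - t := by linarith [ht.2]
      have h1 := (hcon t ht).le
      have h2 : ENNReal.ofReal ((T - t) ^ (-(1 / 2) : ℝ)) * ENNReal.ofReal (T - t) ^ (1 / 2 : ℝ) = 1 := by
        rw [ENNReal.ofReal_rpow_of_pos hTt, ← ENNReal.ofReal_mul (by positivity), ← Real.rpow_add hTt]
        norm_num
      calc c * ENNReal.ofReal ((T - t) ^ (-(1 / 2) : ℝ)) ≤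
          (ENNReal.ofReal C * (m t * ENNReal.ofReal (T - t) ^ (1 / 2 : ℝ)) / ENNReal.ofReal C) *
            ENNReal.ofReal ((T - t) ^ (-(1 / 2) : ℝ)) := by
            rw [hc]
            gcongr
        _ = (m t * ENNReal.ofReal (T - t) ^ (1 / 2 : ℝ)) * ENNReal.ofReal ((T - t) ^ (-(1 / 2) : ℝ)) := by
            rw [mul_comm (ENNReal.ofReal C), ENNReal.mul_div_cancel_right hCe ENNReal.ofReal_ne_top]
        _ = m t * (ENNReal.ofReal ((T - t) ^ (-(1 / 2) : ℝ)) * ENNReal.ofReal (T - t) ^ (1 / 2 : ℝ)) := by ring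
        _ = m t := by rw [h2, mul_one]
    -- the logarithm
    have hlog : ∀ t1 ∈ Ioo ta T, c * ENNReal.ofReal (Real.log ((T - ta) / (T - t1))) ≤ Kb := by
      intro t1 ht1
      rw [← log_int ht1.1 ht1.2, ← lintegral_const_mul' _ _ hct]
      refine le_trans ?_ (hK ta t1 le_rfl ht1.1 ht1.2)
      refine setLIntegral_mono' measurableSet_Ioo fun t ht => ?_
      have hTt : 0 < T - t := by linarith [ht.2, ht1.2]
      have ht1t : 0 < t1 - t := by linarith [ht.2]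
      have h1 : (T - t)⁻¹ = (T - t) ^ (-(1 / 2) : ℝ) * (T - t) ^ (-(1 / 2) : ℝ) := by
        rw [← Real.rpow_add hTt, ← Real.rpow_neg_one]
        norm_num
      calc c * ENNReal.ofReal ((T - t)⁻¹) = ENNReal.ofReal ((T - t) ^ (-(1 / 2) : ℝ)) *
            (c * ENNReal.ofReal ((T - t) ^ (-(1 / 2) : ℝ))) := by
            rw [h1, ENNReal.ofReal_mul (by positivity)]
            ring
        _ ≤ ENNReal.ofReal ((t1 - t) ^ (-(1 / 2) : ℝ)) * m t := by
            refine mul_le_mul' (ENNReal.ofReal_le_ofReal ?_) (hml t ⟨ht.1, ht.2.trans ht1.2⟩)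
            exact Real.rpow_le_rpow_of_nonpos ht1t (by linarith [ht1.2]) (by norm_num)
    obtain ⟨n, hn⟩ := ENNReal.exists_nat_gt (ENNReal.div_ne_top hKbt hc0)
    have hn0 : 0 < n := by
      rcases Nat.eq_zero_or_pos n with h | h
      · rw [h, Nat.cast_zero] at hn
        exact absurd hn (not_lt.2 zero_le)
      · exact h
    have hTa : 0 < T - ta := by linarith
    have hexp : Real.exp (-(n : ℝ)) < 1 := by
      rw [Real.exp_lt_one_iff]
      have : (0 : ℝ) < n := by exact_mod_cast hn0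
      linarith
    have hexp0 := Real.exp_pos (-(n : ℝ))
    have h1 := hlog (T - (T - ta) * Real.exp (-(n : ℝ))) ⟨by nlinarith, by nlinarith⟩
    have h2 : (T - ta) / (T - (T - (T - ta) * Real.exp (-(n : ℝ)))) = Real.exp n := by
      rw [sub_sub_cancel, Real.exp_neg]
      field_simp
    rw [h2, Real.log_exp, ENNReal.ofReal_natCast] at h1
    rw [ENNReal.div_lt_iff (Or.inl hc0) (Or.inl hct), mul_comm] at hn
    exact absurd hn (not_lt.2 h1)
  obtain ⟨t0, ht0, hg⟩ := hgood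
  refine ⟨t0, htam.trans ht0.1, hta0.trans ht0.1, ht0.2, fun t1 ht1 => ?_⟩
  exact (hK t0 t1 ht0.1.le ht1.1 ht1.2).trans ((add_le_add hg le_rfl).trans hδε)

end Pool.Agent.H4NI.T6
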