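import Pool.Agent.H4NC.All
import Pool.Agent.H4NI.FinI
import Pool.Agent.H4NI.G0
import Pool.Agent.H4NI.G1
import Pool.Agent.H4NI.G2
import Pool.Agent.H4NI.G3
import Pool.Agent.H4NI.G4
import Pool.Agent.H4NI.G5
import Pool.Agent.H4NI.G6
import Pool.Agent.H4NI.I1
import Pool.Agent.H4NI.I12
import Pool.Agent.H4NI.I5
import Pool.Agent.H4NI.I6
import Pool.Agent.H4NI.I8
import Pool.Agent.H4NI.IF3
import Pool.Agent.H4NI.IK
import Pool.Agent.H4NI.IR4
import Pool.Agent.H4NI.IS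
import Pool.Agent.H4NI.IV2
import Pool.Agent.H4NI.N1
import Pool.Agent.H4NI.N2
import Pool.Agent.H4NI.N3
import Pool.Agent.H4NI.N4
import Pool.Agent.H4NI.N5
import Pool.Agent.H4NI.N6
import Pool.Agent.H4NI.N7
import Pool.Agent.H4NI.T1
import Pool.Agent.H4NI.T2
import Pool.Agent.H4NI.T3
import Pool.Agent.H4NI.T4
import Pool.Agent.H4NI.T4a
import Pool.Agent.H4NI.T5
import Pool.Agent.H4NI.T6

/-!
Project NCI: the end of the proof.
-/

set_option autoImplicit false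

namespace Pool.Agent.H4NI

open H4NC

theorem g4 : G4 := G4.t G0.t (G1.t G0.t) (G2.t G0.t) (G3.t G0.t)

theorem t4 : T4 := T4.t (T3.t T2.t) T4a.t

theorem t6 : T6 := T6.t (T5.t T1.t t4)

theorem n1 : N1 := N1.t B2.t

theorem n5 : N5 := N5.t G0.t g4 (G6.t G0.t G5.t) (N2.t n1) (N3.t n1) N4.t

theorem n7 : N7 := N7.t t6 n5 N6.t

theorem i1 : I1 := I1.t

theorem ik : IK :=
  IK.t I12.t b0 (I5.t i1 B3.t) (I6.t i1 b2v b0) (I8.t b0 i1 b2v) (B9.t A2.t b0)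

theorem is : IS := IS.t ik N6.t n7 A7.t A8.t A9.t (E1.t A1.t) LB.t b0

theorem if3 : IF3 := IF3.t (IV2.t B2.t) IR4.t

end Pool.Agent.H4NI
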