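import Pool.Agent.H4LA.Clo
import Pool.Agent.H4LA.En3
import Pool.Agent.H4NC.SUP
import Pool.Agent.H4NI.StmN

/-!
Project NCI: the bound for the slice energies near the time `T`.
-/

set_option autoImplicit false
set_option linter.unusedVariables false

open MeasureTheory Set Function Filter Topology
open scoped ENNReal ContDiff

namespace Pool.Agent.H4NI

open H459R3.NS H4LA H4NC

namespace IS

variable {ν T : ℝ} {u : ℝ → V → V} {p : ℝ → V → ℝ}

/-- The integral in time. -/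
theorem step (h : IsSol ν T u p) (hν : 0 < ν) {r C C0 C1 C2 κ : ℝ}
    (hκ : 0 < κ) (hE1 : E1) (hC0 : 0 ≤ C) {N m : ℝ → ℝ}
    {t0 : ℝ} (ht0 : 0 < t0) (hT0 : T - t0 ≤ 1 / 2)
    (hrate : ∀ τ z D : ℝ, 0 < τ → τ ≤ 1 → 1 ≤ D → ∀ t ∈ Ico t0 T,
      (∀ x, Hz (vsq (fun i y => u t y i)) x ≤ D) →
      -(∫ x in cube, wt κ τ (x 2 - z) * vsq (ww (fun i y => u t y i)) x)
        + 2 * ∫ x in cube, wk κ τ (x 2 - z) * ∑ i, ww (fun i y => u t y i) i x
          * sb (fun i => dt (fun s y => u s y i) t) i x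
      ≤ C * (1 + ysq (fun i y => u t y i))
        + C * (D * (1 + m t * τ ^ (-(1 / 2) : ℝ) + N t * τ ^ (-(1 / 2 + 1 / r))
        + N t ^ (1 / (1 / 2 - 1 / r)))))
    (hi0 : ∀ t t1 : ℝ, t ≤ t1 → t0 ≤ t → t < T →
      IntegrableOn (fun x => (t1 - x) ^ (-(1 / 2) : ℝ) * m x) (Ioo t0 t) ∧
      ∫ x in Ioo t0 t, (t1 - x) ^ (-(1 / 2) : ℝ) * m x ≤ C0)
    (hi1 : ∀ t t1 : ℝ, t ≤ t1 → t ≤ T →
      IntegrableOn (fun x => (t1 - x) ^ (-(1 / 2 + 1 / r)) * N x) (Ioo t0 t) ∧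
      ∫ x in Ioo t0 t, (t1 - x) ^ (-(1 / 2 + 1 / r)) * N x ≤ C1)
    (hi2 : ∀ t : ℝ, t ≤ T → IntegrableOn (fun x => N x ^ (1 / (1 / 2 - 1 / r))) (Ioo t0 t) ∧
      ∫ x in Ioo t0 t, N x ^ (1 / (1 / 2 - 1 / r)) ≤ C2)
    {t : ℝ} (ht : t ∈ Ico t0 T) {D : ℝ} (hD1 : 1 ≤ D)
    (hD : ∀ s ∈ Icc t0 t, ∀ x, Hz (vsq (fun i y => u s y i)) x ≤ D) (z : ℝ) {δ : ℝ} (hδ : 0 < δ)
    (hδ1 : δ < 1 / 2) :
    ∫ x in cube, wk κ δ (x 2 - z) * vsq (ww (fun i y => u t y i)) x
      ≤ (∫ x in cube, wk κ (t + δ - t0) (x 2 - z) * vsq (ww (fun i y => u t0 y i)) x)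
        + C * (T + energy (u 0) / (2 * ν))
        + C * (D * (T - t0 + C0 + C1 + C2)) := by
  have hT : 0 < T := ht0.trans_le (ht.1.trans ht.2.le)
  set y : ℝ → ℝ := fun t => ysq (fun i y => u t y i) with hy
  have y0 : ∀ t, 0 ≤ y t := fun t => ysq_nonneg _
  have cy : ContinuousOn y (Ico 0 T) := h.enstrophy_continuousOn
  have hyD : ∀ t ∈ Ico 0 T, ∫ s in (0 : ℝ)..t, y s ≤ energy (u 0) / (2 * ν) := fun t ht =>
    h.int_enstrophy hν ht
  set θ1 : ℝ := -(1 / 2 + 1 / r) with hθ1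
  set P : ℝ := 1 / (1 / 2 - 1 / r) with hP
  set t1 : ℝ := t + δ with ht1
  set φ : ℝ → ℝ := fun s => C * (1 + y s) + C * (D * (1 + (t1 - s) ^ (-(1 / 2) : ℝ) * m s
    + (t1 - s) ^ θ1 * N s + N s ^ P)) with hφ
  have hsub : Icc t0 t ⊆ Ioo 0 T := fun s hs => ⟨ht0.trans_le hs.1, hs.2.trans_lt ht.2⟩
  set D' : ℝ → ℝ := fun s => -(∫ x in cube, wt κ (t1 - s) (x 2 - z) * vsq (ww (fun i y => u s y i)) x)
      + 2 * ∫ x in cube, wk κ (t1 - s) (x 2 - z) * ∑ i, ww (fun i y => u s y i) i x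
        * sb (fun i => dt (fun s y => u s y i) s) i x with hD'
  set F : ℝ → ℝ := fun s => ∫ x in cube, wk κ (t1 - s) (x 2 - z) * vsq (ww (fun i y => u s y i)) x
    with hF
  have hder : ∀ s ∈ Icc t0 t, HasDerivAt F (D' s) s := fun s hs =>
    hE1 ν T u p h κ t1 z s hκ (hsub hs) (by rw [ht1]; linarith [hs.2])
  have hle : ∀ s ∈ Icc t0 t, D' s ≤ φ s := by
    intro s hs
    have hτ0 : 0 < t1 - s := by rw [ht1]; linarith [hs.2]
    have hτ1 : t1 - s ≤ 1 := by rw [ht1]; linarith [hs.1, ht.2]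
    have k := hrate (t1 - s) z D hτ0 hτ1 hD1 s ⟨hs.1, hs.2.trans_lt ht.2⟩ (hD s hs)
    simp only [hD', hφ]
    refine k.trans (le_of_eq ?_)
    ring
  -- integrability
  have hIoo : ∀ f : ℝ → ℝ, IntegrableOn f (Ioo t0 t) → IntegrableOn f (Icc t0 t) := fun f hf => by
    rwa [integrableOn_Icc_iff_integrableOn_Ioo]
  obtain ⟨j1, j1'⟩ := hi1 t t1 (by rw [ht1]; linarith) ht.2.le
  obtain ⟨j0, j0'⟩ := hi0 t t1 (by rw [ht1]; linarith) ht.1 ht.2
  obtain ⟨j2, j2'⟩ := hi2 t ht.2.le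
  have i0 : IntegrableOn (fun s => C * (1 + y s)) (Icc t0 t) := by
    apply ContinuousOn.integrableOn_Icc
    exact continuousOn_const.mul (continuousOn_const.add (cy.mono fun s hs =>
      ⟨(hsub hs).1.le, (hsub hs).2⟩))
  have ic : IntegrableOn (fun _ : ℝ => (1 : ℝ)) (Icc t0 t) := integrableOn_const (by simp)
  have iA : IntegrableOn (fun s => 1 + (t1 - s) ^ (-(1 / 2) : ℝ) * m s) (Icc t0 t) :=
    ic.add (hIoo _ j0)
  have iB : IntegrableOn (fun s => 1 + (t1 - s) ^ (-(1 / 2) : ℝ) * m s + (t1 - s) ^ θ1 * N s)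
      (Icc t0 t) := iA.add (hIoo _ j1)
  have iC : IntegrableOn (fun s => 1 + (t1 - s) ^ (-(1 / 2) : ℝ) * m s + (t1 - s) ^ θ1 * N s
      + N s ^ P) (Icc t0 t) := iB.add (hIoo _ j2)
  have iφ : IntegrableOn φ (Icc t0 t) := i0.add ((iC.const_mul D).const_mul C)
  have key := intervalIntegral.sub_le_integral_of_hasDeriv_right_of_le (g := F) (φ := φ) ht.1
    (fun s hs => (hder s hs).continuousAt.continuousWithinAt)
    (fun s hs => (hder s ⟨hs.1.le, hs.2.le⟩).hasDerivWithinAt) iφ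
    (fun s hs => hle s ⟨hs.1.le, hs.2.le⟩)
  -- the value of the integral
  have toI : ∀ f : ℝ → ℝ, IntegrableOn f (Icc t0 t) → IntervalIntegrable f volume t0 t :=
    fun f hf => by
      rw [intervalIntegrable_iff_integrableOn_Icc_of_le ht.1]
      exact hf
  have v0 : ∫ s in t0..t, C * (1 + y s) ≤ C * (T + energy (u 0) / (2 * ν)) := by
    rw [intervalIntegral.integral_const_mul]
    refine mul_le_mul_of_nonneg_left ?_ hC0
    have iy : IntervalIntegrable y volume t0 t := toI _ (ContinuousOn.integrableOn_Icc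
      (cy.mono fun s hs => ⟨(hsub hs).1.le, (hsub hs).2⟩))
    rw [intervalIntegral.integral_add intervalIntegrable_const iy, intervalIntegral.integral_const,
      smul_eq_mul, mul_one]
    have iy0 : IntervalIntegrable y volume 0 t0 := by
      apply ContinuousOn.intervalIntegrable
      rw [uIcc_of_le ht0.le]
      exact cy.mono fun s hs => ⟨hs.1, hs.2.trans_lt (ht.1.trans_lt ht.2)⟩
    have k1 := intervalIntegral.integral_add_adjacent_intervals iy0 iy
    have k2 : 0 ≤ ∫ s in (0 : ℝ)..t0, y s :=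
      intervalIntegral.integral_nonneg ht0.le fun s _ => y0 s
    have k3 := hyD t ⟨ht0.le.trans ht.1, ht.2⟩
    have := ht.2
    linarith
  have v1 : ∫ s in t0..t, (t1 - s) ^ (-(1 / 2) : ℝ) * m s ≤ C0 := by
    rwa [intervalIntegral.integral_of_le ht.1, integral_Ioc_eq_integral_Ioo]
  have v2 : ∫ s in t0..t, (t1 - s) ^ θ1 * N s ≤ C1 := by
    rwa [intervalIntegral.integral_of_le ht.1, integral_Ioc_eq_integral_Ioo]
  have v3 : ∫ s in t0..t, N s ^ P ≤ C2 := by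
    rwa [intervalIntegral.integral_of_le ht.1, integral_Ioc_eq_integral_Ioo]
  have e1 : ∫ s in t0..t, φ s = (∫ s in t0..t, C * (1 + y s)) + C * (D * ((t - t0)
      + (∫ s in t0..t, (t1 - s) ^ (-(1 / 2) : ℝ) * m s) + (∫ s in t0..t, (t1 - s) ^ θ1 * N s)
      + ∫ s in t0..t, N s ^ P)) := by
    simp only [hφ]
    rw [intervalIntegral.integral_add (toI _ i0) (toI _ ((iC.const_mul D).const_mul C)),
      intervalIntegral.integral_const_mul, intervalIntegral.integral_const_mul (r := C),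
      intervalIntegral.integral_const_mul (r := D),
      intervalIntegral.integral_add (toI _ iB) (toI _ (hIoo _ j2)),
      intervalIntegral.integral_add (toI _ iA) (toI _ (hIoo _ j1)),
      intervalIntegral.integral_add (toI _ ic) (toI _ (hIoo _ j0)), intervalIntegral.integral_const,
      smul_eq_mul, mul_one]
  have eF : F t = ∫ x in cube, wk κ δ (x 2 - z) * vsq (ww (fun i y => u t y i)) x := by
    simp only [hF]
    have : t1 - t = δ := by rw [ht1]; ring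
    rw [this]
  rw [e1, eF] at key
  have hD0 : 0 ≤ D := by linarith
  have k4 : C * (D * ((t - t0) + (∫ s in t0..t, (t1 - s) ^ (-(1 / 2) : ℝ) * m s)
      + (∫ s in t0..t, (t1 - s) ^ θ1 * N s) + ∫ s in t0..t, N s ^ P))
      ≤ C * (D * (T - t0 + C0 + C1 + C2)) := by
    refine mul_le_mul_of_nonneg_left (mul_le_mul_of_nonneg_left ?_ hD0) hC0
    have := ht.2
    linarith
  have eF0 : F t0 = ∫ x in cube, wk κ (t + δ - t0) (x 2 - z)
      * vsq (ww (fun i y => u t0 y i)) x := rfl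
  rw [eF0] at key
  linarith


/-- Tails of a convergent integral. -/
theorem tail {f : ℝ → ℝ} {T : ℝ} (hT : 0 < T) (hf : IntegrableOn f (Ioo 0 T))
    (f0 : ∀ t ∈ Ioo 0 T, 0 ≤ f t) {c : ℝ} (hc : 0 < c) :
    ∃ tm : ℝ, 0 < tm ∧ tm < T ∧ ∫ t in Ioo tm T, f t ≤ c := by
  set s : ℕ → Set ℝ := fun n => Ioo (T - T / (n + 2)) T with hs
  have hpos : ∀ n : ℕ, 0 < T / ((n : ℝ) + 2) := fun n => by positivity
  have hsub : ∀ n : ℕ, s n ⊆ Ioo 0 T := by
    intro n
    refine Ioo_subset_Ioo ?_ le_rfl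
    have h1 : T / ((n : ℝ) + 2) ≤ T := by
      rw [div_le_iff₀ (by positivity)]
      nlinarith [(Nat.cast_nonneg n : (0 : ℝ) ≤ n)]
    linarith
  have hanti : Antitone s := by
    intro m n hmn
    refine Ioo_subset_Ioo ?_ le_rfl
    have h1 : T / ((n : ℝ) + 2) ≤ T / ((m : ℝ) + 2) := by
      refine div_le_div_of_nonneg_left hT.le (by positivity) ?_
      have : (m : ℝ) ≤ n := by exact_mod_cast hmn
      linarith
    linarith
  have key := tendsto_setIntegral_of_antitone (μ := volume) (f := f) (s := s)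
    (fun n => measurableSet_Ioo) hanti ⟨0, hf.mono_set (hsub 0)⟩
  have hI : ⋂ n, s n = ∅ := by
    ext t
    simp only [mem_iInter, mem_empty_iff_false, iff_false, not_forall]
    by_cases ht : t < T
    · obtain ⟨n, hn⟩ := exists_nat_gt (T / (T - t))
      refine ⟨n, fun h => ?_⟩
      have h1 := h.1
      have h2 : 0 < T - t := by linarith
      rw [div_lt_iff₀ h2] at hn
      have h3 : T - t < T / ((n : ℝ) + 2) := by linarith
      rw [lt_div_iff₀ (by positivity)] at h3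
      nlinarith
    · exact ⟨0, fun h => ht h.2⟩
  rw [hI, setIntegral_empty] at key
  obtain ⟨n, hn⟩ := (key.eventually (Iio_mem_nhds hc)).exists
  refine ⟨T - T / (n + 2), ?_, ?_, le_of_lt hn⟩
  · have h1 : T / ((n : ℝ) + 2) < T := by
      rw [div_lt_iff₀ (by positivity)]
      nlinarith [(Nat.cast_nonneg n : (0 : ℝ) ≤ n)]
    linarith
  · have := hpos n
    linarith

theorem Lz_left {s : ℝ} (hs : 0 < s) {N : ℝ → ℝ} {t0 t T : ℝ} (h : t0 ≤ t) :
    Lz s N t T ≤ Lz s N t0 T := by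
  unfold Lz
  refine lintegral_mono fun lam => ?_
  refine ENNReal.rpow_le_rpow (measure_mono ?_) (by positivity)
  rintro x ⟨h1, h2⟩
  exact ⟨⟨h.trans_lt h1.1, h1.2⟩, h2⟩

end IS

open IS

/-- The bound for the slice energies near the time `T`. -/
theorem IS.t (hIK : IK) (hN6 : N6) (hN7 : N7) (hA7 : A7) (hA8 : A8) (hA9 : A9) (hE1 : E1)
    (hLB : LB) (hB0 : B0) : IS := by
  intro ν T u p h hν hT r hr N N1 mN hL hM
  have hr0 : 0 < r := by linarith
  have i1r : 0 < 1 / r := by positivity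
  have hr12 : 1 / r < 1 / 2 := one_div_lt_one_div_of_lt (by norm_num) hr
  set s : ℝ := 1 / (1 / 2 - 1 / r) with hs
  have hx0 : 0 < 1 / 2 - 1 / r := by linarith
  have hs0 : 0 < s := by positivity
  have hs2 : 2 < s := by
    rw [hs, lt_div_iff₀ hx0]
    linarith
  have N0 : ∀ t ∈ Ioo 0 T, 0 ≤ N t := fun t ht => by linarith [N1 t ht]
  have hNs : IntegrableOn (fun t => N t ^ s) (Ioo 0 T) := hA9 s N T (by linarith) N0 mN hL
  set E0 : ℝ := energy (u 0) with hE0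
  have hE00 : 0 ≤ E0 := energy_nonneg _
  obtain ⟨C, hC0, hC⟩ := hIK ν r E0 hν hr hE00
  set κ : ℝ := 4 * Real.pi ^ 2 * ν with hκ
  have hκ0 : 0 < κ := by positivity
  obtain ⟨CL, hCL0, hCL⟩ := hLB κ hκ0
  obtain ⟨CW, hCW0, hCW⟩ := hB0 κ hκ0
  obtain ⟨C1, hC10, hC1⟩ := SUP.tint hA7 (s := s) (p := 1) le_rfl (by linarith)
  -- the constants
  set c1 : ℝ := 1 / (16 * (CL * C + 1)) with hc1
  have hc10 : 0 < c1 := by positivity
  set L : ℝ := min 1 (c1 / (C1 + 1)) with hL'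
  have hLpos : 0 < L := lt_min one_pos (by positivity)
  have hL2 : L ≤ c1 / (C1 + 1) := min_le_right _ _
  -- the choice of the initial time
  obtain ⟨ta, a1, a2, a3, a4⟩ := hA8 s N T hs0 hT mN hL (ENNReal.ofReal L)
    (ENNReal.ofReal_pos.2 hLpos) 0 hT
  obtain ⟨tb, b1, b2, b3⟩ := tail hT hNs (fun t ht => Real.rpow_nonneg (N0 t ht) _) hc10
  obtain ⟨t0, g0, ht0, g2, g7⟩ := hN7 ν T u p h hν hT r hr N N1 mN hL hM (ENNReal.ofReal c1)
    (ENNReal.ofReal_pos.2 hc10) (max (max ta tb) (T - min (1 / 2) c1)) (by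
      refine max_lt (max_lt a3 b2) ?_
      have : 0 < min (1 / 2) c1 := lt_min (by norm_num) hc10
      linarith)
  have g0a : ta < t0 := ((le_max_left _ _).trans (le_max_left _ _)).trans_lt g0
  have g0b : tb < t0 := ((le_max_right _ _).trans (le_max_left _ _)).trans_lt g0
  have g0c : T - min (1 / 2) c1 < t0 := (le_max_right _ _).trans_lt g0
  have g3 : T - t0 ≤ 1 / 2 := by
    have := min_le_left (1 / 2 : ℝ) c1
    linarith
  have g4 : T - t0 ≤ c1 := by
    have := min_le_right (1 / 2 : ℝ) c1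
    linarith
  have g6 : Lz s N t0 T ≤ ENNReal.ofReal L := (Lz_left hs0 g0a.le).trans a4
  have ht0' : t0 ∈ Ioo 0 T := ⟨ht0, g2⟩
  have hsubI : Ioo t0 T ⊆ Ioo 0 T := Ioo_subset_Ioo ht0.le le_rfl
  have mN' : AEMeasurable N (volume.restrict (Ioo t0 T)) := mN.mono_set hsubI
  have b1' : C1 * L ^ (1 : ℝ) ≤ c1 := by
    rw [Real.rpow_one]
    rw [le_div_iff₀ (by positivity)] at hL2
    linarith
  have ps1 : (1 : ℝ) / s - 1 = -(1 / 2 + 1 / r) := by
    rw [hs, one_div_one_div]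
    ring
  obtain ⟨mMs, bMs, -, -⟩ := hN6 ν T u p h hν hT
  set m : ℝ → ℝ := fun t => (Ms u t).toReal with hm
  have Mfin : ∀ t ∈ Ioo 0 T, Ms u t < ⊤ := by
    intro t ht
    obtain ⟨B, hB, hB'⟩ := bMs t ((t + T) / 2) ht.1 (by linarith [ht.2]) (by linarith [ht.2])
    exact (hB' t ⟨le_rfl, by linarith [ht.2]⟩).trans_lt hB
  have hi0 : ∀ t t1 : ℝ, t ≤ t1 → t0 ≤ t → t < T →
      IntegrableOn (fun x => (t1 - x) ^ (-(1 / 2) : ℝ) * m x) (Ioo t0 t) ∧
      ∫ x in Ioo t0 t, (t1 - x) ^ (-(1 / 2) : ℝ) * m x ≤ c1 := by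
    intro t t1 h1 h2 h3
    rcases h2.eq_or_lt with rfl | h2
    · simp [hc10.le]
    have hk := g7 t ⟨h2, h3⟩
    have hsub : Ioo t0 t ⊆ Ioo 0 T := Ioo_subset_Ioo ht0.le h3.le
    have m0 : AEStronglyMeasurable (fun x => (t1 - x) ^ (-(1 / 2) : ℝ) * m x)
        (volume.restrict (Ioo t0 t)) := by
      have e1 : AEMeasurable (fun x : ℝ => (t1 - x) ^ (-(1 / 2) : ℝ)) (volume.restrict (Ioo t0 t)) :=
        ((measurable_const.sub measurable_id).pow_const _).aemeasurable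
      have e2 : AEMeasurable m (volume.restrict (Ioo t0 t)) := by
        have e3 : Measurable fun t => ((Ioo 0 T).indicator (Ms u) t).toReal := mMs.ennreal_toReal
        refine e3.aemeasurable.congr ?_
        rw [EventuallyEq, ae_restrict_iff' measurableSet_Ioo]
        refine Eventually.of_forall fun x hx => ?_
        simp only [hm]
        rw [indicator_of_mem (hsub hx)]
      exact (e1.mul e2).aestronglyMeasurable
    have n0 : 0 ≤ᵐ[volume.restrict (Ioo t0 t)] fun x => (t1 - x) ^ (-(1 / 2) : ℝ) * m x := by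
      rw [EventuallyLE, ae_restrict_iff' measurableSet_Ioo]
      refine Eventually.of_forall fun x hx => ?_
      have h2 : 0 ≤ t1 - x := by linarith [hx.2]
      exact mul_nonneg (Real.rpow_nonneg h2 _) ENNReal.toReal_nonneg
    have k3 : ∫⁻ x in Ioo t0 t, ENNReal.ofReal ((t1 - x) ^ (-(1 / 2) : ℝ) * m x)
        ≤ ENNReal.ofReal c1 := by
      refine le_trans ?_ hk
      refine setLIntegral_mono' measurableSet_Ioo fun x hx => ?_
      have h4 : 0 < t - x := by linarith [hx.2]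
      rw [ENNReal.ofReal_mul (Real.rpow_nonneg (by linarith) _)]
      refine mul_le_mul' (ENNReal.ofReal_le_ofReal ?_) ?_
      · exact Real.rpow_le_rpow_of_nonpos h4 (by linarith) (by norm_num)
      · simp only [hm]
        exact ENNReal.ofReal_toReal_le
    have hi : Integrable (fun x => (t1 - x) ^ (-(1 / 2) : ℝ) * m x)
        (volume.restrict (Ioo t0 t)) := by
      refine ⟨m0, ?_⟩
      rw [hasFiniteIntegral_iff_ofReal n0]
      exact k3.trans_lt ENNReal.ofReal_lt_top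
    refine ⟨hi, ?_⟩
    have k4 := ofReal_integral_eq_lintegral_ofReal hi n0
    rw [← k4] at k3
    exact (ENNReal.ofReal_le_ofReal_iff hc10.le).1 k3
  have hi1 : ∀ t t1 : ℝ, t ≤ t1 → t ≤ T →
      IntegrableOn (fun x => (t1 - x) ^ (-(1 / 2 + 1 / r)) * N x) (Ioo t0 t) ∧
      ∫ x in Ioo t0 t, (t1 - x) ^ (-(1 / 2 + 1 / r)) * N x ≤ c1 := by
    intro t t1 h1 h2
    have k := hC1 N t0 t T t1 L h1 h2 (fun x hx => N0 x (hsubI hx)) mN' hLpos.le g6
    rw [ps1] at k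
    simp only [Real.rpow_one] at k
    rw [Real.rpow_one] at b1'
    exact ⟨k.1, k.2.trans b1'⟩
  have hi2 : ∀ t : ℝ, t ≤ T → IntegrableOn (fun x => N x ^ s) (Ioo t0 t) ∧
      ∫ x in Ioo t0 t, N x ^ s ≤ c1 := by
    intro t h1
    have hsub : Ioo t0 t ⊆ Ioo tb T := Ioo_subset_Ioo g0b.le h1
    have hsub2 : Ioo tb T ⊆ Ioo 0 T := Ioo_subset_Ioo b1.le le_rfl
    refine ⟨hNs.mono_set (hsub.trans hsub2), le_trans ?_ b3⟩
    refine setIntegral_mono_set (hNs.mono_set hsub2) ?_ hsub.eventuallyLE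
    rw [EventuallyLE, ae_restrict_iff' measurableSet_Ioo]
    exact Eventually.of_forall fun x hx => Real.rpow_nonneg (N0 x (hsub2 hx)) _
  have hrate : ∀ τ z D : ℝ, 0 < τ → τ ≤ 1 → 1 ≤ D → ∀ t ∈ Ico t0 T,
      (∀ x, Hz (vsq (fun i y => u t y i)) x ≤ D) →
      -(∫ x in cube, wt κ τ (x 2 - z) * vsq (ww (fun i y => u t y i)) x)
        + 2 * ∫ x in cube, wk κ τ (x 2 - z) * ∑ i, ww (fun i y => u t y i) i x
          * sb (fun i => dt (fun s y => u s y i) t) i x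
      ≤ C * (1 + ysq (fun i y => u t y i))
        + C * (D * (1 + m t * τ ^ (-(1 / 2) : ℝ) + N t * τ ^ (-(1 / 2 + 1 / r)) + N t ^ s)) := by
    intro τ z D hτ hτ1 hD1 t ht hD
    have hI : t ∈ Ioo 0 T := ⟨ht0.trans_le ht.1, ht.2⟩
    have hI' : t ∈ Ico 0 T := ⟨hI.1.le, hI.2⟩
    exact hC κ hκ τ z (N t) D (m t) hτ hτ1 (N1 t hI) hD1 ENNReal.toReal_nonneg
      (fun i y => u t y i) (p t)
      (fun i => dt (fun s y => u s y i) t) (h.sp hI') (h.divfree t hI') (h.sp_p hI')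
      (press_eq h hI) (fun i x => h.dt_eq hI i x) (h.energy_le hν hI') (hM t hI) hD
      (fun x => by
        have k1 : ENNReal.ofReal |mm (fun i y => u t y i) x| ≤ Ms u t :=
          le_iSup (fun x => ENNReal.ofReal |mm (fun i y => u t y i) x|) x
        have k2 := ENNReal.toReal_mono (Mfin t hI).ne k1
        rwa [ENNReal.toReal_ofReal (abs_nonneg _)] at k2)
  -- the energy at the time `t0`
  set y : ℝ → ℝ := fun t => ysq (fun i y => u t y i) with hy
  have y0 : ∀ t, 0 ≤ y t := fun t => ysq_nonneg _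
  have cy : ContinuousOn y (Ico 0 T) := h.enstrophy_continuousOn
  set S0 : ℝ := 10 * E0 + 6 * y t0 with hS0
  have hS00 : 0 ≤ S0 := by
    have := y0 t0
    positivity
  have start : ∀ τ z : ℝ, 0 < τ → τ ≤ 1 →
      ∫ x in cube, wk κ τ (x 2 - z) * vsq (ww (fun i y => u t0 y i)) x ≤ CW * S0 := by
    intro τ z hτ hτ1
    obtain ⟨q1, q2, q3, q4, q5, q6⟩ := hCW τ z hτ hτ1
    have hI' : t0 ∈ Ico 0 T := ⟨ht0.le, g2⟩
    have hv := h.sp hI'
    have cV : CP (vsq (ww (fun i y => u t0 y i))) := cp_of (vsq_sp (ww_sp hv))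
    have k1 : ∫ x in cube, Wt κ τ z x * vsq (ww (fun i y => u t0 y i)) x
        = ∫ x in cube, Wt κ τ z x * Hz (vsq (ww (fun i y => u t0 y i))) x :=
      (int_mul_Hz cV (cp_of q1) q2).symm
    have k2 : ∀ x, Hz (vsq (ww (fun i y => u t0 y i))) x ≤ S0 := by
      intro x
      have l1 := Hz_ww_le hv x
      have l2 := Hz_vsq_le hv x
      have l3 : esq (fun i y => u t0 y i) ≤ E0 := h.energy_le hν hI'
      have l4 : ysq (fun i y => u t0 y i) = y t0 := rfl
      linarith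
    have k3 : ∫ x in cube, Wt κ τ z x * Hz (vsq (ww (fun i y => u t0 y i))) x
        ≤ ∫ x in cube, Wt κ τ z x * S0 :=
      integral_mono ((cp_of q1).mul cV.hz).int ((cp_of q1).mul (CP.const S0)).int fun x =>
        mul_le_mul_of_nonneg_left (k2 x) (q3 x).le
    rw [integral_mul_const] at k3
    have k4 := mul_le_mul_of_nonneg_right q6 hS00
    have k5 : ∫ x in cube, wk κ τ (x 2 - z) * vsq (ww (fun i y => u t0 y i)) x
      = ∫ x in cube, Wt κ τ z x * vsq (ww (fun i y => u t0 y i)) x := rfl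
    rw [k5, k1]
    linarith
  -- the improvement of the bound
  set K0 : ℝ := CW * S0 + C * (T + E0 / (2 * ν)) with hK0
  have hK00 : 0 ≤ K0 := by positivity
  have imp : ∀ t ∈ Ico t0 T, ∀ D, 1 ≤ D →
      (∀ s ∈ Icc t0 t, ∀ x, Hz (vsq (fun i y => u s y i)) x ≤ D) →
      ∀ x, Hz (vsq (fun i y => u t y i)) x ≤ 2 * (CL * K0) + 2 * E0 + D / 2 := by
    intro t ht D hD1 hD x
    have hI' : t ∈ Ico 0 T := ⟨ht0.le.trans ht.1, ht.2⟩
    have hv := h.sp hI'
    have k1 := hCL (vsq (ww (fun i y => u t y i))) (cp_of (vsq_sp (ww_sp hv))) (vsq_nonneg _)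
      (1 / 2) (K0 + C * (D * (4 * c1))) (by norm_num) (fun z δ hδ hδ1 => by
        have k2 := step h hν hκ0 hE1 hC0 (r := r) (N := N) (m := m) (C0 := c1) (C1 := c1)
          (C2 := c1) ht0 g3 hrate hi0 hi1 hi2 ht hD1 hD z hδ hδ1
        have k3 := start (t + δ - t0) z (by linarith [ht.1]) (by linarith [ht.2])
        have k4 : C * (D * (T - t0 + c1 + c1 + c1))
            ≤ C * (D * (4 * c1)) := by
          refine mul_le_mul_of_nonneg_left (mul_le_mul_of_nonneg_left ?_ (by linarith)) hC0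
          linarith
        rw [hK0]
        linarith) x
    have k5 := Hz_vsq_le_ww hv x
    have k6 : esq (fun i y => u t y i) ≤ E0 := h.energy_le hν hI'
    have k7 : CL * (C * (D * (4 * c1))) ≤ D / 4 := by
      have e : CL * (C * (D * (4 * c1))) = D / 4 * (CL * C / (CL * C + 1)) := by
        rw [hc1]
        field_simp
        ring
      rw [e]
      refine mul_le_of_le_one_right (by linarith) ?_
      rw [div_le_one (by positivity)]
      linarith
    have k8 : CL * (K0 + C * (D * (4 * c1))) = CL * K0 + CL * (C * (D * (4 * c1))) := by ring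
    rw [k8] at k1
    linarith
  -- the bound
  set K1 : ℝ := 2 * (CL * K0) + 2 * E0 with hK1
  refine ⟨t0, 2 * K1 + 1, ht0', ?_⟩
  intro tm htm
  obtain ⟨B1, hB1⟩ := (isCompact_Icc.image_of_continuousOn (cy.mono
    (fun s hs => ⟨ht0.le.trans hs.1, hs.2.trans_lt htm.2⟩ : Icc t0 tm ⊆ Ico 0 T))).bddAbove
  set S : Set ℝ := {c | ∃ s ∈ Icc t0 tm, ∃ x, c = Hz (vsq (fun i y => u s y i)) x} with hS
  have hbdd : ∀ c ∈ S, c ≤ 4 * E0 + 3 * B1 := by
    rintro c ⟨s, hs', x, rfl⟩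
    have hI' : s ∈ Ico 0 T := ⟨ht0.le.trans hs'.1, hs'.2.trans_lt htm.2⟩
    have l1 := Hz_vsq_le (h.sp hI') x
    have l2 : esq (fun i y => u s y i) ≤ E0 := h.energy_le hν hI'
    have l3 : ysq (fun i y => u s y i) ≤ B1 := hB1 (mem_image_of_mem _ hs')
    linarith
  have hbA : BddAbove S := ⟨_, hbdd⟩
  have hne : S.Nonempty := ⟨_, tm, ⟨htm.1, le_rfl⟩, 0, rfl⟩
  set Ds : ℝ := sSup S with hDs
  have hDs0 : 0 ≤ Ds := by
    refine (Hz_nonneg (vsq_nonneg _) (0 : V)).trans (le_csSup hbA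
      (⟨tm, ⟨htm.1, le_rfl⟩, 0, rfl⟩ : Hz (vsq (fun i y => u tm y i)) 0 ∈ S))
  have hle : ∀ s ∈ Icc t0 tm, ∀ x, Hz (vsq (fun i y => u s y i)) x ≤ max 1 Ds :=
    fun s hs' x => (le_csSup hbA ⟨s, hs', x, rfl⟩).trans (le_max_right _ _)
  have hfin : Ds ≤ K1 + max 1 Ds / 2 := by
    refine csSup_le hne ?_
    rintro c ⟨s, hs', x, rfl⟩
    exact imp s ⟨hs'.1, hs'.2.trans_lt htm.2⟩ (max 1 Ds) (le_max_left _ _)
      (fun s1 hs1 => hle s1 ⟨hs1.1, hs1.2.trans hs'.2⟩) x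
  have hmax : max 1 Ds ≤ 1 + Ds := max_le (by linarith) (by linarith)
  intro x
  have k1 : Hz (vsq (fun i y => u tm y i)) x ≤ Ds := le_csSup hbA ⟨tm, ⟨htm.1, le_rfl⟩, x, rfl⟩
  linarith

end Pool.Agent.H4NI
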