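import Pool.Agent.H4NC.StmB
import Pool.Agent.H4NI.StmT

/-!
Project NCI: the Gaussian representation (Duhamel's formula) for the vertical average of the last
component. Definitions `CP` (continuous periodic), `SP` (smooth periodic), `JS T f` (smooth on
`(0,T) × V`), `pd`, `dt`, `Ind 2` (independent of the last coordinate), `Av`, `Hz` as in
`Pool.Agent.H4LA`.
-/

set_option autoImplicit false

open MeasureTheory Set Function Filter Topology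
open scoped ENNReal ContDiff

namespace Pool.Agent.H4NI

open H459R3.NS H4LA H4NC

/-- The standard Gaussian density on the line. -/
noncomputable def gs (ξ : ℝ) : ℝ := (√(2 * Real.pi))⁻¹ * Real.exp (-(ξ ^ 2 / 2))

/-- The point `x + c (ξ₀ e₀ + ξ₁ e₁)`. -/
noncomputable def sh (c : ℝ) (x : V) (ξ : ℝ × ℝ) : V :=
  x + Pi.single 0 (c * ξ.1) + Pi.single 1 (c * ξ.2)

/-- The weighted horizontal Gaussian average. -/
noncomputable def GG (c : ℝ) (w : ℝ × ℝ → ℝ) (f : V → ℝ) (x : V) : ℝ :=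
  ∫ ξ : ℝ × ℝ, gs ξ.1 * gs ξ.2 * w ξ * f (sh c x ξ)

/-- G0. Integrability and positivity (`f` is bounded, `CP.bounded` or similar; the functions
`gs ξ, |ξ| gs ξ` are integrable, `Integrable.mul_prod`), and `∫ gs = 1`. -/
def G0 : Prop := (Integrable gs ∧ ∫ ξ, gs ξ = 1) ∧ ∀ (c : ℝ) (f : V → ℝ) (x : V), CP f →
  (∀ w : ℝ × ℝ → ℝ, Continuous w → (∀ ξ, |w ξ| ≤ 1 + |ξ.1| + |ξ.2|) →
    Integrable (fun ξ : ℝ × ℝ => gs ξ.1 * gs ξ.2 * w ξ * f (sh c x ξ))) ∧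
  ∀ B : ℝ, (∀ y, |f y| ≤ B) → |GG c (fun _ => 1) f x| ≤ B

/-- G1. Integration by parts in one of the two variables (`gs' = -ξ gs`): Fubini
(`integral_prod`, `integral_prod_symm`), `integral_mul_deriv_eq_deriv_mul_of_integrable` on the line
(or the version for improper integrals), chain rule for `ξ₀ ↦ f (x + c ξ₀ e₀ + c ξ₁ e₁)`, whose
derivative is `c pd 0 f`. Allowed hypothesis: G0. -/
def G1 : Prop := ∀ (c : ℝ) (f : V → ℝ) (x : V), SP f →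
  GG c (fun ξ => ξ.1) f x = c * GG c (fun _ => 1) (pd 0 f) x ∧
  GG c (fun ξ => ξ.2) f x = c * GG c (fun _ => 1) (pd 1 f) x

/-- G2. The derivative in time (differentiation under the integral sign,
`hasDerivAt_integral_of_dominated_loc_of_deriv_le`; on a compact neighbourhood of `s` the functions
`dt f`, `pd k f` are bounded because they are continuous and periodic, see `exists_bound` or the
proofs in Ev.lean; the bound is `B (1+|c'|)(1+|ξ.1|+|ξ.2|) gs gs`). To make it simple the path `c`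
is a `C¹` function near `s`. Allowed hypothesis: G0. -/
def G2 : Prop := ∀ (T : ℝ) (f : ℝ → V → ℝ), JS T f → (∀ t ∈ Ioo 0 T, SP (f t)) →
  ∀ (c c' : ℝ → ℝ) (s : ℝ), s ∈ Ioo 0 T → (∀ᶠ r in 𝓝 s, HasDerivAt c (c' r) r) →
  ContinuousAt c' s → ∀ x : V,
  HasDerivAt (fun s => GG (c s) (fun _ => 1) (f s) x)
    (GG (c s) (fun _ => 1) (dt f s) x + c' s * (GG (c s) (fun ξ => ξ.1) (pd 0 (f s)) x
      + GG (c s) (fun ξ => ξ.2) (pd 1 (f s)) x)) s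

/-- G3. The limit at the final time: dominated convergence (`f` is continuous at `(t, x)` and
bounded near the time `t`). Allowed hypothesis: G0. -/
def G3 : Prop := ∀ (T : ℝ) (f : ℝ → V → ℝ), JS T f → (∀ t ∈ Ioo 0 T, SP (f t)) →
  ∀ (c : ℝ → ℝ) (t : ℝ), t ∈ Ioo 0 T → c t = 0 → ContinuousAt c t → ∀ x : V,
  Tendsto (fun s => GG (c s) (fun _ => 1) (f s) x) (𝓝[<] t) (𝓝 (f t x))

/-- G4. Duhamel's formula. Let `c(s) = √(2ν(t-s))` (`c c' = -ν`) and `Φ(s) = GG c(s) 1 (f s) x`,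
`s < t`. By G2 and G1 (`GG ξ_j (pd j f) = c GG 1 (pd j (pd j f))`)
`Φ'(s) = GG 1 (dt f - ν ∂₀∂₀f - ν ∂₁∂₁f) = -GG 1 (∂₀F₀ + ∂₁F₁) = -(1/c) (GG ξ.1 F₀ + GG ξ.2 F₁)`,
so `|Φ'(s)| ≤ (1/c) (GG |ξ.1| |F₀| + GG |ξ.2| |F₁|) ≤ b(s)`. If `∫ b = ∞` nothing is to prove;
otherwise `Φ(t') - Φ(t0) = ∫_{t0}^{t'} Φ'` (`deriv Φ` is measurable and bounded by `b`), let
`t' → t` with G3; `|Φ(t0)| ≤ A` by G0. Allowed hypotheses: G0, G1, G2, G3. -/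
def G4 : Prop := ∀ (ν T : ℝ) (f F0 F1 : ℝ → V → ℝ), 0 < ν → JS T f →
  (∀ t ∈ Ioo 0 T, SP (f t) ∧ SP (F0 t) ∧ SP (F1 t)) →
  (∀ t ∈ Ioo 0 T, ∀ x, dt f t x = ν * (pd 0 (pd 0 (f t)) x + pd 1 (pd 1 (f t)) x)
    - pd 0 (F0 t) x - pd 1 (F1 t) x) →
  ∀ (t0 t : ℝ), 0 < t0 → t0 < t → t < T → ∀ (x : V) (A : ℝ), (∀ y, |f t0 y| ≤ A) →
  ∀ b : ℝ → ℝ≥0∞,
  (∀ s ∈ Ioo t0 t, ENNReal.ofReal ((√(2 * ν * (t - s)))⁻¹
      * (GG (√(2 * ν * (t - s))) (fun ξ => |ξ.1|) (fun y => |F0 s y|) x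
        + GG (√(2 * ν * (t - s))) (fun ξ => |ξ.2|) (fun y => |F1 s y|) x)) ≤ b s) →
  ENNReal.ofReal |f t x| ≤ ENNReal.ofReal A + ∫⁻ s in Ioo t0 t, b s

/-- G5. The Gaussian average of a periodic function of one variable:
`∫ gs(ξ) h(a + c ξ) dξ = ∑ₙ ∫_{n/c}^{(n+1)/c}`, on each interval `gs ≤` its maximum `Mₙ` there and
`∫_{n/c}^{(n+1)/c} h(a + c ξ) dξ = (1/c) ∫_0^1 h`; `∑ₙ Mₙ/c ≤ 2 (gs(0)/c + ∫ gs)` as `gs` is
decreasing on `[0,∞)` and even. (Other proofs are fine: e.g. bound `gs ξ ≤ 4/(1+ξ²)`.) -/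
def G5 : Prop := ∃ C : ℝ, 0 < C ∧ ∀ (c a : ℝ) (h : ℝ → ℝ), 0 < c → Continuous h →
  (∀ y, h (y + 1) = h y) → (∀ y, 0 ≤ h y) →
  ∫ ξ, gs ξ * h (a + c * ξ) ≤ C * (1 + 1 / c) * ∫ y in Icc (0 : ℝ) 1, h y

/-- G6. The kernel bound. Hoelder with the probability density `gs gs` (`k' = k/(k-1)`):
`GG |ξ_i| |F| ≤ (∫∫ gs gs |ξ_i|^{k'})^{1/k'} (∫∫ gs gs |F|^k (sh c x ξ))^{1/k}`; for the second factor
Fubini and G5 twice: `≤ C² (1+1/c)² Av 0 (Av 1 (|F|^k)) x = C² (1+1/c)² ∫_cube |F|^k`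
(`F` is independent of the last coordinate; `Av`, `Av_self`, `int_Av`, `tri` or `Hz`).
Allowed hypotheses: G0, G5. -/
def G6 : Prop := ∀ k : ℝ, 1 < k → ∃ C : ℝ, 0 < C ∧ ∀ (c : ℝ) (F : V → ℝ) (x : V), 0 < c → CP F →
  Ind 2 F → ∀ w : ℝ × ℝ → ℝ, (w = fun ξ => |ξ.1|) ∨ (w = fun ξ => |ξ.2|) →
  GG c w (fun y => |F y|) x ≤ C * ((1 + 1 / c) ^ (2 / k) * (∫ y in cube, |F y| ^ k) ^ (1 / k))

end Pool.Agent.H4NI
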